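import Pool.Agent.Lib_MP_1eadae_ft.NetA

/-! # MP_1eadae_ag (FT), piece ALG: polynomials vanishing at the exact values -/

namespace MP1eadaeL

open Complex Function MvPolynomial

variable {K : Subfield ℂ} {M : ℕ} {W : Net K}

/- Piece ALG.  (a) A polynomial over `K ⊂ ℂ` which vanishes on `Dom X0` is `0` (finitely many
variables, `[0,1]` infinite: `MvPolynomial.funext_set` or `MvPolynomial.funext`-type lemmas, or by
induction; see also the library files Surj/ReIm/T2Low for similar arguments).
(b) Take `T` from `exists_thPoly`: `X_k - T_k` is in the ideal `J` generated by the `X_j - gp_j`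
(`j ∈ A`): for `k ∉ A` it is `0`; for `k ∈ A` by strong induction `X_k - T_k =
(X_k - gp_k) + (gp_k - bind₁ T gp_k)` and `gp_k - bind₁ T gp_k ∈ J` since `X_a - T_a`,
`X_b - T_b ∈ J` (`a, b < k`).  Hence `P - bind₁ T P ∈ J` for every `P` (work in the quotient ring:
two algebra homomorphisms which agree on the variables).
(c) If `P(θ(z)) = 0` on `Dom X0` then `bind₁ T P = 0` by (a) (`pev (bind₁ T P) z = pev P (W.th z)`),
so `P ∈ J`, and membership in the ideal spanned by a finite family gives the coefficients `B`
(`Ideal.mem_span_finset`/`Submodule.mem_span_finset` or `Ideal.mem_span_range..`). -/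

private theorem al_seg_infinite : seg.Infinite := by
  unfold seg
  exact (Set.Icc_infinite (by norm_num : (0 : ℝ) < 1)).image
    (Complex.ofReal_injective.injOn)

theorem eq_zero_of_pev {P : MvPolynomial ℕ K} (h : ∀ z ∈ Dom X0, pev P z = 0) : P = 0 := by
  have hinj : Function.Injective (MvPolynomial.map (σ := ℕ) (algebraMap K ℂ)) :=
    MvPolynomial.map_injective _ (algebraMap K ℂ).injective
  apply hinj
  rw [map_zero]
  refine MvPolynomial.funext_set (fun _ : ℕ => seg) (fun _ => al_seg_infinite) fun x hx => ?_
  rw [eval_map, map_zero]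
  have := h x (fun i => hx i (Set.mem_univ i))
  unfold pev at this
  rw [aeval_def] at this
  exact this

theorem exists_comb (hW : Wf M W) {P : MvPolynomial ℕ K}
    (hP : ∀ z ∈ Dom X0, pev P (W.th z) = 0) :
    ∃ B : ℕ → MvPolynomial ℕ K, P = ∑ k ∈ W.A, B k * (X k - W.gp k) := by
  obtain ⟨T, hT1, _, hT3, hT4⟩ := exists_thPoly hW
  set J : Ideal (MvPolynomial ℕ K) := Ideal.span ((fun k => X k - W.gp k) '' (W.A : Set ℕ)) with hJ
  have hX : ∀ k, X k - T k ∈ J := by
    intro k
    induction k using Nat.strong_induction_on with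
    | _ k ih =>
      by_cases hk : k ∈ W.A
      · obtain ⟨_, _, ha, hb, _, _⟩ := hW k hk
        have h1 : X k - W.gp k ∈ J := Ideal.subset_span ⟨k, hk, rfl⟩
        have h2 : W.gp k - T k = (C (W.c k 1) + C (W.c k 3) * T (W.b k)) *
              (X (W.a k) - T (W.a k)) +
            (C (W.c k 2) + C (W.c k 3) * X (W.a k)) * (X (W.b k) - T (W.b k)) := by
          rw [hT3 k hk]
          unfold Net.gp gpl
          simp only [map_add, map_mul, bind₁_C_right, bind₁_X_right]
          ring
        have h3 : X k - T k = (X k - W.gp k) + (W.gp k - T k) := by ring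
        rw [h3, h2]
        exact J.add_mem h1 (J.add_mem (J.mul_mem_left _ (ih _ ha)) (J.mul_mem_left _ (ih _ hb)))
      · rw [hT1 k hk, sub_self]
        exact J.zero_mem
  have hgen : ∀ Q : MvPolynomial ℕ K, Q - bind₁ T Q ∈ J := by
    intro Q
    induction Q using MvPolynomial.induction_on with
    | C a => rw [bind₁_C_right, sub_self]; exact J.zero_mem
    | add p q hp hq =>
      rw [map_add]
      have : p + q - (bind₁ T p + bind₁ T q) = (p - bind₁ T p) + (q - bind₁ T q) := by ring
      rw [this]
      exact J.add_mem hp hq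
    | mul_X p i hp =>
      rw [map_mul, bind₁_X_right]
      have : p * X i - bind₁ T p * T i = p * (X i - T i) + T i * (p - bind₁ T p) := by ring
      rw [this]
      exact J.add_mem (J.mul_mem_left _ (hX i)) (J.mul_mem_left _ hp)
  have h0 : bind₁ T P = 0 := by
    apply eq_zero_of_pev
    intro z hz
    have : pev (bind₁ T P) z = pev P (fun k => pev (T k) z) := by
      unfold pev
      rw [aeval_bind₁]
    rw [this]
    have hth : (fun k => pev (T k) z) = W.th z := by
      funext k; exact hT4 k z
    rw [hth]
    exact hP z hz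
  have hmem : P ∈ J := by
    have := hgen P
    rwa [h0, sub_zero] at this
  rw [hJ] at hmem
  obtain ⟨c, hc⟩ := (Submodule.mem_span_image_finset_iff_exists_fun' (MvPolynomial ℕ K)).1 hmem
  exact ⟨c, hc.symm⟩

end MP1eadaeL
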