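import Pool.Agent.Lib_MP_1eadae_ft.COne

/-! # MP_1eadae_ag (FT), piece PAD: adding constant nodes; larger `M` -/

namespace MP1eadaeL

open Complex Function MvPolynomial

variable {K : Subfield ℂ} {hI : I ∈ K} {Ex : MvPolynomial ℕ K → Prop} {M : ℕ}

/- Piece PAD (all theorems of this file).
`Rpr.pad`: `W' = ` nodes `A ∪ D`, on `D` the gate `c = 0`, `a = b = 0` (a legitimate gate, as
`0 < M ≤ k`), on `A` the old gates.  The kernel gets the factors `1 / z_d` (`d ∈ D`), and
`ctr d 0 2 (1/z_d) = tpi d` (`ctr_inv`), `ctrs_union`, `ctrs_mul_ctrs`.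
`Rpr.mono_M`: immediate from the definitions (the inputs `< n` are `< M`, nodes are `≥ M`). -/

theorem PAD_ctrs (D : Finset ℕ) : ∀ z ∈ Dom X0,
    ctrs D (fun z : Pt => ∏ d ∈ D, 1 / z d) z = tp D z := by
  classical
  induction D using Finset.induction_on with
  | empty =>
    intro z _
    rw [ctrs_empty]
    simp [tp]
  | insert d D hd ih =>
    intro z hz
    have h1 : (fun z : Pt => ∏ k ∈ insert d D, 1 / z k) = fun z => (1 / z d) * ∏ k ∈ D, 1 / z k := by
      funext z
      rw [Finset.prod_insert hd]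
    have h2 : insert d D = {d} ∪ D := rfl
    rw [h1, h2]
    rw [ctrs_mul_ctrs (F := fun z : Pt => 1 / z d) (G := fun z : Pt => ∏ k ∈ D, 1 / z k)
      (Finset.disjoint_singleton_left.2 hd)
      (fun z z' h => by rw [h d hd])
      (fun z z' h => Finset.prod_congr rfl fun k hk => by
        rw [h k (by
          rw [Finset.mem_singleton]
          rintro rfl
          exact hd hk)]), ih z hz]
    have h3 : ctrs {d} (fun z : Pt => 1 / z d) z = tpi d z := by
      have h4 : ({d} : Finset ℕ) = insert d ∅ := rfl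
      rw [h4, ctrs_insert (Finset.notMem_empty d), ctrs_empty]
      have h5 := ctr_inv (p := d) (c := 0) (r := 2) (by norm_num) (hz d)
      simp only [sub_zero] at h5
      exact h5
    rw [h3, ← h2]
    unfold tp
    rw [Finset.prod_insert hd]

theorem Rpr.pad {W : Net K} {P : MvPolynomial ℕ K} {E : List (MvPolynomial ℕ K)} {f : Pt → ℂ}
    (h : Rpr hI (noEx K) M W P E f) (hc : CleanG W) (he : CleanE hI W E) {D : Finset ℕ}
    (hD : ∀ d ∈ D, M ≤ d) (hd : Disjoint W.A D) :
    ∃ W' : Net K, W'.A = W.A ∪ D ∧ Rpr hI (noEx K) M W' P E f ∧ CleanG W' ∧ CleanE hI W' E ∧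
      (∀ k ∈ W.A, W'.c k = W.c k ∧ W'.a k = W.a k ∧ W'.b k = W.b k) ∧
      ∀ z ∈ Dom X0, cls W' P E z = tp D z * cls W P E z := by
  classical
  have hdn : ∀ d ∈ D, d ∉ W.A := fun d hdD hdA => Finset.disjoint_left.1 hd hdA hdD
  obtain ⟨W', hA, hWc, hWa, hWb, hDc, hDa, hDb⟩ : ∃ W' : Net K, W'.A = W.A ∪ D ∧
      (∀ k ∈ W.A, W'.c k = W.c k) ∧ (∀ k ∈ W.A, W'.a k = W.a k) ∧ (∀ k ∈ W.A, W'.b k = W.b k) ∧
      (∀ k ∉ W.A, W'.c k = fun _ => 0) ∧ (∀ k ∉ W.A, W'.a k = 0) ∧ (∀ k ∉ W.A, W'.b k = 0) := by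
    refine ⟨⟨W.A ∪ D, fun k => if k ∈ W.A then W.c k else fun _ => 0,
      fun k => if k ∈ W.A then W.a k else 0, fun k => if k ∈ W.A then W.b k else 0⟩, rfl, ?_, ?_, ?_,
      ?_, ?_, ?_⟩
    · intro k hk; exact if_pos hk
    · intro k hk; exact if_pos hk
    · intro k hk; exact if_pos hk
    · intro k hk; exact if_neg hk
    · intro k hk; exact if_neg hk
    · intro k hk; exact if_neg hk
  have hM := h.hM
  have hwf : Wf M W' := by
    intro k hk
    rw [hA] at hk ⊢
    by_cases hkA : k ∈ W.A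
    · obtain ⟨h1, h2, h3, h4, h5, h6⟩ := h.wf k hkA
      rw [hWc k hkA, hWa k hkA, hWb k hkA]
      exact ⟨h1, h2, h3, h4, h5.imp_left (fun h => Finset.mem_union_left _ h),
        h6.imp_left (fun h => Finset.mem_union_left _ h)⟩
    · have hkD : k ∈ D := (Finset.mem_union.1 hk).resolve_left hkA
      have hMk := hD k hkD
      rw [hDc k hkA, hDa k hkA, hDb k hkA]
      refine ⟨hMk, ⟨fun j => ⟨0, 0, by simp⟩, by simp; norm_num⟩, by omega, by omega, Or.inr (by omega),
        Or.inr (by omega)⟩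
  have hth : ∀ z : Pt, ∀ k, (k ∈ W.A ∨ k < M) → W'.th z k = W.th z k := by
    intro z k
    induction k using Nat.strong_induction_on with
    | _ k ih =>
      intro hk
      by_cases hkA : k ∈ W.A
      · obtain ⟨h1, h2, h3, h4, h5, h6⟩ := h.wf k hkA
        rw [th_node h.wf hkA, th_node hwf (by rw [hA]; exact Finset.mem_union_left _ hkA),
          hWc k hkA, hWa k hkA, hWb k hkA, ih _ h3 h5, ih _ h4 h6]
      · have hkM : k < M := hk.resolve_left hkA
        have hkA' : k ∉ W'.A := fun hk' => by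
          have := (hwf k hk').1
          omega
        rw [th_seg hkA, th_seg hkA']
  have hnm : ∀ z w : Pt, (∀ k, (k ∈ W.A ∨ k < M) → z k = w k) → nm P E z = nm P E w := by
    intro z w hzw
    unfold nm
    have h1 : pev P z = pev P w := pev_congr_vars fun v hv => hzw v (h.vP v hv)
    have h2 : ∀ l : List (MvPolynomial ℕ K), (∀ L ∈ l, ∀ v ∈ L.vars, v ∈ W.A ∨ v < M) →
        pev l.prod z = pev l.prod w := by
      intro l
      induction l with
      | nil => intro _; simp [pev]
      | cons a t ih =>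
        intro hl
        rw [List.prod_cons, rb_pev_mul, rb_pev_mul,
          pev_congr_vars fun v hv => hzw v (hl a (by simp) v hv),
          ih fun L hL => hl L (List.mem_cons_of_mem _ hL)]
    rw [h1, h2 E h.vE]
  have hcE : CleanE hI W' E := by
    intro L hL
    obtain ⟨v, hv, h1⟩ := he L hL
    exact ⟨v, by rw [hA]; exact Finset.mem_union_left _ hv, h1⟩
  refine ⟨W', hA, ⟨hM, hwf, ?_, ?_, ?_, ?_⟩, ?_, hcE, fun k hk => ⟨hWc k hk, hWa k hk, hWb k hk⟩, ?_⟩
  · intro L hL
    obtain ⟨v, hv, h1⟩ := hcE L hL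
    exact Or.inl ⟨v, hv, h1⟩
  · intro v hv
    rw [hA]
    exact (h.vP v hv).imp_left (fun h => Finset.mem_union_left _ h)
  · intro L hL v hv
    rw [hA]
    exact (h.vE L hL v hv).imp_left (fun h => Finset.mem_union_left _ h)
  · intro z hz
    rw [h.eq z hz]
    exact (hnm _ _ (hth z)).symm
  · intro k hk
    rw [hA] at hk ⊢
    by_cases hkA : k ∈ W.A
    · rw [hWc k hkA, hWa k hkA, hWb k hkA]
      rcases hc k hkA with h1 | h1 | h1
      · exact Or.inl ⟨Finset.mem_union_left _ h1.1, Finset.mem_union_left _ h1.2⟩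
      · refine Or.inr (Or.inl ⟨h1.1, ?_, h1.2.2⟩)
        intro h2
        rcases Finset.mem_union.1 h2 with h3 | h3
        · exact h1.2.1 h3
        · have h4 := hD _ h3
          obtain ⟨_, _, _, _, h5, _⟩ := h.wf k hkA
          rcases h5 with h5 | h5
          · exact h1.2.1 h5
          · omega
      · exact Or.inr (Or.inr h1)
    · rw [hDc k hkA]
      refine Or.inr (Or.inr ⟨?_, ?_, ?_⟩) <;> simp
  · intro z hz
    have hker : ∀ z : Pt, W'.ker z = W.ker z * ∏ d ∈ D, 1 / z d := by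
      intro z
      unfold Net.ker
      rw [hA, Finset.prod_union hd]
      congr 1
      · refine Finset.prod_congr rfl fun k hk => ?_
        rw [pev_gp, pev_gp, hWc k hk, hWa k hk, hWb k hk]
      · refine Finset.prod_congr rfl fun k hk => ?_
        rw [pev_gp, hDc k (hdn k hk)]
        simp
    unfold cls
    rw [hA]
    have h1 : (fun z => nm P E z * W'.ker z) = fun z => (nm P E z * W.ker z) * ∏ d ∈ D, 1 / z d := by
      funext z
      rw [hker, mul_assoc]
    rw [h1, ctrs_mul_ctrs (F := fun z => nm P E z * W.ker z) (G := fun z : Pt => ∏ d ∈ D, 1 / z d) hd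
      ?_ ?_, PAD_ctrs D z hz, mul_comm]
    · intro z z' hzz
      have hzM : ∀ k, (k ∈ W.A ∨ k < M) → z k = z' k := by
        intro k hk
        apply hzz
        intro hkD
        rcases hk with hk | hk
        · exact hdn k hkD hk
        · have := hD k hkD
          omega
      have h2 : W.ker z = W.ker z' := by
        unfold Net.ker
        refine Finset.prod_congr rfl fun k hk => ?_
        obtain ⟨_, _, _, _, h5, h6⟩ := h.wf k hk
        rw [pev_gp, pev_gp, hzM k (Or.inl hk), hzM _ h5, hzM _ h6]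
      show nm P E z * W.ker z = nm P E z' * W.ker z'
      rw [hnm z z' hzM, h2]
    · intro z z' hzz
      exact Finset.prod_congr rfl fun k hk => by rw [hzz k (hdn k hk)]

theorem Rpr.mono_M {n : ℕ} {W : Net K} {P : MvPolynomial ℕ K} {E : List (MvPolynomial ℕ K)}
    {f : Pt → ℂ} (h : Rpr hI Ex n W P E f) (hnM : n ≤ M) (hA : ∀ k ∈ W.A, M ≤ k) :
    Rpr hI Ex M W P E f := by
  refine ⟨h.hM.trans hnM, ?_, h.fn, ?_, ?_, h.eq⟩
  · intro k hk
    obtain ⟨_, h2, h3, h4, h5, h6⟩ := h.wf k hk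
    exact ⟨hA k hk, h2, h3, h4, h5.imp_right (fun h => h.trans_le hnM),
      h6.imp_right (fun h => h.trans_le hnM)⟩
  · intro v hv
    exact (h.vP v hv).imp_right (fun h => h.trans_le hnM)
  · intro L hL v hv
    exact (h.vE L hL v hv).imp_right (fun h => h.trans_le hnM)

end MP1eadaeL
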