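import Pool.Agent.Lib_MP_1eadae_ft.Grd2

/-! # MP_1eadae_ag (FT), piece STH: halving a relation between rational functions -/

namespace MP1eadaeL

open Complex Function MvPolynomial MP1eadae

/- Piece STH (all theorems of this file).
For `G, H` with `Part X0 i G H` put `DD i G H z = H z - G (update z i 1) + G (update z i 0)`.
(1) `j ≠ i`: `Part X0 i (hv j G) (hv j H)` and `hv j (DD i G H) = DD i (hv j G) (hv j H)` on
`Dom X0`.  (2) `Part X0 i (2 hv i G) (hv i H)` (chain rule: factor `1/2`) and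
`hv i (DD i G H) = DD i (2 hv i G) (hv i H)` on `Dom X0` (telescoping:
`G(1/2) + G(1) - G(0) - G(1/2)`).  So for `i < M`:
`hvN M k (DD i G H) = DD i (2^k hvN M k G) (hvN M k H)`.
`st_hvN`: induction on `St`; statement with `∃ M1, ∀ M ≥ M1, ∃ k0, ∀ k ≥ k0`; in the case `gen`
choose `M1 > i` larger than the numbers of variables of `G`, `H` (`IsRat.dep`) and use `inR_hvN` for
`G` and `H`. -/

theorem sth_half {w : ℂ} (hw : w ∈ seg) : w / 2 ∈ seg := by
  obtain ⟨t, ht, rfl⟩ := hw
  refine ⟨t / 2, ⟨by linarith [ht.1], by linarith [ht.2]⟩, ?_⟩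
  push_cast
  ring

theorem sth_half' {w : ℂ} (hw : w ∈ seg) : (1 + w) / 2 ∈ seg := by
  obtain ⟨t, ht, rfl⟩ := hw
  refine ⟨(1 + t) / 2, ⟨by linarith [ht.1], by linarith [ht.2]⟩, ?_⟩
  push_cast
  ring

theorem sth_upd {z : Pt} (hz : z ∈ Dom X0) (i : ℕ) {w : ℂ} (hw : w ∈ seg) :
    update z i w ∈ Dom X0 := by
  intro j
  by_cases hj : j = i
  · subst hj
    rw [update_self]
    exact hw
  · rw [update_of_ne hj]
    exact hz j

theorem sth_hv_congr (i : ℕ) {f g : Pt → ℂ} (h : ∀ z ∈ Dom X0, f z = g z) :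
    ∀ z ∈ Dom X0, hv i f z = hv i g z := by
  intro z hz
  unfold hv
  rw [h _ (sth_upd hz i (sth_half (hz i))), h _ (sth_upd hz i (sth_half' (hz i)))]

theorem sth_hvs_congr (n : ℕ) {f g : Pt → ℂ} (h : ∀ z ∈ Dom X0, f z = g z) :
    ∀ z ∈ Dom X0, hvs n f z = hvs n g z := by
  induction n with
  | zero => exact h
  | succ n ih => exact sth_hv_congr n ih

theorem sth_hvN_congr (M k : ℕ) {f g : Pt → ℂ} (h : ∀ z ∈ Dom X0, f z = g z) :
    ∀ z ∈ Dom X0, hvN M k f z = hvN M k g z := by
  induction k with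
  | zero => exact h
  | succ k ih => exact sth_hvs_congr M ih

theorem sth_hv_add (i : ℕ) (f g : Pt → ℂ) :
    hv i (fun z => f z + g z) = fun z => hv i f z + hv i g z := by
  funext z
  unfold hv
  ring

theorem sth_hvs_add (n : ℕ) (f g : Pt → ℂ) :
    hvs n (fun z => f z + g z) = fun z => hvs n f z + hvs n g z := by
  induction n with
  | zero => rfl
  | succ n ih =>
    show hv n (hvs n _) = _
    rw [ih, sth_hv_add]
    rfl

theorem sth_hvN_add (M k : ℕ) (f g : Pt → ℂ) :
    hvN M k (fun z => f z + g z) = fun z => hvN M k f z + hvN M k g z := by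
  induction k with
  | zero => rfl
  | succ k ih =>
    show hvs M (hvN M k _) = _
    rw [ih, sth_hvs_add]
    rfl

theorem sth_hv_mul (i : ℕ) (a : ℂ) (f : Pt → ℂ) :
    hv i (fun z => a * f z) = fun z => a * hv i f z := by
  funext z
  unfold hv
  ring

theorem sth_hvs_mul (n : ℕ) (a : ℂ) (f : Pt → ℂ) :
    hvs n (fun z => a * f z) = fun z => a * hvs n f z := by
  induction n with
  | zero => rfl
  | succ n ih =>
    show hv n (hvs n _) = _
    rw [ih, sth_hv_mul]
    rfl

theorem sth_hvN_mul (M k : ℕ) (a : ℂ) (f : Pt → ℂ) :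
    hvN M k (fun z => a * f z) = fun z => a * hvN M k f z := by
  induction k with
  | zero => rfl
  | succ k ih =>
    show hvs M (hvN M k _) = _
    rw [ih, sth_hvs_mul]
    rfl

/-- `f` is the Stokes element of `G`, with `H` the derivative -/
def SthGn (i : ℕ) (G H f : Pt → ℂ) : Prop :=
  Part X0 i G H ∧ ∀ z, f z = H z - G (update z i 1) + G (update z i 0)

theorem sth_hv_ne {i j : ℕ} (hij : j ≠ i) {G H f : Pt → ℂ} (h : SthGn i G H f) :
    SthGn i (hv j G) (hv j H) (hv j f) := by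
  have key : ∀ (F : Pt → ℂ) (z : Pt) (w : ℂ), hv j F (update z i w) =
      1 / 2 * F (update (update z j (z j / 2)) i w) +
        1 / 2 * F (update (update z j ((1 + z j) / 2)) i w) := by
    intro F z w
    unfold hv
    rw [update_of_ne hij, update_comm hij.symm, update_comm hij.symm]
  refine ⟨?_, ?_⟩
  · intro z hz
    have h1 := h.1 _ (sth_upd hz j (sth_half (hz j)))
    have h2 := h.1 _ (sth_upd hz j (sth_half' (hz j)))
    rw [update_of_ne hij.symm] at h1 h2
    have h3 := (h1.const_mul (1 / 2)).add (h2.const_mul (1 / 2))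
    refine h3.congr_of_eventuallyEq (Filter.Eventually.of_forall fun w => ?_) ?_
    · exact key G z w
    · exact key G z (z i)
  · intro z
    rw [key G, key G]
    unfold hv
    rw [h.2, h.2]
    ring

theorem sth_hv_eq {i : ℕ} {G H f : Pt → ℂ} (h : SthGn i G H f) :
    SthGn i (fun z => 2 * hv i G z) (hv i H) (hv i f) := by
  have key : ∀ (z : Pt) (w : ℂ), 2 * hv i G (update z i w) =
      G (update z i (w / 2)) + G (update z i ((1 + w) / 2)) := by
    intro z w
    unfold hv
    rw [update_self, update_idem, update_idem]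
    ring
  refine ⟨?_, ?_⟩
  · intro z hz
    have h1 := h.1 _ (sth_upd hz i (sth_half (hz i)))
    have h2 := h.1 _ (sth_upd hz i (sth_half' (hz i)))
    rw [update_self] at h1 h2
    simp only [update_idem] at h1 h2
    have e1 : HasDerivWithinAt (fun w : ℂ => w / 2) (1 / 2) (X0 i) (z i) :=
      ((hasDerivAt_id (z i)).div_const 2).hasDerivWithinAt
    have e2 : HasDerivWithinAt (fun w : ℂ => (1 + w) / 2) (1 / 2) (X0 i) (z i) :=
      (((hasDerivAt_id (z i)).const_add 1).div_const 2).hasDerivWithinAt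
    have m1 : Set.MapsTo (fun w : ℂ => w / 2) (X0 i) (X0 i) := fun w hw => sth_half hw
    have m2 : Set.MapsTo (fun w : ℂ => (1 + w) / 2) (X0 i) (X0 i) := fun w hw => sth_half' hw
    have c1 := HasDerivWithinAt.comp (z i) h1 e1 m1
    have c2 := HasDerivWithinAt.comp (z i) h2 e2 m2
    have h3 := c1.add c2
    have h4 : HasDerivWithinAt (fun w => 2 * hv i G (update z i w))
        (H (update z i (z i / 2)) * (1 / 2) + H (update z i ((1 + z i) / 2)) * (1 / 2))
        (X0 i) (z i) := by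
      refine h3.congr_of_eventuallyEq (Filter.Eventually.of_forall fun w => ?_) ?_
      · exact key z w
      · exact key z (z i)
    have h5 : H (update z i (z i / 2)) * (1 / 2) + H (update z i ((1 + z i) / 2)) * (1 / 2) =
        hv i H z := by
      unfold hv
      ring
    rw [h5] at h4
    exact h4
  · intro z
    show hv i f z = hv i H z - 2 * hv i G (update z i 1) + 2 * hv i G (update z i 0)
    rw [key, key]
    unfold hv
    rw [h.2, h.2]
    simp only [update_idem]
    norm_num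
    ring

theorem sth_mul {i : ℕ} (a : ℂ) {G H f : Pt → ℂ} (h : SthGn i G H f) (n : ℕ) (hn : n ≠ i)
    {G' : Pt → ℂ} (hG : G = fun z => a * G' z) :
    SthGn i (fun z => a * hv n G' z) (hv n H) (hv n f) := by
  have h1 := sth_hv_ne hn h
  rw [hG, sth_hv_mul] at h1
  exact h1

theorem sth_hvs_lt {i : ℕ} {G H f : Pt → ℂ} (h : SthGn i G H f) (n : ℕ) :
    (n ≤ i → SthGn i (hvs n G) (hvs n H) (hvs n f)) ∧
      (i < n → SthGn i (fun z => 2 * hvs n G z) (hvs n H) (hvs n f)) := by
  induction n with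
  | zero => exact ⟨fun _ => h, fun h0 => absurd h0 (Nat.not_lt_zero _)⟩
  | succ n ih =>
    refine ⟨fun hn => ?_, fun hn => ?_⟩
    · exact sth_hv_ne (by omega) (ih.1 (by omega))
    · by_cases hni : n = i
      · subst hni
        exact sth_hv_eq (ih.1 le_rfl)
      · have h1 := ih.2 (by omega)
        exact sth_mul 2 h1 n hni rfl

theorem sth_hvN_gn {M i : ℕ} (hi : i < M) {G H f : Pt → ℂ} (h : SthGn i G H f) (k : ℕ) :
    SthGn i (fun z => 2 ^ k * hvN M k G z) (hvN M k H) (hvN M k f) := by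
  induction k with
  | zero =>
    simp only [pow_zero, one_mul]
    exact h
  | succ k ih =>
    have h1 := (sth_hvs_lt ih M).2 hi
    rw [sth_hvs_mul] at h1
    have h2 : (fun z => 2 * (2 ^ k * hvs M (hvN M k G) z)) =
        fun z => 2 ^ (k + 1) * hvN M (k + 1) G z := by
      funext z
      show _ = 2 ^ (k + 1) * hvs M (hvN M k G) z
      ring
    rw [← h2]
    exact h1

theorem sth_dep {f : Pt → ℂ} {n M : ℕ} (hn : n ≤ M) (h : DepOn X0 (Set.Iio n) f) :
    DepOn X0 (Set.Iio M) f :=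
  fun z hz w hw e => h z hz w hw fun i hi => e i (lt_of_lt_of_le hi hn)

theorem st_hvN {h : Pt → ℂ} (hh : St (IsRat Qi X0) X0 Set.univ h) :
    ∃ M1 : ℕ, ∀ M ≥ M1, ∃ k0 : ℕ, ∀ k ≥ k0,
      St (InR I_mem_Qi M) X0 (Set.Iio M) (hvN M k h) := by
  induction hh with
  | gen i hi G H hG hH hP =>
    obtain ⟨n1, d1⟩ := hG.dep
    obtain ⟨n2, d2⟩ := hH.dep
    refine ⟨max (i + 1) (max n1 n2), fun M hM => ?_⟩
    have hM1 : i + 1 ≤ M := le_trans (le_max_left _ _) hM
    have hM2 : n1 ≤ M := le_trans (le_trans (le_max_left _ _) (le_max_right _ _)) hM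
    have hM3 : n2 ≤ M := le_trans (le_trans (le_max_right _ _) (le_max_right _ _)) hM
    obtain ⟨k1, hk1⟩ := inR_hvN (M := M) (by omega) hG (sth_dep hM2 d1)
    obtain ⟨k2, hk2⟩ := inR_hvN (M := M) (by omega) hH (sth_dep hM3 d2)
    refine ⟨max k1 k2, fun k hk => ?_⟩
    have g0 : SthGn i G H (fun z => H z - G (update z i 1) + G (update z i 0)) :=
      ⟨hP, fun z => rfl⟩
    have g1 := sth_hvN_gn (M := M) (by omega) g0 k
    have i1 : InR I_mem_Qi M (fun z => 2 ^ k * hvN M k G z) :=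
      (hk1 k (le_trans (le_max_left _ _) hk)).smul (pow_mem (ofNat_mem Qi 2) k)
    have i2 := hk2 k (le_trans (le_max_right _ _) hk)
    have s1 := St.gen (C := InR I_mem_Qi M) (X := X0) (I := Set.Iio M) i
      (show i < M by omega) _ _ i1 i2 g1.1
    exact s1.congr _ _ fun z _ => (g1.2 z).symm
  | zero =>
    refine ⟨0, fun M _ => ⟨0, fun k _ => ?_⟩⟩
    have h0 := sth_hvN_mul M k 0 (fun _ => 0)
    have h1 : hvN M k (fun _ : Pt => (0 : ℂ)) = fun _ => 0 := by
      have h2 : (fun _ : Pt => (0 : ℂ)) = fun z => 0 * (fun _ : Pt => (0 : ℂ)) z := by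
        funext z
        simp
      rw [h2, h0]
      funext z
      simp
    rw [h1]
    exact St.zero
  | add F G hF hG ihF ihG =>
    obtain ⟨M1, h1⟩ := ihF
    obtain ⟨M2, h2⟩ := ihG
    refine ⟨max M1 M2, fun M hM => ?_⟩
    obtain ⟨k1, hk1⟩ := h1 M (le_trans (le_max_left _ _) hM)
    obtain ⟨k2, hk2⟩ := h2 M (le_trans (le_max_right _ _) hM)
    refine ⟨max k1 k2, fun k hk => ?_⟩
    rw [sth_hvN_add]
    exact St.add _ _ (hk1 k (le_trans (le_max_left _ _) hk))
      (hk2 k (le_trans (le_max_right _ _) hk))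
  | neg F hF ihF =>
    obtain ⟨M1, h1⟩ := ihF
    refine ⟨M1, fun M hM => ?_⟩
    obtain ⟨k1, hk1⟩ := h1 M hM
    refine ⟨k1, fun k hk => ?_⟩
    have e : (fun z => - F z) = fun z => (-1 : ℂ) * F z := by
      funext z
      ring
    rw [e, sth_hvN_mul]
    have e2 : (fun z => (-1 : ℂ) * hvN M k F z) = fun z => - hvN M k F z := by
      funext z
      ring
    rw [e2]
    exact St.neg _ (hk1 k hk)
  | congr F G hF hFG ihF =>
    obtain ⟨M1, h1⟩ := ihF
    refine ⟨M1, fun M hM => ?_⟩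
    obtain ⟨k1, hk1⟩ := h1 M hM
    refine ⟨k1, fun k hk => ?_⟩
    exact St.congr _ _ (hk1 k hk) (sth_hvN_congr M k hFG)

end MP1eadaeL
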