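import Pool.Agent.Lib_MP_1eadae_ft.TmC

/-! # MP_1eadae_ag (FT), piece CAU: Cauchy's theorem for one node -/

namespace MP1eadaeL

open Complex Function MvPolynomial

variable {K : Subfield ℂ} {hI : I ∈ K} {Cl : (Pt → ℂ) → Prop}
  {Dn : Finset ℕ → MvPolynomial ℕ K → Prop} {Ex : MvPolynomial ℕ K → Prop}

/- Piece CAU (all theorems of this file).

`pev_sub`: `pev (sub k s P) z = pev P (update z k (z s * z k))` for `s ≠ k`.

`sub_euler`: for `s ∉ P.vars`: `X_s ∂_s (sub k s P) = X_k ∂_k (sub k s P)` (both are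
`X_s X_k sub k s (∂_k P)`; induction on `P`, or the chain rule).

`cauchy`: let `G = z_s P_λ / L_λ`, `G' = z_k P_λ / L_λ` with `P_λ = sub k s P`,
`L_λ = (l.map (sub k s)).prod`; both are `TM Dn A` (`TM.quot`, `TM.mul`, `TM.poly`).  By `TM.part`
(or `rb_pev_part`, `Part.mul`, `Part.div`) `∂_s G = P_λ/L_λ + z_s ∂_s(P_λ/L_λ)` and
`∂_k G' = P_λ/L_λ + z_k ∂_k (P_λ/L_λ)`; by `sub_euler` these are equal on `Dom (XA A)`.
`st_seg` for `G` (direction `s ∉ A`) and `st_circ` for `G'` (direction `k`) give
`ctrs A (∂_s G - G|_{s=1} + G|_{s=0})` and `ctrs A (∂_k G')` in `St`, and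
`G|_{s=1} = P/L` (as `s ∉ vars`), `G|_{s=0} = 0`; subtract (`ctrs_sub`, `ctrs_congr`). -/

theorem pev_sub {k s : ℕ} (P : MvPolynomial ℕ K) (z : Pt) :
    pev (sub k s P) z = pev P (update z k (z s * z k)) := by
  rw [pev, sub, aeval_bind₁, pev]
  congr 2
  funext i
  by_cases hi : i = k
  · subst hi
    rw [if_pos rfl, update_self, map_mul, aeval_X, aeval_X]
  · rw [if_neg hi, update_of_ne hi, aeval_X]

theorem pev_congr_vars {P : MvPolynomial ℕ K} {z w : Pt} (h : ∀ v ∈ P.vars, z v = w v) :
    pev P z = pev P w := by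
  exact eval₂Hom_congr' rfl (fun i hi _ => h i hi) rfl

theorem sub_prod (k s : ℕ) (l : List (MvPolynomial ℕ K)) :
    sub k s l.prod = (l.map (sub k s)).prod := by
  exact map_list_prod (bind₁ (fun i => if i = k then X s * X k else X i) :
    MvPolynomial ℕ K →ₐ[K] MvPolynomial ℕ K) l

theorem sub_of_not_mem {k s : ℕ} {P : MvPolynomial ℕ K} (h : k ∉ P.vars) : sub k s P = P := by
  have h1 : sub k s P = bind₁ (fun i => (X i : MvPolynomial ℕ K)) P := by
    refine eval₂Hom_congr' rfl (fun i hi _ => ?_) rfl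
    have : i ≠ k := fun h' => h (h' ▸ hi)
    rw [if_neg this]
  rw [h1]
  exact aeval_X_left_apply P

theorem sub_euler {k s : ℕ} (hks : s ≠ k) {P : MvPolynomial ℕ K} (hs : s ∉ P.vars) :
    X s * pderiv s (sub k s P) = X k * pderiv k (sub k s P) := by
  set g : ℕ → MvPolynomial ℕ K :=
    fun i => if i = s then 0 else if i = k then X s * X k else X i with hg
  have h1 : sub k s P = bind₁ g P := by
    refine eval₂Hom_congr' rfl (fun i hi _ => ?_) rfl
    have : i ≠ s := fun h' => hs (h' ▸ hi)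
    rw [hg]
    simp only [if_neg this]
  have h2 : ∀ i, X s * pderiv s (g i) = X k * pderiv k (g i) := by
    intro i
    rw [hg]
    by_cases h3 : i = s
    · simp [h3]
    · by_cases h4 : i = k
      · simp only [if_neg h3, if_pos h4, Derivation.leibniz, pderiv_X_self, smul_eq_mul, mul_one]
        rw [pderiv_X_of_ne hks.symm, pderiv_X_of_ne hks]
        ring
      · simp only [if_neg h3, if_neg h4]
        rw [pderiv_X_of_ne h3, pderiv_X_of_ne h4]
        simp
  rw [h1]
  clear h1 hs
  induction P using MvPolynomial.induction_on with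
  | C a => simp
  | add p q hp hq =>
    rw [map_add, map_add, map_add, mul_add, mul_add, hp, hq]
  | mul_X p i hp =>
    rw [map_mul, bind₁_X_right, Derivation.leibniz, Derivation.leibniz]
    simp only [smul_eq_mul]
    linear_combination (bind₁ g p) * h2 i + g i * hp

theorem Sys.cauchy (S : Sys K hI Cl Dn Ex) {A : Finset ℕ} {k s : ℕ} (hk : k ∈ A) (hs : s ∉ A)
    {P : MvPolynomial ℕ K} {l : List (MvPolynomial ℕ K)} (hP : s ∉ P.vars)
    (hl : ∀ L ∈ l, s ∉ L.vars ∧ Dn A (sub k s L)) :
    St Cl X0 Set.univ (ctrs A (fun z => pev P z / pev l.prod z)) := by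
  have hsk : s ≠ k := fun h => hs (h ▸ hk)
  have hlp : s ∉ l.prod.vars := by
    clear hP
    induction l with
    | nil => simp
    | cons a t ih =>
      rw [List.prod_cons]
      intro h
      rcases Finset.mem_union.1 (vars_mul _ _ h) with h | h
      · exact (hl a (by simp)).1 h
      · exact ih (fun L hL => hl L (List.mem_cons_of_mem _ hL)) h
  set Pl := sub k s P with hPl
  set ll := l.map (sub k s) with hll
  have hlld : ∀ L ∈ ll, Dn A L := by
    intro L hL
    obtain ⟨L', hL', rfl⟩ := List.mem_map.1 hL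
    exact (hl L' hL').2
  have hllp : ll.prod = sub k s l.prod := (sub_prod k s l).symm
  have hne : ∀ z ∈ Dom (XA A), pev ll.prod z ≠ 0 := fun z hz => pev_prod_ne S hlld hz
  set Q : Pt → ℂ := fun z => pev Pl z / pev ll.prod z with hQ
  set Qd : ℕ → Pt → ℂ := fun v z => (pev (pderiv v Pl) z * pev ll.prod z -
    pev Pl z * pev (pderiv v ll.prod) z) / pev ll.prod z ^ 2 with hQd
  have hQtm : TM Dn A Q := TM.quot Pl hlld
  have hQdtm : ∀ v, TM Dn A (Qd v) := by
    intro v
    refine ⟨pderiv v Pl * ll.prod - Pl * pderiv v ll.prod, ll ++ ll, ?_, fun z hz => ?_⟩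
    · intro L hL
      rcases List.mem_append.1 hL with h | h
      · exact hlld L h
      · exact hlld L h
    · rw [List.prod_append, rb_pev_sub, rb_pev_mul, rb_pev_mul, rb_pev_mul]
      show _ / pev ll.prod z ^ 2 = _
      rw [sq]
  have hQpart : ∀ v, Part (XA A) v Q (Qd v) := fun v =>
    (rb_pev_part (X := XA A) Pl v).div (rb_pev_part ll.prod v) hne
  have hpX : ∀ v, ∀ z : Pt, pev (X v : MvPolynomial ℕ K) z = z v := fun v z => by simp [pev]
  have hXtm : ∀ v, TM Dn A (fun z => z v) := fun v =>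
    (TM.poly (X v)).congr fun z _ => hpX v z
  have hGpart : ∀ v, Part (XA A) v (fun z => z v * Q z) (fun z => Q z + z v * Qd v z) := fun v =>
    ((Part.coord v).mul (hQpart v)).congr (fun z _ => rfl) (fun z _ => by ring)
  have h1 := S.st_seg hs ((hXtm s).mul hQtm) (hQtm.add S ((hXtm s).mul (hQdtm s))) (hGpart s)
  have h2 := S.st_circ hk ((hXtm k).mul hQtm) (hQtm.add S ((hXtm k).mul (hQdtm k))) (hGpart k)
  have heq : ∀ z : Pt, z s * Qd s z = z k * Qd k z := by
    intro z
    have e1 : z s * pev (pderiv s Pl) z = z k * pev (pderiv k Pl) z := by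
      rw [← hpX s z, ← hpX k z, ← rb_pev_mul, ← rb_pev_mul, hPl, sub_euler hsk hP]
    have e2 : z s * pev (pderiv s ll.prod) z = z k * pev (pderiv k ll.prod) z := by
      rw [← hpX s z, ← hpX k z, ← rb_pev_mul, ← rb_pev_mul, hllp, sub_euler hsk hlp]
    show z s * ((pev (pderiv s Pl) z * pev ll.prod z -
      pev Pl z * pev (pderiv s ll.prod) z) / pev ll.prod z ^ 2) =
      z k * ((pev (pderiv k Pl) z * pev ll.prod z -
      pev Pl z * pev (pderiv k ll.prod) z) / pev ll.prod z ^ 2)
    rw [← mul_div_assoc, ← mul_div_assoc]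
    congr 1
    linear_combination pev ll.prod z * e1 - pev Pl z * e2
  have hval : ∀ (R : MvPolynomial ℕ K), s ∉ R.vars → ∀ z : Pt,
      pev (sub k s R) (update z s 1) = pev R z := by
    intro R hR z
    rw [pev_sub]
    refine pev_congr_vars fun v hv => ?_
    have hvs : v ≠ s := fun h => hR (h ▸ hv)
    by_cases hvk : v = k
    · rw [hvk, update_self, update_self, one_mul, update_of_ne hsk.symm]
    · rw [update_of_ne hvk, update_of_ne hvs]
  have h3 := (h1.sub h2).neg
  refine St.congr _ _ h3 fun z hz => ?_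
  show -(ctrs A (fun z => (Q z + z s * Qd s z) - (update z s 1) s * Q (update z s 1) +
      (update z s 0) s * Q (update z s 0)) z - ctrs A (fun z => Q z + z k * Qd k z) z) =
    ctrs A (fun z => pev P z / pev l.prod z) z
  rw [← ctrs_sub]
  have h4 : -(ctrs A (fun z => (Q z + z s * Qd s z) - (update z s 1) s * Q (update z s 1) +
      (update z s 0) s * Q (update z s 0) - (Q z + z k * Qd k z)) z) =
      (-1 : ℂ) * ctrs A (fun z => (Q z + z s * Qd s z) - (update z s 1) s * Q (update z s 1) +
      (update z s 0) s * Q (update z s 0) - (Q z + z k * Qd k z)) z := by ring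
  rw [h4, ← ctrs_const_mul]
  refine ctrs_congr (fun u _ => ?_) z hz
  have e5 : Q (update u s 1) = pev P u / pev l.prod u := by
    show pev Pl (update u s 1) / pev ll.prod (update u s 1) = _
    rw [hPl, hllp, hval P hP, hval l.prod hlp]
  rw [heq u, e5, update_self, update_self]
  ring

end MP1eadaeL
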