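import Pool.Agent.Lib_MP_1eadae_ft.TmC
import Pool.Agent.Lib_MP_1eadae_ft.Cau

/-! # MP_1eadae_ag (FT), piece NRM: removing an unused node -/

namespace MP1eadaeL

open Complex Function MvPolynomial

variable {K : Subfield ℂ} {hI : I ∈ K} {Cl : (Pt → ℂ) → Prop}
  {Dn : Finset ℕ → MvPolynomial ℕ K → Prop} {Ex : MvPolynomial ℕ K → Prop}

/- Piece NRM.  Let `R = P / L`, `L = l.prod`.  Put `G = R / (z_k - z_s g)` (in `TM Dn (insert k A)`)
and `G' = - g R / (z_k - z_s g)`.  Since `R` and `g` do not involve the coordinates `k`, `s`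
(`pev_congr_vars`), `∂_s G = R g / (z_k - z_s g)^2 = ∂_k G'` on `Dom (XA (insert k A))`.
`st_seg` for `G` in the direction `s` and `st_circ` for `G'` in the direction `k` give, after
subtraction, `ctrs (insert k A) (R/(z_k - g) - R/z_k) ∈ St` (`G|_{s=1} = R/(z_k - g)`,
`G|_{s=0} = R/z_k`).  Finally `ctrs (insert k A) (R / z_k) = tpi k * ctrs A R` on `Dom X0`:
`ctrs_insert`, `ctrs_ctr`, `ctr_mul_left'` and `ctr_inv` (Ctr.lean, with `c = 0`, `r = 2`),
`ctrs_mul_left`. -/

private theorem nrm_prod (l : List (MvPolynomial ℕ K)) (z : Pt) :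
    pev l.prod z = (l.map (fun L => pev L z)).prod := by
  unfold pev
  rw [map_list_prod]

private theorem nrm_pev {P : MvPolynomial ℕ K} {i : ℕ} (h : i ∉ P.vars) (z : Pt) (w : ℂ) :
    pev P (update z i w) = pev P z := by
  refine pev_congr_vars fun v hv => ?_
  have hne : v ≠ i := by
    rintro rfl
    exact h hv
  exact update_of_ne hne _ _

private theorem nrm_quot {P : MvPolynomial ℕ K} {l : List (MvPolynomial ℕ K)} {i : ℕ}
    (h : i ∉ P.vars) (hl : ∀ L ∈ l, i ∉ L.vars) (z : Pt) (w : ℂ) :
    pev P (update z i w) / pev l.prod (update z i w) = pev P z / pev l.prod z := by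
  rw [nrm_pev h, nrm_prod, nrm_prod]
  congr 2
  exact List.map_congr_left fun L hL => nrm_pev (hl L hL) z w

theorem Sys.norm (S : Sys K hI Cl Dn Ex) {A : Finset ℕ} {k s : ℕ} (hk : k ∉ A) (hs : s ∉ A)
    (hsk : s ≠ k) {P g : MvPolynomial ℕ K} {l : List (MvPolynomial ℕ K)}
    (hP : k ∉ P.vars ∧ s ∉ P.vars) (hg : k ∉ g.vars ∧ s ∉ g.vars)
    (hl : ∀ L ∈ l, k ∉ L.vars ∧ s ∉ L.vars ∧ Dn (insert k A) L)
    (hD : Dn (insert k A) (X k - X s * g)) :
    St Cl X0 Set.univ (fun z =>
      ctrs (insert k A) (fun z => pev P z / pev l.prod z * (1 / (z k - pev g z))) z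
        - tpi k z * ctrs A (fun z => pev P z / pev l.prod z) z) := by
  obtain ⟨R, hR⟩ : ∃ R : Pt → ℂ, R = fun z => pev P z / pev l.prod z := ⟨_, rfl⟩
  have hRk : ∀ (z : Pt) (w : ℂ), R (update z k w) = R z := by
    intro z w
    rw [hR]
    exact nrm_quot hP.1 (fun L hL => (hl L hL).1) z w
  have hRs : ∀ (z : Pt) (w : ℂ), R (update z s w) = R z := by
    intro z w
    rw [hR]
    exact nrm_quot hP.2 (fun L hL => (hl L hL).2.1) z w
  have hgk : ∀ (z : Pt) (w : ℂ), pev g (update z k w) = pev g z := fun z w => nrm_pev hg.1 z w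
  have hgs : ∀ (z : Pt) (w : ℂ), pev g (update z s w) = pev g z := fun z w => nrm_pev hg.2 z w
  have hRTM : TM Dn (insert k A) R := by
    rw [hR]
    exact TM.quot P fun L hL => (hl L hL).2.2
  obtain ⟨L0, hL0⟩ : ∃ L0 : Pt → ℂ, L0 = fun z => z k - z s * pev g z := ⟨_, rfl⟩
  have hL0p : ∀ z : Pt, pev (X k - X s * g : MvPolynomial ℕ K) z = L0 z := by
    intro z
    rw [hL0, rb_pev_sub, rb_pev_mul]
    unfold pev
    rw [aeval_X, aeval_X]
  have hne : ∀ z ∈ Dom (XA (insert k A)), L0 z ≠ 0 := by
    intro z hz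
    rw [← hL0p]
    exact S.ne _ _ hD z hz
  have hLTM : TM Dn (insert k A) (fun z => 1 / L0 z) := by
    have h := TM.inv hD
    simp only [hL0p] at h
    exact h
  have hgTM : TM Dn (insert k A) (pev g) := TM.poly g
  have hks : k ≠ s := hsk.symm
  -- partial derivatives of `L0`
  have hPs : Part (XA (insert k A)) s L0 (fun z => - pev g z) := by
    have h1 : Part (XA (insert k A)) s (fun z => z k) (fun _ => 0) :=
      Part.of_indep fun z _ w _ => update_of_ne hks _ _
    have h2 : Part (XA (insert k A)) s (pev g) (fun _ => 0) :=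
      Part.of_indep fun z _ w _ => hgs z w
    have h3 := h1.add ((Part.coord s).mul h2).neg
    refine h3.congr (fun z _ => ?_) (fun z _ => ?_)
    · rw [hL0]; ring
    · ring
  have hPk : Part (XA (insert k A)) k L0 (fun _ => 1) := by
    have h1 : Part (XA (insert k A)) k (fun z => z s * pev g z) (fun _ => 0) :=
      Part.of_indep fun z _ w _ => by
        show update z k w s * pev g (update z k w) = z s * pev g z
        rw [hgk, update_of_ne hsk]
    have h3 := (Part.coord k).add h1.neg
    refine h3.congr (fun z _ => ?_) (fun z _ => ?_)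
    · rw [hL0]; ring
    · ring
  have hRPs : Part (XA (insert k A)) s R (fun _ => 0) := Part.of_indep fun z _ w _ => hRs z w
  have hRPk : Part (XA (insert k A)) k (fun z => -(pev g z * R z)) (fun _ => 0) :=
    Part.of_indep fun z _ w _ => by
      show -(pev g (update z k w) * R (update z k w)) = -(pev g z * R z)
      rw [hgk, hRk]
  -- the function `H`
  have hHTM : TM Dn (insert k A) (fun z => pev g z * R z * (1 / L0 z * (1 / L0 z))) :=
    (hgTM.mul hRTM).mul (hLTM.mul hLTM)
  have hGTM : TM Dn (insert k A) (fun z => R z * (1 / L0 z)) := hRTM.mul hLTM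
  have hG'TM : TM Dn (insert k A) (fun z => -(pev g z * R z) * (1 / L0 z)) :=
    (hgTM.mul hRTM).neg.mul hLTM
  have hPG : Part (XA (insert k A)) s (fun z => R z * (1 / L0 z))
      (fun z => pev g z * R z * (1 / L0 z * (1 / L0 z))) := by
    have h := hRPs.div hPs hne
    refine h.congr (fun z _ => by rw [mul_one_div]) (fun z hz => ?_)
    have h0 := hne z hz
    field_simp
    ring
  have hPG' : Part (XA (insert k A)) k (fun z => -(pev g z * R z) * (1 / L0 z))
      (fun z => pev g z * R z * (1 / L0 z * (1 / L0 z))) := by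
    have h := hRPk.div hPk hne
    refine h.congr (fun z _ => by rw [mul_one_div]) (fun z hz => ?_)
    have h0 := hne z hz
    field_simp
    ring
  have hsA : s ∉ insert k A := by
    rw [Finset.mem_insert]
    rintro (h | h)
    · exact hsk h
    · exact hs h
  have hst1 := S.st_seg hsA hGTM hHTM hPG
  have hst2 := S.st_circ (Finset.mem_insert_self k A) hG'TM hHTM hPG'
  have hst := St.sub hst2 hst1
  have hres : ∀ z ∈ Dom X0, ctrs (insert k A) (fun z => R z * (1 / z k)) z
      = tpi k z * ctrs A R z := by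
    intro z hz
    rw [ctrs_insert hk, ← ctrs_ctr]
    have h1 : ∀ z ∈ Dom (XA A), ctr k 0 2 (fun z => R z * (1 / z k)) z = tpi k z * R z := by
      intro z hz
      have hzk : z k ∈ seg := by
        have := hz k
        rwa [XA_seg hk] at this
      have h2 := ctr_mul_left (p := k) (c := 0) (r := 2) (W := R) (F := fun z => 1 / (z k - 0)) z
        (fun w => hRk z w)
      rw [ctr_inv (by norm_num) hzk] at h2
      simp only [sub_zero] at h2
      rw [h2, mul_comm]
    rw [ctrs_congr h1 z hz]
    refine ctrs_mul_left (W := tpi k) (fun z z' h => ?_) z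
    unfold tpi
    rw [h k hk]
  refine St.congr _ _ hst fun z hz => ?_
  have e1 : ctrs (insert k A) (fun z => R z * (1 / (z k - pev g z))) z -
      ctrs (insert k A) (fun z => R z * (1 / z k)) z =
      ctrs (insert k A) (fun z => pev g z * R z * (1 / L0 z * (1 / L0 z))) z -
      ctrs (insert k A) (fun z => pev g z * R z * (1 / L0 z * (1 / L0 z)) -
        R (update z s 1) * (1 / L0 (update z s 1)) +
        R (update z s 0) * (1 / L0 (update z s 0))) z := by
    rw [← ctrs_sub, ← ctrs_sub]
    congr 1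
    funext z
    have e2 : L0 (update z s 1) = z k - pev g z := by
      rw [hL0]
      simp only [update_self, update_of_ne hks, hgs, one_mul]
    have e3 : L0 (update z s 0) = z k := by
      rw [hL0]
      simp only [update_self, update_of_ne hks, hgs, zero_mul, sub_zero]
    rw [e2, e3, hRs, hRs]
    ring
  have e4 := hres z hz
  rw [hR] at e1 e4
  rw [hR]
  simp only at e1 e4 ⊢
  rw [← e4, e1]

end MP1eadaeL
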