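import Pool.Agent.Lib_MP_1eadae_ft.Zer
import Pool.Agent.Lib_MP_1eadae_ft.Nrm

/-! # MP_1eadae_ag (FT), piece EXT: networks with unused nodes -/

namespace MP1eadaeL

open Complex Function MvPolynomial

variable {K : Subfield ℂ} {hI : I ∈ K} {Cl : (Pt → ℂ) → Prop}
  {Dn : Finset ℕ → MvPolynomial ℕ K → Prop} {Ex : MvPolynomial ℕ K → Prop} {M : ℕ}

/- Piece EXT.  `cls_erase`: the node `k` is not used by any other node, nor by the numerator; then
`nm P E * ker = (P / (∏E ∏_{j ≠ k}(X_j - gp_j))) * (1/(z_k - gp_k))`, apply `Sys.norm` with the set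
`A.erase k`, `g = W.gp k` and the list `E ++ (A.erase k).toList.map (fun j => X j - W.gp j)`
(`insert k (A.erase k) = A`, conditions: `Sys.fn_dn`, `Sys.dn_gate`, `Sys.dn_gate_norm`,
`gp_vars`), `s` a new coordinate (not in `A`, not a variable of `P`, `E`, gates).
`cls_ext`: induction on the number of elements of `A \ A1`, removing its largest element `k`
(it is not used: the nodes of `A1` use only nodes of `A1`, and the inputs of a node `j ∈ A \ A1` are
`< j ≤ k`); then multiply the relation for the smaller network by `tpi k` (`Sys.mul_tp` with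
`D = {k}`; the function depends only on a finite set of coordinates not containing `k`, use
`ctrs_depOn` and `pev_congr_vars`). Note `tp (A \ A1) = tpi k * tp ((A.erase k) \ A1)`. -/

theorem ext_pev_list (l : List (MvPolynomial ℕ K)) (z : Pt) :
    pev l.prod z = (l.map (fun L => pev L z)).prod := by
  induction l with
  | nil => simp [pev]
  | cons L l ih =>
    rw [List.prod_cons, rb_pev_mul, ih, List.map_cons, List.prod_cons]

theorem ext_pev_X (j : ℕ) (z : Pt) : pev (X j : MvPolynomial ℕ K) z = z j := by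
  simp [pev]

theorem ext_pev_gates (W : Net K) (B : Finset ℕ) (z : Pt) :
    pev (B.toList.map (fun j => X j - W.gp j)).prod z = ∏ j ∈ B, (z j - pev (W.gp j) z) := by
  rw [ext_pev_list, List.map_map, ← Finset.prod_map_toList]
  congr 1
  apply List.map_congr_left
  intro j _
  simp only [Function.comp]
  rw [rb_pev_sub, ext_pev_X]

theorem ext_vars_gate (W : Net K) (j : ℕ) : ∀ v ∈ (X j - W.gp j : MvPolynomial ℕ K).vars,
    v = j ∨ v = W.a j ∨ v = W.b j := by
  intro v hv
  have h1 := MvPolynomial.vars_sub_subset (p := (X j : MvPolynomial ℕ K)) (q := W.gp j) hv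
  rw [Finset.mem_union] at h1
  rcases h1 with h1 | h1
  · left
    rw [MvPolynomial.vars_X] at h1
    exact Finset.mem_singleton.1 h1
  · right
    exact gp_vars j v h1

theorem Sys.cls_erase (S : Sys K hI Cl Dn Ex) {W : Net K} (hW : Wf M W) {k : ℕ} (hk : k ∈ W.A)
    (hun : ∀ j ∈ W.A, W.a j ≠ k ∧ W.b j ≠ k) {P : MvPolynomial ℕ K} (hP : k ∉ P.vars)
    {E : List (MvPolynomial ℕ K)} (hE : ∀ L ∈ E, Fn hI Ex W.A L ∧ k ∉ L.vars) :
    St Cl X0 Set.univ (fun z => cls W P E z
      - tpi k z * cls ⟨W.A.erase k, W.c, W.a, W.b⟩ P E z) := by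
  classical
  obtain ⟨s, hs⟩ := Infinite.exists_notMem_finset (W.A ∪ P.vars ∪
    E.toFinset.biUnion (fun L => L.vars) ∪ W.A.image W.a ∪ W.A.image W.b)
  simp only [Finset.mem_union, Finset.mem_biUnion, List.mem_toFinset, Finset.mem_image,
    not_or, not_exists, not_and] at hs
  obtain ⟨⟨⟨⟨hsA, hsP⟩, hsE⟩, hsa⟩, hsb⟩ := hs
  have hins : insert k (W.A.erase k) = W.A := Finset.insert_erase hk
  have hsk : s ≠ k := by rintro rfl; exact hsA hk
  have hkk := hW k hk
  have hmain := S.norm (A := W.A.erase k) (k := k) (s := s) (Finset.notMem_erase k W.A)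
    (fun h => hsA (Finset.mem_of_mem_erase h)) hsk (P := P) (g := W.gp k)
    (l := E ++ (W.A.erase k).toList.map (fun j => X j - W.gp j)) ⟨hP, hsP⟩
    ⟨by
      intro h
      rcases gp_vars k k h with h | h
      · exact absurd h (by have := hkk.2.2.1; omega)
      · exact absurd h (by have := hkk.2.2.2.1; omega),
     by
      intro h
      rcases gp_vars k s h with h | h
      · exact hsa k hk h.symm
      · exact hsb k hk h.symm⟩
    (by
      rw [hins]
      intro L hL
      rw [List.mem_append, List.mem_map] at hL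
      rcases hL with hL | ⟨j, hj, rfl⟩
      · exact ⟨(hE L hL).2, hsE L hL, S.fn_dn (hE L hL).1⟩
      · rw [Finset.mem_toList, Finset.mem_erase] at hj
        obtain ⟨hjk, hjA⟩ := hj
        refine ⟨?_, ?_, ?_⟩
        · intro h
          rcases ext_vars_gate W j k h with h | h | h
          · exact hjk h.symm
          · exact (hun j hjA).1 h.symm
          · exact (hun j hjA).2 h.symm
        · intro h
          rcases ext_vars_gate W j s h with h | h | h
          · exact hsA (h ▸ hjA)
          · exact hsa j hjA h.symm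
          · exact hsb j hjA h.symm
        · exact S.dn_gate hjA (hW j hjA).2.1 _ _)
    (by
      rw [hins]
      exact S.dn_gate_norm hk hsA hkk.2.1 _ _)
  rw [hins] at hmain
  refine St.congr _ _ hmain (fun z _ => ?_)
  have e1 : (fun z : Pt => pev P z / pev (E ++ (W.A.erase k).toList.map
      (fun j => X j - W.gp j)).prod z * (1 / (z k - pev (W.gp k) z))) =
      fun z => nm P E z * W.ker z := by
    funext z
    rw [List.prod_append, rb_pev_mul, ext_pev_gates]
    unfold nm Net.ker
    rw [← Finset.prod_erase_mul _ _ hk, Finset.prod_div_distrib, Finset.prod_const_one]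
    rw [div_mul_eq_div_div, div_eq_mul_one_div _ (∏ j ∈ W.A.erase k, (z j - pev (W.gp j) z))]
    ring
  have e2 : (fun z : Pt => pev P z / pev (E ++ (W.A.erase k).toList.map
      (fun j => X j - W.gp j)).prod z) =
      fun z => nm P E z * Net.ker ⟨W.A.erase k, W.c, W.a, W.b⟩ z := by
    funext z
    rw [List.prod_append, rb_pev_mul, ext_pev_gates]
    unfold nm Net.ker
    rw [Finset.prod_div_distrib, Finset.prod_const_one]
    rw [div_mul_eq_div_div, div_eq_mul_one_div _ (∏ j ∈ W.A.erase k, (z j - pev (W.gp j) z))]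
    rfl
  rw [e1, e2]
  rfl

theorem ext_dep (W : Net K) {P : MvPolynomial ℕ K} {E : List (MvPolynomial ℕ K)} {T : Finset ℕ}
    (hA : ∀ j ∈ W.A, j ∈ T ∧ W.a j ∈ T ∧ W.b j ∈ T) (hP : ∀ v ∈ P.vars, v ∈ T)
    (hE : ∀ L ∈ E, ∀ v ∈ L.vars, v ∈ T) : DepOn X0 (↑T : Set ℕ) (cls W P E) := by
  unfold cls
  apply ctrs_depOn
  · intro j hj
    exact Finset.mem_coe.2 (hA j hj).1
  · intro z _ w _ h
    have h1 : pev P z = pev P w := pev_congr_vars (fun v hv => h v (hP v hv))
    have h2 : pev E.prod z = pev E.prod w := by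
      rw [ext_pev_list, ext_pev_list]
      congr 1
      apply List.map_congr_left
      intro L hL
      exact pev_congr_vars (fun v hv => h v (hE L hL v hv))
    have h3 : W.ker z = W.ker w := by
      unfold Net.ker
      apply Finset.prod_congr rfl
      intro j hj
      have h4 : pev (W.gp j) z = pev (W.gp j) w := by
        apply pev_congr_vars
        intro v hv
        rcases gp_vars j v hv with rfl | rfl
        · exact h _ (hA j hj).2.1
        · exact h _ (hA j hj).2.2
      rw [h4, h j (hA j hj).1]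
    show nm P E z * W.ker z = nm P E w * W.ker w
    unfold nm
    rw [h1, h2, h3]

theorem ext_aux (S : Sys K hI Cl Dn Ex) (A1 : Finset ℕ) (P : MvPolynomial ℕ K)
    (E : List (MvPolynomial ℕ K)) : ∀ (n : ℕ) (W : Net K), (W.A \ A1).card = n → Wf M W →
    A1 ⊆ W.A → (∀ k ∈ A1, (W.a k ∈ A1 ∨ W.a k ∉ W.A) ∧ (W.b k ∈ A1 ∨ W.b k ∉ W.A)) →
    (∀ v ∈ P.vars, v ∈ W.A → v ∈ A1) →
    (∀ L ∈ E, Fn hI Ex W.A L ∧ ∀ v ∈ L.vars, v ∈ W.A → v ∈ A1) →
    St Cl X0 Set.univ (fun z => cls W P E z
      - tp (W.A \ A1) z * cls ⟨A1, W.c, W.a, W.b⟩ P E z) := by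
  classical
  intro n
  induction n with
  | zero =>
    intro W hn hW hA hr hP hE
    rw [Finset.card_eq_zero] at hn
    have h1 : A1 = W.A := Finset.Subset.antisymm hA (Finset.sdiff_eq_empty_iff_subset.1 hn)
    refine St.congr _ _ St.zero (fun z _ => ?_)
    rw [hn]
    unfold tp
    rw [Finset.prod_empty, one_mul, h1]
    exact (sub_self _).symm
  | succ n ih =>
    intro W hn hW hA hr hP hE
    have hne : (W.A \ A1).Nonempty := by
      rw [← Finset.card_pos]; omega
    obtain ⟨k, hk, hmax⟩ := Finset.exists_max_image (W.A \ A1) (fun x => x) hne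
    rw [Finset.mem_sdiff] at hk
    obtain ⟨hkA, hk1⟩ := hk
    have hun : ∀ j ∈ W.A, W.a j ≠ k ∧ W.b j ≠ k := by
      intro j hj
      by_cases hj1 : j ∈ A1
      · have h := hr j hj1
        constructor
        · rintro rfl
          rcases h.1 with h | h
          · exact hk1 h
          · exact h hkA
        · rintro rfl
          rcases h.2 with h | h
          · exact hk1 h
          · exact h hkA
      · have h1 : j ≤ k := hmax j (Finset.mem_sdiff.2 ⟨hj, hj1⟩)
        have h2 := hW j hj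
        constructor
        · have := h2.2.2.1; omega
        · have := h2.2.2.2.1; omega
    have hkP : k ∉ P.vars := fun h => hk1 (hP k h hkA)
    have hkE : ∀ L ∈ E, Fn hI Ex W.A L ∧ k ∉ L.vars := fun L hL =>
      ⟨(hE L hL).1, fun h => hk1 ((hE L hL).2 k h hkA)⟩
    have h1 := S.cls_erase hW hkA hun hkP hkE
    have hA1 : A1 ⊆ W.A.erase k := fun j hj =>
      Finset.mem_erase.2 ⟨fun h => hk1 (h ▸ hj), hA hj⟩
    have hset : W.A \ A1 = insert k ((W.A.erase k) \ A1) := by
      ext j
      simp only [Finset.mem_sdiff, Finset.mem_insert, Finset.mem_erase]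
      constructor
      · rintro ⟨h1, h2⟩
        by_cases hjk : j = k
        · exact Or.inl hjk
        · exact Or.inr ⟨⟨hjk, h1⟩, h2⟩
      · rintro (rfl | ⟨⟨_, h1⟩, h2⟩)
        · exact ⟨hkA, hk1⟩
        · exact ⟨h1, h2⟩
    have hknot : k ∉ (W.A.erase k) \ A1 := fun h =>
      Finset.notMem_erase k W.A (Finset.mem_sdiff.1 h).1
    have hcard : ((W.A.erase k) \ A1).card = n := by
      rw [hset, Finset.card_insert_of_notMem hknot] at hn
      omega
    have h2 := ih ⟨W.A.erase k, W.c, W.a, W.b⟩ hcard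
      (by
        intro j hj
        have hj' : j ∈ W.A := Finset.mem_of_mem_erase hj
        obtain ⟨w1, w2, w3, w4, w5, w6⟩ := hW j hj'
        refine ⟨w1, w2, w3, w4, ?_, ?_⟩
        · rcases w5 with w5 | w5
          · exact Or.inl (Finset.mem_erase.2 ⟨(hun j hj').1, w5⟩)
          · exact Or.inr w5
        · rcases w6 with w6 | w6
          · exact Or.inl (Finset.mem_erase.2 ⟨(hun j hj').2, w6⟩)
          · exact Or.inr w6)
      hA1
      (by
        intro j hj
        have h := hr j hj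
        constructor
        · rcases h.1 with h | h
          · exact Or.inl h
          · exact Or.inr (fun h' => h (Finset.mem_of_mem_erase h'))
        · rcases h.2 with h | h
          · exact Or.inl h
          · exact Or.inr (fun h' => h (Finset.mem_of_mem_erase h')))
      (fun v hv hvA => hP v hv (Finset.mem_of_mem_erase hvA))
      (fun L hL => ⟨Fn.restrict (hE L hL).1 (Finset.erase_subset k W.A)
        (fun v hv hvA => hA1 ((hE L hL).2 v hv hvA)),
        fun v hv hvA => (hE L hL).2 v hv (Finset.mem_of_mem_erase hvA)⟩)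
    -- the coordinates
    obtain ⟨T, hT⟩ : ∃ T : Finset ℕ, T = (W.A.erase k) ∪ P.vars ∪
      E.toFinset.biUnion (fun L => L.vars) ∪ (W.A.erase k).image W.a ∪ (W.A.erase k).image W.b :=
      ⟨_, rfl⟩
    have hkT : k ∉ T := by
      rw [hT]
      simp only [Finset.mem_union, Finset.mem_biUnion, List.mem_toFinset, Finset.mem_image,
        not_or, not_exists, not_and]
      refine ⟨⟨⟨⟨Finset.notMem_erase k W.A, hkP⟩, fun L hL => (hkE L hL).2⟩, ?_⟩, ?_⟩
      · intro j hj h
        exact (hun j (Finset.mem_of_mem_erase hj)).1 h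
      · intro j hj h
        exact (hun j (Finset.mem_of_mem_erase hj)).2 h
    have hTA : ∀ j ∈ W.A.erase k, j ∈ T ∧ W.a j ∈ T ∧ W.b j ∈ T := by
      intro j hj
      rw [hT]
      simp only [Finset.mem_union, Finset.mem_image]
      exact ⟨Or.inl (Or.inl (Or.inl (Or.inl hj))), Or.inl (Or.inr ⟨j, hj, rfl⟩),
        Or.inr ⟨j, hj, rfl⟩⟩
    have hTP : ∀ v ∈ P.vars, v ∈ T := by
      intro v hv
      rw [hT]
      simp only [Finset.mem_union]
      exact Or.inl (Or.inl (Or.inl (Or.inr hv)))
    have hTE : ∀ L ∈ E, ∀ v ∈ L.vars, v ∈ T := by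
      intro L hL v hv
      rw [hT]
      simp only [Finset.mem_union, Finset.mem_biUnion, List.mem_toFinset]
      exact Or.inl (Or.inl (Or.inr ⟨L, hL, hv⟩))
    have d1 : DepOn X0 (↑T : Set ℕ) (cls ⟨W.A.erase k, W.c, W.a, W.b⟩ P E) :=
      ext_dep _ hTA hTP hTE
    have d2 : DepOn X0 (↑T : Set ℕ) (cls ⟨A1, W.c, W.a, W.b⟩ P E) :=
      ext_dep _ (fun j hj => hTA j (hA1 hj)) hTP hTE
    have d3 : DepOn X0 (↑T : Set ℕ) (fun z =>
        cls ⟨W.A.erase k, W.c, W.a, W.b⟩ P E z -
          tp ((W.A.erase k) \ A1) z * cls ⟨A1, W.c, W.a, W.b⟩ P E z) := by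
      intro z hz w hw h
      have e1 := d1 z hz w hw h
      have e2 := d2 z hz w hw h
      have e3 : tp ((W.A.erase k) \ A1) z = tp ((W.A.erase k) \ A1) w :=
        tp_depOn _ z hz w hw (fun i hi => h i
          (Finset.mem_coe.2 (hTA i (Finset.mem_sdiff.1 (Finset.mem_coe.1 hi)).1).1))
      show cls ⟨W.A.erase k, W.c, W.a, W.b⟩ P E z -
          tp ((W.A.erase k) \ A1) z * cls ⟨A1, W.c, W.a, W.b⟩ P E z = _
      rw [e1, e2, e3]
    obtain ⟨N, hN⟩ : ∃ N : ℕ, ∀ i ∈ (↑T : Set ℕ), i < N :=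
      ⟨T.sup id + 1, fun i hi => Nat.lt_succ_of_le (Finset.le_sup (f := id) (Finset.mem_coe.1 hi))⟩
    have h3 := S.mul_tp hN (D := {k}) (fun d hd => by
      rw [Finset.mem_singleton] at hd
      subst hd
      exact fun h => hkT (Finset.mem_coe.1 h)) d3 h2
    refine St.congr _ _ (St.add _ _ h1 h3) (fun z _ => ?_)
    have e4 : tp (W.A \ A1) z = tpi k z * tp ((W.A.erase k) \ A1) z := by
      unfold tp
      rw [hset, Finset.prod_insert hknot]
    have e5 : tp {k} z = tpi k z := by
      unfold tp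
      rw [Finset.prod_singleton]
    rw [e4, e5]
    ring

theorem Sys.cls_ext (S : Sys K hI Cl Dn Ex) {W : Net K} (hW : Wf M W) {A1 : Finset ℕ}
    (hA : A1 ⊆ W.A)
    (hr : ∀ k ∈ A1, (W.a k ∈ A1 ∨ W.a k ∉ W.A) ∧ (W.b k ∈ A1 ∨ W.b k ∉ W.A))
    {P : MvPolynomial ℕ K} (hP : ∀ v ∈ P.vars, v ∈ W.A → v ∈ A1)
    {E : List (MvPolynomial ℕ K)}
    (hE : ∀ L ∈ E, Fn hI Ex W.A L ∧ ∀ v ∈ L.vars, v ∈ W.A → v ∈ A1) :
    St Cl X0 Set.univ (fun z => cls W P E z
      - tp (W.A \ A1) z * cls ⟨A1, W.c, W.a, W.b⟩ P E z) :=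
  ext_aux S A1 P E _ W rfl hW hA hr hP hE

end MP1eadaeL
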