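import Pool.Agent.Lib_MP_1eadae_ft.Joi
import Pool.Agent.Lib_MP_1eadae_ft.Ext

/-! # MP_1eadae_ag (FT), piece CONE: the comparison theorem -/

namespace MP1eadaeL

open Complex Function MvPolynomial

variable {K : Subfield ℂ} {hI : I ∈ K} {Cl : (Pt → ℂ) → Prop}
  {Dn : Finset ℕ → MvPolynomial ℕ K → Prop} {Ex : MvPolynomial ℕ K → Prop} {M : ℕ}

/- Piece CONE (all theorems of this file).
`join_left`/`join_right`: `Sys.cls_ext` for `W1.join W2` and `A1 = W1.A` (resp. `W2.A`); the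
network `⟨W1.A, (join).c, ...⟩` has the same gates as `W1` on `W1.A`, so the same `cls`
(`ctrs_congr`, same kernel).  For the right part use that `k ∈ W2.A` implies `k ∉ W1.A`.
`cls_add`: `cls W (P1 E2 + P2 E1) (E1 ++ E2) = cls W P1 E1 + cls W P2 E2` on `Dom X0`
(`ctrs_congr`, `ctrs_add`; denominators nonzero on `Dom (XA A)` by `fn_dn`, `S.ne`).
`rep_unique_disj`: on `W = W1.join W2` the numerator `P1 E2 - P2 E1` vanishes at the exact values
(values `f - f = 0`, denominators nonzero by `fn_ne`, `th_mem`), so `cls W (P1 E2 - P2 E1)(E1++E2)`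
is in `St` by `Sys.cls_zero`; it is `cls W P1 E1 - cls W P2 E2`; now `join_left`, `join_right`. -/

private theorem con_cls_congr {W W' : Net K} (hA : W.A = W'.A)
    (h : ∀ k ∈ W.A, W.c k = W'.c k ∧ W.a k = W'.a k ∧ W.b k = W'.b k)
    (P : MvPolynomial ℕ K) (E : List (MvPolynomial ℕ K)) : cls W P E = cls W' P E := by
  have hker : ∀ z : Pt, W.ker z = W'.ker z := by
    intro z
    unfold Net.ker
    rw [← hA]
    refine Finset.prod_congr rfl fun k hk => ?_
    obtain ⟨h1, h2, h3⟩ := h k hk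
    unfold Net.gp
    rw [h1, h2, h3]
  have hk' : W.ker = W'.ker := funext hker
  unfold cls
  rw [hA, hk']

private theorem con_cls_congr' (W : Net K) (A : Finset ℕ) (c : ℕ → Fin 4 → K) (a b : ℕ → ℕ)
    (hA : A = W.A) (h : ∀ k ∈ W.A, c k = W.c k ∧ a k = W.a k ∧ b k = W.b k)
    (P : MvPolynomial ℕ K) (E : List (MvPolynomial ℕ K)) :
    cls (⟨A, c, a, b⟩ : Net K) P E = cls W P E := by
  subst hA
  refine con_cls_congr (W := ⟨W.A, c, a, b⟩) (W' := W) rfl ?_ P E
  exact h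

private theorem con_not_lt {W1 W2 : Net K} (h1 : Wf M W1) (h2 : Wf M W2) {v : ℕ} (hv : v < M) :
    v ∉ (W1.join W2).A := by
  intro h
  have h' : v ∈ W1.A ∪ W2.A := h
  rcases Finset.mem_union.mp h' with h' | h'
  · exact absurd (h1 v h').1 (not_le.mpr hv)
  · exact absurd (h2 v h').1 (not_le.mpr hv)

theorem Sys.join_left (S : Sys K hI Cl Dn Ex) {W1 W2 : Net K} {P : MvPolynomial ℕ K}
    {E : List (MvPolynomial ℕ K)} {f : Pt → ℂ} (h1 : Rpr hI Ex M W1 P E f) (h2 : Wf M W2)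
    (hd : Disjoint W1.A W2.A) :
    St Cl X0 Set.univ (fun z => cls (W1.join W2) P E z - tp W2.A z * cls W1 P E z) := by
  have hW := h1.wf.join h2
  have hJ := h1.left h2 hd
  have hA : W1.A ⊆ (W1.join W2).A := Finset.subset_union_left
  have hc : ∀ k ∈ W1.A, (W1.join W2).c k = W1.c k ∧ (W1.join W2).a k = W1.a k ∧
      (W1.join W2).b k = W1.b k := by
    intro k hk
    simp [Net.join, hk]
  have key := S.cls_ext hW hA (P := P) (E := E)
    (fun k hk => by
      obtain ⟨-, hka, hkb⟩ := hc k hk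
      obtain ⟨-, -, -, -, ha, hb⟩ := h1.wf k hk
      rw [hka, hkb]
      exact ⟨ha.imp id (con_not_lt h1.wf h2), hb.imp id (con_not_lt h1.wf h2)⟩)
    (fun v hv hvA => (h1.vP v hv).resolve_right fun hlt => con_not_lt h1.wf h2 hlt hvA)
    (fun L hL => ⟨hJ.fn L hL, fun v hv hvA =>
      (h1.vE L hL v hv).resolve_right fun hlt => con_not_lt h1.wf h2 hlt hvA⟩)
  have hD : (W1.join W2).A \ W1.A = W2.A := by
    show (W1.A ∪ W2.A) \ W1.A = W2.A
    rw [Finset.union_sdiff_left]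
    exact sdiff_eq_left.mpr hd.symm
  have hcl : cls (⟨W1.A, (W1.join W2).c, (W1.join W2).a, (W1.join W2).b⟩ : Net K) P E
      = cls W1 P E := con_cls_congr' W1 _ _ _ _ rfl hc P E
  rw [hD, hcl] at key
  exact key

theorem Sys.join_right (S : Sys K hI Cl Dn Ex) {W1 W2 : Net K} {P : MvPolynomial ℕ K}
    {E : List (MvPolynomial ℕ K)} {f : Pt → ℂ} (h1 : Wf M W1) (h2 : Rpr hI Ex M W2 P E f)
    (hd : Disjoint W1.A W2.A) :
    St Cl X0 Set.univ (fun z => cls (W1.join W2) P E z - tp W1.A z * cls W2 P E z) := by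
  have hW := h1.join h2.wf
  have hJ := Rpr.right h1 h2 hd
  have hA : W2.A ⊆ (W1.join W2).A := Finset.subset_union_right
  have hc : ∀ k ∈ W2.A, (W1.join W2).c k = W2.c k ∧ (W1.join W2).a k = W2.a k ∧
      (W1.join W2).b k = W2.b k := by
    intro k hk
    have hk1 : k ∉ W1.A := fun h => (Finset.disjoint_left.mp hd h) hk
    simp [Net.join, hk1]
  have key := S.cls_ext hW hA (P := P) (E := E)
    (fun k hk => by
      obtain ⟨-, hka, hkb⟩ := hc k hk
      obtain ⟨-, -, -, -, ha, hb⟩ := h2.wf k hk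
      rw [hka, hkb]
      exact ⟨ha.imp id (con_not_lt h1 h2.wf), hb.imp id (con_not_lt h1 h2.wf)⟩)
    (fun v hv hvA => (h2.vP v hv).resolve_right fun hlt => con_not_lt h1 h2.wf hlt hvA)
    (fun L hL => ⟨hJ.fn L hL, fun v hv hvA =>
      (h2.vE L hL v hv).resolve_right fun hlt => con_not_lt h1 h2.wf hlt hvA⟩)
  have hD : (W1.join W2).A \ W2.A = W1.A := by
    show (W1.A ∪ W2.A) \ W2.A = W1.A
    rw [Finset.union_sdiff_right]
    exact sdiff_eq_left.mpr hd
  have hcl : cls (⟨W2.A, (W1.join W2).c, (W1.join W2).a, (W1.join W2).b⟩ : Net K) P E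
      = cls W2 P E := con_cls_congr' W2 _ _ _ _ rfl hc P E
  rw [hD, hcl] at key
  exact key

theorem Sys.cls_add (S : Sys K hI Cl Dn Ex) {W : Net K} (hW : Wf M W) (P1 P2 : MvPolynomial ℕ K)
    {E1 E2 : List (MvPolynomial ℕ K)} (h1 : ∀ L ∈ E1, Fn hI Ex W.A L)
    (h2 : ∀ L ∈ E2, Fn hI Ex W.A L) :
    ∀ z ∈ Dom X0, cls W (P1 * E2.prod + P2 * E1.prod) (E1 ++ E2) z
      = cls W P1 E1 z + cls W P2 E2 z := by
  intro z hz
  unfold cls
  rw [← ctrs_add]
  refine ctrs_congr (fun w hw => ?_) z hz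
  have e1 : pev E1.prod w ≠ 0 := pev_prod_ne S (fun L hL => S.fn_dn (h1 L hL)) hw
  have e2 : pev E2.prod w ≠ 0 := pev_prod_ne S (fun L hL => S.fn_dn (h2 L hL)) hw
  unfold nm
  rw [List.prod_append, rb_pev_add, rb_pev_mul, rb_pev_mul, rb_pev_mul]
  field_simp

theorem cls_smul {W : Net K} (P : MvPolynomial ℕ K) (E : List (MvPolynomial ℕ K)) (a : K) (z : Pt) :
    cls W (C a * P) E z = (a : ℂ) * cls W P E z := by
  unfold cls
  rw [← ctrs_const_mul]
  congr 1
  funext w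
  unfold nm
  rw [rb_pev_mul]
  have : pev (C a : MvPolynomial ℕ K) w = (a : ℂ) := by
    unfold pev
    rw [MvPolynomial.aeval_C]
    rfl
  rw [this]
  ring

theorem Sys.rep_unique_disj (S : Sys K hI Cl Dn Ex) {W1 W2 : Net K} {P1 P2 : MvPolynomial ℕ K}
    {E1 E2 : List (MvPolynomial ℕ K)} {f : Pt → ℂ} (h1 : Rpr hI Ex M W1 P1 E1 f)
    (h2 : Rpr hI Ex M W2 P2 E2 f) (hd : Disjoint W1.A W2.A) :
    St Cl X0 Set.univ (fun z => tp W2.A z * cls W1 P1 E1 z - tp W1.A z * cls W2 P2 E2 z) := by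
  have hW := h1.wf.join h2.wf
  have L1 := h1.left h2.wf hd
  have L2 := Rpr.right h1.wf h2 hd
  have hE : ∀ L ∈ E1 ++ E2, Fn hI Ex (W1.join W2).A L := by
    intro L hL
    rcases List.mem_append.mp hL with hL | hL
    · exact L1.fn L hL
    · exact L2.fn L hL
  have hne : ∀ (l : List (MvPolynomial ℕ K)), (∀ L ∈ l, Fn hI Ex (W1.join W2).A L) →
      ∀ z ∈ Dom X0, pev l.prod ((W1.join W2).th z) ≠ 0 := by
    intro l hl z hz
    have hm := th_mem hW hz
    induction l with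
    | nil => simp [pev]
    | cons L l ih =>
      rw [List.prod_cons, rb_pev_mul]
      exact mul_ne_zero (S.fn_ne (hl L (by simp)) hm) (ih fun L' hL' => hl L' (by simp [hL']))
  have hC : ∀ w : Pt, pev (C (-1 : K) : MvPolynomial ℕ K) w = -1 := by
    intro w
    unfold pev
    rw [MvPolynomial.aeval_C]
    simp
  have hz0 : ∀ z ∈ Dom X0, pev (P1 * E2.prod + C (-1 : K) * P2 * E1.prod)
      ((W1.join W2).th z) = 0 := by
    intro z hz
    have e1 := L1.eq z hz
    have e2 := L2.eq z hz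
    rw [e1] at e2
    unfold nm at e2
    rw [div_eq_div_iff (hne E1 L1.fn z hz) (hne E2 L2.fn z hz)] at e2
    rw [rb_pev_add, rb_pev_mul, rb_pev_mul, rb_pev_mul, hC, e2]
    ring
  have k0 := S.cls_zero hW hE hz0
  have kl := S.join_left h1 h2.wf hd
  have kr := S.join_right h1.wf h2 hd
  have k1 := (k0.sub kl).add _ _ kr
  refine St.congr _ _ k1 fun z hz => ?_
  rw [S.cls_add hW P1 (C (-1 : K) * P2) L1.fn L2.fn z hz, cls_smul]
  push_cast
  ring

end MP1eadaeL
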