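import Pool.Agent.Lib_MP_1eadae_ft.TmB
import Pool.Agent.Lib_MP_1eadae_ft.COne

/-! # MP_1eadae_ag (FT), piece SYSR: the system of all rational functions; realisation -/

namespace MP1eadaeL

open Complex Function MvPolynomial

variable {K : Subfield ℂ} {hI : I ∈ K} {M : ℕ}

/-- all polynomials without zeros on the cube -/
def exR (K : Subfield ℂ) : MvPolynomial ℕ K → Prop := fun L => ∀ z ∈ Dom X0, pev L z ≠ 0

/-- all polynomials without zeros on `Dom (XA A)` -/
def dnR (K : Subfield ℂ) : Finset ℕ → MvPolynomial ℕ K → Prop :=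
  fun A L => ∀ z ∈ Dom (XA A), pev L z ≠ 0

theorem sysR_arcm (hI : I ∈ K) (A : Finset ℕ) (q : ℕ → ℕ) (i : ℕ) :
    IsRat K X0 (fun z => arcm A q z i) := by
  by_cases h : i ∈ A
  · have h1 := (IsRat.ratCast (K := K) (X := X0) 2).mul (isRat_uj hI (X := X0) (p := i) rfl (q i))
    refine h1.congr fun z _ => ?_
    show ((2 : ℚ) : ℂ) * uj (q i) (z i) = arcm A q z i
    unfold arcm
    rw [if_pos h]
    norm_num
  · refine (IsRat.coord i).congr fun z _ => ?_
    unfold arcm
    rw [if_neg h]

theorem pev_isRat (X : ℕ → Set ℂ) (P : MvPolynomial ℕ K) : IsRat K X (pev P) := by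
  refine ⟨P, 1, fun z _ => ?_⟩
  have h1 : pev (1 : MvPolynomial ℕ K) z = 1 := map_one _
  rw [h1]
  exact ⟨one_ne_zero, (div_one _).symm⟩

theorem sysR (K : Subfield ℂ) (hI : I ∈ K) : Sys K hI (IsRat K X0) (dnR K) (exR K) where
  congr := fun _ _ h he => h.congr he
  add := fun _ _ h h' => h.add h'
  mul := fun _ _ h h' => h.mul h'
  const := fun a ha => IsRat.const a ha
  coord := fun i => IsRat.coord i
  uinv := fun p => by
    have h1 : IsRat K X0 (fun z => 1 - I * z p) := by
      refine ((IsRat.const 1 K.one_mem).sub ((IsRat.const I hI).mul (IsRat.coord p))).congr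
        fun z _ => rfl
    exact ((IsRat.const 1 K.one_mem).div h1 fun z hz => one_sub_I_mul_ne (hz p)).congr
      fun z _ => rfl
  ren := fun σ F _ hF => hF.comp (fun z => fun i => z (σ i)) (fun i => IsRat.coord (σ i))
    (fun z hz i => hz (σ i))
  ne := fun A L h z hz => h z hz
  inv := fun A L q h => by
    have h1 : IsRat K X0 (fun z => pev L (arcm A q z)) :=
      (pev_isRat (XA A) L).comp (fun z => arcm A q z) (fun i => sysR_arcm hI A q i)
        (fun z hz => arcm_mem q hz)
    exact ((IsRat.const 1 K.one_mem).div h1 fun z hz => h _ (arcm_mem q hz)).congr fun z _ => rfl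
  tem := fun A M i _ h => by
    intro z hz
    have h1 : pev (rename i M) z = aeval (fun j => z (i j)) M := by
      unfold pev
      rw [aeval_rename]
      rfl
    rw [h1]
    exact h _ fun j => hz (i j)
  exdn := fun A L h hv => by
    intro z hz
    have h1 : pev L z = pev L (fun i => if i ∈ A then 0 else z i) := by
      refine pev_congr_vars fun v hv' => ?_
      rw [if_neg (hv v hv')]
    rw [h1]
    refine h _ fun i => ?_
    show (if i ∈ A then 0 else z i) ∈ seg
    by_cases hi : i ∈ A
    · rw [if_pos hi]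
      exact zero_mem_seg
    · rw [if_neg hi]
      have h2 := hz i
      rw [XA_seg hi] at h2
      exact h2
  exne := fun L h z hz => h z hz

theorem realise {W : Net K} {P : MvPolynomial ℕ K} {E : List (MvPolynomial ℕ K)} {f : Pt → ℂ}
    (h : Rpr hI (noEx K) M W P E f) :
    IsRat K X0 f ∧ St (IsRat K X0) X0 Set.univ (fun z => cls W P E z - tp W.A z * f z) := by
  have SR := sysR K hI
  have h' : Rpr hI (exR K) M W P E f := h.mono_ex
  obtain ⟨P', Q', hP', hQ', hf⟩ := h'.ratf fun L hL z hz => SR.fn_ne (h'.fn L hL) hz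
  refine ⟨⟨P', Q', hf⟩, ?_⟩
  let W0 : Net K := ⟨∅, fun _ _ => 0, fun _ => 0, fun _ => 0⟩
  have hW0 : Rpr hI (exR K) M W0 P' [Q'] f :=
    { hM := h.hM
      wf := fun k hk => absurd hk (Finset.notMem_empty k)
      fn := fun L hL => by
        rw [List.mem_singleton] at hL
        rw [hL]
        exact Or.inr (Or.inr ⟨fun z hz => (hf z hz).1, fun v _ => Finset.notMem_empty v⟩)
      vP := fun v hv => Or.inr (hP' v hv)
      vE := fun L hL v hv => by
        rw [List.mem_singleton] at hL
        rw [hL] at hv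
        exact Or.inr (hQ' v hv)
      eq := fun z hz => by
        have h1 : ∀ k, W0.th z k = z k := fun k => th_seg (Finset.notMem_empty k) z
        have h2 : W0.th z = z := funext h1
        rw [h2, (hf z hz).2]
        unfold nm
        rw [List.prod_singleton] }
  have h1 := SR.rep_unique_disj h' hW0 (Finset.disjoint_empty_right _)
  refine St.congr _ _ h1 fun z hz => ?_
  have e1 : tp W0.A z = 1 := Finset.prod_empty
  have e2 : cls W0 P' [Q'] z = f z := by
    have h3 : cls W0 P' [Q'] = (fun z => nm P' [Q'] z * W0.ker z) := ctrs_empty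
    rw [h3, (hf z hz).2]
    show nm P' [Q'] z * W0.ker z = _
    have h4 : W0.ker z = 1 := Finset.prod_empty
    rw [h4, mul_one]
    unfold nm
    rw [List.prod_singleton]
  rw [e1, e2, one_mul]

end MP1eadaeL
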