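import Pool.Agent.Lib_MP_1eadae_ft.NetA

/-! # MP_1eadae_ag (FT), piece SHI: shifting the nodes of a network -/

namespace MP1eadaeL

open Complex Function MvPolynomial

variable {K : Subfield ℂ} {hI : I ∈ K} {Ex : MvPolynomial ℕ K → Prop} {M : ℕ}

/- Piece SHI.  Let `σ i = i` for `i < M` and `σ i = i + N` for `i ≥ M` (strictly monotone).
`W'.A = W.A.image σ` (or `map`), and for `k ≥ M`: `W'.c (k + N) = W.c k`, `W'.a (k+N) = σ (W.a k)`,
`W'.b (k+N) = σ (W.b k)` (i.e. `W'.c k = W.c (k - N)` etc.).  Strong induction: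
`W'.th z (σ k) = W.th z k` for `k ∈ W.A ∨ k < M`.  `P' = rename σ P`, `E' = E.map (rename σ)`;
`pev (rename σ P) w = pev P (w ∘ σ)`.  The `Fn` conditions: `rename σ` of `C 4 - X v` is
`C 4 - X (σ v)` etc.; in the extra case the variables of `L` are `< M` (`vE`, not in `A`), so
`rename σ L = L`. -/

/-- the shift -/
private def sft (M N : ℕ) (i : ℕ) : ℕ := if i < M then i else i + N

private theorem sft_lt {M N i : ℕ} (h : i < M) : sft M N i = i := if_pos h

private theorem sft_ge {M N i : ℕ} (h : M ≤ i) : sft M N i = i + N := if_neg (by omega)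

private theorem sft_mono (M N : ℕ) : StrictMono (sft M N) := by
  intro i j hij
  unfold sft
  split_ifs <;> omega

private theorem sft_inj (M N : ℕ) : Injective (sft M N) := (sft_mono M N).injective

private theorem sft_lt_iff {M N i : ℕ} : sft M N i < M ↔ i < M := by
  unfold sft
  split_ifs <;> omega

/-- the shifted network -/
private def shn (W : Net K) (M N : ℕ) : Net K where
  A := W.A.image (sft M N)
  c := fun k => W.c (k - N)
  a := fun k => sft M N (W.a (k - N))
  b := fun k => sft M N (W.b (k - N))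

private theorem mem_shn {W : Net K} {M N k : ℕ} : sft M N k ∈ (shn W M N).A ↔ k ∈ W.A := by
  change sft M N k ∈ W.A.image (sft M N) ↔ _
  rw [Finset.mem_image]
  constructor
  · rintro ⟨j, hj, h⟩
    rwa [← sft_inj M N h]
  · intro h
    exact ⟨k, h, rfl⟩

private theorem pev_ren (τ : ℕ → ℕ) (P : MvPolynomial ℕ K) (w : Pt) :
    pev (rename τ P) w = pev P (fun i => w (τ i)) := by
  unfold pev
  rw [aeval_rename]
  rfl

private theorem rename_fix {τ : ℕ → ℕ} {L : MvPolynomial ℕ K} (h : ∀ v ∈ L.vars, τ v = v) :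
    rename τ L = L := by
  have h1 := hom_congr_vars (f₁ := ((rename τ : MvPolynomial ℕ K →ₐ[K] MvPolynomial ℕ K) :
    MvPolynomial ℕ K →+* MvPolynomial ℕ K)) (f₂ := RingHom.id (MvPolynomial ℕ K)) (p₁ := L)
    (p₂ := L) ?_ ?_ rfl
  · exact h1
  · ext a
    simp
  · intro i hi _
    simp [h i hi]

private theorem pev_prod (l : List (MvPolynomial ℕ K)) (z : Pt) :
    pev l.prod z = (l.map fun L => pev L z).prod := by
  unfold pev
  rw [map_list_prod]

private theorem ren_fin8 (hI : I ∈ K) (τ : ℕ → ℕ) (e : ℤ) (c w v : ℕ) :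
    rename τ (fin8 hI e c w (X v)) = fin8 hI e c w (X (τ v)) := by
  unfold fin8
  simp only [map_add, map_mul, rename_C, rename_X]

theorem Rpr.shift {W : Net K} {P : MvPolynomial ℕ K} {E : List (MvPolynomial ℕ K)} {f : Pt → ℂ}
    (h : Rpr hI Ex M W P E f) (N : ℕ) :
    ∃ (W' : Net K) (P' : MvPolynomial ℕ K) (E' : List (MvPolynomial ℕ K)),
      Rpr hI Ex M W' P' E' f ∧ (∀ k ∈ W'.A, N ≤ k) ∧ (CleanG W → CleanG W') ∧
      (CleanE hI W E → CleanE hI W' E') := by
  classical
  have hwf := h.wf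
  have hget : ∀ k ∈ W.A, sft M N k = k + N := fun k hk => sft_ge (hwf k hk).1
  have hc : ∀ k ∈ W.A, (shn W M N).c (sft M N k) = W.c k := by
    intro k hk
    change W.c (sft M N k - N) = W.c k
    rw [hget k hk, Nat.add_sub_cancel]
  have ha : ∀ k ∈ W.A, (shn W M N).a (sft M N k) = sft M N (W.a k) := by
    intro k hk
    change sft M N (W.a (sft M N k - N)) = _
    rw [hget k hk, Nat.add_sub_cancel]
  have hb : ∀ k ∈ W.A, (shn W M N).b (sft M N k) = sft M N (W.b k) := by
    intro k hk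
    change sft M N (W.b (sft M N k - N)) = _
    rw [hget k hk, Nat.add_sub_cancel]
  have hA : ∀ k' ∈ (shn W M N).A, ∃ k ∈ W.A, sft M N k = k' := by
    intro k' hk'
    exact Finset.mem_image.1 hk'
  have hwf' : Wf M (shn W M N) := by
    intro k' hk'
    obtain ⟨k, hk, rfl⟩ := hA k' hk'
    obtain ⟨h1, h2, h3, h4, h5, h6⟩ := hwf k hk
    rw [hc k hk, ha k hk, hb k hk]
    refine ⟨?_, h2, sft_mono M N h3, sft_mono M N h4, ?_, ?_⟩
    · rw [hget k hk]
      omega
    · rcases h5 with h5 | h5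
      · exact Or.inl (mem_shn.2 h5)
      · exact Or.inr (sft_lt_iff.2 h5)
    · rcases h6 with h6 | h6
      · exact Or.inl (mem_shn.2 h6)
      · exact Or.inr (sft_lt_iff.2 h6)
  have hth : ∀ (z : Pt) (k : ℕ), (k ∈ W.A ∨ k < M) → (shn W M N).th z (sft M N k) = W.th z k := by
    intro z k
    induction k using Nat.strong_induction_on with
    | _ k ih =>
      intro hk
      by_cases hkA : k ∈ W.A
      · obtain ⟨h1, h2, h3, h4, h5, h6⟩ := hwf k hkA
        rw [th_node hwf' (mem_shn.2 hkA) z, th_node hwf hkA z, hc k hkA, ha k hkA, hb k hkA,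
          ih _ h3 h5, ih _ h4 h6]
      · have hkM : k < M := hk.resolve_left hkA
        have h1 : sft M N k ∉ (shn W M N).A := fun h2 => hkA (mem_shn.1 h2)
        rw [th_seg h1, th_seg hkA, sft_lt hkM]
  have hpev : ∀ (z : Pt) (Q : MvPolynomial ℕ K), (∀ v ∈ Q.vars, v ∈ W.A ∨ v < M) →
      pev (rename (sft M N) Q) ((shn W M N).th z) = pev Q (W.th z) := by
    intro z Q hQ
    rw [pev_ren]
    exact pev_congr_vars fun v hv => hth z v (hQ v hv)
  have hvars : ∀ Q : MvPolynomial ℕ K, (∀ v ∈ Q.vars, v ∈ W.A ∨ v < M) →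
      ∀ v ∈ (rename (sft M N) Q).vars, v ∈ (shn W M N).A ∨ v < M := by
    intro Q hQ v hv
    obtain ⟨u, hu, rfl⟩ := Finset.mem_image.1 (vars_rename (sft M N) Q hv)
    rcases hQ u hu with h1 | h1
    · exact Or.inl (mem_shn.2 h1)
    · exact Or.inr (sft_lt_iff.2 h1)
  have hnode : ∀ L : MvPolynomial ℕ K, (∃ v ∈ W.A, L = C 4 - X v ∨
      ∃ (e : ℤ) (c : ℕ), (e = 1 ∨ e = -1) ∧ c < 8 ∧ L = fin8 hI e c 2 (X v)) →
      ∃ v ∈ (shn W M N).A, rename (sft M N) L = C 4 - X v ∨
      ∃ (e : ℤ) (c : ℕ), (e = 1 ∨ e = -1) ∧ c < 8 ∧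
        rename (sft M N) L = fin8 hI e c 2 (X v) := by
    rintro L ⟨v, hv, hL⟩
    refine ⟨sft M N v, mem_shn.2 hv, ?_⟩
    rcases hL with rfl | ⟨e, c, he, hc8, rfl⟩
    · left
      rw [map_sub, rename_C, rename_X]
    · right
      exact ⟨e, c, he, hc8, ren_fin8 hI _ e c 2 v⟩
  refine ⟨shn W M N, rename (sft M N) P, E.map (rename (sft M N)), ?_, ?_, ?_, ?_⟩
  · refine ⟨h.hM, hwf', ?_, hvars P h.vP, ?_, ?_⟩
    · intro L' hL'
      obtain ⟨L, hL, rfl⟩ := List.mem_map.1 hL'
      rcases h.fn L hL with h1 | h1 | h1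
      · exact Or.inl (hnode L h1)
      · right
        left
        obtain ⟨v, hv, e, c, he, hc8, rfl⟩ := h1
        exact ⟨sft M N v, fun h2 => hv (mem_shn.1 h2), e, c, he, hc8, ren_fin8 hI _ e c 1 v⟩
      · right
        right
        have hlt : ∀ v ∈ L.vars, v < M := fun v hv => (h.vE L hL v hv).resolve_left (h1.2 v hv)
        rw [rename_fix fun v hv => sft_lt (hlt v hv)]
        refine ⟨h1.1, fun v hv hvA => ?_⟩
        have := (hwf' v hvA).1
        have := hlt v hv
        omega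
    · intro L' hL'
      obtain ⟨L, hL, rfl⟩ := List.mem_map.1 hL'
      exact hvars L (h.vE L hL)
    · intro z hz
      rw [h.eq z hz]
      unfold nm
      rw [hpev z P h.vP, pev_prod, pev_prod, List.map_map]
      congr 2
      refine List.map_congr_left fun L hL => ?_
      exact (hpev z L (h.vE L hL)).symm
  · intro k' hk'
    obtain ⟨k, hk, rfl⟩ := hA k' hk'
    rw [hget k hk]
    omega
  · intro hG k' hk'
    obtain ⟨k, hk, rfl⟩ := hA k' hk'
    rw [hc k hk, ha k hk, hb k hk]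
    rcases hG k hk with ⟨h1, h2⟩ | ⟨h1, h2, h3⟩ | h1
    · exact Or.inl ⟨mem_shn.2 h1, mem_shn.2 h2⟩
    · exact Or.inr (Or.inl ⟨by rw [h1], fun h4 => h2 (mem_shn.1 h4), h3⟩)
    · exact Or.inr (Or.inr h1)
  · intro hE L' hL'
    obtain ⟨L, hL, rfl⟩ := List.mem_map.1 hL'
    exact hnode L (hE L hL)

end MP1eadaeL
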