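import Pool.Agent.Lib_MP_1eadae_ft.COne
import Pool.Agent.Lib_MP_1eadae_ft.Shi

/-! # MP_1eadae_ag (FT), piece CLSA: the class of a function computed by a network -/

namespace MP1eadaeL

open Complex Function MvPolynomial

variable {K : Subfield ℂ} {hI : I ∈ K} {Cl : (Pt → ℂ) → Prop}
  {Dn : Finset ℕ → MvPolynomial ℕ K → Prop} {Ex : MvPolynomial ℕ K → Prop} {M : ℕ}

/- Piece CLSA (all theorems of this file).  `Nul`: take unions of the finite sets `D0`.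
`ef_unique_disj`: for `D ⊇ W1.A ∪ W2.A`: `tp (D \ A1) F1 - tp (D \ A2) F2 =
tp (D \ (A1 ∪ A2)) (tp A2 F1 - tp A1 F2)`, so `Sys.rep_unique_disj` and `Sys.mul_tp`
(`Rpr.depOn`, `tp_depOn`: the function depends only on `A1 ∪ A2 ∪ Iio M`).
`ef_unique`: a third representation with nodes beyond all those of `W1`, `W2` (`Rpr.shift`).
`ef_add`: the same with `W1.join W2`: `Rpr.left`, `Rpr.right`, `Rpr.add_same`, `Sys.cls_add`,
`Sys.join_left`, `Sys.join_right`.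
`Cls.add`: shift the second representation to be disjoint from the first; `Cls.unique`:
transitivity. -/

theorem Nul.zero : Nul Cl M (fun _ _ => 0) :=
  ⟨∅, fun d hd => absurd hd (Finset.notMem_empty d), fun _ _ _ => St.zero⟩

theorem Nul.add {T T' : Finset ℕ → Pt → ℂ} (h : Nul Cl M T) (h' : Nul Cl M T') :
    Nul Cl M (fun D z => T D z + T' D z) := by
  obtain ⟨D0, h0, h1⟩ := h
  obtain ⟨D0', h0', h1'⟩ := h'
  refine ⟨D0 ∪ D0', fun d hd => ?_, fun D hD hM => ?_⟩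
  · rcases Finset.mem_union.1 hd with hd | hd
    · exact h0 d hd
    · exact h0' d hd
  · exact St.add _ _ (h1 D (Finset.union_subset_left hD) hM)
      (h1' D (Finset.union_subset_right hD) hM)

theorem Nul.neg {T : Finset ℕ → Pt → ℂ} (h : Nul Cl M T) : Nul Cl M (fun D z => - T D z) := by
  obtain ⟨D0, h0, h1⟩ := h
  exact ⟨D0, h0, fun D hD hM => St.neg _ (h1 D hD hM)⟩

theorem Nul.congr {T T' : Finset ℕ → Pt → ℂ} (h : Nul Cl M T)
    (he : ∀ D : Finset ℕ, ∀ z ∈ Dom X0, T D z = T' D z) : Nul Cl M T' := by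
  obtain ⟨D0, h0, h1⟩ := h
  exact ⟨D0, h0, fun D hD hM => St.congr _ _ (h1 D hD hM) (he D)⟩

theorem Nul.sub {T T' : Finset ℕ → Pt → ℂ} (h : Nul Cl M T) (h' : Nul Cl M T') :
    Nul Cl M (fun D z => T D z - T' D z) :=
  (h.add h'.neg).congr (fun D z _ => by ring)

theorem Nul.smul (S : Sys K hI Cl Dn Ex) {T : Finset ℕ → Pt → ℂ} {a : ℂ} (ha : a ∈ K)
    (h : Nul Cl M T) : Nul Cl M (fun D z => a * T D z) := by
  obtain ⟨D0, h0, h1⟩ := h
  exact ⟨D0, h0, fun D hD hM => S.st_smul ha (h1 D hD hM)⟩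

private theorem clsa_tp_union {A B : Finset ℕ} (h : Disjoint A B) (z : Pt) :
    tp (A ∪ B) z = tp A z * tp B z := by
  unfold tp
  exact Finset.prod_union h

/-- `tp (D \ A1) = tp (D \ (A1 ∪ A2)) * tp A2` -/
private theorem clsa_tp_sdiff {A1 A2 D : Finset ℕ} (hd : Disjoint A1 A2) (hD : A2 ⊆ D) (z : Pt) :
    tp (D \ A1) z = tp (D \ (A1 ∪ A2)) z * tp A2 z := by
  have h : D \ A1 = (D \ (A1 ∪ A2)) ∪ A2 := by
    ext d
    simp only [Finset.mem_sdiff, Finset.mem_union, not_or]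
    constructor
    · rintro ⟨h1, h2⟩
      by_cases h3 : d ∈ A2
      · exact Or.inr h3
      · exact Or.inl ⟨h1, h2, h3⟩
    · rintro (⟨h1, h2, _⟩ | h3)
      · exact ⟨h1, h2⟩
      · exact ⟨hD h3, fun h4 => (Finset.disjoint_left.1 hd) h4 h3⟩
  have h' : Disjoint (D \ (A1 ∪ A2)) A2 := by
    rw [Finset.disjoint_left]
    intro d h1 h2
    exact (Finset.mem_sdiff.1 h1).2 (Finset.mem_union_right _ h2)
  rw [h, clsa_tp_union h']

/-- the family of a Stokes element times `tp`'s is null -/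
private theorem clsa_key (S : Sys K hI Cl Dn Ex) {A : Finset ℕ} (hA : ∀ d ∈ A, M ≤ d)
    {F : Pt → ℂ} (hF : DepOn X0 ((↑A : Set ℕ) ∪ Set.Iio M) F) (h : St Cl X0 Set.univ F)
    {T : Finset ℕ → Pt → ℂ}
    (hT : ∀ D : Finset ℕ, A ⊆ D → ∀ z ∈ Dom X0, T D z = tp (D \ A) z * F z) : Nul Cl M T := by
  refine ⟨A, hA, fun D hD hM => ?_⟩
  have hN : ∀ i ∈ ((↑A : Set ℕ) ∪ Set.Iio M), i < A.sup id + 1 + M := by
    rintro i (hi | hi)
    · have : i ≤ A.sup id := Finset.le_sup (f := id) (Finset.mem_coe.1 hi)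
      omega
    · have : i < M := hi
      omega
  refine St.congr _ _ (S.mul_tp hN (D := D \ A) ?_ hF h) (fun z hz => (hT D hD z hz).symm)
  rintro d hd (hd' | hd')
  · exact (Finset.mem_sdiff.1 hd).2 (Finset.mem_coe.1 hd')
  · exact absurd (hM d (Finset.mem_sdiff.1 hd).1) (not_le.2 hd')

private theorem clsa_dep_mono {A B : Set ℕ} {F : Pt → ℂ} (h : DepOn X0 A F) (hAB : A ⊆ B) :
    DepOn X0 B F := fun z hz w hw hzw => h z hz w hw (fun i hi => hzw i (hAB hi))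

private theorem clsa_dep_mul {A : Set ℕ} {F G : Pt → ℂ} (hF : DepOn X0 A F) (hG : DepOn X0 A G) :
    DepOn X0 A (fun z => F z * G z) := fun z hz w hw hzw => by
  beta_reduce
  rw [hF z hz w hw hzw, hG z hz w hw hzw]

private theorem clsa_dep_add {A : Set ℕ} {F G : Pt → ℂ} (hF : DepOn X0 A F) (hG : DepOn X0 A G) :
    DepOn X0 A (fun z => F z + G z) := fun z hz w hw hzw => by
  beta_reduce
  rw [hF z hz w hw hzw, hG z hz w hw hzw]

private theorem clsa_dep_sub {A : Set ℕ} {F G : Pt → ℂ} (hF : DepOn X0 A F) (hG : DepOn X0 A G) :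
    DepOn X0 A (fun z => F z - G z) := fun z hz w hw hzw => by
  beta_reduce
  rw [hF z hz w hw hzw, hG z hz w hw hzw]

private theorem clsa_sub_left (A1 A2 : Finset ℕ) (M : ℕ) :
    ((↑A1 : Set ℕ) ∪ Set.Iio M) ⊆ ((↑(A1 ∪ A2) : Set ℕ) ∪ Set.Iio M) := by
  rintro i (hi | hi)
  · exact Or.inl (Finset.mem_coe.2 (Finset.mem_union_left _ (Finset.mem_coe.1 hi)))
  · exact Or.inr hi

private theorem clsa_sub_right (A1 A2 : Finset ℕ) (M : ℕ) :
    ((↑A2 : Set ℕ) ∪ Set.Iio M) ⊆ ((↑(A1 ∪ A2) : Set ℕ) ∪ Set.Iio M) := by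
  rintro i (hi | hi)
  · exact Or.inl (Finset.mem_coe.2 (Finset.mem_union_right _ (Finset.mem_coe.1 hi)))
  · exact Or.inr hi

private theorem clsa_sub_left' (A1 A2 : Finset ℕ) (M : ℕ) :
    (↑A1 : Set ℕ) ⊆ ((↑(A1 ∪ A2) : Set ℕ) ∪ Set.Iio M) := fun _ hi =>
  Or.inl (Finset.mem_coe.2 (Finset.mem_union_left _ (Finset.mem_coe.1 hi)))

private theorem clsa_sub_right' (A1 A2 : Finset ℕ) (M : ℕ) :
    (↑A2 : Set ℕ) ⊆ ((↑(A1 ∪ A2) : Set ℕ) ∪ Set.Iio M) := fun _ hi =>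
  Or.inl (Finset.mem_coe.2 (Finset.mem_union_right _ (Finset.mem_coe.1 hi)))

theorem Sys.ef_unique_disj (S : Sys K hI Cl Dn Ex) {W1 W2 : Net K} {P1 P2 : MvPolynomial ℕ K}
    {E1 E2 : List (MvPolynomial ℕ K)} {f : Pt → ℂ} (h1 : Rpr hI Ex M W1 P1 E1 f)
    (h2 : Rpr hI Ex M W2 P2 E2 f) (hd : Disjoint W1.A W2.A) :
    Nul Cl M (fun D z => EF W1.A (cls W1 P1 E1) D z - EF W2.A (cls W2 P2 E2) D z) := by
  have hA : ∀ d ∈ W1.A ∪ W2.A, M ≤ d := by
    intro d hd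
    rcases Finset.mem_union.1 hd with h | h
    · exact (h1.wf d h).1
    · exact (h2.wf d h).1
  refine clsa_key S hA ?_ (S.rep_unique_disj h1 h2 hd) ?_
  · exact clsa_dep_sub
      (clsa_dep_mul (clsa_dep_mono (tp_depOn W2.A) (clsa_sub_right' _ _ _))
        (clsa_dep_mono h1.depOn (clsa_sub_left _ _ _)))
      (clsa_dep_mul (clsa_dep_mono (tp_depOn W1.A) (clsa_sub_left' _ _ _))
        (clsa_dep_mono h2.depOn (clsa_sub_right _ _ _)))
  · intro D hD z _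
    have e1 := clsa_tp_sdiff hd (Finset.union_subset_right hD) z
    have e2 := clsa_tp_sdiff hd.symm (Finset.union_subset_left hD) z
    rw [Finset.union_comm W2.A W1.A] at e2
    unfold EF
    rw [e1, e2]
    ring

/-- a common bound for a finite set -/
private theorem clsa_disj {A B : Finset ℕ} (h : ∀ k ∈ B, A.sup id + 1 ≤ k) : Disjoint A B := by
  rw [Finset.disjoint_left]
  intro k hk hk'
  have h1 : k ≤ A.sup id := Finset.le_sup (f := id) hk
  have h2 := h k hk'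
  omega

theorem Sys.ef_unique (S : Sys K hI Cl Dn Ex) {W1 W2 : Net K} {P1 P2 : MvPolynomial ℕ K}
    {E1 E2 : List (MvPolynomial ℕ K)} {f : Pt → ℂ} (h1 : Rpr hI Ex M W1 P1 E1 f)
    (h2 : Rpr hI Ex M W2 P2 E2 f) :
    Nul Cl M (fun D z => EF W1.A (cls W1 P1 E1) D z - EF W2.A (cls W2 P2 E2) D z) := by
  obtain ⟨W', P', E', h', hk, _, _⟩ := h1.shift ((W1.A ∪ W2.A).sup id + 1)
  have hd := clsa_disj hk
  have hd1 : Disjoint W1.A W'.A := Finset.disjoint_of_subset_left Finset.subset_union_left hd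
  have hd2 : Disjoint W2.A W'.A := Finset.disjoint_of_subset_left Finset.subset_union_right hd
  exact ((S.ef_unique_disj h1 h' hd1).sub (S.ef_unique_disj h2 h' hd2)).congr
    (fun D z _ => by ring)

theorem Sys.ef_add (S : Sys K hI Cl Dn Ex) {W1 W2 : Net K} {P1 P2 : MvPolynomial ℕ K}
    {E1 E2 : List (MvPolynomial ℕ K)} {f1 f2 : Pt → ℂ} (h1 : Rpr hI Ex M W1 P1 E1 f1)
    (h2 : Rpr hI Ex M W2 P2 E2 f2) (hd : Disjoint W1.A W2.A) :
    Rpr hI Ex M (W1.join W2) (P1 * E2.prod + P2 * E1.prod) (E1 ++ E2) (fun z => f1 z + f2 z) ∧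
    Nul Cl M (fun D z => EF W1.A (cls W1 P1 E1) D z + EF W2.A (cls W2 P2 E2) D z
      - EF (W1.join W2).A (cls (W1.join W2) (P1 * E2.prod + P2 * E1.prod) (E1 ++ E2)) D z) := by
  have g1 := h1.left h2.wf hd
  have g2 := h2.right h1.wf hd
  have g := g1.add_same g2 (fun L hL z hz => S.fn_ne (g1.fn L hL) hz)
    (fun L hL z hz => S.fn_ne (g2.fn L hL) hz)
  have hA : ∀ d ∈ W1.A ∪ W2.A, M ≤ d := by
    intro d hd
    rcases Finset.mem_union.1 hd with h | h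
    · exact (h1.wf d h).1
    · exact (h2.wf d h).1
  have hSt : St Cl X0 Set.univ (fun z => (tp W2.A z * cls W1 P1 E1 z + tp W1.A z * cls W2 P2 E2 z)
      - cls (W1.join W2) (P1 * E2.prod + P2 * E1.prod) (E1 ++ E2) z) := by
    refine St.congr _ _ (St.neg _ (St.add _ _ (S.join_left h1 h2.wf hd)
      (S.join_right h1.wf h2 hd))) (fun z hz => ?_)
    rw [S.cls_add g1.wf P1 P2 g1.fn g2.fn z hz]
    ring
  refine ⟨g, clsa_key S hA ?_ hSt ?_⟩
  · exact clsa_dep_sub (clsa_dep_add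
      (clsa_dep_mul (clsa_dep_mono (tp_depOn W2.A) (clsa_sub_right' _ _ _))
        (clsa_dep_mono h1.depOn (clsa_sub_left _ _ _)))
      (clsa_dep_mul (clsa_dep_mono (tp_depOn W1.A) (clsa_sub_left' _ _ _))
        (clsa_dep_mono h2.depOn (clsa_sub_right _ _ _)))) g.depOn
  · intro D hD z _
    have e1 := clsa_tp_sdiff hd (Finset.union_subset_right hD) z
    have e2 := clsa_tp_sdiff hd.symm (Finset.union_subset_left hD) z
    rw [Finset.union_comm W2.A W1.A] at e2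
    have e3 : (W1.join W2).A = W1.A ∪ W2.A := rfl
    unfold EF
    rw [e1, e2, e3]
    ring

theorem Cls.of_rpr {W : Net K} {P : MvPolynomial ℕ K} {E : List (MvPolynomial ℕ K)} {f : Pt → ℂ}
    (h : Rpr hI Ex M W P E f) : Cls hI Cl Ex M f (EF W.A (cls W P E)) :=
  ⟨W, P, E, h, Nul.zero.congr (fun D z _ => (sub_self _).symm)⟩

theorem Cls.unique (S : Sys K hI Cl Dn Ex) {f : Pt → ℂ} {T T' : Finset ℕ → Pt → ℂ}
    (h : Cls hI Cl Ex M f T) (h' : Cls hI Cl Ex M f T') :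
    Nul Cl M (fun D z => T D z - T' D z) := by
  obtain ⟨W, P, E, hR, hT⟩ := h
  obtain ⟨W', P', E', hR', hT'⟩ := h'
  exact ((hT.sub hT').add (S.ef_unique hR hR')).congr (fun D z _ => by ring)

theorem Cls.congr {f g : Pt → ℂ} {T : Finset ℕ → Pt → ℂ}
    (h : Cls hI Cl Ex M f T) (hfg : ∀ z ∈ Dom X0, f z = g z) : Cls hI Cl Ex M g T := by
  obtain ⟨W, P, E, hR, hT⟩ := h
  exact ⟨W, P, E, hR.congr hfg, hT⟩

theorem Cls.of_nul {f : Pt → ℂ} {T T' : Finset ℕ → Pt → ℂ}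
    (h : Cls hI Cl Ex M f T) (hT : Nul Cl M (fun D z => T D z - T' D z)) :
    Cls hI Cl Ex M f T' := by
  obtain ⟨W, P, E, hR, hT'⟩ := h
  exact ⟨W, P, E, hR, (hT'.sub hT).congr (fun D z _ => by ring)⟩

theorem Cls.add (S : Sys K hI Cl Dn Ex) {f g : Pt → ℂ} {T T' : Finset ℕ → Pt → ℂ}
    (h : Cls hI Cl Ex M f T) (h' : Cls hI Cl Ex M g T') :
    Cls hI Cl Ex M (fun z => f z + g z) (fun D z => T D z + T' D z) := by
  obtain ⟨W, P, E, hR, hT⟩ := h
  obtain ⟨W', P', E', hR', hT'⟩ := h'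
  obtain ⟨W2, P2, E2, hR2, hk, _, _⟩ := hR'.shift (W.A.sup id + 1)
  have hd := clsa_disj hk
  obtain ⟨q1, q2⟩ := S.ef_add hR hR2 hd
  refine ⟨_, _, _, q1, ?_⟩
  exact (((hT.add hT').add (S.ef_unique hR' hR2)).add q2).congr (fun D z _ => by ring)

theorem Cls.smul (S : Sys K hI Cl Dn Ex) {f : Pt → ℂ} {T : Finset ℕ → Pt → ℂ} {a : ℂ} (ha : a ∈ K)
    (h : Cls hI Cl Ex M f T) : Cls hI Cl Ex M (fun z => a * f z) (fun D z => a * T D z) := by
  obtain ⟨W, P, E, hR, hT⟩ := h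
  refine ⟨W, _, E, hR.smul ⟨a, ha⟩, (hT.smul S ha).congr (fun D z _ => ?_)⟩
  unfold EF
  rw [cls_smul]
  ring

/-- the zero function -/
theorem Cls.zero (S : Sys K hI Cl Dn Ex) (hM : 1 ≤ M) :
    Cls hI Cl Ex M (fun _ => 0) (fun _ _ => 0) := by
  refine ⟨⟨∅, fun _ _ => 0, fun _ => 0, fun _ => 0⟩, 0, [], ⟨hM, ?_, ?_, ?_, ?_, ?_⟩, ?_⟩
  · intro k hk
    exact absurd hk (Finset.notMem_empty k)
  · intro L hL
    exact absurd hL List.not_mem_nil
  · intro v hv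
    simp at hv
  · intro L hL
    exact absurd hL List.not_mem_nil
  · intro z _
    simp [nm, pev]
  · refine Nul.zero.congr (fun D z _ => ?_)
    simp [EF, cls, ctrs, nm, pev]

end MP1eadaeL
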