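import Pool.Agent.Lib_MP_1eadae_ft.TmB
import Pool.Agent.Lib_MP_1eadae_ft.Cau

/-! # MP_1eadae_ag (FT), piece TEMG: the denominators of networks are allowed -/

namespace MP1eadaeL

open Complex Function MvPolynomial

variable {K : Subfield ℂ} {hI : I ∈ K} {Cl : (Pt → ℂ) → Prop}
  {Dn : Finset ℕ → MvPolynomial ℕ K → Prop} {Ex : MvPolynomial ℕ K → Prop}

/- Piece TEMG (all theorems of this file).  Use the field `S.tem` with the templates of `Tem`:
e.g. for `dn_gate` take `M = X 0 - gpl c (X 1) (X 2)` and `i = ![k, a, b, b]`: `rename i M` is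
the polynomial in question, and for `u_j ∈ XA A (i j)` we have `‖u_0‖ = 2` (as `k ∈ A`),
`‖u_1‖, ‖u_2‖ ≤ 2` (`norm_XA`), hence `‖c_0 + c_1 u_1 + c_2 u_2 + c_3 u_1 u_2‖ ≤ 3/2 < ‖u_0‖`
(`norm_gate`).  With the additional variable `u_3 ∈ seg` (index `s ∉ A`), `‖u_3‖ ≤ 1`.
`dn_gate_sub`: compute `sub v s (X j - gpl c (X a) (X b))` in the four cases `a = v` or not,
`b = v` or not.  For the denominators `fin8`: `8 + e i (c + w u)` has real part
`8 - e w Im u ≥ 8 - 2 * 2 = 4` for `w = 2`, `‖u‖ ≤ 2` and real part `8` for real `u`. -/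

theorem norm_gate {c : Fin 4 → ℂ} (hc : GC c) {u v : ℂ} (hu : ‖u‖ ≤ 2) (hv : ‖v‖ ≤ 2) :
    ‖c 0 + c 1 * u + c 2 * v + c 3 * (u * v)‖ ≤ 3 / 2 := by
  have h1 : ‖c 1 * u‖ ≤ 2 * ‖c 1‖ := by
    rw [norm_mul]
    nlinarith [norm_nonneg (c 1), norm_nonneg u]
  have h2 : ‖c 2 * v‖ ≤ 2 * ‖c 2‖ := by
    rw [norm_mul]
    nlinarith [norm_nonneg (c 2), norm_nonneg v]
  have h3 : ‖c 3 * (u * v)‖ ≤ 4 * ‖c 3‖ := by
    rw [norm_mul, norm_mul]
    have h4 : ‖u‖ * ‖v‖ ≤ 2 * 2 :=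
      mul_le_mul hu hv (norm_nonneg v) (by norm_num)
    nlinarith [norm_nonneg (c 3)]
  have h5 := hc.2
  have h6 : ‖c 0 + c 1 * u + c 2 * v + c 3 * (u * v)‖ ≤
      ‖c 0‖ + ‖c 1 * u‖ + ‖c 2 * v‖ + ‖c 3 * (u * v)‖ :=
    (norm_add_le _ _).trans (add_le_add ((norm_add_le _ _).trans
      (add_le_add (norm_add_le _ _) le_rfl)) le_rfl)
  linarith

theorem TEMG_norm_circ {A : Finset ℕ} {k : ℕ} (hk : k ∈ A) {w : ℂ} (hw : w ∈ XA A k) :
    ‖w‖ = 2 := by
  rw [XA_circ hk] at hw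
  have h : dist w 0 = ((2 : ℚ) : ℝ) := hw
  rw [dist_zero_right] at h
  rw [h]
  norm_num

theorem TEMG_seg {A : Finset ℕ} {s : ℕ} (hs : s ∉ A) {w : ℂ} (hw : w ∈ XA A s) : w ∈ seg := by
  rw [XA_seg hs] at hw
  exact hw

theorem TEMG_norm_seg {w : ℂ} (hw : w ∈ seg) : ‖w‖ ≤ 1 := by
  obtain ⟨t, ht, rfl⟩ := hw
  rw [Complex.norm_real, Real.norm_eq_abs, abs_of_nonneg ht.1]
  exact ht.2

theorem TEMG_im_seg {w : ℂ} (hw : w ∈ seg) : w.im = 0 := by
  obtain ⟨t, ht, rfl⟩ := hw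
  exact Complex.ofReal_im t

theorem TEMG_ne_of_norm {a b : ℂ} (ha : ‖a‖ = 2) (hb : ‖b‖ < 2) : a - b ≠ 0 := by
  intro h
  rw [sub_eq_zero] at h
  rw [h] at ha
  linarith

theorem TEMG_fin8_ne {e : ℤ} (he : e = 1 ∨ e = -1) {c w : ℕ} {u : ℂ}
    (h : (w : ℝ) * |u.im| < 8) :
    (8 : ℂ) + ((e : ℂ) * I) * ((c : ℂ) + (w : ℂ) * u) ≠ 0 := by
  intro h0
  have h1 := congrArg Complex.re h0
  have h2 : ((8 : ℂ) + ((e : ℂ) * I) * ((c : ℂ) + (w : ℂ) * u)).re =
      8 - (e : ℝ) * ((w : ℝ) * u.im) := by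
    simp [Complex.add_re, Complex.mul_re, Complex.mul_im]
    ring
  rw [h2, Complex.zero_re] at h1
  have h3 : |(w : ℝ) * u.im| < 8 := by
    rw [abs_mul, abs_of_nonneg (Nat.cast_nonneg w)]
    exact h
  have h4 := abs_lt.mp h3
  rcases he with rfl | rfl
  · push_cast at h1
    linarith
  · push_cast at h1
    linarith

theorem TEMG_aeval_gpl {σ : Type} (c : Fin 4 → K) (P Q : MvPolynomial σ K) (u : σ → ℂ) :
    aeval u (gpl c P Q) = (c 0 : ℂ) + (c 1 : ℂ) * aeval u P + (c 2 : ℂ) * aeval u Q +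
      (c 3 : ℂ) * (aeval u P * aeval u Q) := by
  unfold gpl
  simp only [map_add, map_mul, aeval_C]
  rfl

theorem TEMG_rename_gpl {σ τ : Type} (c : Fin 4 → K) (P Q : MvPolynomial σ K) (i : σ → τ) :
    rename i (gpl c P Q) = gpl c (rename i P) (rename i Q) := by
  unfold gpl
  simp only [map_add, map_mul, rename_C]

theorem TEMG_sub_gpl (v s : ℕ) (c : Fin 4 → K) (P Q : MvPolynomial ℕ K) :
    sub v s (gpl c P Q) = gpl c (sub v s P) (sub v s Q) := by
  unfold gpl sub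
  simp only [map_add, map_mul, bind₁_C_right]

theorem TEMG_sub_X (v s j : ℕ) :
    sub v s (X j : MvPolynomial ℕ K) = if j = v then X s * X v else X j := by
  unfold sub
  rw [bind₁_X_right]

theorem TEMG_sub_sub (v s : ℕ) (P Q : MvPolynomial ℕ K) :
    sub v s (P - Q) = sub v s P - sub v s Q := by
  unfold sub
  exact map_sub _ _ _

theorem TEMG_sub_C (v s : ℕ) (a : K) : sub v s (C a : MvPolynomial ℕ K) = C a := by
  unfold sub
  exact bind₁_C_right _ _

theorem TEMG_aeval_fin8 {σ : Type} (e : ℤ) (c w : ℕ) (P : MvPolynomial σ K) (u : σ → ℂ) :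
    aeval u (fin8 hI e c w P) = (8 : ℂ) + ((e : ℂ) * I) * ((c : ℂ) + (w : ℂ) * aeval u P) := by
  unfold fin8
  simp only [map_add, map_mul, aeval_C]
  have h1 : (algebraMap K ℂ) (8 : K) = 8 := map_ofNat _ _
  have h2 : (algebraMap K ℂ) (e : K) = (e : ℂ) := map_intCast _ _
  have h3 : (algebraMap K ℂ) (⟨I, hI⟩ : K) = I := rfl
  have h4 : (algebraMap K ℂ) (c : K) = (c : ℂ) := map_natCast _ _
  have h5 : (algebraMap K ℂ) (w : K) = (w : ℂ) := map_natCast _ _
  rw [h1, h2, h3, h4, h5]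

theorem TEMG_rename_fin8 {σ τ : Type} (e : ℤ) (c w : ℕ) (P : MvPolynomial σ K) (i : σ → τ) :
    rename i (fin8 hI e c w P) = fin8 hI e c w (rename i P) := by
  unfold fin8
  simp only [map_add, map_mul, rename_C]

theorem TEMG_sub_fin8 (v s : ℕ) (e : ℤ) (c w : ℕ) (P : MvPolynomial ℕ K) :
    sub v s (fin8 hI e c w P) = fin8 hI e c w (sub v s P) := by
  unfold fin8 sub
  simp only [map_add, map_mul, bind₁_C_right]

theorem Sys.dn_gate (S : Sys K hI Cl Dn Ex) {A : Finset ℕ} {k : ℕ} (hk : k ∈ A) {c : Fin 4 → K}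
    (hc : GCK c) (a b : ℕ) : Dn A (X k - gpl c (X a) (X b)) := by
  have h := S.tem A (X 0 - gpl c (X 1) (X 2)) ![k, a, b, b]
    (Or.inl ⟨c, hc, Or.inl rfl⟩) (by
      intro u hu
      rw [map_sub, aeval_X, TEMG_aeval_gpl, aeval_X, aeval_X]
      refine TEMG_ne_of_norm (TEMG_norm_circ hk (hu 0)) ?_
      have h2 := norm_gate hc (norm_XA (hu 1)) (norm_XA (hu 2))
      exact lt_of_le_of_lt h2 (by norm_num))
  rw [map_sub, rename_X, TEMG_rename_gpl, rename_X, rename_X] at h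
  exact h

theorem Sys.dn_gate_norm (S : Sys K hI Cl Dn Ex) {A : Finset ℕ} {k s : ℕ} (hk : k ∈ A)
    (hs : s ∉ A) {c : Fin 4 → K} (hc : GCK c) (a b : ℕ) :
    Dn A (X k - X s * gpl c (X a) (X b)) := by
  have h := S.tem A (X 0 - X 3 * gpl c (X 1) (X 2)) ![k, a, b, s]
    (Or.inl ⟨c, hc, Or.inr (Or.inr (Or.inr (Or.inr rfl)))⟩) (by
      intro u hu
      rw [map_sub, map_mul, aeval_X, aeval_X, TEMG_aeval_gpl, aeval_X, aeval_X]
      refine TEMG_ne_of_norm (TEMG_norm_circ hk (hu 0)) ?_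
      have h2 := norm_gate hc (norm_XA (hu 1)) (norm_XA (hu 2))
      have h3 := TEMG_norm_seg (TEMG_seg hs (hu 3))
      rw [norm_mul]
      calc _ ≤ 1 * (3 / 2 : ℝ) := mul_le_mul h3 h2 (norm_nonneg _) (by norm_num)
        _ < 2 := by norm_num)
  rw [map_sub, map_mul, rename_X, rename_X, TEMG_rename_gpl, rename_X, rename_X] at h
  exact h

theorem Sys.dn_gate_sub (S : Sys K hI Cl Dn Ex) {A : Finset ℕ} {j v s : ℕ} (hj : j ∈ A)
    (hjv : j ≠ v) (hs : s ∉ A) {c : Fin 4 → K} (hc : GCK c) (a b : ℕ) :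
    Dn A (sub v s (X j - gpl c (X a) (X b))) := by
  have hm : ∀ {x y : ℂ}, ‖x‖ ≤ 1 → ‖y‖ ≤ 2 → ‖x * y‖ ≤ 2 := by
    intro x y hx hy
    rw [norm_mul]
    calc _ ≤ 1 * (2 : ℝ) := mul_le_mul hx hy (norm_nonneg _) (by norm_num)
      _ = 2 := by norm_num
  rw [TEMG_sub_sub, TEMG_sub_gpl, TEMG_sub_X, TEMG_sub_X, TEMG_sub_X, if_neg hjv]
  by_cases ha : a = v
  · rw [if_pos ha]
    by_cases hb : b = v
    · rw [if_pos hb]
      have h := S.tem A (X 0 - gpl c (X 3 * X 1) (X 3 * X 2)) ![j, v, v, s]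
        (Or.inl ⟨c, hc, Or.inr (Or.inr (Or.inr (Or.inl rfl)))⟩) (by
          intro u hu
          rw [map_sub, aeval_X, TEMG_aeval_gpl, map_mul, map_mul, aeval_X, aeval_X, aeval_X]
          refine TEMG_ne_of_norm (TEMG_norm_circ hj (hu 0)) ?_
          have h3 := TEMG_norm_seg (TEMG_seg hs (hu 3))
          have h2 := norm_gate hc (hm h3 (norm_XA (hu 1))) (hm h3 (norm_XA (hu 2)))
          exact lt_of_le_of_lt h2 (by norm_num))
      rw [map_sub, rename_X, TEMG_rename_gpl, map_mul, map_mul, rename_X, rename_X, rename_X] at h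
      exact h
    · rw [if_neg hb]
      have h := S.tem A (X 0 - gpl c (X 3 * X 1) (X 2)) ![j, v, b, s]
        (Or.inl ⟨c, hc, Or.inr (Or.inl rfl)⟩) (by
          intro u hu
          rw [map_sub, aeval_X, TEMG_aeval_gpl, map_mul, aeval_X, aeval_X, aeval_X]
          refine TEMG_ne_of_norm (TEMG_norm_circ hj (hu 0)) ?_
          have h3 := TEMG_norm_seg (TEMG_seg hs (hu 3))
          have h2 := norm_gate hc (hm h3 (norm_XA (hu 1))) (norm_XA (hu 2))
          exact lt_of_le_of_lt h2 (by norm_num))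
      rw [map_sub, rename_X, TEMG_rename_gpl, map_mul, rename_X, rename_X, rename_X] at h
      exact h
  · rw [if_neg ha]
    by_cases hb : b = v
    · rw [if_pos hb]
      have h := S.tem A (X 0 - gpl c (X 1) (X 3 * X 2)) ![j, a, v, s]
        (Or.inl ⟨c, hc, Or.inr (Or.inr (Or.inl rfl))⟩) (by
          intro u hu
          rw [map_sub, aeval_X, TEMG_aeval_gpl, map_mul, aeval_X, aeval_X, aeval_X]
          refine TEMG_ne_of_norm (TEMG_norm_circ hj (hu 0)) ?_
          have h3 := TEMG_norm_seg (TEMG_seg hs (hu 3))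
          have h2 := norm_gate hc (norm_XA (hu 1)) (hm h3 (norm_XA (hu 2)))
          exact lt_of_le_of_lt h2 (by norm_num))
      rw [map_sub, rename_X, TEMG_rename_gpl, map_mul, rename_X, rename_X, rename_X] at h
      exact h
    · rw [if_neg hb]
      exact S.dn_gate hj hc a b

theorem Sys.dn_half (S : Sys K hI Cl Dn Ex) {A : Finset ℕ} {k i s : ℕ} (hk : k ∈ A)
    (hi : i ∉ A) (hs : s ∉ A) : Dn A (X k - C (1 / 4) * (X i * (1 + X s))) := by
  have h := S.tem A (X 0 - C (1 / 4) * (X 1 * (1 + X 3))) ![k, i, i, s]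
    (Or.inr (Or.inl rfl)) (by
      intro u hu
      rw [map_sub, map_mul, map_mul, map_add, map_one, aeval_X, aeval_X, aeval_X, aeval_C]
      refine TEMG_ne_of_norm (TEMG_norm_circ hk (hu 0)) ?_
      have h1 := TEMG_norm_seg (TEMG_seg hi (hu 1))
      have h3 := TEMG_norm_seg (TEMG_seg hs (hu 3))
      have h4 : ‖(1 : ℂ) + u 3‖ ≤ 2 := by
        refine (norm_add_le _ _).trans ?_
        rw [norm_one]
        linarith
      have h5 : (algebraMap K ℂ) (1 / 4 : K) = 1 / 4 := by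
        rw [map_div₀, map_one, map_ofNat]
      rw [h5, norm_mul, norm_mul]
      have h6 : ‖u 1‖ * ‖(1 : ℂ) + u 3‖ ≤ 1 * 2 :=
        mul_le_mul h1 h4 (norm_nonneg _) (by norm_num)
      have h7 : ‖(1 / 4 : ℂ)‖ = 1 / 4 := by norm_num
      rw [h7]
      linarith)
  simp only [map_sub, map_mul, map_add, map_one, rename_X, rename_C] at h
  exact h

theorem Sys.fn_dn (S : Sys K hI Cl Dn Ex) {A : Finset ℕ} {L : MvPolynomial ℕ K}
    (h : Fn hI Ex A L) : Dn A L := by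
  rcases h with ⟨v, hv, h⟩ | ⟨v, hv, e, c, he, hc, rfl⟩ | ⟨h, hv⟩
  · rcases h with rfl | ⟨e, c, he, hc, rfl⟩
    · have h := S.tem A (C 4 - X 0) (fun _ => v) (Or.inr (Or.inr (Or.inl rfl))) (by
        intro u hu h0
        rw [map_sub, aeval_X, aeval_C] at h0
        have h1 := TEMG_norm_circ hv (hu 0)
        have h2 : (algebraMap K ℂ) (4 : K) = 4 := map_ofNat _ _
        rw [h2, sub_eq_zero] at h0
        rw [← h0] at h1
        norm_num at h1)
      simp only [map_sub, rename_X, rename_C] at h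
      exact h
    · have h := S.tem A (fin8 hI e c 2 (X 0)) (fun _ => v)
        (Or.inr (Or.inr (Or.inr (Or.inr ⟨e, c, 2, he, hc.le, by norm_num, Or.inl rfl⟩)))) (by
        intro u hu
        rw [TEMG_aeval_fin8, aeval_X]
        refine TEMG_fin8_ne he ?_
        have h1 := norm_XA (hu 0)
        have h2 := Complex.abs_im_le_norm (u 0)
        push_cast
        linarith)
      rw [TEMG_rename_fin8, rename_X] at h
      exact h
  · have h := S.tem A (fin8 hI e c 1 (X 0)) (fun _ => v)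
      (Or.inr (Or.inr (Or.inr (Or.inr ⟨e, c, 1, he, hc.le, by norm_num, Or.inl rfl⟩)))) (by
      intro u hu
      rw [TEMG_aeval_fin8, aeval_X]
      refine TEMG_fin8_ne he ?_
      rw [TEMG_im_seg (TEMG_seg hv (hu 0)), abs_zero, mul_zero]
      norm_num)
    rw [TEMG_rename_fin8, rename_X] at h
    exact h
  · exact S.exdn A L h hv

theorem Sys.fn_sub (S : Sys K hI Cl Dn Ex) {A : Finset ℕ} {L : MvPolynomial ℕ K}
    (h : Fn hI Ex A L) {v s : ℕ} (hv : v ∈ A) (hs : s ∉ A) : Dn A (sub v s L) := by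
  have hm : ∀ {x y : ℂ}, ‖x‖ ≤ 1 → ‖y‖ ≤ 2 → ‖x * y‖ ≤ 2 := by
    intro x y hx hy
    rw [norm_mul]
    calc _ ≤ 1 * (2 : ℝ) := mul_le_mul hx hy (norm_nonneg _) (by norm_num)
      _ = 2 := by norm_num
  have h0 := h
  rcases h with ⟨w, hw, h⟩ | ⟨w, hw, e, c, he, hc, rfl⟩ | ⟨h, hL⟩
  · rcases h with rfl | ⟨e, c, he, hc, rfl⟩
    · by_cases hwv : w = v
      · rw [TEMG_sub_sub, TEMG_sub_C, TEMG_sub_X, if_pos hwv]
        have h := S.tem A (C 4 - X 3 * X 0) ![v, v, v, s]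
          (Or.inr (Or.inr (Or.inr (Or.inl rfl)))) (by
          intro u hu h0
          rw [map_sub, map_mul, aeval_X, aeval_X, aeval_C] at h0
          have h3 := TEMG_norm_seg (TEMG_seg hs (hu 3))
          have h1 := hm h3 (norm_XA (hu 0))
          have h2 : (algebraMap K ℂ) (4 : K) = 4 := map_ofNat _ _
          rw [h2, sub_eq_zero] at h0
          rw [← h0] at h1
          norm_num at h1)
        simp only [map_sub, map_mul, rename_X, rename_C] at h
        exact h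
      · rw [TEMG_sub_sub, TEMG_sub_C, TEMG_sub_X, if_neg hwv]
        exact S.fn_dn h0
    · by_cases hwv : w = v
      · rw [TEMG_sub_fin8, TEMG_sub_X, if_pos hwv]
        have h := S.tem A (fin8 hI e c 2 (X 3 * X 0)) ![v, v, v, s]
          (Or.inr (Or.inr (Or.inr (Or.inr
            ⟨e, c, 2, he, hc.le, by norm_num, Or.inr (Or.inl rfl)⟩)))) (by
          intro u hu
          rw [TEMG_aeval_fin8, map_mul, aeval_X, aeval_X]
          refine TEMG_fin8_ne he ?_
          have h3 := TEMG_norm_seg (TEMG_seg hs (hu 3))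
          have h1 := hm h3 (norm_XA (hu 0))
          have h2 := Complex.abs_im_le_norm (u 3 * u 0)
          push_cast
          linarith)
        rw [TEMG_rename_fin8, map_mul, rename_X, rename_X] at h
        exact h
      · rw [TEMG_sub_fin8, TEMG_sub_X, if_neg hwv]
        exact S.fn_dn h0
  · have hwv : w ≠ v := by
      rintro rfl
      exact hw hv
    rw [TEMG_sub_fin8, TEMG_sub_X, if_neg hwv]
    exact S.fn_dn h0
  · rw [sub_of_not_mem (fun hvL => hL v hvL hv)]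
    exact S.fn_dn h0

theorem TEMG_vars_four (v : ℕ) : v ∈ (C 4 - X v : MvPolynomial ℕ K).vars := by
  by_contra hv
  have h := pev_congr_vars (P := (C 4 - X v : MvPolynomial ℕ K)) (z := fun _ => 0)
    (w := update (fun _ => 0) v 1) (fun w hw => by
      rw [update_of_ne]
      rintro rfl
      exact hv hw)
  unfold pev at h
  simp only [map_sub, aeval_X, update_self, aeval_C] at h
  have h1 : (0 : ℂ) = 1 := sub_right_injective h
  exact zero_ne_one h1

theorem TEMG_vars_fin8 (v : ℕ) {e : ℤ} (he : e = 1 ∨ e = -1) (c w : ℕ) (hw : w ≠ 0) :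
    v ∈ (fin8 hI e c w (X v) : MvPolynomial ℕ K).vars := by
  by_contra hv
  have h := pev_congr_vars (P := (fin8 hI e c w (X v) : MvPolynomial ℕ K)) (z := fun _ => 0)
    (w := update (fun _ => 0) v 1) (fun w' hw' => by
      rw [update_of_ne]
      rintro rfl
      exact hv hw')
  unfold pev at h
  rw [TEMG_aeval_fin8, TEMG_aeval_fin8, aeval_X, aeval_X, update_self] at h
  have he0 : (e : ℂ) ≠ 0 := by
    rcases he with rfl | rfl <;> norm_num
  have h1 := add_left_cancel h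
  have h2 := mul_left_cancel₀ (mul_ne_zero he0 I_ne_zero) h1
  have h3 := add_left_cancel h2
  rw [mul_zero, mul_one] at h3
  exact hw (by exact_mod_cast h3.symm)

theorem Fn.mono {A A' : Finset ℕ} {L : MvPolynomial ℕ K} (h : Fn hI Ex A L) (hA : A ⊆ A')
    (hv : ∀ v ∈ L.vars, v ∈ A' → v ∈ A) : Fn hI Ex A' L := by
  rcases h with ⟨w, hw, h⟩ | ⟨w, hw, e, c, he, hc, rfl⟩ | ⟨h, hL⟩
  · exact Or.inl ⟨w, hA hw, h⟩
  · exact Or.inr (Or.inl ⟨w, fun hw' => hw (hv w (TEMG_vars_fin8 w he c 1 one_ne_zero) hw'),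
      e, c, he, hc, rfl⟩)
  · exact Or.inr (Or.inr ⟨h, fun v hvL hvA' => hL v hvL (hv v hvL hvA')⟩)

theorem Fn.restrict {A A' : Finset ℕ} {L : MvPolynomial ℕ K} (h : Fn hI Ex A L) (hA : A' ⊆ A)
    (hv : ∀ v ∈ L.vars, v ∈ A → v ∈ A') : Fn hI Ex A' L := by
  rcases h with ⟨w, hw, h⟩ | ⟨w, hw, e, c, he, hc, rfl⟩ | ⟨h, hL⟩
  · have hwL : w ∈ L.vars := by
      rcases h with rfl | ⟨e, c, he, hc, rfl⟩
      · exact TEMG_vars_four w
      · exact TEMG_vars_fin8 w he c 2 two_ne_zero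
    exact Or.inl ⟨w, hv w hwL hw, h⟩
  · exact Or.inr (Or.inl ⟨w, fun hw' => hw (hA hw'), e, c, he, hc, rfl⟩)
  · exact Or.inr (Or.inr ⟨h, fun v hvL hvA' => hL v hvL (hA hvA')⟩)

theorem Fn.mono_ex {A : Finset ℕ} {L : MvPolynomial ℕ K} (h : Fn hI (noEx K) A L) :
    Fn hI Ex A L := by
  rcases h with h | h | ⟨h, hL⟩
  · exact Or.inl h
  · exact Or.inr (Or.inl h)
  · exact h.elim

/-- the final denominators do not vanish when the nodes are in the disc -/
theorem Sys.fn_ne (S : Sys K hI Cl Dn Ex) {A : Finset ℕ} {L : MvPolynomial ℕ K}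
    (h : Fn hI Ex A L) {z : Pt} (hz : z ∈ Dom (XD A)) : pev L z ≠ 0 := by
  have hd : ∀ v ∈ A, ‖z v‖ ≤ 2 := by
    intro v hv
    have h1 := hz v
    unfold XD at h1
    rw [if_pos hv] at h1
    have h2 : dist (z v) 0 ≤ ((2 : ℚ) : ℝ) := h1
    rw [dist_zero_right] at h2
    have h3 : ((2 : ℚ) : ℝ) = 2 := by norm_num
    rw [h3] at h2
    exact h2
  have hs : ∀ v ∉ A, z v ∈ seg := by
    intro v hv
    have h1 := hz v
    unfold XD at h1
    rw [if_neg hv] at h1
    exact h1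
  rcases h with ⟨w, hw, h⟩ | ⟨w, hw, e, c, he, hc, rfl⟩ | ⟨h, hL⟩
  · rcases h with rfl | ⟨e, c, he, hc, rfl⟩
    · intro h0
      unfold pev at h0
      rw [map_sub, aeval_X, aeval_C] at h0
      have h2 : (algebraMap K ℂ) (4 : K) = 4 := map_ofNat _ _
      have h1 := hd w hw
      rw [h2, sub_eq_zero] at h0
      rw [← h0] at h1
      norm_num at h1
    · unfold pev
      rw [TEMG_aeval_fin8, aeval_X]
      refine TEMG_fin8_ne he ?_
      have h1 := hd w hw
      have h2 := Complex.abs_im_le_norm (z w)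
      push_cast
      linarith
  · unfold pev
    rw [TEMG_aeval_fin8, aeval_X]
    refine TEMG_fin8_ne he ?_
    rw [TEMG_im_seg (hs w hw), abs_zero, mul_zero]
    norm_num
  · have h1 : pev L z = pev L (fun i => if i ∈ A then 0 else z i) :=
      pev_congr_vars (fun v hv => by rw [if_neg (hL v hv)])
    rw [h1]
    refine S.exne L h _ (fun i => ?_)
    show (if i ∈ A then 0 else z i) ∈ seg
    by_cases hi : i ∈ A
    · rw [if_pos hi]
      exact zero_mem_seg
    · rw [if_neg hi]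
      exact hs i hi

end MP1eadaeL
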