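import Pool.Agent.Lib_MP_1eadae_ft.Hom
import Pool.Agent.Lib_MP_1eadae_ft.TemG
import Pool.Agent.Lib_MP_1eadae_ft.ClsA

/-! # MP_1eadae_ag (FT), piece U8: another integrand with integral `2πi` -/

namespace MP1eadaeL

open Complex Function MvPolynomial

variable {K : Subfield ℂ} {hI : I ∈ K} {Cl : (Pt → ℂ) → Prop}
  {Dn : Finset ℕ → MvPolynomial ℕ K → Prop} {Ex : MvPolynomial ℕ K → Prop} {M : ℕ}

/-- `(1/8) ∑_{c < 8} tpi ((c + z_p)/8)` -/
noncomputable def u8 (p : ℕ) (z : Pt) : ℂ :=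
  ∑ c ∈ Finset.range 8, 64 * I / (64 + ((c : ℂ) + z p) ^ 2)

/-- product over the coordinates in `B` -/
noncomputable def u8s (B : Finset ℕ) (z : Pt) : ℂ := ∏ p ∈ B, u8 p z

/- Piece U8 (all theorems of this file).
Let `T c w z = w * (64 i / (64 + (c + w z_p)^2))`; `T 0 8 = tpi p` and `u8 = ∑_c T c 1`.
`64 + x^2 = (8 + i x)(8 - i x)`, i.e. `pev (fin8 hI 1 c w (X p)) z * pev (fin8 hI (-1) c w (X p)) z
= 64 + (c + w z_p)^2`.
(1) `T c w (z_p) ≡ T c w (z_s)`: `Sys.rename1` with `A = ∅` and the list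
`[fin8 hI 1 c w (X p), fin8 hI (-1) c w (X p)]` (`ctrs_empty`); the denominators
`fin8 hI e c w (X s * X p)` are allowed by `S.tem`.
(2) `T c (w+1) (z_p) ≡ T c 1 (z_p) + T (c+1) w (z_s)` for `c + w + 1 ≤ 8`: `Sys.homot` with
`A = ∅`, the function `64 i/(64 + z_p^2)` (list `[8 + i X p, 8 - i X p]`) and
`φ = c + X p * (1 + w X s)`: `φ_p = 1 + w z_s`, `φ_s = w z_p`; the denominators
`fin8 hI e c 1 (X p * (1 + C w * X s))` are allowed by `S.tem` (real part `8` on the cube).
Seven applications of (2) and (1) give `tpi p ≡ u8 p`.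
`u8s_st`: `u8s B F ≡ tp B F` if `F` does not depend on the coordinates in `B`, one coordinate at a
time (`Sys.mul_fresh`).
`Rpr.mul_u8s`: multiply the numerator of a representation by `u8 p = Pu / ∏ Eu`,
`Eu` the list of the 16 polynomials `fin8 hI e c 1 (X p)`; they do not involve nodes, so
the factor comes out of `ctrs` (`ctrs_mul_left`-type argument on `Dom`, use `ctrs_congr` first). -/

theorem U8_pev_C (a : K) (z : Pt) : pev (C a : MvPolynomial ℕ K) z = (a : ℂ) := by
  unfold pev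
  rw [aeval_C]
  rfl

theorem U8_pev_X (i : ℕ) (z : Pt) : pev (X i : MvPolynomial ℕ K) z = z i := by
  unfold pev
  rw [aeval_X]

theorem U8_pev_one (z : Pt) : pev (1 : MvPolynomial ℕ K) z = 1 := by
  unfold pev
  rw [map_one]

theorem U8_pev_fin8 (e : ℤ) (c w : ℕ) (u : MvPolynomial ℕ K) (z : Pt) :
    pev (fin8 hI e c w u) z = 8 + (e : ℂ) * I * ((c : ℂ) + w * pev u z) := by
  unfold fin8
  rw [rb_pev_add, rb_pev_mul, rb_pev_add, rb_pev_mul, U8_pev_C, U8_pev_C, U8_pev_C, U8_pev_C]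
  push_cast
  rfl

/-- the integrand `w * 64 i / (64 + (c + w x)^2)` -/
noncomputable def U8T (c w : ℕ) (x : ℂ) : ℂ := w * (64 * I / (64 + ((c : ℂ) + w * x) ^ 2))

/-- the two denominators -/
noncomputable def U8l (hI : I ∈ K) (p c w : ℕ) : List (MvPolynomial ℕ K) :=
  [fin8 hI 1 c w (X p), fin8 hI (-1) c w (X p)]

theorem U8_pev_l (p c w : ℕ) (z : Pt) :
    pev (U8l hI p c w).prod z = 64 + ((c : ℂ) + w * z p) ^ 2 := by
  unfold U8l
  rw [List.prod_cons, List.prod_cons, List.prod_nil, mul_one, rb_pev_mul, U8_pev_fin8,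
    U8_pev_fin8, U8_pev_X]
  push_cast
  linear_combination (-((c : ℂ) + w * z p) ^ 2) * Complex.I_sq

theorem U8_seg {x : ℂ} (hx : x ∈ seg) : ∃ t : ℝ, x = t := by
  obtain ⟨t, -, rfl⟩ := hx
  exact ⟨t, rfl⟩

theorem U8_ne (e : ℤ) (t : ℝ) : (8 : ℂ) + (e : ℂ) * I * (t : ℂ) ≠ 0 := by
  intro h
  have h1 := congrArg Complex.re h
  have h2 : (e : ℂ) * I * (t : ℂ) = ((e : ℝ) * t : ℝ) * I := by
    push_cast
    ring
  rw [h2, Complex.add_re, Complex.re_ofReal_mul, Complex.I_re, mul_zero] at h1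
  norm_num at h1

theorem Sys.U8_dn (S : Sys K hI Cl Dn Ex) {e : ℤ} (he : e = 1 ∨ e = -1) {c w : ℕ} (hc : c ≤ 8)
    (hw : w ≤ 8) (p : ℕ) : Dn ∅ (fin8 hI e c w (X p)) := by
  have h1 := S.tem ∅ (fin8 hI e c w (X 0)) (fun _ => p)
    (Or.inr (Or.inr (Or.inr (Or.inr ⟨e, c, w, he, hc, hw, Or.inl rfl⟩)))) (by
      intro u hu
      have h0 := hu 0
      rw [XA_empty] at h0
      obtain ⟨t, ht⟩ := U8_seg h0
      have h2 : aeval u (fin8 hI e c w (X 0)) = 8 + (e : ℂ) * I * (((c : ℝ) + w * t : ℝ) : ℂ) := by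
        unfold fin8
        simp only [map_add, map_mul, aeval_C, aeval_X, ht]
        push_cast
        rfl
      rw [h2]
      exact U8_ne e _)
  have h3 : rename (fun _ : Fin 4 => p) (fin8 hI e c w (X 0)) = fin8 hI e c w (X p) := by
    unfold fin8
    simp only [map_add, map_mul, rename_C, rename_X]
  rwa [h3] at h1

theorem Sys.U8_dn_sub (S : Sys K hI Cl Dn Ex) {e : ℤ} (he : e = 1 ∨ e = -1) {c w : ℕ} (hc : c ≤ 8)
    (hw : w ≤ 8) (p s : ℕ) : Dn ∅ (fin8 hI e c w (X s * X p)) := by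
  have h1 := S.tem ∅ (fin8 hI e c w (X 3 * X 0)) ![p, p, p, s]
    (Or.inr (Or.inr (Or.inr (Or.inr ⟨e, c, w, he, hc, hw, Or.inr (Or.inl rfl)⟩)))) (by
      intro u hu
      have h0 := hu 0
      have h3 := hu 3
      rw [XA_empty] at h0 h3
      obtain ⟨t, ht⟩ := U8_seg h0
      obtain ⟨r, hr⟩ := U8_seg h3
      have h2 : aeval u (fin8 hI e c w (X 3 * X 0)) =
          8 + (e : ℂ) * I * (((c : ℝ) + w * (r * t) : ℝ) : ℂ) := by
        unfold fin8
        simp only [map_add, map_mul, aeval_C, aeval_X, ht, hr]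
        push_cast
        rfl
      rw [h2]
      exact U8_ne e _)
  have h3 : rename ![p, p, p, s] (fin8 hI e c w (X 3 * X 0)) = fin8 hI e c w (X s * X p) := by
    unfold fin8
    simp only [map_add, map_mul, rename_C, rename_X]
    rfl
  rwa [h3] at h1

theorem Sys.U8_dn_hom (S : Sys K hI Cl Dn Ex) {e : ℤ} (he : e = 1 ∨ e = -1) {c w : ℕ} (hc : c ≤ 8)
    (hw : w ≤ 8) (p s : ℕ) : Dn ∅ (fin8 hI e c 1 (X p * (1 + C (w : K) * X s))) := by
  have h1 := S.tem ∅ (fin8 hI e c 1 (X 0 * (1 + C (w : K) * X 3))) ![p, p, p, s]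
    (Or.inr (Or.inr (Or.inr (Or.inr ⟨e, c, w, he, hc, hw, Or.inr (Or.inr rfl)⟩)))) (by
      intro u hu
      have h0 := hu 0
      have h3 := hu 3
      rw [XA_empty] at h0 h3
      obtain ⟨t, ht⟩ := U8_seg h0
      obtain ⟨r, hr⟩ := U8_seg h3
      have h2 : aeval u (fin8 hI e c 1 (X 0 * (1 + C (w : K) * X 3))) =
          8 + (e : ℂ) * I * (((c : ℝ) + 1 * (t * (1 + w * r)) : ℝ) : ℂ) := by
        unfold fin8
        simp only [map_add, map_mul, aeval_C, aeval_X, ht, hr, map_one]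
        push_cast
        rfl
      rw [h2]
      exact U8_ne e _)
  have h3 : rename ![p, p, p, s] (fin8 hI e c 1 (X 0 * (1 + C (w : K) * X 3))) =
      fin8 hI e c 1 (X p * (1 + C (w : K) * X s)) := by
    unfold fin8
    simp only [map_add, map_mul, rename_C, rename_X, map_one]
    rfl
  rwa [h3] at h1

theorem U8_l_cases {L : MvPolynomial ℕ K} {p c w : ℕ} (hL : L ∈ U8l hI p c w) :
    ∃ e : ℤ, (e = 1 ∨ e = -1) ∧ L = fin8 hI e c w (X p) := by
  unfold U8l at hL
  rw [List.mem_cons, List.mem_cons] at hL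
  rcases hL with h | h | h
  · exact ⟨1, Or.inl rfl, h⟩
  · exact ⟨-1, Or.inr rfl, h⟩
  · simp at h

theorem U8_vars_fin8 {e : ℤ} {c w : ℕ} {u : MvPolynomial ℕ K} {v : ℕ}
    (hv : v ∈ (fin8 hI e c w u).vars) : v ∈ u.vars := by
  unfold fin8 at hv
  have h1 := vars_add_subset _ _ hv
  rw [Finset.mem_union, vars_C] at h1
  rcases h1 with h1 | h1
  · simp at h1
  have h2 := vars_mul _ _ h1
  rw [Finset.mem_union, vars_C] at h2
  rcases h2 with h2 | h2
  · simp at h2
  have h3 := vars_add_subset _ _ h2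
  rw [Finset.mem_union, vars_C] at h3
  rcases h3 with h3 | h3
  · simp at h3
  have h4 := vars_mul _ _ h3
  rw [Finset.mem_union, vars_C] at h4
  rcases h4 with h4 | h4
  · simp at h4
  exact h4

theorem U8_vars_X {v p : ℕ} (hv : v ∈ (X p : MvPolynomial ℕ K).vars) : v = p := by
  rw [vars_X] at hv
  simpa using hv

theorem U8_sub_fin8 {e : ℤ} {c w p s : ℕ} :
    sub p s (fin8 hI e c w (X p)) = fin8 hI e c w (X s * X p) := by
  unfold fin8 sub
  simp only [map_add, map_mul, bind₁_C_right, bind₁_X_right, if_true]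

theorem U8_sbt_fin8 {e : ℤ} {c w p : ℕ} {φ : MvPolynomial ℕ K} :
    sbt p φ (fin8 hI e c w (X p)) = fin8 hI e c w φ := by
  unfold fin8 sbt
  simp only [map_add, map_mul, bind₁_C_right, bind₁_X_right, if_true]

/-- as a quotient -/
theorem U8_T_eq (p c w : ℕ) (z : Pt) :
    pev (C ((w : K) * (64 * ⟨I, hI⟩)) : MvPolynomial ℕ K) z / pev (U8l hI p c w).prod z =
      U8T c w (z p) := by
  have h64 : ((64 : K) : ℂ) = 64 := map_ofNat K.subtype 64
  rw [U8_pev_l, U8_pev_C]
  unfold U8T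
  push_cast
  rw [mul_div_assoc, h64]

theorem Sys.cl_U8T (S : Sys K hI Cl Dn Ex) {c w : ℕ} (hc : c ≤ 8) (hw : w ≤ 8) (p : ℕ) :
    Cl (fun z => U8T c w (z p)) := by
  have h1 := S.cl_ctrs (A := ∅) (TM.quot (Dn := Dn) (A := ∅)
    (C ((w : K) * (64 * ⟨I, hI⟩)) : MvPolynomial ℕ K) (l := U8l hI p c w) (by
      intro L hL
      obtain ⟨e, he, rfl⟩ := U8_l_cases hL
      exact S.U8_dn he hc hw p))
  rw [ctrs_empty] at h1
  refine S.congr _ _ h1 fun z _ => ?_
  exact U8_T_eq p c w z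

/-- renaming -/
theorem Sys.U8_ren (S : Sys K hI Cl Dn Ex) {c w : ℕ} (hc : c ≤ 8) (hw : w ≤ 8) {p s : ℕ}
    (hps : s ≠ p) : St Cl X0 Set.univ (fun z => U8T c w (z p) - U8T c w (z s)) := by
  have h1 := S.rename1 (A := ∅) (i := p) (s := s) (by simp) (by simp) hps
    (P := C ((w : K) * (64 * ⟨I, hI⟩))) (l := U8l hI p c w) (by rw [vars_C]; simp) (by
      intro L hL
      obtain ⟨e, he, rfl⟩ := U8_l_cases hL
      refine ⟨fun h => hps (U8_vars_X (U8_vars_fin8 h)), ?_⟩
      rw [U8_sub_fin8]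
      exact S.U8_dn_sub he hc hw p s)
  rw [ctrs_empty] at h1
  refine St.congr _ _ h1 fun z _ => ?_
  rw [U8_T_eq, U8_T_eq, update_self]

theorem U8_pev_sbt_quot (p c : ℕ) (φ : MvPolynomial ℕ K) (z : Pt) :
    pev (sbt p φ (C ((1 : K) * (64 * ⟨I, hI⟩)))) z / pev (sbt p φ (U8l hI p c 1).prod) z =
      64 * I / (64 + ((c : ℂ) + pev φ z) ^ 2) := by
  have h64 : ((64 : K) : ℂ) = 64 := map_ofNat K.subtype 64
  rw [pev_sbt, pev_sbt, U8_pev_l, U8_pev_C, update_self]
  push_cast
  rw [one_mul, one_mul, h64]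

/-- the basic homotopy -/
theorem Sys.U8_hom (S : Sys K hI Cl Dn Ex) {c w : ℕ} (hc : c ≤ 8) (hw : w ≤ 8) {p s : ℕ}
    (hps : s ≠ p) : St Cl X0 Set.univ (fun z => U8T c (w + 1) (z p) - U8T c 1 (z p)
      - U8T (c + 1) w (z s)) := by
  obtain ⟨φ, hφd⟩ : ∃ φ : MvPolynomial ℕ K, φ = X p * (1 + C (w : K) * X s) := ⟨_, rfl⟩
  have hev : ∀ z : Pt, pev φ z = z p * (1 + w * z s) := by
    intro z
    rw [hφd, rb_pev_mul, rb_pev_add, rb_pev_mul, U8_pev_X, U8_pev_X, U8_pev_C, U8_pev_one]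
    push_cast
    rfl
  have hdp : ∀ z : Pt, pev (pderiv p φ) z = 1 + w * z s := by
    intro z
    have h0 : pderiv p φ = 1 + C (w : K) * X s := by
      rw [hφd, Derivation.leibniz, map_add, pderiv_one, Derivation.leibniz, pderiv_X_self,
        pderiv_X_of_ne hps, pderiv_C]
      simp
    rw [h0, rb_pev_add, rb_pev_mul, U8_pev_X, U8_pev_C, U8_pev_one]
    push_cast
    rfl
  have hds : ∀ z : Pt, pev (pderiv s φ) z = w * z p := by
    intro z
    have h0 : pderiv s φ = C (w : K) * X p := by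
      rw [hφd, Derivation.leibniz, map_add, pderiv_one, Derivation.leibniz, pderiv_X_self,
        pderiv_X_of_ne hps.symm, pderiv_C]
      simp
      ring
    rw [h0, rb_pev_mul, U8_pev_X, U8_pev_C]
    push_cast
    rfl
  have h1 := S.homot (A := ∅) (i := p) (s := s) (by simp) (by simp) hps (φ := φ)
    (P := C ((1 : K) * (64 * ⟨I, hI⟩))) (l := U8l hI p c 1) (by
      intro v hv
      rw [hφd] at hv
      have h2 := vars_mul _ _ hv
      rw [Finset.mem_union] at h2
      rcases h2 with h2 | h2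
      · exact Or.inl (U8_vars_X h2)
      have h3 := vars_add_subset _ _ h2
      rw [Finset.mem_union, vars_one] at h3
      rcases h3 with h3 | h3
      · simp at h3
      have h4 := vars_mul _ _ h3
      rw [Finset.mem_union, vars_C] at h4
      rcases h4 with h4 | h4
      · simp at h4
      exact Or.inr (U8_vars_X h4)) (by rw [vars_C]; simp) (by
      intro L hL
      obtain ⟨e, he, rfl⟩ := U8_l_cases hL
      refine ⟨fun h => hps (U8_vars_X (U8_vars_fin8 h)), ?_⟩
      rw [U8_sbt_fin8, hφd]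
      exact S.U8_dn_hom he hc hw p s)
  rw [ctrs_empty] at h1
  refine St.congr _ _ h1 fun z _ => ?_
  simp only [U8_pev_sbt_quot, hev, hdp, hds, update_self, update_of_ne hps, update_of_ne hps.symm]
  unfold U8T
  push_cast
  ring_nf

theorem Sys.U8_tel (S : Sys K hI Cl Dn Ex) (p : ℕ) : ∀ (w c : ℕ), c + w ≤ 8 →
    St Cl X0 Set.univ (fun z => U8T c w (z p) - ∑ j ∈ Finset.range w, U8T (c + j) 1 (z p)) := by
  intro w
  induction w with
  | zero =>
    intro c _
    refine St.congr _ _ St.zero fun z _ => ?_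
    simp [U8T]
  | succ w ih =>
    intro c hc
    have h1 := S.U8_hom (c := c) (w := w) (by omega) (by omega) (p := p) (s := p + 1) (by omega)
    have h2 := S.U8_ren (c := c + 1) (w := w) (by omega) (by omega) (p := p) (s := p + 1)
      (by omega)
    have h3 := ih (c + 1) (by omega)
    refine St.congr _ _ (St.add _ _ (St.add _ _ h1 (St.neg _ h2)) h3) fun z _ => ?_
    rw [Finset.sum_range_succ']
    have h4 : ∀ j, c + 1 + j = c + (j + 1) := fun j => by omega
    simp only [h4, add_zero]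
    ring

theorem U8_tpi (p : ℕ) (z : Pt) : U8T 0 8 (z p) = tpi p z := by
  unfold U8T tpi
  have h1 : (64 : ℂ) + (((0 : ℕ) : ℂ) + ((8 : ℕ) : ℂ) * z p) ^ 2 = 64 * (1 + z p ^ 2) := by
    push_cast
    ring
  rw [h1, mul_div_mul_left _ _ (by norm_num : (64 : ℂ) ≠ 0)]
  push_cast
  ring

theorem U8_u8 (p : ℕ) (z : Pt) : u8 p z = ∑ j ∈ Finset.range 8, U8T j 1 (z p) := by
  unfold u8 U8T
  refine Finset.sum_congr rfl fun j _ => ?_
  rw [Nat.cast_one, one_mul, one_mul]

theorem Sys.tpi_u8 (S : Sys K hI Cl Dn Ex) (p : ℕ) :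
    St Cl X0 Set.univ (fun z => tpi p z - u8 p z) := by
  refine St.congr _ _ (S.U8_tel p 8 0 (by omega)) fun z _ => ?_
  rw [U8_tpi, U8_u8]
  simp only [zero_add]

theorem Sys.cl_u8 (S : Sys K hI Cl Dn Ex) (p : ℕ) : Cl (u8 p) := by
  have h : ∀ n ≤ 8, Cl (fun z => ∑ j ∈ Finset.range n, U8T j 1 (z p)) := by
    intro n
    induction n with
    | zero =>
      intro _
      refine S.congr _ _ (S.const 0 (zero_mem K)) fun z _ => ?_
      simp
    | succ n ih =>
      intro hn
      refine S.congr _ _ (S.add _ _ (ih (by omega)) (S.cl_U8T (c := n) (w := 1) (by omega)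
        (by omega) p)) fun z _ => ?_
      rw [Finset.sum_range_succ]
  refine S.congr _ _ (h 8 le_rfl) fun z _ => ?_
  rw [U8_u8]

theorem U8_dep (p : ℕ) : DepOn X0 {p} (u8 p) := by
  intro z _ w _ h
  rw [U8_u8, U8_u8, h p rfl]

theorem U8_dep_s (B : Finset ℕ) : DepOn X0 (↑B : Set ℕ) (u8s B) := by
  intro z hz w hw h
  unfold u8s
  refine Finset.prod_congr rfl fun b hb => ?_
  exact U8_dep b z hz w hw (fun i hi => by
    rw [Set.mem_singleton_iff] at hi
    rw [hi]
    exact h b hb)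

theorem U8_dep_tpi (p : ℕ) :
    DepOn X0 {p} (fun z => tpi p z - u8 p z) := by
  intro z hz w hw h
  have h1 := U8_dep p z hz w hw h
  have h2 : tpi p z = tpi p w := by
    unfold tpi
    rw [h p rfl]
  show tpi p z - u8 p z = tpi p w - u8 p w
  rw [h1, h2]

theorem Sys.u8s_st (S : Sys K hI Cl Dn Ex) {F : Pt → ℂ} (hF : Cl F) {T : Set ℕ} {N : ℕ}
    (hT : ∀ i ∈ T, i < N) (hFT : DepOn X0 T F) {B : Finset ℕ} (hB : ∀ b ∈ B, b ∉ T) :
    St Cl X0 Set.univ (fun z => tp B z * F z - u8s B z * F z) := by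
  induction B using Finset.induction_on with
  | empty =>
    refine St.congr _ _ St.zero fun z _ => ?_
    simp [tp, u8s]
  | insert b B hb ih =>
    have ih' := ih fun i hi => hB i (Finset.mem_insert_of_mem hi)
    have hbT := hB b (Finset.mem_insert_self b B)
    obtain ⟨N', hN'⟩ : ∃ N', N' = max N ((insert b B).sup id + 1) := ⟨_, rfl⟩
    have hbN : ∀ i ∈ insert b B, i < N' := by
      intro i hi
      have h1 : i ≤ (insert b B).sup id := Finset.le_sup (f := id) hi
      rw [hN']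
      exact lt_of_lt_of_le (Nat.lt_succ_of_le h1) (le_max_right _ _)
    have hTN : ∀ i ∈ T, i < N' := fun i hi => by
      rw [hN']
      exact lt_of_lt_of_le (hT i hi) (le_max_left _ _)
    have hTB : ∀ i ∈ T ∪ (↑B : Set ℕ), i < N' := by
      rintro i (hi | hi)
      · exact hTN i hi
      · exact hbN i (Finset.mem_insert_of_mem hi)
    have hbs : ∀ i ∈ ({b} : Set ℕ), i < N' := by
      intro i hi
      rw [Set.mem_singleton_iff] at hi
      rw [hi]
      exact hbN b (Finset.mem_insert_self b B)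
    have hdis : Disjoint ({b} : Set ℕ) (T ∪ (↑B : Set ℕ)) := by
      rw [Set.disjoint_singleton_left]
      rintro (h | h)
      · exact hbT h
      · exact hb h
    have hdep1 : DepOn X0 (T ∪ (↑B : Set ℕ)) (fun z => tp B z * F z) := by
      intro z hz w hw h
      have h1 := tp_depOn B z hz w hw (fun i hi => h i (Or.inr hi))
      have h2 := hFT z hz w hw (fun i hi => h i (Or.inl hi))
      show tp B z * F z = tp B w * F w
      rw [h1, h2]
    have hdep2 : DepOn X0 (T ∪ (↑B : Set ℕ)) (fun z => tp B z * F z - u8s B z * F z) := by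
      intro z hz w hw h
      have h1 := tp_depOn B z hz w hw (fun i hi => h i (Or.inr hi))
      have h2 := hFT z hz w hw (fun i hi => h i (Or.inl hi))
      have h3 := U8_dep_s B z hz w hw (fun i hi => h i (Or.inr hi))
      show tp B z * F z - u8s B z * F z = tp B w * F w - u8s B w * F w
      rw [h1, h2, h3]
    have s1 := S.mul_fresh hbs hTB hdis (U8_dep_tpi b) hdep1 (S.mul _ _ (S.cl_tp B) hF)
      (S.tpi_u8 b)
    have s2 := S.mul_fresh hTB hbs hdis.symm hdep2 (U8_dep b) (S.cl_u8 b) ih'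
    refine St.congr _ _ (St.add _ _ s1 s2) fun z _ => ?_
    simp only [tp, u8s, Finset.prod_insert hb]
    ring

theorem U8_rep (hI : I ∈ K) (p : ℕ) : ∀ n ≤ 8, ∃ (Pu : MvPolynomial ℕ K)
    (Eu : List (MvPolynomial ℕ K)),
    (∀ v ∈ Pu.vars, v = p) ∧ (∀ L ∈ Eu, ∃ (e : ℤ) (c : ℕ), (e = 1 ∨ e = -1) ∧ c < 8 ∧
      L = fin8 hI e c 1 (X p)) ∧
    ∀ z : Pt, z p ∈ seg → pev Eu.prod z ≠ 0 ∧
      ∑ j ∈ Finset.range n, U8T j 1 (z p) = pev Pu z / pev Eu.prod z := by
  intro n
  induction n with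
  | zero =>
    intro _
    refine ⟨0, [], ?_, ?_, ?_⟩
    · simp
    · simp
    · intro z _
      rw [List.prod_nil, U8_pev_one]
      refine ⟨one_ne_zero, ?_⟩
      have h0 : pev (0 : MvPolynomial ℕ K) z = 0 := by unfold pev; rw [map_zero]
      rw [h0]
      simp
  | succ n ih =>
    intro hn
    obtain ⟨Pu, Eu, h1, h2, h3⟩ := ih (by omega)
    refine ⟨Pu * (U8l hI p n 1).prod + Eu.prod * C (((1 : ℕ) : K) * (64 * ⟨I, hI⟩)),
      Eu ++ U8l hI p n 1, ?_, ?_, ?_⟩
    · have hlist : ∀ (l : List (MvPolynomial ℕ K)), (∀ L ∈ l, ∀ v ∈ L.vars, v = p) →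
          ∀ v ∈ l.prod.vars, v = p := by
        intro l
        induction l with
        | nil => intro _ v hv; rw [List.prod_nil, vars_one] at hv; simp at hv
        | cons a l ihl =>
          intro hl v hv
          rw [List.prod_cons] at hv
          have := vars_mul _ _ hv
          rw [Finset.mem_union] at this
          rcases this with h | h
          · exact hl a (by simp) v h
          · exact ihl (fun L hL => hl L (by simp [hL])) v h
      intro v hv
      have g1 := vars_add_subset _ _ hv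
      rw [Finset.mem_union] at g1
      rcases g1 with g1 | g1
      · have g2 := vars_mul _ _ g1
        rw [Finset.mem_union] at g2
        rcases g2 with g2 | g2
        · exact h1 v g2
        · refine hlist _ (fun L hL w hw => ?_) v g2
          obtain ⟨e, -, rfl⟩ := U8_l_cases hL
          exact U8_vars_X (U8_vars_fin8 hw)
      · have g2 := vars_mul _ _ g1
        rw [Finset.mem_union] at g2
        rcases g2 with g2 | g2
        · refine hlist _ (fun L hL w hw => ?_) v g2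
          obtain ⟨e, c, -, -, rfl⟩ := h2 L hL
          exact U8_vars_X (U8_vars_fin8 hw)
        · rw [vars_C] at g2
          simp at g2
    · intro L hL
      rw [List.mem_append] at hL
      rcases hL with hL | hL
      · exact h2 L hL
      · obtain ⟨e, he, rfl⟩ := U8_l_cases hL
        exact ⟨e, n, he, by omega, rfl⟩
    · intro z hz
      obtain ⟨h4, h5⟩ := h3 z hz
      have h6 : pev (U8l hI p n 1).prod z ≠ 0 := by
        obtain ⟨t, ht⟩ := U8_seg hz
        unfold U8l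
        rw [List.prod_cons, List.prod_cons, List.prod_nil, mul_one, rb_pev_mul, U8_pev_fin8,
          U8_pev_fin8, U8_pev_X, ht]
        have e1 : ((n : ℂ) + ((1 : ℕ) : ℂ) * (t : ℂ)) = (((n : ℝ) + t : ℝ) : ℂ) := by
          push_cast
          ring
        rw [e1]
        exact mul_ne_zero (U8_ne 1 _) (U8_ne (-1) _)
      rw [List.prod_append, rb_pev_mul]
      refine ⟨mul_ne_zero h4 h6, ?_⟩
      rw [Finset.sum_range_succ, h5, ← U8_T_eq (hI := hI), rb_pev_add, rb_pev_mul, rb_pev_mul,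
        div_add_div _ _ h4 h6]

theorem U8_mul1 {W : Net K} {P : MvPolynomial ℕ K} {E : List (MvPolynomial ℕ K)} {f : Pt → ℂ}
    (h : Rpr hI Ex M W P E f) {b : ℕ} (hb : b < M) :
    ∃ (P' : MvPolynomial ℕ K) (E' : List (MvPolynomial ℕ K)),
      Rpr hI Ex M W P' E' (fun z => u8 b z * f z) ∧
      ∀ z ∈ Dom X0, cls W P' E' z = u8 b z * cls W P E z := by
  obtain ⟨Pu, Eu, h1, h2, h3⟩ := U8_rep hI b 8 le_rfl
  have hbA : b ∉ W.A := fun hA => by
    have := (h.wf b hA).1
    omega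
  have hnm : ∀ z : Pt, z b ∈ seg → nm (Pu * P) (Eu ++ E) z = u8 b z * nm P E z := by
    intro z hz
    unfold nm
    rw [List.prod_append, rb_pev_mul, rb_pev_mul, mul_div_mul_comm, U8_u8, (h3 z hz).2]
  refine ⟨Pu * P, Eu ++ E, ⟨h.hM, h.wf, ?_, ?_, ?_, ?_⟩, ?_⟩
  · intro L hL
    rw [List.mem_append] at hL
    rcases hL with hL | hL
    · obtain ⟨e, c, he, hc, hLe⟩ := h2 L hL
      exact Or.inr (Or.inl ⟨b, hbA, e, c, he, hc, hLe⟩)
    · exact h.fn L hL
  · intro v hv
    have g := vars_mul _ _ hv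
    rw [Finset.mem_union] at g
    rcases g with g | g
    · rw [h1 v g]
      exact Or.inr hb
    · exact h.vP v g
  · intro L hL v hv
    rw [List.mem_append] at hL
    rcases hL with hL | hL
    · obtain ⟨e, c, he, hc, rfl⟩ := h2 L hL
      rw [U8_vars_X (U8_vars_fin8 hv)]
      exact Or.inr hb
    · exact h.vE L hL v hv
  · intro z hz
    have g : W.th z b = z b := th_seg hbA z
    have g2 : W.th z b ∈ seg := by rw [g]; exact hz b
    rw [hnm _ g2, ← h.eq z hz]
    have g3 : u8 b (W.th z) = u8 b z := by rw [U8_u8, U8_u8, g]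
    rw [g3]
  · intro z hz
    unfold cls
    rw [ctrs_congr (F := fun z => nm (Pu * P) (Eu ++ E) z * W.ker z)
      (G := fun z => u8 b z * (nm P E z * W.ker z)) (fun w hw => ?_) z hz]
    · exact ctrs_mul_left (W := u8 b) (fun z z' hzz => by rw [U8_u8, U8_u8, hzz b hbA]) z
    · have g := hw b
      rw [XA_seg hbA] at g
      show nm (Pu * P) (Eu ++ E) w * W.ker w = u8 b w * (nm P E w * W.ker w)
      rw [hnm w g, mul_assoc]

theorem Rpr.mul_u8s {W : Net K} {P : MvPolynomial ℕ K} {E : List (MvPolynomial ℕ K)} {f : Pt → ℂ}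
    (h : Rpr hI Ex M W P E f) {B : Finset ℕ} (hB : ∀ b ∈ B, b < M) :
    ∃ (P' : MvPolynomial ℕ K) (E' : List (MvPolynomial ℕ K)),
      Rpr hI Ex M W P' E' (fun z => u8s B z * f z) ∧
      ∀ z ∈ Dom X0, cls W P' E' z = u8s B z * cls W P E z := by
  induction B using Finset.induction_on with
  | empty =>
    have e : (fun z => u8s ∅ z * f z) = f := by
      funext z
      simp [u8s]
    refine ⟨P, E, by rw [e]; exact h, fun z _ => ?_⟩
    simp [u8s]
  | insert b B hb ih =>
    obtain ⟨P1, E1, h1, h2⟩ := ih fun i hi => hB i (Finset.mem_insert_of_mem hi)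
    obtain ⟨P2, E2, h3, h4⟩ := U8_mul1 h1 (hB b (Finset.mem_insert_self b B))
    have e : (fun z => u8s (insert b B) z * f z) = fun z => u8 b z * (u8s B z * f z) := by
      funext z
      simp only [u8s, Finset.prod_insert hb]
      ring
    refine ⟨P2, E2, by rw [e]; exact h3, fun z hz => ?_⟩
    rw [h4 z hz, h2 z hz]
    simp only [u8s, Finset.prod_insert hb]
    ring

end MP1eadaeL
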