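import Pool.Agent.Lib_MP_1eadae_ft.ClsB
import Pool.Agent.Lib_MP_1eadae_ft.StH
import Pool.Agent.Lib_MP_1eadae_ft.U8
import Pool.Agent.Lib_MP_1eadae_ft.SysR
import Pool.Agent.Lib_MP_1eadae_ft.Pad

/-! # MP_1eadae_ag (FT): relations between network integrands (main theorem on relations) -/

namespace MP1eadaeL

open Complex Function MvPolynomial MP1eadae

variable {Cl : (Pt → ℂ) → Prop} {Dn : Finset ℕ → MvPolynomial ℕ Qi → Prop}

/-- data of a network integrand -/
structure NI (N : ℕ) where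
  n : ℕ
  W : Net Qi
  P : MvPolynomial ℕ Qi
  E : List (MvPolynomial ℕ Qi)
  f : Pt → ℂ
  rp : Rpr I_mem_Qi (noEx Qi) n W P E f
  cg : CleanG W
  ce : CleanE I_mem_Qi W E
  nN : n ≤ N
  aN : ∀ k ∈ W.A, k < N

/- Piece RELT.  Let `S` be the system.  Write `F = ∑_j c_j cls_j`.
(a) `realise`: `cls_j ≡ tp (A_j) f_j` modulo rational Stokes elements; `(sysR).u8s_st`:
`tp (A_j) f_j ≡ u8s (A_j) f_j` (`f_j` depends on the coordinates `< n_j`, `A_j ≥ n_j`).  So
`h = ∑ c_j u8s (A_j) f_j ∈ St (IsRat)`.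
(b) `st_hvN` gives `M ≥ N + 1` and `k` with `St (InR M) (hvN M k h)`.
(c) `Rpr.shift` (by `M`): `W_j'`, `P_j'`, `E_j'` with nodes `≥ M` computing `f_j`, clean;
`Rpr.mono_M`: also `Rpr M`.  `Rpr.mul_u8s` (`A_j ⊆ Iio M`): `P_j'', E_j''` on `W_j'` computing
`u8s (A_j) f_j` with `cls = u8s (A_j) cls_j'`.  `InR.of_seg`: `u8s (A_j) f_j` is in `InR M`, hence
`h` (`InR.sum`, `InR.smul`).
(d) `Cls M h T` with `T D = ∑_j c_j EF A_j' (u8s (A_j) cls_j') D` (`Cls.of_rpr`, `Cls.smul`,
`Cls.add`, induction on the finite set; `Cls.zero`).  `Sys.nul_of_st_hvN`: `Nul M T`.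
(e) Choose `D = Ico M (M + L)` containing `D0` and all `A_j'`: `T D ∈ St`, i.e.
`∑_j c_j tp (D \ A_j') u8s (A_j) cls_j' ∈ St`.  By `S.u8s_st` we may replace `u8s (A_j)` by
`tp (A_j)` (`cls_j'` depends on `A_j' ∪ Iio n_j`, `Rpr.depOn`).
(f) `S.rep_unique_disj` for `W_j`, `W_j'` (both computing `f_j` with `n_j`):
`tp (A_j') cls_j ≡ tp (A_j) cls_j'`; multiply by `tp (D \ A_j')` (`S.mul_tp`).
(g) So `tp D * F ∈ St`; multiply by `tp (Ico N M)` (`F` depends on the coordinates `< N`):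
`tp (Ico N (M + L)) * F ∈ St`. -/

theorem depOn_mono {X : ℕ → Set ℂ} {T T' : Set ℕ} {F : Pt → ℂ} (h : DepOn X T F) (hT : T ⊆ T') :
    DepOn X T' F := fun z hz w hw hzw => h z hz w hw fun i hi => hzw i (hT hi)

theorem tp_union {A B : Finset ℕ} (h : Disjoint A B) (z : Pt) : tp (A ∪ B) z = tp A z * tp B z :=
  Finset.prod_union h

/-- sums of classes -/
theorem Sys.cls_finsum (S : Sys Qi I_mem_Qi Cl Dn (noEx Qi)) {M : ℕ} (hM : 1 ≤ M) {ι : Type}
    (s : Finset ι) (f : ι → Pt → ℂ) (T : ι → Finset ℕ → Pt → ℂ) (c : ι → Qi)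
    (h : ∀ j ∈ s, Cls I_mem_Qi Cl (noEx Qi) M (f j) (T j)) :
    Cls I_mem_Qi Cl (noEx Qi) M (fun z => ∑ j ∈ s, (c j : ℂ) * f j z)
      (fun D z => ∑ j ∈ s, (c j : ℂ) * T j D z) := by
  classical
  induction s using Finset.induction_on with
  | empty => simpa using Cls.zero S hM
  | insert a s ha ih =>
    have h1 := Cls.smul S (c a).2 (h a (Finset.mem_insert_self a s))
    have h2 := ih fun j hj => h j (Finset.mem_insert_of_mem hj)
    have h3 := Cls.add S h1 h2
    simp only [Finset.sum_insert ha]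
    exact h3

theorem relT (S : Sys Qi I_mem_Qi Cl Dn (noEx Qi)) {N : ℕ} {ι : Type} (s : Finset ι)
    (R : ι → NI N) (c : ι → Qi)
    (h : St (IsRat Qi X0) X0 Set.univ (fun z => ∑ j ∈ s, (c j : ℂ) *
      cls (R j).W (R j).P (R j).E z)) :
    ∃ m : ℕ, St Cl X0 Set.univ (fun z => tp (Finset.Ico N (N + m)) z *
      ∑ j ∈ s, (c j : ℂ) * cls (R j).W (R j).P (R j).E z) := by
  classical
  have SR := sysR Qi I_mem_Qi
  -- nodes are at least `n`
  have hge : ∀ j, ∀ b ∈ (R j).W.A, (R j).n ≤ b := fun j b hb => ((R j).rp.wf b hb).1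
  -- (a)
  have ha : ∀ j, St (IsRat Qi X0) X0 Set.univ (fun z => (cls (R j).W (R j).P (R j).E z
      - u8s (R j).W.A z * (R j).f z)) := by
    intro j
    obtain ⟨h1, h2⟩ := realise (R j).rp
    have h3 := SR.u8s_st h1 (T := Set.Iio (R j).n) (N := (R j).n) (fun i hi => hi)
      (R j).rp.dep_f (B := (R j).W.A) (fun b hb hb' => absurd (hge j b hb) (not_le.2 hb'))
    refine St.congr _ _ (St.add _ _ h2 h3) fun z _ => ?_
    ring
  have hh : St (IsRat Qi X0) X0 Set.univ (fun z => ∑ j ∈ s, (c j : ℂ) *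
      (u8s (R j).W.A z * (R j).f z)) := by
    have h1 : St (IsRat Qi X0) X0 Set.univ (fun z => ∑ j ∈ s, (c j : ℂ) *
        (cls (R j).W (R j).P (R j).E z - u8s (R j).W.A z * (R j).f z)) :=
      St.sum s _ fun j _ => SR.st_smul (c j).2 (ha j)
    refine St.congr _ _ (St.add _ _ h (St.neg _ h1)) fun z _ => ?_
    rw [← Finset.sum_neg_distrib, ← Finset.sum_add_distrib]
    exact Finset.sum_congr rfl fun j _ => by ring
  -- (b)
  obtain ⟨M1, hM1⟩ := st_hvN hh
  obtain ⟨k0, hk0⟩ := hM1 (max M1 (N + 1)) (le_max_left _ _)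
  set M := max M1 (N + 1) with hMdef
  have hNM : N + 1 ≤ M := le_max_right _ _
  have hM : 1 ≤ M := le_trans (Nat.le_add_left 1 N) hNM
  have hst := hk0 k0 le_rfl
  -- (c)
  choose W' P' E' h1 h2 h3 h4 using fun j => (R j).rp.shift M
  have h1M : ∀ j, Rpr I_mem_Qi (noEx Qi) M (W' j) (P' j) (E' j) (R j).f := fun j =>
    (h1 j).mono_M ((R j).nN.trans ((Nat.le_succ N).trans hNM)) (h2 j)
  have hlt : ∀ j, ∀ b ∈ (R j).W.A, b < M := fun j b hb =>
    lt_of_lt_of_le ((R j).aN b hb) ((Nat.le_succ N).trans hNM)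
  choose P2 E2 g1 g2 using fun j => (h1M j).mul_u8s (B := (R j).W.A) (hlt j)
  have hin : InR I_mem_Qi M (fun z => ∑ j ∈ s, (c j : ℂ) * (u8s (R j).W.A z * (R j).f z)) :=
    InR.sum hM s _ fun j _ => InR.smul (InR.of_seg (g1 j) (h3 j (R j).cg)) (c j).2
  -- (d)
  have hcl := S.cls_finsum hM s (fun j z => u8s (R j).W.A z * (R j).f z)
    (fun j => EF (W' j).A (cls (W' j) (P2 j) (E2 j))) c fun j _ => Cls.of_rpr (g1 j)
  obtain ⟨D0, hD0, hD⟩ := S.nul_of_st_hvN hM hin k0 hst hcl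
  -- (e)
  obtain ⟨L, hL0, hL1⟩ : ∃ L : ℕ, D0 ⊆ Finset.Ico M (M + L) ∧
      ∀ j ∈ s, (W' j).A ⊆ Finset.Ico M (M + L) := by
    obtain ⟨B, hB⟩ : ∃ B : ℕ, ∀ d ∈ D0 ∪ s.biUnion (fun j => (W' j).A), d < B :=
      ⟨(D0 ∪ s.biUnion (fun j => (W' j).A)).sup id + 1, fun d hd =>
        Nat.lt_succ_of_le (Finset.le_sup (f := id) hd)⟩
    refine ⟨B, fun d hd => ?_, fun j hj d hd => ?_⟩
    · rw [Finset.mem_Ico]
      exact ⟨hD0 d hd, lt_of_lt_of_le (hB d (Finset.mem_union_left _ hd)) (Nat.le_add_left B M)⟩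
    · rw [Finset.mem_Ico]
      exact ⟨h2 j d hd, lt_of_lt_of_le (hB d (Finset.mem_union_right _
        (Finset.mem_biUnion.2 ⟨j, hj, hd⟩))) (Nat.le_add_left B M)⟩
  have hT := hD (Finset.Ico M (M + L)) hL0 (fun d hd => (Finset.mem_Ico.1 hd).1)
  set D := Finset.Ico M (M + L) with hDdef
  -- (f)
  have hf : ∀ j ∈ s, St Cl X0 Set.univ (fun z => tp D z * cls (R j).W (R j).P (R j).E z -
      EF (W' j).A (cls (W' j) (P2 j) (E2 j)) D z) := by
    intro j hj
    have hAD := hL1 j hj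
    have hdep' : DepOn X0 ((↑(W' j).A : Set ℕ) ∪ Set.Iio (R j).n) (cls (W' j) (P' j) (E' j)) :=
      (h1 j).depOn
    have hcl' : Cl (cls (W' j) (P' j) (E' j)) := S.cl_cls (h1 j).wf (h1 j).fn _
    -- (i)
    have hF : DepOn X0 ((↑D : Set ℕ) ∪ Set.Iio (R j).n)
        (fun z => tp (D \ (W' j).A) z * cls (W' j) (P' j) (E' j) z) := by
      intro z hz w hw hzw
      have e1 : tp (D \ (W' j).A) z = tp (D \ (W' j).A) w :=
        tp_depOn _ z hz w hw fun i hi => hzw i (Or.inl (Finset.sdiff_subset hi))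
      have e2 : cls (W' j) (P' j) (E' j) z = cls (W' j) (P' j) (E' j) w :=
        hdep' z hz w hw fun i hi => hzw i (by
          rcases hi with hi | hi
          · exact Or.inl (hAD hi)
          · exact Or.inr hi)
      show tp (D \ (W' j).A) z * cls (W' j) (P' j) (E' j) z = _
      rw [e1, e2]
    have hi := S.u8s_st (F := fun z => tp (D \ (W' j).A) z * cls (W' j) (P' j) (E' j) z)
      (S.mul _ _ (S.cl_tp _) hcl') (N := M + L)
      (T := (↑D : Set ℕ) ∪ Set.Iio (R j).n) (by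
        rintro i (hi | hi)
        · exact (Finset.mem_Ico.1 hi).2
        · exact lt_of_lt_of_le hi ((R j).nN.trans (((Nat.le_succ N).trans hNM).trans
            (Nat.le_add_right M L)))) hF (B := (R j).W.A) (by
        rintro b hb (hb' | hb')
        · exact absurd (hlt j b hb) (not_lt.2 (Finset.mem_Ico.1 hb').1)
        · exact absurd (hge j b hb) (not_le.2 hb'))
    -- (ii)
    have hdis : Disjoint (R j).W.A (W' j).A := by
      rw [Finset.disjoint_left]
      intro b hb hb'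
      exact absurd (hlt j b hb) (not_lt.2 (h2 j b hb'))
    have hu := S.rep_unique_disj (R j).rp (h1 j) hdis
    have hudep : DepOn X0 ((↑(R j).W.A : Set ℕ) ∪ (↑(W' j).A : Set ℕ) ∪ Set.Iio (R j).n)
        (fun z => tp (W' j).A z * cls (R j).W (R j).P (R j).E z -
          tp (R j).W.A z * cls (W' j) (P' j) (E' j) z) := by
      intro z hz w hw hzw
      have e1 : tp (W' j).A z = tp (W' j).A w :=
        tp_depOn _ z hz w hw fun i hi => hzw i (Or.inl (Or.inr hi))
      have e2 : tp (R j).W.A z = tp (R j).W.A w :=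
        tp_depOn _ z hz w hw fun i hi => hzw i (Or.inl (Or.inl hi))
      have e3 : cls (W' j) (P' j) (E' j) z = cls (W' j) (P' j) (E' j) w :=
        hdep' z hz w hw fun i hi => hzw i (by
          rcases hi with hi | hi
          · exact Or.inl (Or.inr hi)
          · exact Or.inr hi)
      have e4 : cls (R j).W (R j).P (R j).E z = cls (R j).W (R j).P (R j).E w :=
        (R j).rp.depOn z hz w hw fun i hi => hzw i (by
          rcases hi with hi | hi
          · exact Or.inl (Or.inl hi)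
          · exact Or.inr hi)
      show tp (W' j).A z * cls (R j).W (R j).P (R j).E z -
          tp (R j).W.A z * cls (W' j) (P' j) (E' j) z = _
      rw [e1, e2, e3, e4]
    have hu' := S.mul_tp (N := M + L) (D := D \ (W' j).A) (by
        rintro i ((hi | hi) | hi)
        · exact lt_of_lt_of_le (hlt j i hi) (Nat.le_add_right M L)
        · exact (Finset.mem_Ico.1 (hAD hi)).2
        · exact lt_of_lt_of_le hi ((R j).nN.trans (((Nat.le_succ N).trans hNM).trans
            (Nat.le_add_right M L)))) (by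
        rintro d hd ((hd' | hd') | hd')
        · exact absurd (hlt j d hd') (not_lt.2 (Finset.mem_Ico.1 (Finset.sdiff_subset hd)).1)
        · exact (Finset.mem_sdiff.1 hd).2 hd'
        · have h5 : M ≤ d := (Finset.mem_Ico.1 (Finset.sdiff_subset hd)).1
          have h6 : d < (R j).n := hd'
          have h7 := (R j).nN
          omega) hudep hu
    refine St.congr _ _ (St.add _ _ hu' hi) fun z hz => ?_
    have e5 : tp D z = tp (D \ (W' j).A) z * tp (W' j).A z := by
      rw [← tp_union Finset.sdiff_disjoint, Finset.sdiff_union_of_subset hAD]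
    show tp (D \ (W' j).A) z * (tp (W' j).A z * cls (R j).W (R j).P (R j).E z -
          tp (R j).W.A z * cls (W' j) (P' j) (E' j) z) +
        (tp (R j).W.A z * (tp (D \ (W' j).A) z * cls (W' j) (P' j) (E' j) z) -
          u8s (R j).W.A z * (tp (D \ (W' j).A) z * cls (W' j) (P' j) (E' j) z)) =
      tp D z * cls (R j).W (R j).P (R j).E z -
        tp (D \ (W' j).A) z * cls (W' j) (P2 j) (E2 j) z
    rw [g2 j z hz, e5]
    ring
  -- (g)
  have hg : St Cl X0 Set.univ (fun z => tp D z *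
      ∑ j ∈ s, (c j : ℂ) * cls (R j).W (R j).P (R j).E z) := by
    have h5 : St Cl X0 Set.univ (fun z => ∑ j ∈ s, (c j : ℂ) *
        (tp D z * cls (R j).W (R j).P (R j).E z - EF (W' j).A (cls (W' j) (P2 j) (E2 j)) D z)) :=
      St.sum s _ fun j hj => S.st_smul (c j).2 (hf j hj)
    refine St.congr _ _ (St.add _ _ h5 hT) fun z _ => ?_
    show ∑ j ∈ s, (c j : ℂ) *
        (tp D z * cls (R j).W (R j).P (R j).E z - EF (W' j).A (cls (W' j) (P2 j) (E2 j)) D z) +
      ∑ j ∈ s, (c j : ℂ) * EF (W' j).A (cls (W' j) (P2 j) (E2 j)) D z = _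
    rw [← Finset.sum_add_distrib, Finset.mul_sum]
    exact Finset.sum_congr rfl fun j _ => by ring
  have hdepF : DepOn X0 ((↑D : Set ℕ) ∪ Set.Iio N) (fun z => tp D z *
      ∑ j ∈ s, (c j : ℂ) * cls (R j).W (R j).P (R j).E z) := by
    intro z hz w hw hzw
    have e1 : tp D z = tp D w := tp_depOn _ z hz w hw fun i hi => hzw i (Or.inl hi)
    have e2 : ∀ j, cls (R j).W (R j).P (R j).E z = cls (R j).W (R j).P (R j).E w := fun j =>
      (R j).rp.depOn z hz w hw fun i hi => hzw i (Or.inr (by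
        rcases hi with hi | hi
        · exact (R j).aN i hi
        · exact lt_of_lt_of_le hi (R j).nN))
    show tp D z * ∑ j ∈ s, (c j : ℂ) * cls (R j).W (R j).P (R j).E z =
      tp D w * ∑ j ∈ s, (c j : ℂ) * cls (R j).W (R j).P (R j).E w
    rw [e1]
    congr 1
    exact Finset.sum_congr rfl fun j _ => by rw [e2 j]
  have hfin := S.mul_tp (N := M + L) (D := Finset.Ico N M) (by
      rintro i (hi | hi)
      · exact (Finset.mem_Ico.1 hi).2
      · exact lt_of_lt_of_le hi (((Nat.le_succ N).trans hNM).trans (Nat.le_add_right M L))) (by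
      rintro d hd (hd' | hd')
      · exact absurd (Finset.mem_Ico.1 hd).2 (not_lt.2 (Finset.mem_Ico.1 hd').1)
      · exact absurd (Finset.mem_Ico.1 hd).1 (not_le.2 hd')) hdepF hg
  refine ⟨M + L - N, St.congr _ _ hfin fun z _ => ?_⟩
  have e6 : Finset.Ico N (N + (M + L - N)) = Finset.Ico N M ∪ D := by
    have h8 : N + (M + L - N) = M + L := by omega
    rw [h8, hDdef, Finset.Ico_union_Ico_eq_Ico ((Nat.le_succ N).trans hNM) (Nat.le_add_right M L)]
  have e7 : tp (Finset.Ico N (N + (M + L - N))) z = tp (Finset.Ico N M) z * tp D z := by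
    rw [e6, tp_union]
    rw [Finset.disjoint_left]
    intro b hb hb'
    exact absurd (Finset.mem_Ico.1 hb).2 (not_lt.2 (Finset.mem_Ico.1 hb').1)
  rw [e7]
  ring

end MP1eadaeL
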