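import Pool.Agent.Lib_MP_1eadae_ft.Circ
import Pool.Agent.Lib_MP_1eadae_ft.RelT

/-! # MP_1eadae_ag (FT), piece BRI: circuits and networks -/

namespace MP1eadaeL

open Complex Function MvPolynomial MP1eadae

/- Piece BRI (all theorems of this file).
`circuit_net`: nodes `Ico n (n+m)`; for `k < m`: `const c ↦ c = (c,0,0,0), a = b = 0`;
`input j ↦ (0,1/2,0,0), a = b = j`; `node c a b ↦ c, a = n + a, b = n + b`; coefficients are in
`Qi` (`mem_Qi_iff`).  `rpr_quot` gives the representation.  The value: `ctrs A H z` for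
`A = Ico n (n+m)` is `∑_{q : Fin m → Fin 4} H (arcm A q' z) * ∏_k (2 * duj (q k) (z (n+k)))`,
`q' (n+k) = q k` (induction on `m` with `ctrs_insert`, `Fin.snoc`-type sums or
`Fintype.sum_equiv`; lemma `ctrs_Ico`), with `arc q s = 2 * uj q s`, `darc q s = 2 * duj q s`.
`net_circuit`: conversely, by `CleanG` and `Wf` every gate is of one of the three forms
(a coordinate `< n` is not a node, `W.a k - n` is the index of a node). -/

theorem ctrs_Ico (n m : ℕ) (H : Pt → ℂ) (z : Pt) :
    ctrs (Finset.Ico n (n + m)) H z = ∑ q : Fin m → Fin 4,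
      H (fun i => if h : n ≤ i ∧ i - n < m then 2 * uj (q ⟨i - n, h.2⟩) (z i) else z i) *
        ∏ k : Fin m, (2 * duj (q k) (z (n + k))) := by
  induction m generalizing z with
  | zero =>
    simp only [Nat.add_zero, Finset.Ico_self, ctrs_empty]
    rw [Fintype.sum_eq_single (default : Fin 0 → Fin 4) (fun b hb => absurd (Subsingleton.elim _ _) hb)]
    simp
  | succ m ih =>
    have hIco : Finset.Ico n (n + (m + 1)) = insert (n + m) (Finset.Ico n (n + m)) := by
      ext i
      simp only [Finset.mem_Ico, Finset.mem_insert]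
      omega
    rw [hIco, ctrs_insert (by simp)]
    unfold ctr
    rw [← (Fin.snocEquiv (fun _ : Fin (m + 1) => Fin 4)).sum_comp, Fintype.sum_prod_type,
      ← Fin.sum_univ_eq_sum_range (fun j => ctrs (Finset.Ico n (n + m)) H
        (update z (n + m) (0 + ((2 : ℚ) : ℂ) * uj j (z (n + m)))) * (((2 : ℚ) : ℂ) *
          duj j (z (n + m)))) 4]
    refine Finset.sum_congr rfl fun j _ => ?_
    rw [ih, Finset.sum_mul]
    refine Finset.sum_congr rfl fun q _ => ?_
    have h1 : (Fin.snocEquiv (fun _ : Fin (m + 1) => Fin 4)) (j, q) =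
        Fin.snoc (α := fun _ => Fin 4) q j := rfl
    rw [h1, Fin.prod_univ_castSucc]
    have h2 : (fun i => if h : n ≤ i ∧ i - n < m then
          2 * uj (q ⟨i - n, h.2⟩) (update z (n + m) (0 + ((2 : ℚ) : ℂ) * uj j (z (n + m))) i)
          else update z (n + m) (0 + ((2 : ℚ) : ℂ) * uj j (z (n + m))) i) =
        (fun i => if h : n ≤ i ∧ i - n < m + 1 then
          2 * uj (Fin.snoc (α := fun _ => Fin 4) q j ⟨i - n, h.2⟩ : Fin 4) (z i) else z i) := by
      funext i
      by_cases hi : i = n + m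
      · subst hi
        have e0 : n + m - n = m := by omega
        rw [dif_neg (by omega), dif_pos (by omega), update_self]
        have e1 : (⟨n + m - n, by omega⟩ : Fin (m + 1)) = Fin.last m := by
          apply Fin.ext
          simp
        rw [e1, Fin.snoc_last]
        push_cast
        ring
      · rw [update_of_ne hi]
        by_cases hi2 : n ≤ i ∧ i - n < m
        · rw [dif_pos hi2, dif_pos (by omega)]
          have e1 : (⟨i - n, by omega⟩ : Fin (m + 1)) = Fin.castSucc ⟨i - n, hi2.2⟩ := rfl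
          rw [e1, Fin.snoc_castSucc]
        · rw [dif_neg hi2, dif_neg (by omega)]
    rw [h2]
    have h3 : ∏ k : Fin m, (2 * duj (q k)
          (update z (n + m) (0 + ((2 : ℚ) : ℂ) * uj j (z (n + m))) (n + k))) =
        ∏ k : Fin m, (2 * duj (Fin.snoc (α := fun _ => Fin 4) q j (Fin.castSucc k) : Fin 4)
          (z (n + (Fin.castSucc k : Fin (m + 1))))) := by
      refine Finset.prod_congr rfl fun k _ => ?_
      rw [Fin.snoc_castSucc, update_of_ne (by
        have := k.2
        omega)]
      rfl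
    rw [h3, Fin.snoc_last, Fin.val_last]
    push_cast
    ring

theorem bri_arc (q : ℕ) (s : ℂ) : arc q s = 2 * uj q s := rfl

theorem bri_darc (q : ℕ) (s : ℂ) : darc q s = 2 * duj q s := rfl

/-- the value of a circuit and of a network with the same gates -/
theorem bri_value {n m : ℕ} {g : ℕ → Gate} {W : Net Qi} (hA : W.A = Finset.Ico n (n + m))
    {v w : ℕ} (hv : v < m) (hw : w < m)
    (hgate : ∀ k < m, ∀ (t : ℕ → ℂ) (y : ℕ → ℂ) (z : Pt), (∀ j < n, t j = z j) →
      (∀ j < m, y j = z (n + j)) → (g k).val t y = pev (W.gp (n + k)) z) :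
    ∀ z ∈ Dom X0, cx (circuit n m g v w) z = cls W (X (n + v)) [C 4 - X (n + w)] z := by
  intro z hz
  unfold cls
  rw [hA, ctrs_Ico]
  unfold cx circuit
  have hre : ∀ i, (((z i).re : ℝ) : ℂ) = z i := fun i => congrFun (ofReal_re hz) i
  refine Finset.sum_congr rfl fun q _ => ?_
  simp only [hre]
  set z' : Pt := fun i => if h : n ≤ i ∧ i - n < m then 2 * uj (q ⟨i - n, h.2⟩) (z i) else z i
    with hz'
  have hzn : ∀ j (hj : j < m), z' (n + j) = 2 * uj (q ⟨j, hj⟩) (z (n + j)) := by
    intro j hj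
    have e0 : n + j - n = j := by omega
    rw [hz']
    simp only []
    rw [dif_pos (by omega)]
    have e1 : (⟨n + j - n, by omega⟩ : Fin m) = ⟨j, hj⟩ := Fin.ext e0
    rw [e1]
  have hzs : ∀ j < n, z' j = z j := by
    intro j hj
    rw [hz']
    simp only []
    rw [dif_neg (by omega)]
  have hy : ∀ j < m, (if h : j < m then arc (q ⟨j, h⟩) (z (n + j)) else 0) = z' (n + j) := by
    intro j hj
    rw [dif_pos hj, hzn j hj, bri_arc]
  have hker : W.ker z' = ∏ k : Fin m, 1 / (z' (n + k) - pev (W.gp (n + k)) z') := by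
    unfold Net.ker
    rw [hA, Finset.prod_Ico_eq_prod_range, Nat.add_sub_cancel_left,
      ← Fin.prod_univ_eq_prod_range (fun k => 1 / (z' (n + k) - pev (W.gp (n + k)) z')) m]
  have hnm : nm (X (n + v) : MvPolynomial ℕ Qi) [C 4 - X (n + w)] z' = z' (n + v) /
      (4 - z' (n + w)) := by
    unfold nm
    rw [List.prod_singleton]
    unfold pev
    rw [map_sub, aeval_X, aeval_X, aeval_C]
    rfl
  rw [hker, hnm, hy v hv, hy w hw, mul_assoc, ← Finset.prod_mul_distrib]
  congr 1
  refine Finset.prod_congr rfl fun k _ => ?_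
  have h1 := hgate k k.2 (fun j => z j)
    (fun k => if h : k < m then arc (q ⟨k, h⟩) (z (n + k)) else 0) z'
    (fun j hj => (hzs j hj).symm) hy
  rw [h1, hy k k.2, bri_darc]
  ring

open Classical in
/-- an element of `ℚ(i)` -/
noncomputable def briQ (c : ℂ) : Qi := if h : c ∈ Qi then ⟨c, h⟩ else 0

theorem briQ_coe {c : ℂ} (h : QuarterInt c) : ((briQ c : Qi) : ℂ) = c := by
  have h1 : c ∈ Qi := by
    obtain ⟨a, b, rfl⟩ := h
    rw [mem_Qi_iff]
    refine ⟨a / 4, b / 4, ?_⟩
    push_cast
    ring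
  unfold briQ
  rw [dif_pos h1]

/-- coefficients of a gate -/
noncomputable def briC : Gate → Fin 4 → Qi
  | Gate.const c => ![briQ c, 0, 0, 0]
  | Gate.input _ => ![0, 1 / 2, 0, 0]
  | Gate.node c _ _ => fun j => briQ (c j)

/-- first input of a gate -/
def briA (n : ℕ) : Gate → ℕ
  | Gate.const _ => 0
  | Gate.input j => j
  | Gate.node _ a _ => n + a

/-- second input of a gate -/
def briB (n : ℕ) : Gate → ℕ
  | Gate.const _ => 0
  | Gate.input j => j
  | Gate.node _ _ b => n + b

theorem bri_half : (((1 / 2 : Qi) : Qi) : ℂ) = 1 / 2 := by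
  push_cast
  rfl

theorem circuit_net {n m : ℕ} {g : ℕ → Gate} {v w : ℕ} (hn : 1 ≤ n)
    (hg : ∀ k < m, (g k).Ok n k) (hv : v < m) (hw : w < m) :
    ∃ (W : Net Qi) (f : Pt → ℂ), W.A = Finset.Ico n (n + m) ∧ CleanG W ∧
      CleanE I_mem_Qi W [C 4 - X (n + w)] ∧
      Rpr I_mem_Qi (noEx Qi) n W (X (n + v)) [C 4 - X (n + w)] f ∧
      ∀ z ∈ Dom X0, cx (circuit n m g v w) z = cls W (X (n + v)) [C 4 - X (n + w)] z := by
  let W : Net Qi := ⟨Finset.Ico n (n + m), fun k => briC (g (k - n)), fun k => briA n (g (k - n)),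
    fun k => briB n (g (k - n))⟩
  have hAeq : W.A = Finset.Ico n (n + m) := rfl
  have hmem : ∀ k, k ∈ W.A ↔ n ≤ k ∧ k < n + m := fun k => Finset.mem_Ico
  have hW : Wf n W := by
    intro k hk
    obtain ⟨h1, h2⟩ := (hmem k).1 hk
    have h3 := hg (k - n) (by omega)
    refine ⟨h1, ?_⟩
    show GCK (briC (g (k - n))) ∧ briA n (g (k - n)) < k ∧ briB n (g (k - n)) < k ∧
      (briA n (g (k - n)) ∈ W.A ∨ briA n (g (k - n)) < n) ∧
      (briB n (g (k - n)) ∈ W.A ∨ briB n (g (k - n)) < n)
    cases hgk : g (k - n) with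
    | const c =>
      rw [hgk] at h3
      obtain ⟨h4, h5⟩ := h3
      refine ⟨?_, ?_, ?_, Or.inr ?_, Or.inr ?_⟩
      · unfold GCK briC
        constructor
        · intro j
          fin_cases j
          · obtain ⟨a, b, hab⟩ := h4
            refine ⟨a, b, ?_⟩
            show ((briQ c : Qi) : ℂ) = _
            rw [briQ_coe ⟨a, b, hab⟩, hab]
          · exact ⟨0, 0, by simp⟩
          · exact ⟨0, 0, by simp⟩
          · exact ⟨0, 0, by simp⟩
        · simp only [Matrix.cons_val_zero, Matrix.cons_val_one, Matrix.cons_val]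
          rw [briQ_coe h4]
          simpa using h5
      · show 0 < k
        omega
      · show 0 < k
        omega
      · show 0 < n
        omega
      · show 0 < n
        omega
    | input j =>
      rw [hgk] at h3
      have h4 : j < n := h3
      refine ⟨?_, ?_, ?_, Or.inr h4, Or.inr h4⟩
      · unfold GCK briC
        constructor
        · intro j
          fin_cases j
          · exact ⟨0, 0, by simp⟩
          · refine ⟨2, 0, ?_⟩
            show (((1 / 2 : Qi) : Qi) : ℂ) = _
            rw [bri_half]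
            push_cast
            ring
          · exact ⟨0, 0, by simp⟩
          · exact ⟨0, 0, by simp⟩
        · simp only [Matrix.cons_val_zero, Matrix.cons_val_one, Matrix.cons_val]
          rw [bri_half]
          norm_num
      · show j < k
        omega
      · show j < k
        omega
    | node c a b =>
      rw [hgk] at h3
      obtain ⟨h4, h5, h6, h7⟩ := h3
      refine ⟨?_, ?_, ?_, Or.inl ?_, Or.inl ?_⟩
      · unfold GCK briC
        constructor
        · intro j
          obtain ⟨a, b, hab⟩ := h4 j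
          refine ⟨a, b, ?_⟩
          show ((briQ (c j) : Qi) : ℂ) = _
          rw [briQ_coe (h4 j), hab]
        · show ‖((briQ (c 0) : Qi) : ℂ)‖ + 2 * ‖((briQ (c 1) : Qi) : ℂ)‖ +
            2 * ‖((briQ (c 2) : Qi) : ℂ)‖ + 4 * ‖((briQ (c 3) : Qi) : ℂ)‖ ≤ 3 / 2
          rw [briQ_coe (h4 0), briQ_coe (h4 1), briQ_coe (h4 2), briQ_coe (h4 3)]
          exact h5
      · show n + a < k
        omega
      · show n + b < k
        omega
      · rw [hmem]
        show n ≤ n + a ∧ n + a < n + m
        omega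
      · rw [hmem]
        show n ≤ n + b ∧ n + b < n + m
        omega
  have hvA : n + v ∈ W.A := (hmem _).2 (by omega)
  have hwA : n + w ∈ W.A := (hmem _).2 (by omega)
  obtain ⟨hr1, hr2⟩ := rpr_quot (hI := I_mem_Qi) hn hW hvA hwA (noEx Qi)
  refine ⟨W, _, rfl, ?_, hr2, hr1, ?_⟩
  · intro k hk
    obtain ⟨h1, h2⟩ := (hmem k).1 hk
    have h3 := hg (k - n) (by omega)
    show (briA n (g (k - n)) ∈ W.A ∧ briB n (g (k - n)) ∈ W.A) ∨
      (briB n (g (k - n)) = briA n (g (k - n)) ∧ briA n (g (k - n)) ∉ W.A ∧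
        ((briC (g (k - n)) 0 : Qi) : ℂ) = 0 ∧ ((briC (g (k - n)) 1 : Qi) : ℂ) = 1 / 2 ∧
        ((briC (g (k - n)) 2 : Qi) : ℂ) = 0 ∧ ((briC (g (k - n)) 3 : Qi) : ℂ) = 0) ∨
      (((briC (g (k - n)) 1 : Qi) : ℂ) = 0 ∧ ((briC (g (k - n)) 2 : Qi) : ℂ) = 0 ∧
        ((briC (g (k - n)) 3 : Qi) : ℂ) = 0)
    cases hgk : g (k - n) with
    | const c =>
      refine Or.inr (Or.inr ⟨?_, ?_, ?_⟩)
      · show ((0 : Qi) : ℂ) = 0
        rfl
      · show ((0 : Qi) : ℂ) = 0
        rfl
      · show ((0 : Qi) : ℂ) = 0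
        rfl
    | input j =>
      rw [hgk] at h3
      have h4 : j < n := h3
      refine Or.inr (Or.inl ⟨rfl, ?_, ?_, bri_half, ?_, ?_⟩)
      · rw [hmem]
        show ¬ (n ≤ j ∧ j < n + m)
        omega
      · show ((0 : Qi) : ℂ) = 0
        rfl
      · show ((0 : Qi) : ℂ) = 0
        rfl
      · show ((0 : Qi) : ℂ) = 0
        rfl
    | node c a b =>
      rw [hgk] at h3
      obtain ⟨h4, h5, h6, h7⟩ := h3
      refine Or.inl ⟨?_, ?_⟩
      · rw [hmem]
        show n ≤ n + a ∧ n + a < n + m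
        omega
      · rw [hmem]
        show n ≤ n + b ∧ n + b < n + m
        omega
  · refine bri_value hAeq hv hw fun k hk t y z ht hy => ?_
    have h3 := hg k hk
    rw [pev_gp]
    have e0 : n + k - n = k := by omega
    show (g k).val t y = ((briC (g (n + k - n)) 0 : Qi) : ℂ) +
      ((briC (g (n + k - n)) 1 : Qi) : ℂ) * z (briA n (g (n + k - n))) +
      ((briC (g (n + k - n)) 2 : Qi) : ℂ) * z (briB n (g (n + k - n))) +
      ((briC (g (n + k - n)) 3 : Qi) : ℂ) *
        (z (briA n (g (n + k - n))) * z (briB n (g (n + k - n))))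
    rw [e0]
    cases hgk : g k with
    | const c =>
      rw [hgk] at h3
      obtain ⟨h4, h5⟩ := h3
      show c = ((briQ c : Qi) : ℂ) + ((0 : Qi) : ℂ) * _ + ((0 : Qi) : ℂ) * _ +
        ((0 : Qi) : ℂ) * _
      rw [briQ_coe h4]
      push_cast
      ring
    | input j =>
      rw [hgk] at h3
      have h4 : j < n := h3
      show t j / 2 = ((0 : Qi) : ℂ) + ((1 / 2 : Qi) : ℂ) * z j + ((0 : Qi) : ℂ) * _ +
        ((0 : Qi) : ℂ) * _
      rw [ht j h4, bri_half]
      push_cast
      ring
    | node c a b =>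
      rw [hgk] at h3
      obtain ⟨h4, h5, h6, h7⟩ := h3
      show c 0 + c 1 * y a + c 2 * y b + c 3 * (y a * y b) =
        ((briQ (c 0) : Qi) : ℂ) + ((briQ (c 1) : Qi) : ℂ) * z (n + a) +
        ((briQ (c 2) : Qi) : ℂ) * z (n + b) + ((briQ (c 3) : Qi) : ℂ) * (z (n + a) * z (n + b))
      rw [briQ_coe (h4 0), briQ_coe (h4 1), briQ_coe (h4 2), briQ_coe (h4 3),
        hy a (by omega), hy b (by omega)]

open Classical in
/-- the gate of a node of a network -/
noncomputable def briG (W : Net Qi) (n k : ℕ) : Gate :=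
  if W.a k ∈ W.A ∧ W.b k ∈ W.A then
    Gate.node (fun j => (W.c k j : ℂ)) (W.a k - n) (W.b k - n)
  else if (W.c k 1 : ℂ) = 0 ∧ (W.c k 2 : ℂ) = 0 ∧ (W.c k 3 : ℂ) = 0 then
    Gate.const (W.c k 0 : ℂ)
  else Gate.input (W.a k)

theorem net_circuit {n m : ℕ} (hn : 1 ≤ n) {W : Net Qi} {v w : ℕ} (hW : Wf n W)
    (hc : CleanG W) (hA : W.A = Finset.Ico n (n + m)) (hv : v ∈ W.A) (hw : w ∈ W.A) :
    ∃ g : ℕ → Gate, (∀ k < m, (g k).Ok n k) ∧ v - n < m ∧ w - n < m ∧
      ∀ z ∈ Dom X0, cx (circuit n m g (v - n) (w - n)) z = cls W (X v) [C 4 - X w] z := by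
  have hmem : ∀ k, k ∈ W.A ↔ n ≤ k ∧ k < n + m := fun k => by rw [hA]; exact Finset.mem_Ico
  have hv1 := (hmem v).1 hv
  have hw1 := (hmem w).1 hw
  refine ⟨fun k => briG W n (n + k), ?_, by omega, by omega, ?_⟩
  · intro k hk
    have hkA : n + k ∈ W.A := (hmem _).2 (by omega)
    obtain ⟨h1, ⟨h2, h3⟩, h4, h5, h6, h7⟩ := hW _ hkA
    show (briG W n (n + k)).Ok n k
    unfold briG
    split_ifs with c1 c2
    · refine ⟨h2, h3, ?_, ?_⟩
      · have := (hmem _).1 c1.1
        omega
      · have := (hmem _).1 c1.2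
        omega
    · refine ⟨h2 0, ?_⟩
      have e1 := norm_nonneg (W.c (n + k) 1 : ℂ)
      have e2 := norm_nonneg (W.c (n + k) 2 : ℂ)
      have e3 := norm_nonneg (W.c (n + k) 3 : ℂ)
      linarith
    · rcases hc _ hkA with h | h | h
      · exact absurd h c1
      · show W.a (n + k) < n
        rcases h6 with h8 | h8
        · exact absurd h8 h.2.1
        · exact h8
      · exact absurd h c2
  · have e1 : n + (v - n) = v := by omega
    have e2 : n + (w - n) = w := by omega
    have hval := bri_value (g := fun k => briG W n (n + k)) hA (v := v - n) (w := w - n)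
      (by omega) (by omega) (fun k hk t y z ht hy => by
        have hkA : n + k ∈ W.A := (hmem _).2 (by omega)
        obtain ⟨h1, ⟨h2, h3⟩, h4, h5, h6, h7⟩ := hW _ hkA
        rw [pev_gp]
        show (briG W n (n + k)).val t y = _
        unfold briG
        split_ifs with c1 c2
        · have h8 := (hmem _).1 c1.1
          have h9 := (hmem _).1 c1.2
          show (W.c (n + k) 0 : ℂ) + (W.c (n + k) 1 : ℂ) * y (W.a (n + k) - n) +
            (W.c (n + k) 2 : ℂ) * y (W.b (n + k) - n) +
            (W.c (n + k) 3 : ℂ) * (y (W.a (n + k) - n) * y (W.b (n + k) - n)) = _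
          have f1 : n + (W.a (n + k) - n) = W.a (n + k) := by omega
          have f2 : n + (W.b (n + k) - n) = W.b (n + k) := by omega
          rw [hy _ (by omega), hy _ (by omega), f1, f2]
        · show (W.c (n + k) 0 : ℂ) = _
          rw [c2.1, c2.2.1, c2.2.2]
          ring
        · rcases hc _ hkA with h | h | h
          · exact absurd h c1
          · obtain ⟨g1, g2, g3, g4, g5, g6⟩ := h
            have h8 : W.a (n + k) < n := by
              rcases h6 with h8 | h8
              · exact absurd h8 g2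
              · exact h8
            show t (W.a (n + k)) / 2 = _
            rw [g3, g4, g5, g6, ht _ h8]
            ring
          · exact absurd h c2)
    rw [e1, e2] at hval
    exact hval

/-- a circuit integrand depends on the coordinates `< n + m` and is a rational function -/
theorem circuit_ratFn {F : (ℕ → ℝ) → ℂ} (hF : F ∈ CircuitSpan) : F ∈ RatFn Qi := by
  obtain ⟨r, c, G, hG, hFG⟩ := hF
  rw [mem_ratFn_iff]
  have h1 : ∀ j, IsRat Qi X0 (cx (G j)) := by
    intro j
    obtain ⟨n, m, g, v, w, hn, hg, hv, hw, hGj⟩ := hG j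
    obtain ⟨W, f, hA, hcg, hce, hr, hval⟩ := circuit_net hn hg hv hw
    rw [hGj]
    have h2 := (sysR Qi I_mem_Qi).cl_cls hr.wf (E := [C 4 - X (n + w)])
      (fun L hL => by
        rcases hr.fn L hL with h | h | h
        · exact Or.inl h
        · exact Or.inr (Or.inl h)
        · exact absurd h.1 id) (X (n + v))
    exact h2.congr fun z hz => (hval z hz).symm
  have h2 : IsRat Qi X0 (fun z => ∑ j, (c j : ℂ) * cx (G j) z) :=
    IsRat.sum _ _ fun j _ => (IsRat.const _ (c j).2).mul (h1 j)
  refine h2.congr fun z hz => ?_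
  exact (hFG _ (re_mem_cube hz)).symm

end MP1eadaeL
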