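import Mathlib
import Pool.Agent.Lib_MP_1eadae_ag.Real
import Pool.Agent.Lib_MP_1eadae_ag.Real2

/-!
# MP_1eadae_ag: circuit integrands (definitions of the final statement)
-/

namespace MP1eadae

open Complex

/-- parametrisation of the `q`-th quarter of the circle `|y| = 2` by `s ∈ [0,1]` -/
noncomputable def arc (q : ℕ) (s : ℂ) : ℂ := 2 * (I ^ q * ((1 + I * s) / (1 - I * s)))

/-- its derivative -/
noncomputable def darc (q : ℕ) (s : ℂ) : ℂ := 2 * (I ^ q * (2 * I / (1 - I * s) ^ 2))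

/-- A gate: a constant, half of an input variable, or a bilinear expression in two nodes. -/
inductive Gate where
  | const (c : ℂ) : Gate
  | input (j : ℕ) : Gate
  | node (c : Fin 4 → ℂ) (a b : ℕ) : Gate

/-- `4 c` is a Gaussian integer -/
def QuarterInt (c : ℂ) : Prop := ∃ a b : ℤ, c = ((a : ℂ) + (b : ℂ) * I) / 4

/-- the allowed gates at the `k`-th node of a circuit with `n` inputs (finitely many coefficients) -/
def Gate.Ok (n k : ℕ) : Gate → Prop
  | Gate.const c => QuarterInt c ∧ ‖c‖ ≤ 3 / 2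
  | Gate.input j => j < n
  | Gate.node c a b => (∀ j, QuarterInt (c j)) ∧
      ‖c 0‖ + 2 * ‖c 1‖ + 2 * ‖c 2‖ + 4 * ‖c 3‖ ≤ 3 / 2 ∧ a < k ∧ b < k

/-- the value of a gate at the input variables `t` and the nodes `y` -/
noncomputable def Gate.val (t : ℕ → ℂ) (y : ℕ → ℂ) : Gate → ℂ
  | Gate.const c => c
  | Gate.input j => t j / 2
  | Gate.node c a b => c 0 + c 1 * y a + c 2 * y b + c 3 * (y a * y b)

/-- The circuit integrand, a function of `x_0, ..., x_{n-1}` (the input variables `t`) and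
`x_n, ..., x_{n+m-1}` (parameters of the nodes `y_0, ..., y_{m-1}` on the circle `|y| = 2`):
`y_v/(4 - y_w) * ∏_k dy_k / (y_k - g_k(t, y))`, summed over the quarters of the circles. -/
noncomputable def circuit (n m : ℕ) (g : ℕ → Gate) (v w : ℕ) (x : ℕ → ℝ) : ℂ :=
  ∑ q : Fin m → Fin 4,
    let y : ℕ → ℂ := fun k => if h : k < m then arc (q ⟨k, h⟩) (x (n + k)) else 0
    y v / (4 - y w) * ∏ k : Fin m, darc (q k) (x (n + k)) / (y k - (g k).val (fun j => x j) y)

/-- the circuit integrands -/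
def CircuitFn : Set ((ℕ → ℝ) → ℂ) :=
  {F | ∃ (n m : ℕ) (g : ℕ → Gate) (v w : ℕ), 1 ≤ n ∧ (∀ k < m, (g k).Ok n k) ∧ v < m ∧ w < m ∧
    F = circuit n m g v w}

/-- finite linear combinations of circuit integrands with coefficients in `ℚ(i)` -/
def CircuitSpan : Set ((ℕ → ℝ) → ℂ) :=
  {F | ∃ (r : ℕ) (c : Fin r → Qi) (G : Fin r → (ℕ → ℝ) → ℂ), (∀ j, G j ∈ CircuitFn) ∧
    ∀ x ∈ Cube, F x = ∑ j, (c j : ℂ) * G j x}

/-- Functions with denominators in `T`: quotients of a polynomial (in any number of variables)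
by a finite product of functions `L(x_{i_0}, x_{i_1}, x_{i_2}, x_{i_3})` with `L ∈ T`. -/
def TemplateFn (T : Set (MvPolynomial (Fin 4) Qi)) : Set ((ℕ → ℝ) → ℂ) :=
  {F | ∃ (P : MvPolynomial ℕ Qi) (l : List (MvPolynomial (Fin 4) Qi × (Fin 4 → ℕ))),
    (∀ p ∈ l, p.1 ∈ T) ∧ ∀ x ∈ Cube, F x =
      peval P x / (l.map (fun p => MvPolynomial.aeval (fun j => ((x (p.2 j) : ℝ) : ℂ)) p.1)).prod}

/-- the factor `p_n p_{n+1} ... p_{n+m-1}`, `p_j = 4/(1+x_j^2)`, of integral `π^m` -/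
noncomputable def piProd (n m : ℕ) (x : ℕ → ℝ) : ℂ :=
  ∏ j ∈ Finset.range m, (4 : ℂ) / (1 + (x (n + j) : ℂ) ^ 2)

end MP1eadae
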