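import Pool.Agent.Lib_MP_1eadae_ft.Alg
import Pool.Agent.Lib_MP_1eadae_ft.Cau

/-! # MP_1eadae_ag (FT), piece ZER: a numerator vanishing at the exact values gives a Stokes element -/

namespace MP1eadaeL

open Complex Function MvPolynomial

variable {K : Subfield ℂ} {hI : I ∈ K} {Cl : (Pt → ℂ) → Prop}
  {Dn : Finset ℕ → MvPolynomial ℕ K → Prop} {Ex : MvPolynomial ℕ K → Prop} {M : ℕ} {W : Net K}

/- Piece ZER.  By `exists_comb`, `P = ∑_{k ∈ A} B_k (X_k - gp_k)`, so on `Dom (XA A)`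
`P/∏E * ker = ∑_k B_k / (∏ E * ∏_{j ∈ A, j ≠ k} (X_j - gp_j))` (the kernel factor of `k` cancels;
`X_k - gp_k ≠ 0` there by `dn_gate` and `S.ne`).  For each `k` apply `Sys.cauchy` with the list
`E ++ ((A.erase k).toList.map (fun j => X j - W.gp j))`, the numerator `B k` and an `s` which is not
in `A` and not in the (finitely many) variables of `B k`, `E`, the gates; the conditions are
`Sys.fn_sub` and `Sys.dn_gate_sub`.  Sum up (`ctrs_sum`, `St.sum`, `ctrs_congr`). -/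

private theorem zer_pevX (k : ℕ) (z : Pt) : pev (X k : MvPolynomial ℕ K) z = z k := by
  simp only [pev, aeval_X]

private theorem zer_gate (k : ℕ) (z : Pt) : pev (X k - W.gp k) z = z k - pev (W.gp k) z := by
  rw [rb_pev_sub, zer_pevX]

private theorem zer_dn (S : Sys K hI Cl Dn Ex) (hW : Wf M W) {k : ℕ} (hk : k ∈ W.A) :
    Dn W.A (X k - W.gp k) := S.dn_gate hk (hW k hk).2.1 _ _

private theorem zer_ne (S : Sys K hI Cl Dn Ex) (hW : Wf M W) {k : ℕ} (hk : k ∈ W.A) {z : Pt}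
    (hz : z ∈ Dom (XA W.A)) : z k - pev (W.gp k) z ≠ 0 := by
  rw [← zer_gate]
  exact S.ne _ _ (zer_dn S hW hk) z hz

private theorem zer_sum (s : Finset ℕ) (f : ℕ → MvPolynomial ℕ K) (z : Pt) :
    pev (∑ k ∈ s, f k) z = ∑ k ∈ s, pev (f k) z := by
  unfold pev
  rw [map_sum]

private theorem zer_prod (s : Finset ℕ) (f : ℕ → MvPolynomial ℕ K) (z : Pt) :
    pev (s.toList.map f).prod z = ∏ k ∈ s, pev (f k) z := by
  rw [Finset.prod_map_toList]
  unfold pev
  rw [map_prod]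

private theorem zer_pt (S : Sys K hI Cl Dn Ex) (hW : Wf M W) (E : List (MvPolynomial ℕ K))
    {P : MvPolynomial ℕ K} (B : ℕ → MvPolynomial ℕ K) (hB : P = ∑ k ∈ W.A, B k * (X k - W.gp k))
    {z : Pt} (hz : z ∈ Dom (XA W.A)) :
    ∑ k ∈ W.A, pev (B k) z /
      pev (E ++ (W.A.erase k).toList.map (fun j => X j - W.gp j)).prod z =
    nm P E z * W.ker z := by
  have h3 : pev P z = ∑ k ∈ W.A, pev (B k) z * (z k - pev (W.gp k) z) := by
    rw [hB, zer_sum]
    refine Finset.sum_congr rfl fun k _ => ?_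
    rw [rb_pev_mul, zer_gate]
  unfold nm Net.ker
  rw [h3, Finset.sum_div, Finset.sum_mul]
  refine Finset.sum_congr rfl fun k hk => ?_
  have h4 := zer_ne S hW hk hz
  have h5 : ∏ j ∈ W.A.erase k, pev (X j - W.gp j) z = ∏ j ∈ W.A.erase k, (z j - pev (W.gp j) z) :=
    Finset.prod_congr rfl fun j _ => zer_gate j z
  have h6 : ∏ k ∈ W.A, 1 / (z k - pev (W.gp k) z) =
      1 / (z k - pev (W.gp k) z) * (∏ j ∈ W.A.erase k, (z j - pev (W.gp j) z))⁻¹ := by
    rw [← Finset.mul_prod_erase W.A _ hk, ← Finset.prod_inv_distrib]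
    congr 1
    exact Finset.prod_congr rfl fun j _ => one_div _
  rw [List.prod_append, rb_pev_mul, zer_prod, h5, h6]
  generalize ∏ j ∈ W.A.erase k, (z j - pev (W.gp j) z) = a
  generalize pev E.prod z = b
  generalize pev (B k) z = c
  generalize z k - pev (W.gp k) z = d at h4 ⊢
  rw [mul_div_right_comm, mul_assoc, ← mul_assoc d, mul_one_div_cancel h4, one_mul,
    div_mul_eq_div_div, div_eq_mul_inv (c / b)]

private theorem zer_fresh (E : List (MvPolynomial ℕ K)) (W : Net K) (B : ℕ → MvPolynomial ℕ K) :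
    ∃ s : ℕ, s ∉ W.A ∧ (∀ k ∈ W.A, s ∉ (B k).vars) ∧ (∀ L ∈ E, s ∉ L.vars) ∧
      ∀ k ∈ W.A, s ∉ (X k - W.gp k : MvPolynomial ℕ K).vars := by
  classical
  obtain ⟨s, hs⟩ := Infinite.exists_notMem_finset
    (W.A ∪ (W.A.biUnion fun k => (B k).vars) ∪ (E.toFinset.biUnion fun L => L.vars) ∪
      (W.A.biUnion fun k => (X k - W.gp k : MvPolynomial ℕ K).vars))
  refine ⟨s, fun h => hs ?_, fun k hk h => hs ?_, fun L hL h => hs ?_, fun k hk h => hs ?_⟩
  · exact Finset.mem_union_left _ (Finset.mem_union_left _ (Finset.mem_union_left _ h))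
  · exact Finset.mem_union_left _ (Finset.mem_union_left _ (Finset.mem_union_right _
      (Finset.mem_biUnion.2 ⟨k, hk, h⟩)))
  · exact Finset.mem_union_left _ (Finset.mem_union_right _
      (Finset.mem_biUnion.2 ⟨L, List.mem_toFinset.2 hL, h⟩))
  · exact Finset.mem_union_right _ (Finset.mem_biUnion.2 ⟨k, hk, h⟩)

theorem Sys.cls_zero (S : Sys K hI Cl Dn Ex) (hW : Wf M W) {E : List (MvPolynomial ℕ K)}
    (hE : ∀ L ∈ E, Fn hI Ex W.A L) {P : MvPolynomial ℕ K}
    (hP : ∀ z ∈ Dom X0, pev P (W.th z) = 0) : St Cl X0 Set.univ (cls W P E) := by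
  obtain ⟨B, hB⟩ := exists_comb hW hP
  obtain ⟨s, hsA, hsB, hsE, hsG⟩ := zer_fresh E W B
  have h1 : ∀ k ∈ W.A, St Cl X0 Set.univ (ctrs W.A (fun z => pev (B k) z /
      pev (E ++ (W.A.erase k).toList.map (fun j => X j - W.gp j)).prod z)) := by
    intro k hk
    refine S.cauchy hk hsA (hsB k hk) fun L hL => ?_
    rcases List.mem_append.1 hL with hL | hL
    · exact ⟨hsE L hL, S.fn_sub (hE L hL) hk hsA⟩
    · obtain ⟨j, hj, rfl⟩ := List.mem_map.1 hL
      rw [Finset.mem_toList, Finset.mem_erase] at hj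
      exact ⟨hsG j hj.2, S.dn_gate_sub hj.2 hj.1 hsA (hW j hj.2).2.1 _ _⟩
  have h2 : St Cl X0 Set.univ (fun z => ∑ k ∈ W.A, ctrs W.A (fun z => pev (B k) z /
      pev (E ++ (W.A.erase k).toList.map (fun j => X j - W.gp j)).prod z) z) :=
    St.sum W.A _ h1
  refine St.congr _ _ h2 fun z hz => ?_
  have h3 : ∀ z ∈ Dom X0, ctrs W.A (fun z => ∑ k ∈ W.A, pev (B k) z /
      pev (E ++ (W.A.erase k).toList.map (fun j => X j - W.gp j)).prod z) z =
      ctrs W.A (fun z => nm P E z * W.ker z) z :=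
    ctrs_congr fun z hz => zer_pt S hW E B hB hz
  refine Eq.trans ?_ (h3 z hz)
  exact (ctrs_sum _ _ _ _).symm

/-- kernel times numerator is in `TM` -/
private theorem zer_tm (S : Sys K hI Cl Dn Ex) (hW : Wf M W) {E : List (MvPolynomial ℕ K)}
    (hE : ∀ L ∈ E, Fn hI Ex W.A L) (P : MvPolynomial ℕ K) :
    TM Dn W.A (fun z => nm P E z * W.ker z) := by
  refine TM.mul (TM.quot P fun L hL => S.fn_dn (hE L hL)) (TM.prod W.A _ fun k hk => ?_)
  refine (TM.inv (zer_dn S hW hk)).congr fun z _ => ?_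
  rw [zer_gate]

/-- the integrand of a network is in the class -/
theorem Sys.cl_cls (S : Sys K hI Cl Dn Ex) (hW : Wf M W) {E : List (MvPolynomial ℕ K)}
    (hE : ∀ L ∈ E, Fn hI Ex W.A L) (P : MvPolynomial ℕ K) : Cl (cls W P E) :=
  S.cl_ctrs (zer_tm S hW hE P)

/-- kernel times numerator is in `TM` -/
theorem Sys.tm_ker (S : Sys K hI Cl Dn Ex) (hW : Wf M W) {E : List (MvPolynomial ℕ K)}
    (hE : ∀ L ∈ E, Fn hI Ex W.A L) (P : MvPolynomial ℕ K) :
    TM Dn W.A (fun z => nm P E z * W.ker z) := zer_tm S hW hE P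

end MP1eadaeL
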