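import Pool.Agent.Lib_MP_1eadae_ft.DerA
import Pool.Agent.Lib_MP_1eadae_ft.Zer

/-! # MP_1eadae_ag (FT), piece DERB: the Newton-Leibniz relation for networks -/

namespace MP1eadaeL

open Complex Function MvPolynomial

variable {K : Subfield ℂ} {hI : I ∈ K} {Cl : (Pt → ℂ) → Prop}
  {Dn : Finset ℕ → MvPolynomial ℕ K → Prop} {Ex : MvPolynomial ℕ K → Prop} {M : ℕ} {W : Net K}

/-- the list of denominators of a network integrand -/
noncomputable def DERB_l (W : Net K) (E : List (MvPolynomial ℕ K)) : List (MvPolynomial ℕ K) :=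
  E ++ W.A.toList.map (fun k => X k - W.gp k)

theorem DERB_l_dn (S : Sys K hI Cl Dn Ex) (hW : Wf M W) {E : List (MvPolynomial ℕ K)}
    (hE : ∀ L ∈ E, Fn hI Ex W.A L) : ∀ L ∈ DERB_l W E, Dn W.A L := by
  intro L hL
  rcases List.mem_append.1 hL with h | h
  · exact S.fn_dn (hE L h)
  · obtain ⟨k, hk, rfl⟩ := List.mem_map.1 h
    have hk' : k ∈ W.A := Finset.mem_toList.1 hk
    exact S.dn_gate hk' (hW k hk').2.1 (W.a k) (W.b k)

theorem DERB_l_prod (W : Net K) (E : List (MvPolynomial ℕ K)) :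
    (DERB_l W E).prod = E.prod * ∏ k ∈ W.A, (X k - W.gp k) := by
  rw [DERB_l, List.prod_append, Finset.prod_map_toList]

theorem DERB_pev_prod (s : Finset ℕ) (f : ℕ → MvPolynomial ℕ K) (z : Pt) :
    pev (∏ k ∈ s, f k) z = ∏ k ∈ s, pev (f k) z := map_prod _ _ _

theorem DERB_pev_sum (s : Finset ℕ) (f : ℕ → MvPolynomial ℕ K) (z : Pt) :
    pev (∑ k ∈ s, f k) z = ∑ k ∈ s, pev (f k) z := map_sum _ _ _

theorem DERB_ker (W : Net K) (z : Pt) :
    W.ker z = 1 / pev (∏ k ∈ W.A, (X k - W.gp k)) z := by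
  rw [DERB_pev_prod, Net.ker, Finset.prod_div_distrib, Finset.prod_const_one]
  congr 1
  refine Finset.prod_congr rfl fun k _ => ?_
  rw [rb_pev_sub]
  congr 1
  simp [pev]

theorem DERB_nm_ker (W : Net K) (P : MvPolynomial ℕ K) (E : List (MvPolynomial ℕ K)) (z : Pt) :
    nm P E z * W.ker z = pev P z / pev (DERB_l W E).prod z := by
  rw [DERB_ker, nm, DERB_l_prod, rb_pev_mul, div_mul_div_comm, mul_one]

/- Piece DERB.  On `Dom (XA A)` (`A = W.A`): `H = nm P E * ker = P / Λ` with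
`Λ = E.prod * ∏_{k ∈ A} (X k - W.gp k)`.  For every `v`, `∂_v H = (∂_v P Λ - P ∂_v Λ)/Λ^2`
(`rb_pev_part`, `Part.div`), so
`∑_{v ∈ insert i A} w_v ∂_v H = (dvf P Λ - P dvf Λ) / Λ^2 = nm (dnum P E) (E ++ E) * ker`
(`dvf_mul`, `dvf_prod_node`).  For `k ∈ A`: `∂_k (w_k H) = w_k ∂_k H` as `w_k` does not involve the
coordinate `k` (`hw.vw`, `pev_congr_vars`), and `w_i = 1`.  `st_seg` for `H` in the direction `i`
and `st_circ` for `w_k H` in the direction `k`, `k ∈ A`, give, after summation,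
`ctrs A (nm (dnum P E) (E++E) * ker) - (ctrs A H)|_{i=1} + (ctrs A H)|_{i=0} ∈ St`
(`ctrs_sum`, `ctrs_add`, `ctrs_update`). -/

theorem Sys.cls_deriv (S : Sys K hI Cl Dn Ex) (hW : Wf M W) {E : List (MvPolynomial ℕ K)}
    (hE : ∀ L ∈ E, Fn hI Ex W.A L) (P : MvPolynomial ℕ K) {i : ℕ} (hi : i ∉ W.A)
    {w : ℕ → MvPolynomial ℕ K} (hw : DW M W i w) :
    St Cl X0 Set.univ (fun z => cls W (dnum W i w P E) (E ++ E) z
      - cls W P E (update z i 1) + cls W P E (update z i 0)) := by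
  classical
  set l := DERB_l W E with hl
  have hldn := DERB_l_dn (hI := hI) (Cl := Cl) S hW hE
  set H : Pt → ℂ := fun z => pev P z / pev l.prod z with hH
  have hne : ∀ z ∈ Dom (XA W.A), pev l.prod z ≠ 0 := fun z hz => pev_prod_ne S hldn hz
  set Hd : ℕ → Pt → ℂ := fun v z => (pev (pderiv v P) z * pev l.prod z -
    pev P z * pev (pderiv v l.prod) z) / pev l.prod z ^ 2 with hHd
  have hHtm : TM Dn W.A H := TM.quot P hldn
  have hHdtm : ∀ v, TM Dn W.A (Hd v) := by
    intro v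
    refine ⟨pderiv v P * l.prod - P * pderiv v l.prod, l ++ l, ?_, fun z hz => ?_⟩
    · intro L hL
      rcases List.mem_append.1 hL with h | h
      · exact hldn L h
      · exact hldn L h
    · rw [List.prod_append, rb_pev_sub, rb_pev_mul, rb_pev_mul, rb_pev_mul]
      show _ / pev l.prod z ^ 2 = _
      rw [sq]
  have hpart : ∀ v, Part (XA W.A) v H (Hd v) := fun v =>
    (rb_pev_part (X := XA W.A) P v).div (rb_pev_part l.prod v) hne
  have h1 := S.st_seg hi hHtm (hHdtm i) (hpart i)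
  have h2 : ∀ k ∈ W.A, St Cl X0 Set.univ (ctrs W.A (fun z => pev (w k) z * Hd k z)) := by
    intro k hk
    have hpw : Part (XA W.A) k (pev (w k)) (fun _ => 0) := by
      refine Part.of_indep fun z _ t _ => ?_
      refine pev_congr_vars fun v hv => ?_
      have := (hw.vw k hk v hv).1
      exact update_of_ne (by omega) _ _
    have hp := hpw.mul (hpart k)
    have hp2 : Part (XA W.A) k (fun z => pev (w k) z * H z) (fun z => pev (w k) z * Hd k z) :=
      hp.congr (fun z _ => rfl) (fun z _ => by ring)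
    exact S.st_circ hk ((TM.poly (w k)).mul hHtm) ((TM.poly (w k)).mul (hHdtm k)) hp2
  have h3 := St.add _ _ h1 (St.sum W.A (fun k => ctrs W.A (fun z => pev (w k) z * Hd k z)) h2)
  refine St.congr _ _ h3 fun z hz => ?_
  have e1 : ∀ t : ℂ, cls W P E (update z i t) = ctrs W.A (fun z => H (update z i t)) z := by
    intro t
    rw [cls, ctrs_update hi]
    congr 1
    funext u
    exact DERB_nm_ker W P E _
  show ctrs W.A (fun z => Hd i z - H (update z i 1) + H (update z i 0)) z +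
    ∑ k ∈ W.A, ctrs W.A (fun z => pev (w k) z * Hd k z) z =
    cls W (dnum W i w P E) (E ++ E) z - cls W P E (update z i 1) + cls W P E (update z i 0)
  rw [e1, e1, cls, ← ctrs_sum W.A (fun k z => pev (w k) z * Hd k z), ← ctrs_add, ← ctrs_sub,
    ← ctrs_add]
  refine ctrs_congr (fun u hu => ?_) z hz
  have hu0 := hne u hu
  have hprod : pev l.prod u = pev E.prod u * pev (∏ k ∈ W.A, (X k - W.gp k)) u := by
    rw [hl, DERB_l_prod, rb_pev_mul]
  have hE0 : pev E.prod u ≠ 0 := by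
    intro h; rw [hprod, h, zero_mul] at hu0; exact hu0 rfl
  have hV0 : pev (∏ k ∈ W.A, (X k - W.gp k)) u ≠ 0 := by
    intro h; rw [hprod, h, mul_zero] at hu0; exact hu0 rfl
  have hdvf : ∀ Q : MvPolynomial ℕ K, pev (dvf W i w Q) u =
      pev (pderiv i Q) u + ∑ k ∈ W.A, pev (w k) u * pev (pderiv k Q) u := by
    intro Q
    rw [dvf, DERB_pev_sum, Finset.sum_insert hi]
    congr 1
    · rw [rb_pev_mul, hw.wi]
      have : pev (1 : MvPolynomial ℕ K) u = 1 := map_one _
      rw [this, one_mul]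
    · exact Finset.sum_congr rfl fun k _ => rb_pev_mul _ _ _
  have hdl : pev (dvf W i w l.prod) u =
      pev (dvf W i w E.prod) u * pev (∏ k ∈ W.A, (X k - W.gp k)) u := by
    rw [hl, DERB_l_prod, dvf_mul, dvf_prod_node hi hw hW W.A (Finset.Subset.refl _), mul_zero,
      add_zero, rb_pev_mul]
  have hsum : Hd i u + ∑ k ∈ W.A, pev (w k) u * Hd k u =
      (pev (dvf W i w P) u * pev l.prod u - pev P u * pev (dvf W i w l.prod) u) /
        pev l.prod u ^ 2 := by
    rw [hdvf P, hdvf l.prod]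
    have e3 : ∀ k, pev (w k) u * Hd k u = (pev (w k) u * pev (pderiv k P) u * pev l.prod u -
        pev P u * (pev (w k) u * pev (pderiv k l.prod) u)) / pev l.prod u ^ 2 := by
      intro k
      show pev (w k) u * ((pev (pderiv k P) u * pev l.prod u -
        pev P u * pev (pderiv k l.prod) u) / pev l.prod u ^ 2) = _
      ring
    rw [Finset.sum_congr rfl fun k _ => e3 k, ← Finset.sum_div, Finset.sum_sub_distrib,
      ← Finset.sum_mul, ← Finset.mul_sum]
    show (pev (pderiv i P) u * pev l.prod u - pev P u * pev (pderiv i l.prod) u) /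
      pev l.prod u ^ 2 + _ = _
    ring
  have hmain : nm (dnum W i w P E) (E ++ E) u * W.ker u =
      Hd i u + ∑ k ∈ W.A, pev (w k) u * Hd k u := by
    rw [hsum, hdl, hprod, DERB_ker, nm, dnum, List.prod_append, rb_pev_sub, rb_pev_mul,
      rb_pev_mul, rb_pev_mul]
    field_simp
  rw [hmain]
  ring

end MP1eadaeL
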