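import Pool.Agent.Lib_MP_1eadae_ft.SubAff

/-! # MP_1eadae_ag (FT), piece HALB: halving an input of a clean network -/

namespace MP1eadaeL

open Complex Function MvPolynomial

variable {K : Subfield ℂ} {hI : I ∈ K} {Cl : (Pt → ℂ) → Prop}
  {Dn : Finset ℕ → MvPolynomial ℕ K → Prop} {Ex : MvPolynomial ℕ K → Prop} {M : ℕ} {W : Net K}

/- Piece HALB.  `cls W P E = ctrs A (P / Λ)`, `Λ` the product of the list
`l = E ++ A.toList.map (fun k => X k - W.gp k)`.  Apply `Sys.halve` with this list and a new
coordinate `s` (not in `A`, `≥ M`, not a variable of `P`, `E`, gates).  Conditions: for `L ∈ E` the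
polynomial does not involve `X_i` (`CleanE`, `i ∉ A` since `i < M`), so `sbt i _ L = L`; for
`L = X k - W.gp k`: if the gate is `x_i/2` (`CleanG`, `W.a k = i`) then
`sbt i (C (1/2) * (X i * (1 + X s))) L = X k - C (1/4) * (X i * (1 + X s))` (`dn_half`) and
`sbt i (C (1/2) * (1 + X s * X i)) L = X k - C (1/4) * (1 + X s * X i)
 = sub i s (X k - gpl ![1/4, 1/4, 0, 0] (X i) (X i))` (`dn_gate_sub`); otherwise the gate does not
involve `X_i` (as a polynomial) and `dn_gate` applies.
Then `cls W P E (update z i (z_i/2))` is `ctrs A` of the substituted function (`ctrs_comp`). -/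

theorem halb_bound (l : List (MvPolynomial ℕ K)) : ∃ N : ℕ, ∀ L ∈ l, ∀ v ∈ L.vars, v < N := by
  induction l with
  | nil => exact ⟨0, by simp⟩
  | cons L l ih =>
    obtain ⟨N, hN⟩ := ih
    refine ⟨N + (L.vars.sup id + 1), ?_⟩
    intro L' hL' v hv
    rcases List.mem_cons.1 hL' with h | h
    · subst h
      have : v ≤ L'.vars.sup id := Finset.le_sup (f := id) hv
      omega
    · have := hN L' h v hv
      omega

theorem halb_pev_prod (E : List (MvPolynomial ℕ K)) (z : Pt) :
    pev (E ++ W.A.toList.map (fun k => X k - W.gp k)).prod z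
      = pev E.prod z * ∏ k ∈ W.A, (z k - pev (W.gp k) z) := by
  rw [List.prod_append, rb_pev_mul, Finset.prod_map_toList]
  congr 1
  unfold pev
  rw [map_prod]
  refine Finset.prod_congr rfl fun k _ => ?_
  rw [map_sub, aeval_X]

theorem halb_nm_ker (P : MvPolynomial ℕ K) (E : List (MvPolynomial ℕ K)) (z : Pt) :
    nm P E z * W.ker z
      = pev P z / pev (E ++ W.A.toList.map (fun k => X k - W.gp k)).prod z := by
  rw [halb_pev_prod]
  unfold nm Net.ker
  have h : ∏ k ∈ W.A, 1 / (z k - pev (W.gp k) z) = 1 / ∏ k ∈ W.A, (z k - pev (W.gp k) z) := by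
    rw [Finset.prod_div_distrib, Finset.prod_const_one]
  rw [h, div_mul_div_comm, mul_one]

theorem halb_sbt_X_ne {i j : ℕ} (h : j ≠ i) (φ : MvPolynomial ℕ K) :
    sbt i φ (X j) = X j := by
  unfold sbt; rw [bind₁_X_right, if_neg h]

theorem halb_sbt_X_self (i : ℕ) (φ : MvPolynomial ℕ K) : sbt i φ (X i) = φ := by
  unfold sbt; rw [bind₁_X_right, if_pos rfl]

theorem halb_sbt_C (i : ℕ) (φ : MvPolynomial ℕ K) (a : K) : sbt i φ (C a) = C a := by
  unfold sbt; rw [bind₁_C_right]

theorem halb_sbt_sub (i : ℕ) (φ P Q : MvPolynomial ℕ K) :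
    sbt i φ (P - Q) = sbt i φ P - sbt i φ Q := by
  unfold sbt; rw [map_sub]

theorem halb_sbt_add (i : ℕ) (φ P Q : MvPolynomial ℕ K) :
    sbt i φ (P + Q) = sbt i φ P + sbt i φ Q := by
  unfold sbt; rw [map_add]

theorem halb_sbt_mul (i : ℕ) (φ P Q : MvPolynomial ℕ K) :
    sbt i φ (P * Q) = sbt i φ P * sbt i φ Q := by
  unfold sbt; rw [map_mul]

theorem halb_sbt_zero (i : ℕ) (φ : MvPolynomial ℕ K) : sbt i φ 0 = 0 := by
  unfold sbt; rw [map_zero]

theorem halb_four : ((1 / 4 : K) : ℂ) = 1 / 4 := by
  have h : ((4 : K) : ℂ) = 4 := map_ofNat K.subtype 4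
  rw [show ((1 / 4 : K) : ℂ) = ((1 : K) : ℂ) / ((4 : K) : ℂ) from rfl, h]
  rfl

theorem halb_sbt_gpl (i : ℕ) (φ : MvPolynomial ℕ K) (c : Fin 4 → K) (u v : MvPolynomial ℕ K) :
    sbt i φ (gpl c u v) = gpl c (sbt i φ u) (sbt i φ v) := by
  unfold gpl
  simp only [halb_sbt_add, halb_sbt_mul, halb_sbt_C]

theorem Sys.cls_half (S : Sys K hI Cl Dn Ex) (hW : Wf M W) (hc : CleanG W)
    {E : List (MvPolynomial ℕ K)} (he : CleanE hI W E) (P : MvPolynomial ℕ K) {i : ℕ}
    (hi : i < M) :
    St Cl X0 Set.univ (fun z => cls W P E z - 1 / 2 * cls W P E (update z i (z i / 2))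
      - 1 / 2 * cls W P E (update z i ((1 + z i) / 2))) := by
  classical
  have hiA : i ∉ W.A := fun h => by have := (hW i h).1; omega
  set l : List (MvPolynomial ℕ K) := E ++ W.A.toList.map (fun k => X k - W.gp k) with hl
  obtain ⟨N, hN⟩ := halb_bound (P :: l)
  set s : ℕ := N + (W.A.sup id + 1) + (M + 1) with hs
  have hsA : s ∉ W.A := fun h => by
    have : s ≤ W.A.sup id := Finset.le_sup (f := id) h
    omega
  have hsi : s ≠ i := by omega
  have hsP : s ∉ P.vars := fun h => by
    have := hN P (by simp) s h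
    omega
  have hlL : ∀ L ∈ l, s ∉ L.vars := fun L hL h => by
    have := hN L (by simp [hL]) s h
    omega
  have hmain := S.halve (A := W.A) (i := i) (s := s) hiA hsA hsi (P := P) (l := l) hsP ?_
  · refine St.congr _ _ hmain ?_
    intro z hz
    have hcomp : ∀ g : ℂ → ℂ, cls W P E (update z i (g (z i)))
        = ctrs W.A (fun z => pev P (update z i (g (z i))) / pev l.prod (update z i (g (z i)))) z := by
      intro g
      unfold cls
      have := ctrs_comp (H := fun z => nm P E z * W.ker z) (A := W.A)
        (fun z => update z i (g (z i))) ?_ ?_ z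
      · rw [this]
        simp only [halb_nm_ker, ← hl]
      · intro z k hk
        have : k ≠ i := fun h => hiA (h ▸ hk)
        simp only [update_of_ne this]
      · intro z k hk w
        have : k ≠ i := fun h => hiA (h ▸ hk)
        simp only [update_of_ne this.symm]
        rw [update_comm this.symm]
    have h0 : cls W P E z = ctrs W.A (fun z => pev P z / pev l.prod z) z := by
      unfold cls
      simp only [halb_nm_ker, ← hl]
    rw [h0, hcomp (fun w => w / 2), hcomp (fun w => (1 + w) / 2), ctrs_sub, ctrs_sub,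
      ctrs_const_mul, ctrs_const_mul]
  · intro L hL
    refine ⟨hlL L hL, ?_⟩
    rw [hl, List.mem_append] at hL
    rcases hL with hL | hL
    · -- denominators in `E`
      obtain ⟨v, hv, hLv⟩ := he L hL
      have hvi : v ≠ i := fun h => hiA (h ▸ hv)
      have hfix : ∀ φ : MvPolynomial ℕ K, sbt i φ L = L := by
        intro φ
        rcases hLv with h | ⟨e, c, -, -, h⟩
        · rw [h, halb_sbt_sub, halb_sbt_C, halb_sbt_X_ne hvi]
        · rw [h]; unfold fin8
          simp only [halb_sbt_add, halb_sbt_mul, halb_sbt_C, halb_sbt_X_ne hvi]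
      have hdn : Dn W.A L := S.fn_dn (Or.inl ⟨v, hv, hLv⟩)
      rw [hfix, hfix]
      exact ⟨hdn, hdn⟩
    · obtain ⟨k, hk, rfl⟩ := List.mem_map.1 hL
      have hk : k ∈ W.A := by simpa using hk
      have hki : k ≠ i := fun h => hiA (h ▸ hk)
      have hdn : Dn W.A (X k - W.gp k) := S.dn_gate hk (hW k hk).2.1 _ _
      have hfixcase : (∀ φ : MvPolynomial ℕ K, sbt i φ (X k - W.gp k) = X k - W.gp k) →
          Dn W.A (sbt i (C (1 / 2) * (X i * (1 + X s))) (X k - W.gp k)) ∧
          Dn W.A (sbt i (C (1 / 2) * (1 + X s * X i)) (X k - W.gp k)) := by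
        intro h; rw [h, h]; exact ⟨hdn, hdn⟩
      rcases hc k hk with ⟨ha, hb⟩ | ⟨hba, haA, h0, h1, h2, h3⟩ | ⟨h1, h2, h3⟩
      · refine hfixcase fun φ => ?_
        have ha' : W.a k ≠ i := fun h => hiA (h ▸ ha)
        have hb' : W.b k ≠ i := fun h => hiA (h ▸ hb)
        unfold Net.gp
        rw [halb_sbt_sub, halb_sbt_gpl, halb_sbt_X_ne hki, halb_sbt_X_ne ha', halb_sbt_X_ne hb']
      · by_cases ha : W.a k = i
        · have e0 : W.c k 0 = 0 := by apply Subtype.ext; simpa using h0
          have e1 : W.c k 1 = 1 / 2 := by apply Subtype.ext; rw [h1]; push_cast; rfl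
          have e2 : W.c k 2 = 0 := by apply Subtype.ext; simpa using h2
          have e3 : W.c k 3 = 0 := by apply Subtype.ext; simpa using h3
          have hgp : W.gp k = C (1 / 2) * X i := by
            unfold Net.gp gpl
            rw [hba, ha, e0, e1, e2, e3]
            simp only [map_zero, zero_mul, zero_add, add_zero]
          have hC : (C (1 / 2) : MvPolynomial ℕ K) * C (1 / 2) = C (1 / 4) := by
            rw [← C_mul]; norm_num
          rw [hgp]
          constructor
          · have : sbt i (C (1 / 2) * (X i * (1 + X s))) (X k - C (1 / 2) * X i)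
                = (X k - C (1 / 4) * (X i * (1 + X s)) : MvPolynomial ℕ K) := by
              rw [halb_sbt_sub, halb_sbt_mul, halb_sbt_C, halb_sbt_X_ne hki, halb_sbt_X_self,
                ← mul_assoc, hC]
            rw [this]
            exact S.dn_half hk hiA hsA
          · have : sbt i (C (1 / 2) * (1 + X s * X i)) (X k - C (1 / 2) * X i)
                = sub i s (X k - gpl ![1 / 4, 1 / 4, 0, 0] (X i) (X i) : MvPolynomial ℕ K) := by
              rw [halb_sbt_sub, halb_sbt_mul, halb_sbt_C, halb_sbt_X_ne hki, halb_sbt_X_self,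
                ← mul_assoc, hC]
              unfold sub gpl
              simp only [map_sub, map_add, map_mul, bind₁_X_right, bind₁_C_right, if_neg hki,
                if_true, Matrix.cons_val_zero, Matrix.cons_val_one, Matrix.cons_val, map_zero,
                zero_mul, add_zero]
              ring
            rw [this]
            refine S.dn_gate_sub hk hki hsA ?_ i i
            constructor
            · intro j
              fin_cases j
              · exact ⟨1, 0, by
                  change ((1 / 4 : K) : ℂ) = _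
                  rw [halb_four]; simp⟩
              · exact ⟨1, 0, by
                  change ((1 / 4 : K) : ℂ) = _
                  rw [halb_four]; simp⟩
              · exact ⟨0, 0, by simp⟩
              · exact ⟨0, 0, by simp⟩
            · simp only [Matrix.cons_val_zero, Matrix.cons_val_one, Matrix.cons_val]
              have : ‖((1 / 4 : K) : ℂ)‖ = 1 / 4 := by
                rw [halb_four]
                norm_num
              rw [this]
              simp
              norm_num
        · refine hfixcase fun φ => ?_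
          unfold Net.gp
          rw [hba, halb_sbt_sub, halb_sbt_gpl, halb_sbt_X_ne hki, halb_sbt_X_ne ha]
      · refine hfixcase fun φ => ?_
        have e1 : W.c k 1 = 0 := by apply Subtype.ext; simpa using h1
        have e2 : W.c k 2 = 0 := by apply Subtype.ext; simpa using h2
        have e3 : W.c k 3 = 0 := by apply Subtype.ext; simpa using h3
        unfold Net.gp gpl
        rw [e1, e2, e3]
        simp only [halb_sbt_sub, halb_sbt_add, halb_sbt_mul, halb_sbt_C, halb_sbt_X_ne hki,
          map_zero, zero_mul, halb_sbt_zero]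

end MP1eadaeL
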