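import Pool.Agent.Lib_MP_1eadae_ft.InRa

/-! # MP_1eadae_ag (FT), piece INRB: halving and clean networks; segment denominators -/

namespace MP1eadaeL

open Complex Function MvPolynomial

variable {K : Subfield ℂ} {hI : I ∈ K} {M : ℕ}

/- Piece INRB (all theorems of this file).
`InR.half`: by `Rpr.shift` the nodes may be assumed `≥ M + 1`.  Add the node `M` with gate
`x_i / 2` (`c = (0,1/2,0,0)`, `a = b = i`), and for each node `k` with gate `x_i/2`
(`CleanG`, second alternative, `W.a k = i`) put `c = (δ/4, 1/2, 0, 0)`, `a = b = M`: its new value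
is `δ/4 + z_i/4 = ((δ + z_i)/2)/2`.  `P' = sbt i (C (1/2) * (C δ + X i)) P`, `E' = E`.
(`GC`: `1/4 + 2 * 1/2 ≤ 3/2`.)
`InR.of_seg`: the denominators `L = fin8 hI e c 1 (X v)`, `v ∉ A` (so `v < M`), are replaced by
`fin8 hI e c 2 (X (N + v))`, where `N` is larger than all nodes and `M`, and where the nodes
`N + v` (`v < M`) with gates `x_v / 2` are added to the network:
`8 + e i (c + 2 (z_v/2)) = 8 + e i (c + z_v)`.
`InR.hv`, `InR.hvN`: sums of halvings. -/

theorem inrb_two : ((2 : K) : ℂ) = 2 := map_ofNat K.subtype 2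

theorem inrb_four : ((4 : K) : ℂ) = 4 := map_ofNat K.subtype 4

theorem inrb_eight : ((8 : K) : ℂ) = 8 := map_ofNat K.subtype 8

/-- the gate `δ/4 + x/2` is allowed -/
theorem inrb_gck (d : K) (hd : (d : ℂ) = 0 ∨ (d : ℂ) = 1) :
    GCK (![d / 4, 1 / 2, 0, 0] : Fin 4 → K) := by
  have h0 : (((![d / 4, 1 / 2, 0, 0] : Fin 4 → K) 0 : K) : ℂ) = (d : ℂ) / 4 := by
    simp [inrb_four]
  have h1 : (((![d / 4, 1 / 2, 0, 0] : Fin 4 → K) 1 : K) : ℂ) = 1 / 2 := by
    simp [inrb_two]
  have h2 : (((![d / 4, 1 / 2, 0, 0] : Fin 4 → K) 2 : K) : ℂ) = 0 := by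
    simp
  have h3 : (((![d / 4, 1 / 2, 0, 0] : Fin 4 → K) 3 : K) : ℂ) = 0 := by
    simp
  unfold GCK GC
  refine ⟨fun j => ?_, ?_⟩
  · fin_cases j
    · rcases hd with hd | hd
      · refine ⟨0, 0, ?_⟩
        simp [hd]
      · refine ⟨1, 0, ?_⟩
        simp [hd, inrb_four]
    · refine ⟨2, 0, ?_⟩
      simp [inrb_two]
      norm_num
    · refine ⟨0, 0, ?_⟩
      simp
    · refine ⟨0, 0, ?_⟩
      simp
  · beta_reduce
    rw [h0, h1, h2, h3]
    have h4 : ‖(d : ℂ) / 4‖ ≤ 1 / 4 := by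
      rcases hd with hd | hd
      · rw [hd]; norm_num
      · rw [hd]; norm_num
    have h5 : ‖(1 / 2 : ℂ)‖ = 1 / 2 := by norm_num
    rw [h5, norm_zero]
    linarith

theorem inrb_gck0 : GCK (![0, 1 / 2, 0, 0] : Fin 4 → K) := by
  have h := inrb_gck (K := K) 0 (Or.inl rfl)
  rwa [zero_div] at h

/-- the variables of `C 4 - X v` -/
theorem inrb_pev_four (v : ℕ) (z : Pt) : pev (C 4 - X v : MvPolynomial ℕ K) z = 4 - z v := by
  unfold pev
  rw [map_sub, aeval_X, aeval_C]
  rfl

theorem inrb_pev_C (x : K) (z : Pt) : pev (C x : MvPolynomial ℕ K) z = x := by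
  unfold pev
  rw [aeval_C]
  rfl

theorem inrb_pev_fin8 (e : ℤ) (c w v : ℕ) (z : Pt) :
    pev (fin8 hI e c w (X v)) z = 8 + ((e : ℂ) * I) * ((c : ℂ) + (w : ℂ) * z v) := by
  have hX : pev (X v : MvPolynomial ℕ K) z = z v := by
    unfold pev
    rw [aeval_X]
  unfold fin8
  rw [rb_pev_add, rb_pev_mul, rb_pev_add, rb_pev_mul, inrb_pev_C, inrb_pev_C, inrb_pev_C,
    inrb_pev_C, hX, inrb_eight]
  push_cast
  rfl

/-- values of a clean denominator depend only on the value of a node -/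
theorem inrb_clean_pev {A : Finset ℕ} {L : MvPolynomial ℕ K}
    (h : ∃ v ∈ A, L = C 4 - X v ∨
      ∃ (e : ℤ) (c : ℕ), (e = 1 ∨ e = -1) ∧ c < 8 ∧ L = fin8 hI e c 2 (X v)) {z w : Pt}
    (hzw : ∀ v ∈ A, z v = w v) : pev L z = pev L w := by
  obtain ⟨v, hv, rfl | ⟨e, c, -, -, rfl⟩⟩ := h
  · rw [inrb_pev_four, inrb_pev_four, hzw v hv]
  · rw [inrb_pev_fin8, inrb_pev_fin8, hzw v hv]

theorem inrb_pev_prod (l : List (MvPolynomial ℕ K)) (z : Pt) :
    pev l.prod z = (l.map (fun L => pev L z)).prod := by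
  unfold pev
  rw [map_list_prod]

theorem inrb_fin8_vars {e : ℤ} (he : e = 1 ∨ e = -1) {c w v : ℕ} (hw : w ≠ 0) :
    v ∈ (fin8 hI e c w (X v) : MvPolynomial ℕ K).vars := by
  by_contra hv
  have h1 : pev (fin8 hI e c w (X v)) (fun _ => 0) =
      pev (fin8 hI e c w (X v)) (update (fun _ => 0) v 1) := by
    refine pev_congr_vars fun u hu => ?_
    rw [update_of_ne]
    rintro rfl
    exact hv hu
  rw [inrb_pev_fin8, inrb_pev_fin8, update_self] at h1
  have h2 : ((e : ℂ) * I) * (w : ℂ) = 0 := by linear_combination -h1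
  have he0 : (e : ℂ) ≠ 0 := by
    rcases he with rfl | rfl <;> norm_num
  exact (mul_ne_zero (mul_ne_zero he0 I_ne_zero) (Nat.cast_ne_zero.2 hw)) h2

theorem inrb_fin8_vars' {e : ℤ} {c w v u : ℕ}
    (hu : u ∈ (fin8 hI e c w (X v) : MvPolynomial ℕ K).vars) : u = v := by
  classical
  unfold fin8 at hu
  have h1 := vars_add_subset _ _ hu
  rw [vars_C, Finset.empty_union] at h1
  have h2 := vars_mul _ _ h1
  rw [vars_C, Finset.empty_union] at h2
  have h3 := vars_add_subset _ _ h2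
  rw [vars_C, Finset.empty_union] at h3
  have h4 := vars_mul _ _ h3
  rw [vars_C, Finset.empty_union, vars_X, Finset.mem_singleton] at h4
  exact h4

theorem InR.half {f : Pt → ℂ} (h : InR hI M f) {i : ℕ} (hi : i < M) {δ : ℂ}
    (hδ : δ = 0 ∨ δ = 1) : InR hI M (fun z => f (update z i ((δ + z i) / 2))) := by
  classical
  obtain ⟨W0, P0, E0, h0, hG0, hE0⟩ := h
  obtain ⟨W, P, E, hR, hN, hG, hE⟩ := h0.shift (M + 1)
  replace hG := hG hG0
  replace hE := hE hE0
  clear h0 hG0 hE0 W0 P0 E0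
  obtain ⟨d, rfl⟩ : ∃ d : K, (d : ℂ) = δ := by
    rcases hδ with rfl | rfl
    · exact ⟨0, rfl⟩
    · exact ⟨1, rfl⟩
  have hWf := hR.wf
  have hiA : i ∉ W.A := fun hm => absurd (hN i hm) (by omega)
  have hMA : M ∉ W.A := fun hm => absurd (hN M hm) (by omega)
  set cond : ℕ → Prop := fun k => W.b k = W.a k ∧ W.a k = i ∧ (W.c k 0 : ℂ) = 0 ∧
    (W.c k 1 : ℂ) = 1 / 2 ∧ (W.c k 2 : ℂ) = 0 ∧ (W.c k 3 : ℂ) = 0 with hcond
  set W2 : Net K := ⟨insert M W.A,
    fun k => if k = M then ![0, 1 / 2, 0, 0] else if cond k then ![d / 4, 1 / 2, 0, 0] else W.c k,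
    fun k => if k = M then i else if cond k then M else W.a k,
    fun k => if k = M then i else if cond k then M else W.b k⟩ with hW2
  have hA2 : W2.A = insert M W.A := rfl
  have cM : W2.c M = ![0, 1 / 2, 0, 0] := if_pos rfl
  have aM : W2.a M = i := if_pos rfl
  have bM : W2.b M = i := if_pos rfl
  have c1 : ∀ k, k ≠ M → cond k → W2.c k = ![d / 4, 1 / 2, 0, 0] := fun k hk hc => by
    show (if k = M then _ else _) = _
    rw [if_neg hk, if_pos hc]
  have a1 : ∀ k, k ≠ M → cond k → W2.a k = M := fun k hk hc => by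
    show (if k = M then _ else _) = _
    rw [if_neg hk, if_pos hc]
  have b1 : ∀ k, k ≠ M → cond k → W2.b k = M := fun k hk hc => by
    show (if k = M then _ else _) = _
    rw [if_neg hk, if_pos hc]
  have c2 : ∀ k, k ≠ M → ¬ cond k → W2.c k = W.c k := fun k hk hc => by
    show (if k = M then _ else _) = _
    rw [if_neg hk, if_neg hc]
  have a2 : ∀ k, k ≠ M → ¬ cond k → W2.a k = W.a k := fun k hk hc => by
    show (if k = M then _ else _) = _
    rw [if_neg hk, if_neg hc]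
  have b2 : ∀ k, k ≠ M → ¬ cond k → W2.b k = W.b k := fun k hk hc => by
    show (if k = M then _ else _) = _
    rw [if_neg hk, if_neg hc]
  have hkM : ∀ k ∈ W.A, k ≠ M := fun k hk => by rintro rfl; exact hMA hk
  have hWf2 : Wf M W2 := by
    intro k hk
    rw [hA2, Finset.mem_insert] at hk
    by_cases hkM' : k = M
    · subst hkM'
      rw [cM, aM, bM]
      exact ⟨le_rfl, inrb_gck0, hi, hi, Or.inr hi, Or.inr hi⟩
    · have hkA : k ∈ W.A := hk.resolve_left hkM'
      obtain ⟨w1, w2, w3, w4, w5, w6⟩ := hWf k hkA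
      by_cases hc : cond k
      · rw [c1 k hkM' hc, a1 k hkM' hc, b1 k hkM' hc]
        have : M < k := hN k hkA
        exact ⟨w1, inrb_gck d hδ, this, this, Or.inl (Finset.mem_insert_self _ _),
          Or.inl (Finset.mem_insert_self _ _)⟩
      · rw [c2 k hkM' hc, a2 k hkM' hc, b2 k hkM' hc]
        exact ⟨w1, w2, w3, w4, w5.imp_left Finset.mem_insert_of_mem,
          w6.imp_left Finset.mem_insert_of_mem⟩
  have hG2 : CleanG W2 := by
    intro k hk
    rw [hA2, Finset.mem_insert] at hk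
    by_cases hkM' : k = M
    · subst hkM'
      rw [cM, aM, bM]
      refine Or.inr (Or.inl ⟨rfl, ?_, ?_, ?_, ?_, ?_⟩)
      · rw [hA2, Finset.mem_insert, not_or]
        exact ⟨hi.ne, hiA⟩
      · simp
      · simp [inrb_two]
      · simp
      · simp
    · have hkA : k ∈ W.A := hk.resolve_left hkM'
      obtain ⟨w1, w2, w3, w4, w5, w6⟩ := hWf k hkA
      by_cases hc : cond k
      · rw [c1 k hkM' hc, a1 k hkM' hc, b1 k hkM' hc]
        exact Or.inl ⟨Finset.mem_insert_self _ _, Finset.mem_insert_self _ _⟩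
      · rw [c2 k hkM' hc, a2 k hkM' hc, b2 k hkM' hc]
        rcases hG k hkA with g | g | g
        · exact Or.inl ⟨Finset.mem_insert_of_mem g.1, Finset.mem_insert_of_mem g.2⟩
        · refine Or.inr (Or.inl ⟨g.1, ?_, g.2.2⟩)
          rw [hA2, Finset.mem_insert, not_or]
          exact ⟨(w5.resolve_left g.2.1).ne, g.2.1⟩
        · exact Or.inr (Or.inr g)
  have hth : ∀ (z : Pt) (k : ℕ), k ∈ W.A →
      W2.th z k = W.th (update z i (((d : ℂ) + z i) / 2)) k := by
    intro z k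
    induction k using Nat.strong_induction_on with
    | _ k ih =>
      intro hkA
      have hkM' := hkM k hkA
      have hk2 : k ∈ W2.A := Finset.mem_insert_of_mem hkA
      obtain ⟨w1, w2, w3, w4, w5, w6⟩ := hWf k hkA
      rw [th_node hWf2 hk2, th_node hWf hkA]
      by_cases hc : cond k
      · obtain ⟨q1, q2, q3, q4, q5, q6⟩ := hc
        rw [c1 k hkM' ⟨q1, q2, q3, q4, q5, q6⟩, a1 k hkM' ⟨q1, q2, q3, q4, q5, q6⟩,
          b1 k hkM' ⟨q1, q2, q3, q4, q5, q6⟩, q1, q2, q3, q4, q5, q6, th_seg hiA, update_self,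
          th_node hWf2 (Finset.mem_insert_self _ _ : M ∈ W2.A), cM, aM, bM,
          th_seg (show i ∉ W2.A by
            rw [hA2, Finset.mem_insert, not_or]; exact ⟨hi.ne, hiA⟩)]
        simp [inrb_two, inrb_four]
        ring
      · rw [c2 k hkM' hc, a2 k hkM' hc, b2 k hkM' hc]
        rcases hG k hkA with g | g | g
        · rw [ih _ w3 g.1, ih _ w4 g.2]
        · have haM : W.a k < M := w5.resolve_left g.2.1
          have hai : W.a k ≠ i := fun h => hc ⟨g.1, h, g.2.2⟩
          rw [g.1, th_seg g.2.1, th_seg (show W.a k ∉ W2.A by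
            rw [hA2, Finset.mem_insert, not_or]; exact ⟨haM.ne, g.2.1⟩), update_of_ne hai]
        · rw [g.1, g.2.1, g.2.2]
          simp
  refine ⟨W2, sbt i (C (1 / 2) * (C d + X i)) P, E, ⟨hR.hM, hWf2, ?_, ?_, ?_, ?_⟩, hG2, ?_⟩
  · intro L hL
    obtain ⟨v, hv, hvL⟩ := hE L hL
    exact Or.inl ⟨v, Finset.mem_insert_of_mem hv, hvL⟩
  · intro v hv
    unfold sbt at hv
    obtain ⟨j, hj, hvj⟩ := mem_vars_bind₁ _ _ hv
    by_cases hji : j = i
    · rw [if_pos hji] at hvj
      have h1 := vars_mul _ _ hvj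
      rw [vars_C, Finset.empty_union] at h1
      have h2 := vars_add_subset _ _ h1
      rw [vars_C, Finset.empty_union, vars_X, Finset.mem_singleton] at h2
      subst h2
      exact Or.inr hi
    · rw [if_neg hji, vars_X, Finset.mem_singleton] at hvj
      subst hvj
      exact (hR.vP v hj).imp_left Finset.mem_insert_of_mem
  · intro L hL v hv
    exact (hR.vE L hL v hv).imp_left Finset.mem_insert_of_mem
  · intro z hz
    have hz' : update z i (((d : ℂ) + z i) / 2) ∈ Dom X0 := by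
      intro j
      by_cases hj : j = i
      · subst hj
        rw [update_self]
        obtain ⟨t, ht, htz⟩ := hz j
        show _ ∈ seg
        rcases hδ with hd | hd
        · refine ⟨t / 2, ⟨by linarith [ht.1], by linarith [ht.2]⟩, ?_⟩
          rw [hd, ← htz]
          push_cast
          ring
        · refine ⟨(1 + t) / 2, ⟨by linarith [ht.1], by linarith [ht.2]⟩, ?_⟩
          rw [hd, ← htz]
          push_cast
          ring
      · rw [update_of_ne hj]
        exact hz j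
    rw [hR.eq _ hz']
    unfold nm
    have e1 : pev (sbt i (C (1 / 2) * (C d + X i)) P) (W2.th z) =
        pev P (W.th (update z i (((d : ℂ) + z i) / 2))) := by
      rw [pev_sbt]
      refine pev_congr_vars fun v hv => ?_
      have hi2 : W2.th z i = z i := th_seg (show i ∉ W2.A by
        rw [hA2, Finset.mem_insert, not_or]; exact ⟨hi.ne, hiA⟩) z
      have e2 : pev (C (1 / 2) * (C d + X i)) (W2.th z) = ((d : ℂ) + z i) / 2 := by
        unfold pev
        rw [map_mul, map_add, aeval_X, aeval_C, aeval_C, hi2]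
        show ((1 / 2 : K) : ℂ) * ((d : ℂ) + z i) = _
        rw [show ((1 / 2 : K) : ℂ) = 1 / 2 by push_cast [inrb_two]; rfl]
        ring
      by_cases hvi : v = i
      · subst hvi
        rw [update_self, e2, th_seg hiA, update_self]
      · rw [update_of_ne hvi]
        rcases hR.vP v hv with hvA | hvM
        · exact hth z v hvA
        · have hvA : v ∉ W.A := fun hm => absurd (hN v hm) (by omega)
          rw [th_seg hvA, update_of_ne hvi, th_seg]
          rw [hA2, Finset.mem_insert, not_or]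
          exact ⟨hvM.ne, hvA⟩
    rw [e1, inrb_pev_prod, inrb_pev_prod]
    congr 2
    refine List.map_congr_left fun L hL => ?_
    exact inrb_clean_pev (hE L hL) fun v hv => (hth z v hv).symm
  · intro L hL
    obtain ⟨v, hv, hvL⟩ := hE L hL
    exact ⟨v, Finset.mem_insert_of_mem hv, hvL⟩

theorem InR.hv {f : Pt → ℂ} (h : InR hI M f) {i : ℕ} (hi : i < M) : InR hI M (hv i f) := by
  have hK : (1 / 2 : ℂ) ∈ K := by
    exact K.div_mem K.one_mem (ofNat_mem K 2)
  have h1 := (h.half hi (Or.inl rfl : (0 : ℂ) = 0 ∨ (0 : ℂ) = 1)).smul hK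
  have h2 := (h.half hi (Or.inr rfl : (1 : ℂ) = 0 ∨ (1 : ℂ) = 1)).smul hK
  refine (h1.add h2).congr fun z _ => ?_
  unfold MP1eadaeL.hv
  rw [zero_add]

theorem InR.hvs {f : Pt → ℂ} (h : InR hI M f) {n : ℕ} (hn : n ≤ M) : InR hI M (hvs n f) := by
  induction n with
  | zero => exact h
  | succ n ih => exact (ih (Nat.le_of_succ_le hn)).hv hn

theorem InR.hvN {f : Pt → ℂ} (h : InR hI M f) (k : ℕ) : InR hI M (hvN M k f) := by
  induction k with
  | zero => exact h
  | succ k ih => exact ih.hvs le_rfl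

theorem InR.of_seg {W : Net K} {P : MvPolynomial ℕ K} {E : List (MvPolynomial ℕ K)} {f : Pt → ℂ}
    (h : Rpr hI (noEx K) M W P E f) (hc : CleanG W) : InR hI M f := by
  classical
  have hWf := h.wf
  -- `N` is larger than all nodes and `M`
  obtain ⟨N, hNM, hN⟩ : ∃ N, M ≤ N ∧ ∀ k ∈ W.A, k < N := by
    refine ⟨max M (W.A.sup id + 1), le_max_left _ _, fun k hk => ?_⟩
    have : k ≤ W.A.sup id := Finset.le_sup (f := id) hk
    exact (Nat.lt_succ_of_le this).trans_le (le_max_right _ _)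
  have hM1 := h.hM
  set B : Finset ℕ := (Finset.range M).image (fun v => N + v) with hB
  set W2 : Net K := ⟨W.A ∪ B,
    fun k => if k ∈ W.A then W.c k else ![0, 1 / 2, 0, 0],
    fun k => if k ∈ W.A then W.a k else k - N,
    fun k => if k ∈ W.A then W.b k else k - N⟩ with hW2
  have hA2 : W2.A = W.A ∪ B := rfl
  have hsub : ∀ k ∈ W.A, k ∈ W2.A := fun k hk => Finset.mem_union_left _ hk
  have hlt : ∀ v, v < M → v ∉ W2.A := by
    intro v hv hm
    rw [hA2, Finset.mem_union] at hm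
    rcases hm with hm | hm
    · exact absurd (hWf v hm).1 (by omega)
    · rw [hB, Finset.mem_image] at hm
      obtain ⟨u, -, hu⟩ := hm
      omega
  have hnB : ∀ v, v < M → N + v ∉ W.A := fun v _ hm => absurd (hN _ hm) (by omega)
  have hmB : ∀ v, v < M → N + v ∈ W2.A := fun v hv =>
    Finset.mem_union_right _ (Finset.mem_image.2 ⟨v, Finset.mem_range.2 hv, rfl⟩)
  have cA : ∀ k ∈ W.A, W2.c k = W.c k := fun k hk => if_pos hk
  have aA : ∀ k ∈ W.A, W2.a k = W.a k := fun k hk => if_pos hk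
  have bA : ∀ k ∈ W.A, W2.b k = W.b k := fun k hk => if_pos hk
  have cB : ∀ v < M, W2.c (N + v) = ![0, 1 / 2, 0, 0] := fun v hv => if_neg (hnB v hv)
  have aB : ∀ v < M, W2.a (N + v) = v := fun v hv => by
    show (if N + v ∈ W.A then _ else _) = _
    rw [if_neg (hnB v hv), Nat.add_sub_cancel_left]
  have bB : ∀ v < M, W2.b (N + v) = v := fun v hv => by
    show (if N + v ∈ W.A then _ else _) = _
    rw [if_neg (hnB v hv), Nat.add_sub_cancel_left]
  have hcase : ∀ k ∈ W2.A, k ∈ W.A ∨ ∃ v < M, k = N + v := by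
    intro k hk
    rw [hA2, Finset.mem_union] at hk
    rcases hk with hk | hk
    · exact Or.inl hk
    · rw [hB, Finset.mem_image] at hk
      obtain ⟨v, hv, rfl⟩ := hk
      exact Or.inr ⟨v, Finset.mem_range.1 hv, rfl⟩
  have hWf2 : Wf M W2 := by
    intro k hk
    rcases hcase k hk with hkA | ⟨v, hv, rfl⟩
    · rw [cA k hkA, aA k hkA, bA k hkA]
      obtain ⟨w1, w2, w3, w4, w5, w6⟩ := hWf k hkA
      exact ⟨w1, w2, w3, w4, w5.imp_left (hsub _), w6.imp_left (hsub _)⟩
    · rw [cB v hv, aB v hv, bB v hv]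
      exact ⟨by omega, inrb_gck0, by omega, by omega, Or.inr hv, Or.inr hv⟩
  have hG2 : CleanG W2 := by
    intro k hk
    rcases hcase k hk with hkA | ⟨v, hv, rfl⟩
    · rw [cA k hkA, aA k hkA, bA k hkA]
      obtain ⟨w1, w2, w3, w4, w5, w6⟩ := hWf k hkA
      rcases hc k hkA with g | g | g
      · exact Or.inl ⟨hsub _ g.1, hsub _ g.2⟩
      · exact Or.inr (Or.inl ⟨g.1, hlt _ (w5.resolve_left g.2.1), g.2.2⟩)
      · exact Or.inr (Or.inr g)
    · rw [cB v hv, aB v hv, bB v hv]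
      refine Or.inr (Or.inl ⟨rfl, hlt v hv, ?_, ?_, ?_, ?_⟩) <;> simp [inrb_two]
  have hth : ∀ (z : Pt) (k : ℕ), k ∈ W.A ∨ k < M → W2.th z k = W.th z k := by
    intro z k
    induction k using Nat.strong_induction_on with
    | _ k ih =>
      intro hk
      by_cases hkA : k ∈ W.A
      · obtain ⟨w1, w2, w3, w4, w5, w6⟩ := hWf k hkA
        rw [th_node hWf2 (hsub k hkA), th_node hWf hkA, cA k hkA, aA k hkA, bA k hkA,
          ih _ w3 w5, ih _ w4 w6]
      · have hkM : k < M := hk.resolve_left hkA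
        rw [th_seg hkA, th_seg (hlt k hkM)]
  have hthB : ∀ (z : Pt) (v : ℕ), v < M → W2.th z (N + v) = z v / 2 := by
    intro z v hv
    rw [th_node hWf2 (hmB v hv), cB v hv, aB v hv, bB v hv, th_seg (hlt v hv)]
    simp [inrb_two]
    ring
  -- the new denominators
  have hex : ∀ L : MvPolynomial ℕ K, ∃ L' : MvPolynomial ℕ K, L ∈ E →
      (∃ v ∈ W2.A, L' = C 4 - X v ∨
        ∃ (e : ℤ) (c : ℕ), (e = 1 ∨ e = -1) ∧ c < 8 ∧ L' = fin8 hI e c 2 (X v)) ∧
      (∀ v ∈ L'.vars, v ∈ W2.A ∨ v < M) ∧ ∀ z, pev L' (W2.th z) = pev L (W.th z) := by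
    intro L
    by_cases hL : L ∈ E
    · rcases h.fn L hL with ⟨v, hv, hvL⟩ | ⟨v, hv, e, c, he, hc8, rfl⟩ | hx
      · refine ⟨L, fun _ => ⟨⟨v, hsub v hv, hvL⟩, ?_, ?_⟩⟩
        · intro u hu
          exact (h.vE L hL u hu).imp_left (hsub u)
        · intro z
          exact inrb_clean_pev ⟨v, hv, hvL⟩ fun u hu => hth z u (Or.inl hu)
      · have hvM : v < M := (h.vE _ hL v (inrb_fin8_vars he one_ne_zero)).resolve_left hv
        refine ⟨fin8 hI e c 2 (X (N + v)), fun _ => ⟨⟨N + v, hmB v hvM, Or.inr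
          ⟨e, c, he, hc8, rfl⟩⟩, ?_, ?_⟩⟩
        · intro u hu
          rw [inrb_fin8_vars' hu]
          exact Or.inl (hmB v hvM)
        · intro z
          rw [inrb_pev_fin8, inrb_pev_fin8, hthB z v hvM, th_seg hv]
          push_cast
          ring
      · exact absurd hx.1 id
    · exact ⟨0, fun hL' => absurd hL' hL⟩
  choose g hg using hex
  refine ⟨W2, P, E.map g, ⟨h.hM, hWf2, ?_, ?_, ?_, ?_⟩, hG2, ?_⟩
  · intro L hL
    obtain ⟨L0, hL0, rfl⟩ := List.mem_map.1 hL
    exact Or.inl (hg L0 hL0).1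
  · intro v hv
    exact (h.vP v hv).imp_left (hsub v)
  · intro L hL v hv
    obtain ⟨L0, hL0, rfl⟩ := List.mem_map.1 hL
    exact (hg L0 hL0).2.1 v hv
  · intro z hz
    rw [h.eq z hz]
    unfold nm
    rw [pev_congr_vars (P := P) (w := W.th z) (z := W2.th z) fun v hv => hth z v (h.vP v hv),
      inrb_pev_prod, inrb_pev_prod, List.map_map]
    congr 2
    refine List.map_congr_left fun L hL => ?_
    exact ((hg L hL).2.2 z).symm
  · intro L hL
    obtain ⟨L0, hL0, rfl⟩ := List.mem_map.1 hL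
    exact (hg L0 hL0).1

end MP1eadaeL
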