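import Pool.Agent.Lib_MP_1eadae_ft.ClsA
import Pool.Agent.Lib_MP_1eadae_ft.InRb
import Pool.Agent.Lib_MP_1eadae_ft.DerB
import Pool.Agent.Lib_MP_1eadae_ft.HalB

/-! # MP_1eadae_ag (FT), piece CLSB: Newton-Leibniz and subdivision in the classes -/

namespace MP1eadaeL

open Complex Function MvPolynomial

variable {K : Subfield ℂ} {hI : I ∈ K} {Cl : (Pt → ℂ) → Prop}
  {Dn : Finset ℕ → MvPolynomial ℕ K → Prop} {Ex : MvPolynomial ℕ K → Prop} {M : ℕ}

/- Piece CLSB (all theorems of this file).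
`nul_deriv`: take a clean representation `W, P, E` of `f`, `exists_dw`; `Rpr.deriv` represents
`f'` by `W, dnum, E ++ E`, `Rpr.subst_aff` (`α = 1`, `β = 0` and `α = β = 0`) represents the faces by
networks `W1`, `W0` with the same set of nodes `A`, with
`cls W P E (update z i b) = cls Wb Pb E z`.  By `Cls.of_rpr`, `Cls.add`, `Cls.smul` (with `-1`) and
`Cls.unique`, `T` is up to `Nul` the family
`D ↦ EF A (cls W dnum (E++E)) D - EF A (cls W1 P1 E) D + EF A (cls W0 P0 E) D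
 = tp (D \ A) * (cls W dnum (E++E) - cls W P E (update · i 1) + cls W P E (update · i 0))`,
which is in `St` by `Sys.cls_deriv` and `Sys.mul_tp` (`Rpr.depOn`).
`nul_half`: same with `Rpr.subst_aff` for `(α, β) = (0, 1/2)`, `(1/2, 1/2)` and `Sys.cls_half`.
`nul_of_st`: induction on `St`: the statement is `InR g ∧ ∀ T, Cls g T → Nul T` (for `gen` use
`nul_deriv`, `InR.add`, `InR.smul`, `InR.face`; for `add`: choose families with `Cls.of_rpr`, use
`Cls.add`, `Cls.unique`, `Nul.add`).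
`nul_hvN`: iterate `nul_half` (`InR.hv`). -/

/-- the functions computed by clean networks whose class is zero -/
private def ZN (hI : I ∈ K) (Cl : (Pt → ℂ) → Prop) (Ex : MvPolynomial ℕ K → Prop) (M : ℕ)
    (f : Pt → ℂ) : Prop :=
  InR hI M f ∧ ∀ T : Finset ℕ → Pt → ℂ, Cls hI Cl Ex M f T → Nul Cl M T

private theorem clsb_exists {f : Pt → ℂ} (h : InR hI M f) :
    ∃ T : Finset ℕ → Pt → ℂ, Cls hI Cl Ex M f T := by
  obtain ⟨W, P, E, h, -, -⟩ := h
  exact ⟨_, Cls.of_rpr h.mono_ex⟩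

private theorem clsb_of_sub {T T' : Finset ℕ → Pt → ℂ} (h : Nul Cl M (fun D z => T D z - T' D z))
    (h' : Nul Cl M T') : Nul Cl M T := by
  refine (h.add h').congr fun D z _ => ?_
  ring

private theorem ZN.add (S : Sys K hI Cl Dn Ex) {f g : Pt → ℂ} (h : ZN hI Cl Ex M f)
    (h' : ZN hI Cl Ex M g) : ZN hI Cl Ex M (fun z => f z + g z) := by
  refine ⟨h.1.add h'.1, fun T hT => ?_⟩
  obtain ⟨T1, h1⟩ := clsb_exists (Cl := Cl) (Ex := Ex) h.1
  obtain ⟨T2, h2⟩ := clsb_exists (Cl := Cl) (Ex := Ex) h'.1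
  exact clsb_of_sub (Cls.unique S hT (Cls.add S h1 h2)) ((h.2 T1 h1).add (h'.2 T2 h2))

private theorem ZN.congr {f g : Pt → ℂ} (h : ZN hI Cl Ex M f) (hfg : ∀ z ∈ Dom X0, f z = g z) :
    ZN hI Cl Ex M g := by
  refine ⟨h.1.congr hfg, fun T hT => h.2 T (Cls.congr hT fun z hz => (hfg z hz).symm)⟩

private theorem ZN.zero (S : Sys K hI Cl Dn Ex) (hM : 1 ≤ M) : ZN hI Cl Ex M (fun _ => 0) := by
  refine ⟨InR.zero hM, fun T hT => ?_⟩
  exact clsb_of_sub (Cls.unique S hT (Cls.zero S hM)) Nul.zero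

private theorem clsb_neg_mem : (-1 : ℂ) ∈ K := K.neg_mem K.one_mem

private theorem ZN.neg (S : Sys K hI Cl Dn Ex) {f : Pt → ℂ} (h : ZN hI Cl Ex M f) :
    ZN hI Cl Ex M (fun z => - f z) := by
  refine ⟨(h.1.smul clsb_neg_mem).congr fun z _ => by ring, fun T hT => ?_⟩
  have h1 := Cls.smul S (clsb_neg_mem (K := K)) hT
  have h2 := h.2 _ (Cls.congr h1 fun z _ => by ring)
  refine h2.neg.congr fun D z _ => ?_
  ring

/-- multiplication of an element of `St` depending on the nodes and the coordinates `< M` by the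
auxiliary factors -/
private theorem clsb_nul_tp (S : Sys K hI Cl Dn Ex) (A : Finset ℕ) {F : Pt → ℂ}
    (hF : DepOn X0 ((↑A : Set ℕ) ∪ Set.Iio M) F) (h : St Cl X0 Set.univ F) :
    Nul Cl M (fun D z => tp (D \ A) z * F z) := by
  refine ⟨∅, fun d hd => absurd hd (Finset.notMem_empty d), fun D _ hD => ?_⟩
  refine S.mul_tp (T := (↑A : Set ℕ) ∪ Set.Iio M) (N := M + A.sup id + 1) ?_ ?_ hF h
  · intro i hi
    rcases hi with hi | hi
    · have h1 : id i ≤ A.sup id := Finset.le_sup (Finset.mem_coe.1 hi)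
      simp only [id] at h1
      omega
    · have h1 : i < M := hi
      omega
  · intro d hd hd2
    rw [Finset.mem_sdiff] at hd
    rcases hd2 with h1 | h1
    · exact hd.2 (Finset.mem_coe.1 h1)
    · exact absurd (hD d hd.1) (not_le.2 h1)

private theorem clsb_face_dep {T : Set ℕ} {F : Pt → ℂ} (hF : DepOn X0 T F) {i : ℕ}
    {φ : ℂ → ℂ} (hφ : ∀ w ∈ seg, φ w ∈ seg) (hi : i ∈ T) :
    DepOn X0 T (fun z => F (update z i (φ (z i)))) := by
  intro z hz w hw hzw
  have hu : ∀ y ∈ Dom X0, update y i (φ (y i)) ∈ Dom X0 := by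
    intro y hy j
    by_cases hj : j = i
    · subst hj
      rw [update_self]
      exact hφ _ (hy j)
    · rw [update_of_ne hj]
      exact hy j
  refine hF _ (hu z hz) _ (hu w hw) fun j hj => ?_
  by_cases hji : j = i
  · subst hji
    rw [update_self, update_self, hzw j hi]
  · rw [update_of_ne hji, update_of_ne hji]
    exact hzw j hj

private theorem clsb_seg_aff {α β : ℝ} (hα : 0 ≤ α) (hβ : 0 ≤ β) (hs : α + β ≤ 1) :
    ∀ w ∈ seg, (α : ℂ) + (β : ℂ) * w ∈ seg := by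
  rintro w ⟨t, ht, rfl⟩
  refine ⟨α + β * t, ⟨?_, ?_⟩, by push_cast; ring⟩
  · have := mul_nonneg hβ ht.1
    linarith
  · have : β * t ≤ β * 1 := mul_le_mul_of_nonneg_left ht.2 hβ
    linarith

private theorem clsb_gck {α β : K} (m n : ℕ) (hm : (α : ℂ) = (m : ℂ) / 2) (hn : (β : ℂ) = (n : ℂ) / 2)
    (hmn : m + 2 * n ≤ 4) : GCK ![α / 2, β / 2, 0, 0] := by
  have t2 : ((2 : K) : ℂ) = 2 := rfl
  have h2 : (((α / 2 : K)) : ℂ) = (m : ℂ) / 4 := by
    push_cast
    rw [hm, t2]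
    ring
  have h3 : (((β / 2 : K)) : ℂ) = (n : ℂ) / 4 := by
    push_cast
    rw [hn, t2]
    ring
  refine ⟨fun j => ?_, ?_⟩
  · fin_cases j
    · refine ⟨m, 0, ?_⟩
      show (((α / 2 : K)) : ℂ) = _
      rw [h2]
      push_cast
      ring
    · refine ⟨n, 0, ?_⟩
      show (((β / 2 : K)) : ℂ) = _
      rw [h3]
      push_cast
      ring
    · refine ⟨0, 0, ?_⟩
      show (((0 : K)) : ℂ) = _
      push_cast
      ring
    · refine ⟨0, 0, ?_⟩
      show (((0 : K)) : ℂ) = _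
      push_cast
      ring
  · show ‖(((α / 2 : K)) : ℂ)‖ + 2 * ‖(((β / 2 : K)) : ℂ)‖ + 2 * ‖(((0 : K)) : ℂ)‖
      + 4 * ‖(((0 : K)) : ℂ)‖ ≤ 3 / 2
    rw [h2, h3]
    have e1 : ‖(m : ℂ) / 4‖ = (m : ℝ) / 4 := by
      rw [norm_div, Complex.norm_natCast]
      norm_num
    have e2 : ‖(n : ℂ) / 4‖ = (n : ℝ) / 4 := by
      rw [norm_div, Complex.norm_natCast]
      norm_num
    rw [e1, e2]
    have h4 : (m : ℝ) + 2 * n ≤ 4 := by exact_mod_cast hmn
    simp only [ZeroMemClass.coe_zero, norm_zero]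
    linarith

theorem Sys.nul_deriv (S : Sys K hI Cl Dn Ex) {f f' : Pt → ℂ} (hf : InR hI M f) {i : ℕ}
    (hi : i < M) (hf' : Part X0 i f f') {T : Finset ℕ → Pt → ℂ}
    (hT : Cls hI Cl Ex M (fun z => f' z - f (update z i 1) + f (update z i 0)) T) :
    Nul Cl M T := by
  obtain ⟨W, P, E, h, hc, he⟩ := hf
  have h' : Rpr hI Ex M W P E f := h.mono_ex
  have hiA : i ∉ W.A := fun hiA => absurd (h.wf i hiA).1 (by omega)
  obtain ⟨w, hw⟩ := exists_dw h.wf hiA
  have hd : Rpr hI Ex M W (dnum W i w P E) (E ++ E) f' := h'.deriv (cleanE_ne he) hi hw hf'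
  obtain ⟨W1, P1, hA1, hr1, -, -, hc1⟩ := h'.subst_aff hc he hi (α := 1) (β := 0)
    (clsb_gck 2 0 (by simp) (by simp) (by norm_num))
    (by
      intro y hy
      have := clsb_seg_aff (α := 1) (β := 0) (by norm_num) le_rfl (by norm_num) y hy
      simpa using this)
  obtain ⟨W0, P0, hA0, hr0, -, -, hc0⟩ := h'.subst_aff hc he hi (α := 0) (β := 0)
    (clsb_gck 0 0 (by simp) (by simp) (by norm_num))
    (by
      intro y hy
      have := clsb_seg_aff (α := 0) (β := 0) le_rfl le_rfl (by norm_num) y hy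
      simpa using this)
  have e1 : ∀ z : Pt, (((1 : K) : ℂ) + ((0 : K) : ℂ) * z i) = 1 := fun z => by simp
  have e0 : ∀ z : Pt, (((0 : K) : ℂ) + ((0 : K) : ℂ) * z i) = 0 := fun z => by simp
  have cd := Cls.of_rpr (Cl := Cl) hd
  have c1 := Cls.smul S (clsb_neg_mem (K := K)) (Cls.of_rpr (Cl := Cl) hr1)
  have c0 := Cls.of_rpr (Cl := Cl) hr0
  have cs := Cls.add S (Cls.add S cd c1) c0
  have cs' := Cls.congr (g := fun z => f' z - f (update z i 1) + f (update z i 0)) cs (by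
    intro z _
    simp only [e1, e0]
    ring)
  refine clsb_of_sub (Cls.unique S hT cs') ?_
  have hst := S.cls_deriv h.wf h'.fn P hiA hw
  have hiT : i ∈ ((↑W.A : Set ℕ) ∪ Set.Iio M) := Or.inr hi
  have hdep : DepOn X0 ((↑W.A : Set ℕ) ∪ Set.Iio M) (fun z => cls W (dnum W i w P E) (E ++ E) z
      - cls W P E (update z i 1) + cls W P E (update z i 0)) := by
    have d1 := hd.depOn
    have d2 := clsb_face_dep h'.depOn (i := i) (φ := fun _ => 1)
      (fun y hy => by
        have := clsb_seg_aff (α := 1) (β := 0) (by norm_num) le_rfl (by norm_num) y hy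
        simpa using this) hiT
    have d3 := clsb_face_dep h'.depOn (i := i) (φ := fun _ => 0)
      (fun y hy => by
        have := clsb_seg_aff (α := 0) (β := 0) le_rfl le_rfl (by norm_num) y hy
        simpa using this) hiT
    intro z hz y hy hzy
    have a1 := d1 z hz y hy hzy
    have a2 := d2 z hz y hy hzy
    have a3 := d3 z hz y hy hzy
    simp only at a2 a3
    show _ - _ + _ = _ - _ + _
    rw [a1, a2, a3]
  refine (clsb_nul_tp S W.A hdep hst).congr fun D z hz => ?_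
  have k1 := hc1 z hz
  have k0 := hc0 z hz
  rw [e1] at k1
  rw [e0] at k0
  unfold EF
  rw [hA1, hA0, ← k1, ← k0]
  ring

theorem Sys.nul_half (S : Sys K hI Cl Dn Ex) {f : Pt → ℂ} (hf : InR hI M f) {i : ℕ}
    (hi : i < M) {T : Finset ℕ → Pt → ℂ}
    (hT : Cls hI Cl Ex M (fun z => f z - hv i f z) T) : Nul Cl M T := by
  obtain ⟨W, P, E, h, hc, he⟩ := hf
  have h' : Rpr hI Ex M W P E f := h.mono_ex
  have hseg2 : ∀ y ∈ seg, y / 2 ∈ seg := by
    intro y hy
    have := clsb_seg_aff (α := 0) (β := 1 / 2) le_rfl (by norm_num) (by norm_num) y hy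
    have e : (((0 : ℝ) : ℂ) + (((1 / 2 : ℝ)) : ℂ) * y) = y / 2 := by push_cast; ring
    rwa [e] at this
  have hseg3 : ∀ y ∈ seg, (1 + y) / 2 ∈ seg := by
    intro y hy
    have := clsb_seg_aff (α := 1 / 2) (β := 1 / 2) (by norm_num) (by norm_num) (by norm_num) y hy
    have e : (((1 / 2 : ℝ) : ℂ) + (((1 / 2 : ℝ)) : ℂ) * y) = (1 + y) / 2 := by push_cast; ring
    rwa [e] at this
  have t2 : ((2 : K) : ℂ) = 2 := rfl
  have ch : (((1 / 2 : K)) : ℂ) = 1 / 2 := by push_cast; rw [t2]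
  have e1 : ∀ y : ℂ, (((0 : K) : ℂ) + ((1 / 2 : K) : ℂ) * y) = y / 2 := fun y => by
    rw [ch]; push_cast; ring
  have e2 : ∀ y : ℂ, (((1 / 2 : K) : ℂ) + ((1 / 2 : K) : ℂ) * y) = (1 + y) / 2 := fun y => by
    rw [ch]; ring
  obtain ⟨W1, P1, hA1, hr1, -, -, hc1⟩ := h'.subst_aff hc he hi (α := 0) (β := 1 / 2)
    (clsb_gck 0 1 (by simp) (by rw [ch]; simp) (by norm_num))
    (by
      intro y hy
      rw [e1]
      exact hseg2 y hy)
  obtain ⟨W2, P2, hA2, hr2, -, -, hc2⟩ := h'.subst_aff hc he hi (α := 1 / 2) (β := 1 / 2)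
    (clsb_gck 1 1 (by rw [ch]; simp) (by rw [ch]; simp) (by norm_num))
    (by
      intro y hy
      rw [e2]
      exact hseg3 y hy)
  have hmem : (-(1 / 2) : ℂ) ∈ K := by
    have h9 := (-(1 / 2) : K).2
    push_cast at h9
    rw [t2] at h9
    exact h9
  have cd := Cls.of_rpr (Cl := Cl) h'
  have c1 := Cls.smul S hmem (Cls.of_rpr (Cl := Cl) hr1)
  have c2 := Cls.smul S hmem (Cls.of_rpr (Cl := Cl) hr2)
  have cs := Cls.add S (Cls.add S cd c1) c2
  have cs' := Cls.congr (g := fun z => f z - hv i f z) cs (by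
    intro z _
    unfold hv
    simp only [e1, e2]
    ring)
  refine clsb_of_sub (Cls.unique S hT cs') ?_
  have hst := S.cls_half h.wf hc he P hi
  have hiT : i ∈ ((↑W.A : Set ℕ) ∪ Set.Iio M) := Or.inr hi
  have hdep : DepOn X0 ((↑W.A : Set ℕ) ∪ Set.Iio M) (fun z => cls W P E z
      - 1 / 2 * cls W P E (update z i (z i / 2)) - 1 / 2 * cls W P E (update z i ((1 + z i) / 2))) := by
    have d1 := h'.depOn
    have d2 := clsb_face_dep h'.depOn (i := i) (φ := fun y => y / 2) hseg2 hiT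
    have d3 := clsb_face_dep h'.depOn (i := i) (φ := fun y => (1 + y) / 2) hseg3 hiT
    intro z hz y hy hzy
    have a1 := d1 z hz y hy hzy
    have a2 := d2 z hz y hy hzy
    have a3 := d3 z hz y hy hzy
    simp only at a2 a3
    show _ - _ - _ = _ - _ - _
    rw [a1, a2, a3]
  refine (clsb_nul_tp S W.A hdep hst).congr fun D z hz => ?_
  have k1 := hc1 z hz
  have k2 := hc2 z hz
  rw [e1] at k1
  rw [e2] at k2
  unfold EF
  rw [hA1, hA2, ← k1, ← k2]
  ring

theorem Sys.nul_of_st (S : Sys K hI Cl Dn Ex) (hM : 1 ≤ M) {g : Pt → ℂ}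
    (hg : St (InR hI M) X0 (Set.Iio M) g) :
    InR hI M g ∧ ∀ T : Finset ℕ → Pt → ℂ, Cls hI Cl Ex M g T → Nul Cl M T := by
  show ZN hI Cl Ex M g
  induction hg with
  | gen i hi G H hG hH hP =>
    have hi' : i < M := hi
    refine ⟨?_, fun T hT => S.nul_deriv hG hi' hP hT⟩
    have h1 := (hH.add ((hG.face hi' (Or.inr rfl)).smul (clsb_neg_mem (K := K)))).add
      (hG.face hi' (Or.inl rfl))
    exact h1.congr fun z _ => by ring
  | zero => exact ZN.zero S hM
  | add F G _ _ ihF ihG => exact ZN.add S ihF ihG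
  | neg F _ ihF => exact ZN.neg S ihF
  | congr F G _ hFG ihF => exact ZN.congr ihF hFG

private theorem clsb_hvs (S : Sys K hI Cl Dn Ex) {f : Pt → ℂ} (hf : InR hI M f) (hM : 1 ≤ M) :
    ∀ n ≤ M, ZN hI Cl Ex M (fun z => f z - hvs n f z) := by
  intro n
  induction n with
  | zero =>
    intro _
    refine (ZN.zero S hM).congr fun z _ => ?_
    simp [hvs]
  | succ n ih =>
    intro hn
    have h1 := ih (by omega)
    have h2 : InR hI M (hvs n f) := hf.hvs (by omega)
    have h3 : ZN hI Cl Ex M (fun z => hvs n f z - hv n (hvs n f) z) := by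
      refine ⟨?_, fun T hT => S.nul_half h2 (by omega) hT⟩
      exact (h2.add ((h2.hv (by omega : n < M)).smul (clsb_neg_mem (K := K)))).congr fun z _ => by ring
    refine (ZN.add S h1 h3).congr fun z _ => ?_
    show f z - hvs n f z + (hvs n f z - hv n (hvs n f) z) = f z - hv n (hvs n f) z
    ring

private theorem clsb_hvN (S : Sys K hI Cl Dn Ex) {f : Pt → ℂ} (hf : InR hI M f) (hM : 1 ≤ M) :
    ∀ k, ZN hI Cl Ex M (fun z => f z - hvN M k f z) := by
  intro k
  induction k with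
  | zero =>
    refine (ZN.zero S hM).congr fun z _ => ?_
    simp [hvN]
  | succ k ih =>
    have h1 := clsb_hvs S (hf.hvN k) hM M le_rfl
    refine (ZN.add S ih h1).congr fun z _ => ?_
    show f z - hvN M k f z + (hvN M k f z - hvs M (hvN M k f) z) = f z - hvs M (hvN M k f) z
    ring

theorem Sys.nul_hvN (S : Sys K hI Cl Dn Ex) {f : Pt → ℂ} (hf : InR hI M f) (k : ℕ)
    {T : Finset ℕ → Pt → ℂ} (hT : Cls hI Cl Ex M (fun z => f z - hvN M k f z) T) :
    Nul Cl M T := by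
  have hM : 1 ≤ M := by
    obtain ⟨W, P, E, h, -, -⟩ := hf
    exact h.hM
  exact (clsb_hvN S hf hM k).2 T hT

/-- if the halved function is a Stokes element of functions computed by clean networks, then the
class of `f` is zero -/
theorem Sys.nul_of_st_hvN (S : Sys K hI Cl Dn Ex) (hM : 1 ≤ M) {f : Pt → ℂ} (hf : InR hI M f)
    (k : ℕ) (hg : St (InR hI M) X0 (Set.Iio M) (hvN M k f)) {T : Finset ℕ → Pt → ℂ}
    (hT : Cls hI Cl Ex M f T) : Nul Cl M T := by
  have h1 : ZN hI Cl Ex M (hvN M k f) := S.nul_of_st hM hg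
  have h2 := clsb_hvN (Cl := Cl) (Ex := Ex) S hf hM k
  have h3 : ZN hI Cl Ex M f := (ZN.add S h2 h1).congr fun z _ => by ring
  exact h3.2 T hT

end MP1eadaeL
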