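import Pool.Agent.Lib_MP_1eadae_ft.Comp

/-! # MP_1eadae_ag (FT), piece COE: coefficients of `Q(γ + ε X)` -/

namespace MP1eadaeL

open Complex Function MvPolynomial

variable {K : Subfield ℂ}

/-- `Q(γ + ε X)` -/
noncomputable def rsc (γ : ℕ → K) (ε : K) (Q : MvPolynomial ℕ K) : MvPolynomial ℕ K :=
  bind₁ (fun i => C (γ i) + C ε * X i) Q

/- Piece COE (all theorems of this file).
`rsc_bound`: induction on `Q` (`MvPolynomial.induction_on`): constants clear; sums clear; for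
`Q * X j`: `coeff α (rsc (Q X_j)) = γ_j coeff α (rsc Q) + ε coeff (α - e_j) (rsc Q)` (the second
term only if `α j ≠ 0`; `MvPolynomial.coeff_mul_X'`), so the bound `B` becomes `2 B`.
`rsc_support`: induction on `Q` as well (finite sets `s`, `s ∪ (s + e_j)`), or use
`totalDegree`, `vars`.
`rsc_dg`: `DG` is a subring of `ℂ` (prove `DG.add`, `DG.mul`), induction on `Q` or
`coeff_sum`... : the coefficients of a polynomial in `DG`-coefficients. -/

theorem DG.add {x y : ℂ} (hx : DG x) (hy : DG y) : DG (x + y) := by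
  obtain ⟨a, b, e, rfl⟩ := hx
  obtain ⟨c, d, f, rfl⟩ := hy
  refine ⟨a * 2 ^ f + c * 2 ^ e, b * 2 ^ f + d * 2 ^ e, e + f, ?_⟩
  push_cast
  rw [pow_add]
  field_simp
  ring

theorem DG.neg {x : ℂ} (hx : DG x) : DG (-x) := by
  obtain ⟨a, b, e, rfl⟩ := hx
  refine ⟨-a, -b, e, ?_⟩
  push_cast
  ring

theorem DG.mul {x y : ℂ} (hx : DG x) (hy : DG y) : DG (x * y) := by
  obtain ⟨a, b, e, rfl⟩ := hx
  obtain ⟨c, d, f, rfl⟩ := hy
  refine ⟨a * c - b * d, a * d + b * c, e + f, ?_⟩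
  push_cast
  rw [pow_add, div_mul_div_comm]
  congr 1
  linear_combination (b * d : ℂ) * I_sq

theorem DG.int (a : ℤ) : DG (a : ℂ) := ⟨a, 0, 0, by simp⟩

theorem DG.pow2 (k : ℕ) : DG (1 / 2 ^ k) := ⟨1, 0, k, by simp⟩

/-- `DG` is dense -/
theorem DG.dense (w : ℂ) {ε : ℝ} (hε : 0 < ε) : ∃ x, DG x ∧ ‖x - w‖ ≤ ε := by
  obtain ⟨n, hn⟩ := pow_unbounded_of_one_lt (2 / ε) (one_lt_two : (1 : ℝ) < 2)
  have h2 : (0 : ℝ) < 2 ^ n := by positivity
  refine ⟨((⌊w.re * 2 ^ n⌋ : ℂ) + (⌊w.im * 2 ^ n⌋ : ℂ) * I) / 2 ^ n, ⟨_, _, n, rfl⟩, ?_⟩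
  have key : ∀ r : ℝ, |(⌊r * 2 ^ n⌋ : ℝ) / 2 ^ n - r| ≤ 1 / 2 ^ n := by
    intro r
    have h3 := Int.floor_le (r * 2 ^ n)
    have h4 := Int.lt_floor_add_one (r * 2 ^ n)
    rw [abs_le]
    constructor
    · rw [neg_le_sub_iff_le_add, ← add_div, le_div_iff₀ h2]
      linarith
    · rw [sub_le_iff_le_add, div_le_iff₀ h2, add_mul, div_mul_cancel₀ _ h2.ne']
      linarith
  have e1 : ((⌊w.re * 2 ^ n⌋ : ℂ) + (⌊w.im * 2 ^ n⌋ : ℂ) * I) / 2 ^ n - w
      = (((⌊w.re * 2 ^ n⌋ : ℝ) / 2 ^ n - w.re : ℝ) : ℂ)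
        + (((⌊w.im * 2 ^ n⌋ : ℝ) / 2 ^ n - w.im : ℝ) : ℂ) * I := by
    have hw := re_add_im w
    push_cast
    linear_combination hw
  rw [e1]
  refine (norm_add_le _ _).trans ?_
  rw [norm_mul, norm_I, mul_one, norm_real, norm_real, Real.norm_eq_abs, Real.norm_eq_abs]
  have h5 : 2 * (1 / 2 ^ n) ≤ ε := by
    rw [div_lt_iff₀ hε] at hn
    rw [mul_one_div, div_le_iff₀ h2]
    linarith
  have h6 := key w.re
  have h7 := key w.im
  linarith

theorem pev_rsc (γ : ℕ → K) (ε : K) (Q : MvPolynomial ℕ K) (z : Pt) :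
    pev (rsc γ ε Q) z = pev Q (fun i => (γ i : ℂ) + (ε : ℂ) * z i) := by
  unfold pev rsc
  rw [aeval_bind₁]
  congr 2
  funext i
  simp only [map_add, map_mul, aeval_C, aeval_X]
  rfl

theorem coe_rsc_C (γ : ℕ → K) (ε : K) (a : K) : rsc γ ε (C a) = C a := by
  unfold rsc
  rw [bind₁_C_right]

theorem coe_rsc_add (γ : ℕ → K) (ε : K) (P Q : MvPolynomial ℕ K) :
    rsc γ ε (P + Q) = rsc γ ε P + rsc γ ε Q := by
  unfold rsc
  rw [map_add]

theorem coe_rsc_mulX (γ : ℕ → K) (ε : K) (P : MvPolynomial ℕ K) (j : ℕ) :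
    rsc γ ε (P * X j) = C (γ j) * rsc γ ε P + C ε * (rsc γ ε P * X j) := by
  unfold rsc
  rw [map_mul, bind₁_X_right]
  ring

theorem rsc_bound (Q : MvPolynomial ℕ K) : ∃ B : ℝ, 0 ≤ B ∧ ∀ (γ : ℕ → K) (ε : K),
    (∀ i, ‖(γ i : ℂ)‖ ≤ 1) → ‖(ε : ℂ)‖ ≤ 1 → ∀ α : ℕ →₀ ℕ,
      ‖((coeff α (rsc γ ε Q) : K) : ℂ)‖ ≤ B ∧
      (α ≠ 0 → ‖((coeff α (rsc γ ε Q) : K) : ℂ)‖ ≤ B * ‖(ε : ℂ)‖) := by
  induction Q using MvPolynomial.induction_on with
  | C a =>
    refine ⟨‖(a : ℂ)‖, norm_nonneg _, fun γ ε _ _ α => ?_⟩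
    rw [coe_rsc_C, coeff_C]
    refine ⟨?_, fun hα => ?_⟩
    · split_ifs
      · exact le_rfl
      · simp
    · rw [if_neg (Ne.symm hα)]
      simp only [ZeroMemClass.coe_zero, norm_zero]
      positivity
  | add P Q hP hQ =>
    obtain ⟨B, hB, h1⟩ := hP
    obtain ⟨B', hB', h2⟩ := hQ
    refine ⟨B + B', add_nonneg hB hB', fun γ ε hγ hε α => ?_⟩
    obtain ⟨h3, h4⟩ := h1 γ ε hγ hε α
    obtain ⟨h5, h6⟩ := h2 γ ε hγ hε α
    rw [coe_rsc_add, coeff_add, Subfield.coe_add]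
    refine ⟨(norm_add_le _ _).trans (add_le_add h3 h5), fun hα => ?_⟩
    rw [add_mul]
    exact (norm_add_le _ _).trans (add_le_add (h4 hα) (h6 hα))
  | mul_X P j hP =>
    obtain ⟨B, hB, h1⟩ := hP
    refine ⟨2 * B, by positivity, fun γ ε hγ hε α => ?_⟩
    obtain ⟨h3, h4⟩ := h1 γ ε hγ hε α
    have h5 : ‖((coeff α (rsc γ ε P * X j) : K) : ℂ)‖ ≤ B := by
      rw [coeff_mul_X']
      split_ifs
      · exact (h1 γ ε hγ hε _).1
      · simpa using hB
    have h6 : ‖((coeff α (rsc γ ε (P * X j)) : K) : ℂ)‖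
        ≤ ‖(γ j : ℂ)‖ * ‖((coeff α (rsc γ ε P) : K) : ℂ)‖
          + ‖(ε : ℂ)‖ * ‖((coeff α (rsc γ ε P * X j) : K) : ℂ)‖ := by
      rw [coe_rsc_mulX, coeff_add, coeff_C_mul, coeff_C_mul, Subfield.coe_add, Subfield.coe_mul,
        Subfield.coe_mul, ← norm_mul, ← norm_mul]
      exact norm_add_le _ _
    have h7 := hγ j
    have hg0 := norm_nonneg (γ j : ℂ)
    have he0 := norm_nonneg (ε : ℂ)
    have h8 : ‖(γ j : ℂ)‖ * ‖((coeff α (rsc γ ε P) : K) : ℂ)‖
        ≤ ‖((coeff α (rsc γ ε P) : K) : ℂ)‖ := mul_le_of_le_one_left (norm_nonneg _) h7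
    have h9 : ‖(ε : ℂ)‖ * ‖((coeff α (rsc γ ε P * X j) : K) : ℂ)‖ ≤ ‖(ε : ℂ)‖ * B :=
      mul_le_mul_of_nonneg_left h5 he0
    have h10 : ‖(ε : ℂ)‖ * B ≤ B := mul_le_of_le_one_left hB hε
    refine ⟨by linarith, fun hα => ?_⟩
    have h11 := h4 hα
    linarith

theorem coe_support_aux (Q : MvPolynomial ℕ K) : ∃ s : Finset (ℕ →₀ ℕ),
    ∀ (γ : ℕ → K) (ε : K), (rsc γ ε Q).support ⊆ s := by
  classical
  induction Q using MvPolynomial.induction_on with
  | C a =>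
    refine ⟨{0}, fun γ ε => ?_⟩
    rw [coe_rsc_C]
    intro α hα
    rw [mem_support_iff, coeff_C] at hα
    rw [Finset.mem_singleton]
    by_contra h
    exact hα (if_neg (Ne.symm h))
  | add P Q hP hQ =>
    obtain ⟨s, hs⟩ := hP
    obtain ⟨t, ht⟩ := hQ
    refine ⟨s ∪ t, fun γ ε => ?_⟩
    rw [coe_rsc_add]
    exact support_add.trans (Finset.union_subset_union (hs γ ε) (ht γ ε))
  | mul_X P j hP =>
    obtain ⟨s, hs⟩ := hP
    refine ⟨s ∪ s.image (fun α => α + Finsupp.single j 1), fun γ ε => ?_⟩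
    intro α hα
    rw [coe_rsc_mulX, mem_support_iff, coeff_add, coeff_C_mul, coeff_C_mul, coeff_mul_X'] at hα
    rw [Finset.mem_union, Finset.mem_image]
    by_cases h1 : coeff α (rsc γ ε P) = 0
    · right
      rw [h1, mul_zero, zero_add] at hα
      split_ifs at hα with h2
      · refine ⟨α - Finsupp.single j 1, hs γ ε ?_, ?_⟩
        · rw [mem_support_iff]
          intro h3
          exact hα (by rw [h3, mul_zero])
        · apply Finsupp.ext
          intro i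
          rw [Finsupp.add_apply, Finsupp.tsub_apply]
          by_cases hi : j = i
          · subst hi
            rw [Finsupp.single_eq_same]
            rw [Finsupp.mem_support_iff] at h2
            omega
          · rw [Finsupp.single_eq_of_ne (Ne.symm hi)]
            simp
      · exact absurd (mul_zero _) hα
    · left
      exact hs γ ε (mem_support_iff.mpr h1)

theorem rsc_support (Q : MvPolynomial ℕ K) {M : ℕ} (hQ : ∀ v ∈ Q.vars, v < M) :
    ∃ s : Finset (ℕ →₀ ℕ), (∀ α ∈ s, ∀ i ∈ α.support, i < M) ∧ (0 : ℕ →₀ ℕ) ∈ s ∧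
      ∀ (γ : ℕ → K) (ε : K), (rsc γ ε Q).support ⊆ s := by
  classical
  obtain ⟨s, hs⟩ := coe_support_aux Q
  refine ⟨insert 0 (s.filter (fun α => ∀ i ∈ α.support, i < M)), ?_,
    Finset.mem_insert_self _ _, fun γ ε α hα => ?_⟩
  · intro α hα i hi
    rw [Finset.mem_insert, Finset.mem_filter] at hα
    rcases hα with rfl | hα
    · simp at hi
    · exact hα.2 i hi
  · rw [Finset.mem_insert, Finset.mem_filter]
    right
    refine ⟨hs γ ε hα, fun i hi => ?_⟩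
    have h1 : i ∈ (rsc γ ε Q).vars := by
      rw [mem_vars_iff_mem_support]
      exact ⟨α, hα, hi⟩
    unfold rsc at h1
    have h2 := vars_bind₁ _ _ h1
    rw [Finset.mem_biUnion] at h2
    obtain ⟨v, hv, hiv⟩ := h2
    have h3 : (C (γ v) + C ε * X v : MvPolynomial ℕ K).vars ⊆ {v} := by
      refine (vars_add_subset _ _).trans ?_
      rw [vars_C, Finset.empty_union]
      refine (vars_mul _ _).trans ?_
      rw [vars_C, Finset.empty_union]
      rw [vars_X]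
    have h4 := h3 hiv
    rw [Finset.mem_singleton] at h4
    rw [h4]
    exact hQ v hv

/-- all coefficients in `DG` -/
def coe_pdg (P : MvPolynomial ℕ K) : Prop := ∀ α, DG ((coeff α P : K) : ℂ)

theorem coe_dg_zero : DG 0 := by
  have := DG.int 0
  simpa using this

theorem coe_dg_one : DG 1 := by
  have := DG.int 1
  simpa using this

theorem coe_dg_sum {ι : Type} (s : Finset ι) (f : ι → K) (h : ∀ i ∈ s, DG (f i : ℂ)) :
    DG ((∑ i ∈ s, f i : K) : ℂ) := by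
  classical
  induction s using Finset.induction_on with
  | empty => simpa using coe_dg_zero
  | insert a s ha ih =>
    rw [Finset.sum_insert ha, Subfield.coe_add]
    exact (h a (Finset.mem_insert_self _ _)).add
      (ih (fun i hi => h i (Finset.mem_insert_of_mem hi)))

theorem coe_pdg_add {P Q : MvPolynomial ℕ K} (hP : coe_pdg P) (hQ : coe_pdg Q) :
    coe_pdg (P + Q) := by
  intro α
  rw [coeff_add, Subfield.coe_add]
  exact (hP α).add (hQ α)

theorem coe_pdg_mul {P Q : MvPolynomial ℕ K} (hP : coe_pdg P) (hQ : coe_pdg Q) :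
    coe_pdg (P * Q) := by
  classical
  intro α
  rw [coeff_mul]
  apply coe_dg_sum
  intro x _
  rw [Subfield.coe_mul]
  exact (hP _).mul (hQ _)

theorem coe_pdg_C {a : K} (ha : DG (a : ℂ)) : coe_pdg (C a) := by
  classical
  intro α
  rw [coeff_C]
  split_ifs
  · exact ha
  · simpa using coe_dg_zero

theorem coe_pdg_X (i : ℕ) : coe_pdg (X i : MvPolynomial ℕ K) := by
  classical
  intro α
  rw [coeff_X]
  split_ifs
  · simpa using coe_dg_one
  · simpa using coe_dg_zero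

theorem coe_pdg_pow {P : MvPolynomial ℕ K} (hP : coe_pdg P) (n : ℕ) : coe_pdg (P ^ n) := by
  induction n with
  | zero =>
    rw [pow_zero, ← C_1]
    exact coe_pdg_C (by simpa using coe_dg_one)
  | succ n ih =>
    rw [pow_succ]
    exact coe_pdg_mul ih hP

theorem coe_pdg_prod {ι : Type} (s : Finset ι) (f : ι → MvPolynomial ℕ K)
    (h : ∀ i ∈ s, coe_pdg (f i)) : coe_pdg (∏ i ∈ s, f i) := by
  classical
  induction s using Finset.induction_on with
  | empty =>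
    rw [Finset.prod_empty, ← C_1]
    exact coe_pdg_C (by simpa using coe_dg_one)
  | insert a s ha ih =>
    rw [Finset.prod_insert ha]
    exact coe_pdg_mul (h a (Finset.mem_insert_self _ _))
      (ih (fun i hi => h i (Finset.mem_insert_of_mem hi)))

theorem coe_pdg_sum {ι : Type} (s : Finset ι) (f : ι → MvPolynomial ℕ K)
    (h : ∀ i ∈ s, coe_pdg (f i)) : coe_pdg (∑ i ∈ s, f i) := by
  intro α
  rw [coeff_sum]
  exact coe_dg_sum s _ (fun i hi => h i hi α)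

theorem rsc_dg {Q : MvPolynomial ℕ K} (hQ : ∀ α, DG ((coeff α Q : K) : ℂ)) {γ : ℕ → K} {ε : K}
    (hγ : ∀ i, DG (γ i : ℂ)) (hε : DG (ε : ℂ)) (α : ℕ →₀ ℕ) :
    DG ((coeff α (rsc γ ε Q) : K) : ℂ) := by
  have h1 : rsc γ ε Q = ∑ v ∈ Q.support, C (coeff v Q) *
      ∏ i ∈ v.support, (C (γ i) + C ε * X i) ^ v i := by
    conv_lhs => rw [← support_sum_monomial_coeff Q]
    unfold rsc
    rw [map_sum]
    exact Finset.sum_congr rfl (fun v _ => bind₁_monomial _ _ _)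
  rw [h1]
  revert α
  change coe_pdg _
  apply coe_pdg_sum
  intro v _
  apply coe_pdg_mul (coe_pdg_C (hQ v))
  apply coe_pdg_prod
  intro i _
  apply coe_pdg_pow
  exact coe_pdg_add (coe_pdg_C (hγ i)) (coe_pdg_mul (coe_pdg_C hε) (coe_pdg_X i))

end MP1eadaeL
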