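import Pool.Agent.Lib_MP_1eadae_ft.Joi
import Pool.Agent.Lib_MP_1eadae_ft.Shi

/-! # MP_1eadae_ag (FT), piece COMP: computing polynomials with small coefficients -/

namespace MP1eadaeL

open Complex Function MvPolynomial

variable {K : Subfield ℂ} {M : ℕ}

/-- `F` is the value of a node of a clean network, with nodes as large as we want -/
def Comp (K : Subfield ℂ) (M : ℕ) (F : Pt → ℂ) : Prop :=
  ∀ N : ℕ, ∃ (W : Net K) (v : ℕ), Wf M W ∧ CleanG W ∧ v ∈ W.A ∧ (∀ k ∈ W.A, N ≤ k) ∧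
    ∀ z ∈ Dom X0, W.th z v = F z

/-- dyadic Gaussian numbers -/
def DG (x : ℂ) : Prop := ∃ (a b : ℤ) (e : ℕ), x = ((a : ℂ) + (b : ℂ) * I) / 2 ^ e

/- Piece COMP (all theorems of this file).
`Comp.const`: one node, `a = b = 0` (allowed as `0 < M ≤ k`, choose `k ≥ max N M`).
`Comp.input`: one node with gate `x_j/2`, `c = (0,1/2,0,0)`, `a = b = j`.
`Comp.gate`: networks `W1` (nodes `≥ N`), `W2` (nodes larger than those of `W1`), their join
(`join_th_left`, `join_th_right`), and one more node, larger than all, with the gate `c` and inputs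
`v1`, `v2` (e.g. a join with a one-node network is not possible; define the extended network
directly and prove that the values of the old nodes do not change).
`Comp.real`: `a/2^e` with `|a| ≤ 2^e`, induction on `e`: `e = 0`: `a ∈ {-1,0,1}`, `Comp.const`;
step: choose `δ ∈ {-1,0,1}` with `|a - δ 2^e| ≤ 2^e`; then
`a/2^(e+1) = δ/2 + (1/2) ((a - δ 2^e)/2^e)`, gate `(δ/2, 1/2, 0, 0)`.
`Comp.dg4`: `x/4` for `x ∈ DG`, `‖x‖ ≤ 1`: real and imaginary parts are `a/2^e`, `b/2^e` with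
`|a|, |b| ≤ 2^e`; gate `(0, 1/4, i/4, 0)`.
`Comp.mon`: `X^α/8^|α|`: start with the constant `1`, each step is the gate `(0,0,0,1/4)` with
`x_j/2`: `(F x_j/2)/4 = F x_j/8`.
`Comp.term`: `κ X^α` with `κ ∈ DG`, `‖κ‖ 16 8^|α| ≤ 1`: product gate of `κ'/4` and `X^α/8^|α|`,
`κ' = 16 8^|α| κ`.
`comp_tiny`: induction on the finite set `s`: `κ X^α + W' = (4 κ X^α + 4 W')/4`, gate
`(0,1/4,1/4,0)`; `ε(s ∪ {α}) = min (1/(64 * 8^|α|)) (ε(s)/4)`. -/

theorem COMP_4 : ((4 : K) : ℂ) = 4 := map_ofNat K.subtype 4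

theorem COMP_2 : ((2 : K) : ℂ) = 2 := map_ofNat K.subtype 2

theorem COMP_h : ((1 / 2 : K) : ℂ) = 1 / 2 := by
  rw [Subfield.coe_div, Subfield.coe_one, COMP_2]

theorem COMP_q : ((1 / 4 : K) : ℂ) = 1 / 4 := by
  rw [Subfield.coe_div, Subfield.coe_one, COMP_4]

theorem COMP_i (hI : I ∈ K) : ((⟨I, hI⟩ / 4 : K) : ℂ) = I / 4 := by
  rw [Subfield.coe_div, COMP_4]

theorem COMP_d (δ : ℤ) : (((δ : K) / 2 : K) : ℂ) = (δ : ℂ) / 2 := by
  rw [Subfield.coe_div, COMP_2]
  push_cast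
  rfl

theorem COMP_0 : ((0 : K) : ℂ) = 0 := Subfield.coe_zero _

theorem COMP_1 : ((1 : K) : ℂ) = 1 := Subfield.coe_one _

theorem COMP_z (a : ℤ) : ((a : K) : ℂ) = (a : ℂ) := by
  push_cast
  rfl

/-- the conditions on the coefficients of a gate, for complex numbers -/
theorem COMP_gck {c0 c1 c2 c3 : K} {x0 x1 x2 x3 : ℂ} (h0 : (c0 : ℂ) = x0) (h1 : (c1 : ℂ) = x1)
    (h2 : (c2 : ℂ) = x2) (h3 : (c3 : ℂ) = x3)
    (i0 : ∃ a b : ℤ, x0 = ((a : ℂ) + (b : ℂ) * I) / 4)
    (i1 : ∃ a b : ℤ, x1 = ((a : ℂ) + (b : ℂ) * I) / 4)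
    (i2 : ∃ a b : ℤ, x2 = ((a : ℂ) + (b : ℂ) * I) / 4)
    (i3 : ∃ a b : ℤ, x3 = ((a : ℂ) + (b : ℂ) * I) / 4)
    (hn : ‖x0‖ + 2 * ‖x1‖ + 2 * ‖x2‖ + 4 * ‖x3‖ ≤ 3 / 2) : GCK (K := K) ![c0, c1, c2, c3] := by
  subst h0 h1 h2 h3
  constructor
  · intro i
    fin_cases i
    · exact i0
    · exact i1
    · exact i2
    · exact i3
  · exact hn

theorem COMP_e0 : ∃ a b : ℤ, (0 : ℂ) = ((a : ℂ) + (b : ℂ) * I) / 4 := ⟨0, 0, by norm_num⟩

theorem COMP_eh : ∃ a b : ℤ, (1 / 2 : ℂ) = ((a : ℂ) + (b : ℂ) * I) / 4 := ⟨2, 0, by norm_num⟩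

theorem COMP_eq : ∃ a b : ℤ, (1 / 4 : ℂ) = ((a : ℂ) + (b : ℂ) * I) / 4 := ⟨1, 0, by norm_num⟩

theorem COMP_ei : ∃ a b : ℤ, (I / 4 : ℂ) = ((a : ℂ) + (b : ℂ) * I) / 4 := ⟨0, 1, by norm_num⟩

theorem COMP_ez (x : ℤ) : ∃ a b : ℤ, (x : ℂ) = ((a : ℂ) + (b : ℂ) * I) / 4 :=
  ⟨4 * x, 0, by push_cast; ring⟩

theorem COMP_ezh (x : ℤ) : ∃ a b : ℤ, (x : ℂ) / 2 = ((a : ℂ) + (b : ℂ) * I) / 4 :=
  ⟨2 * x, 0, by push_cast; ring⟩

theorem Comp.congr {F G : Pt → ℂ} (h : Comp K M F) (hFG : ∀ z ∈ Dom X0, F z = G z) :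
    Comp K M G := by
  intro N
  obtain ⟨W, v, h1, h2, h3, h4, h5⟩ := h N
  exact ⟨W, v, h1, h2, h3, h4, fun z hz => (h5 z hz).trans (hFG z hz)⟩

theorem Comp.const (hM : 1 ≤ M) {c : K} (hc : GCK ![c, 0, 0, 0]) :
    Comp K M (fun _ => (c : ℂ)) := by
  intro N
  have hW : Wf M (⟨{max N M}, fun _ => ![c, 0, 0, 0], fun _ => 0, fun _ => 0⟩ : Net K) := by
    intro k hk
    have hk' : k = max N M := by simpa using hk
    have hMk : M ≤ k := by rw [hk']; exact le_max_right _ _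
    exact ⟨hMk, hc, by show 0 < k; omega, by show 0 < k; omega, Or.inr (by show 0 < M; omega),
      Or.inr (by show 0 < M; omega)⟩
  refine ⟨⟨{max N M}, fun _ => ![c, 0, 0, 0], fun _ => 0, fun _ => 0⟩, max N M, hW, ?_, ?_, ?_, ?_⟩
  · intro k _
    refine Or.inr (Or.inr ⟨?_, ?_, ?_⟩)
    · show ((0 : K) : ℂ) = 0
      norm_num
    · show ((0 : K) : ℂ) = 0
      norm_num
    · show ((0 : K) : ℂ) = 0
      norm_num
  · exact Finset.mem_singleton_self _
  · intro k hk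
    have hk' : k = max N M := by simpa using hk
    rw [hk']
    exact le_max_left _ _
  · intro z _
    rw [th_node hW (Finset.mem_singleton_self _)]
    show (c : ℂ) + ((0 : K) : ℂ) * _ + ((0 : K) : ℂ) * _ + ((0 : K) : ℂ) * _ = c
    norm_num

theorem Comp.input {j : ℕ} (hj : j < M) : Comp K M (fun z => z j / 2) := by
  intro N
  have hg : GCK (K := K) ![0, 1 / 2, 0, 0] :=
    COMP_gck COMP_0 COMP_h COMP_0 COMP_0 COMP_e0 COMP_eh COMP_e0 COMP_e0 (by norm_num)
  have hW : Wf M (⟨{max N M}, fun _ => ![0, 1 / 2, 0, 0], fun _ => j, fun _ => j⟩ : Net K) := by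
    intro k hk
    have hk' : k = max N M := by simpa using hk
    have hMk : M ≤ k := by rw [hk']; exact le_max_right _ _
    exact ⟨hMk, hg, by show j < k; omega, by show j < k; omega, Or.inr hj, Or.inr hj⟩
  have hjA : j ∉ ({max N M} : Finset ℕ) := by
    intro h
    have h' : j = max N M := by simpa using h
    have hMk : M ≤ max N M := le_max_right _ _
    omega
  refine ⟨⟨{max N M}, fun _ => ![0, 1 / 2, 0, 0], fun _ => j, fun _ => j⟩, max N M, hW, ?_, ?_, ?_, ?_⟩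
  · intro k _
    refine Or.inr (Or.inl ⟨rfl, hjA, ?_, ?_, ?_, ?_⟩)
    · show ((0 : K) : ℂ) = 0
      norm_num
    · exact COMP_h
    · show ((0 : K) : ℂ) = 0
      norm_num
    · show ((0 : K) : ℂ) = 0
      norm_num
  · exact Finset.mem_singleton_self _
  · intro k hk
    have hk' : k = max N M := by simpa using hk
    rw [hk']
    exact le_max_left _ _
  · intro z _
    rw [th_node hW (Finset.mem_singleton_self _)]
    show ((0 : K) : ℂ) + ((1 / 2 : K) : ℂ) * Net.th _ z j + ((0 : K) : ℂ) * _ + ((0 : K) : ℂ) * _ = _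
    rw [th_seg (k := j) hjA, COMP_0, COMP_h]
    ring

/-- one more node at the top of a network -/
def COMP_top (J : Net K) (p : ℕ) (c : Fin 4 → K) (v1 v2 : ℕ) : Net K :=
  ⟨insert p J.A, fun k => if k = p then c else J.c k, fun k => if k = p then v1 else J.a k,
    fun k => if k = p then v2 else J.b k⟩

theorem COMP_top_wf {J : Net K} (hJ : Wf M J) {p : ℕ} {c : Fin 4 → K} {v1 v2 : ℕ}
    (hp : ∀ k ∈ J.A, k < p) (hc : GCK c) (h1 : v1 ∈ J.A) (h2 : v2 ∈ J.A) :
    Wf M (COMP_top J p c v1 v2) := by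
  intro k hk
  have hk' : k = p ∨ k ∈ J.A := by
    have : k ∈ insert p J.A := hk
    simpa using this
  have hin : ∀ {x : ℕ}, x ∈ J.A → x ∈ (COMP_top J p c v1 v2).A := by
    intro x hx
    show x ∈ insert p J.A
    exact Finset.mem_insert_of_mem hx
  by_cases hkp : k = p
  · subst hkp
    have e1 : (COMP_top J k c v1 v2).c k = c := if_pos rfl
    have e2 : (COMP_top J k c v1 v2).a k = v1 := if_pos rfl
    have e3 : (COMP_top J k c v1 v2).b k = v2 := if_pos rfl
    rw [e1, e2, e3]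
    refine ⟨?_, hc, hp _ h1, hp _ h2, Or.inl (hin h1), Or.inl (hin h2)⟩
    exact le_trans (hJ v1 h1).1 (hp _ h1).le
  · have hkJ : k ∈ J.A := hk'.resolve_left hkp
    have e1 : (COMP_top J p c v1 v2).c k = J.c k := if_neg hkp
    have e2 : (COMP_top J p c v1 v2).a k = J.a k := if_neg hkp
    have e3 : (COMP_top J p c v1 v2).b k = J.b k := if_neg hkp
    rw [e1, e2, e3]
    obtain ⟨a1, a2, a3, a4, a5, a6⟩ := hJ k hkJ
    exact ⟨a1, a2, a3, a4, a5.imp hin id, a6.imp hin id⟩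

theorem COMP_top_th {J : Net K} (hJ : Wf M J) {p : ℕ} {c : Fin 4 → K} {v1 v2 : ℕ}
    (hp : ∀ k ∈ J.A, k < p) (hc : GCK c) (h1 : v1 ∈ J.A) (h2 : v2 ∈ J.A) (z : Pt) (k : ℕ) :
    (k ∈ J.A ∨ k < M) → (COMP_top J p c v1 v2).th z k = J.th z k := by
  induction k using Nat.strong_induction_on with
  | _ k ih =>
    intro hk
    have hW := COMP_top_wf hJ hp hc h1 h2
    by_cases hkJ : k ∈ J.A
    · have hkp : k ≠ p := (hp k hkJ).ne
      have hkW : k ∈ (COMP_top J p c v1 v2).A := Finset.mem_insert_of_mem hkJ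
      rw [th_node hW hkW, th_node hJ hkJ]
      have e1 : (COMP_top J p c v1 v2).c k = J.c k := if_neg hkp
      have e2 : (COMP_top J p c v1 v2).a k = J.a k := if_neg hkp
      have e3 : (COMP_top J p c v1 v2).b k = J.b k := if_neg hkp
      obtain ⟨_, _, a3, a4, a5, a6⟩ := hJ k hkJ
      rw [e1, e2, e3, ih _ a3 a5, ih _ a4 a6]
    · have hkM : k < M := hk.resolve_left hkJ
      have hkW : k ∉ (COMP_top J p c v1 v2).A := by
        intro h
        have := (hW k h).1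
        omega
      rw [th_seg hkW, th_seg hkJ]

theorem Comp.gate {F G : Pt → ℂ} (hF : Comp K M F) (hG : Comp K M G) {c : Fin 4 → K}
    (hc : GCK c) :
    Comp K M (fun z => (c 0 : ℂ) + c 1 * F z + c 2 * G z + c 3 * (F z * G z)) := by
  intro N
  obtain ⟨W1, v1, wf1, cl1, hv1, hN1, ht1⟩ := hF N
  obtain ⟨W2, v2, wf2, cl2, hv2, hN2, ht2⟩ := hG (max N (W1.A.sup id + 1))
  have hd : Disjoint W1.A W2.A := by
    rw [Finset.disjoint_left]
    intro k h1 h2
    have a1 : k ≤ W1.A.sup id := Finset.le_sup (f := id) h1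
    have a2 : max N (W1.A.sup id + 1) ≤ k := hN2 k h2
    have a3 : W1.A.sup id + 1 ≤ max N (W1.A.sup id + 1) := le_max_right _ _
    omega
  have wfJ := Wf.join wf1 wf2
  have clJ := cleanG_join wf1 wf2 hd cl1 cl2
  have hJ1 : v1 ∈ (W1.join W2).A := Finset.mem_union_left _ hv1
  have hJ2 : v2 ∈ (W1.join W2).A := Finset.mem_union_right _ hv2
  have hp : ∀ k ∈ (W1.join W2).A, k < (W1.join W2).A.sup id + 1 := by
    intro k hk
    have a1 : k ≤ (W1.join W2).A.sup id := Finset.le_sup (f := id) hk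
    omega
  have hW := COMP_top_wf wfJ hp hc hJ1 hJ2
  refine ⟨COMP_top (W1.join W2) ((W1.join W2).A.sup id + 1) c v1 v2,
    (W1.join W2).A.sup id + 1, hW, ?_, Finset.mem_insert_self _ _, ?_, ?_⟩
  · intro k hk
    by_cases hkp : k = (W1.join W2).A.sup id + 1
    · subst hkp
      refine Or.inl ⟨?_, ?_⟩
      · have e2 : (COMP_top (W1.join W2) ((W1.join W2).A.sup id + 1) c v1 v2).a
            ((W1.join W2).A.sup id + 1) = v1 := if_pos rfl
        rw [e2]
        exact Finset.mem_insert_of_mem hJ1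
      · have e3 : (COMP_top (W1.join W2) ((W1.join W2).A.sup id + 1) c v1 v2).b
            ((W1.join W2).A.sup id + 1) = v2 := if_pos rfl
        rw [e3]
        exact Finset.mem_insert_of_mem hJ2
    · have hkJ : k ∈ (W1.join W2).A := Finset.mem_of_mem_insert_of_ne hk hkp
      have e1 : (COMP_top (W1.join W2) ((W1.join W2).A.sup id + 1) c v1 v2).c k =
        (W1.join W2).c k := if_neg hkp
      have e2 : (COMP_top (W1.join W2) ((W1.join W2).A.sup id + 1) c v1 v2).a k =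
        (W1.join W2).a k := if_neg hkp
      have e3 : (COMP_top (W1.join W2) ((W1.join W2).A.sup id + 1) c v1 v2).b k =
        (W1.join W2).b k := if_neg hkp
      rw [e1, e2, e3]
      rcases clJ k hkJ with ⟨c1, c2⟩ | ⟨c1, c2, c3⟩ | c1
      · exact Or.inl ⟨Finset.mem_insert_of_mem c1, Finset.mem_insert_of_mem c2⟩
      · refine Or.inr (Or.inl ⟨c1, ?_, c3⟩)
        intro h
        have a3 := (wfJ k hkJ).2.2.1
        have a4 := hp k hkJ
        have a5 : (W1.join W2).a k ≠ (W1.join W2).A.sup id + 1 := by omega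
        exact c2 (Finset.mem_of_mem_insert_of_ne h a5)
      · exact Or.inr (Or.inr c1)
  · intro k hk
    by_cases hkp : k = (W1.join W2).A.sup id + 1
    · have a1 := hN1 v1 hv1
      have a2 := hp v1 hJ1
      omega
    · have hkJ : k ∈ (W1.join W2).A := Finset.mem_of_mem_insert_of_ne hk hkp
      rcases Finset.mem_union.1 hkJ with h | h
      · exact hN1 k h
      · exact le_trans (le_max_left _ _) (hN2 k h)
  · intro z hz
    rw [th_node hW (Finset.mem_insert_self _ _)]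
    have e1 : (COMP_top (W1.join W2) ((W1.join W2).A.sup id + 1) c v1 v2).c
        ((W1.join W2).A.sup id + 1) = c := if_pos rfl
    have e2 : (COMP_top (W1.join W2) ((W1.join W2).A.sup id + 1) c v1 v2).a
        ((W1.join W2).A.sup id + 1) = v1 := if_pos rfl
    have e3 : (COMP_top (W1.join W2) ((W1.join W2).A.sup id + 1) c v1 v2).b
        ((W1.join W2).A.sup id + 1) = v2 := if_pos rfl
    rw [e1, e2, e3, COMP_top_th wfJ hp hc hJ1 hJ2 z v1 (Or.inl hJ1),
      COMP_top_th wfJ hp hc hJ1 hJ2 z v2 (Or.inl hJ2),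
      join_th_left wf1 wf2 z (Or.inl hv1), join_th_right wf1 wf2 hd z (Or.inl hv2),
      ht1 z hz, ht2 z hz]

theorem Comp.real (hM : 1 ≤ M) (e : ℕ) (a : ℤ) (ha : |a| ≤ 2 ^ e) :
    Comp K M (fun _ => (a : ℂ) / 2 ^ e) := by
  induction e generalizing a with
  | zero =>
    rw [pow_zero] at ha
    have hg : GCK (K := K) ![(a : K), 0, 0, 0] := by
      refine COMP_gck (COMP_z a) COMP_0 COMP_0 COMP_0 (COMP_ez a) COMP_e0 COMP_e0 COMP_e0 ?_
      have h1 : ‖(a : ℂ)‖ ≤ 1 := by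
        rw [Complex.norm_intCast]
        exact_mod_cast ha
      rw [norm_zero]
      linarith
    refine (Comp.const hM hg).congr ?_
    intro z _
    rw [COMP_z, pow_zero, div_one]
  | succ e ih =>
    obtain ⟨δ, hδ1, hδ2⟩ : ∃ δ : ℤ, |δ| ≤ 1 ∧ |a - δ * 2 ^ e| ≤ 2 ^ e := by
      rw [pow_succ] at ha
      have hpos : (0 : ℤ) < 2 ^ e := by positivity
      rw [abs_le] at ha
      by_cases h1 : (2 : ℤ) ^ e < a
      · exact ⟨1, by norm_num, by rw [abs_le]; constructor <;> linarith [ha.1, ha.2]⟩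
      · by_cases h2 : a < -(2 : ℤ) ^ e
        · exact ⟨-1, by norm_num, by rw [abs_le]; constructor <;> linarith [ha.1, ha.2]⟩
        · rw [not_lt] at h1 h2
          exact ⟨0, by norm_num, by rw [abs_le]; constructor <;> linarith [ha.1, ha.2]⟩
    have hg : GCK (K := K) ![(δ : K) / 2, 1 / 2, 0, 0] := by
      refine COMP_gck (COMP_d δ) COMP_h COMP_0 COMP_0 (COMP_ezh δ) COMP_eh COMP_e0 COMP_e0 ?_
      have h1 : ‖(δ : ℂ) / 2‖ ≤ 1 / 2 := by
        rw [norm_div, Complex.norm_intCast]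
        have h3 : |(δ : ℝ)| ≤ 1 := by exact_mod_cast hδ1
        have h4 : ‖(2 : ℂ)‖ = 2 := by norm_num
        rw [h4]
        linarith
      have h5 : ‖(1 / 2 : ℂ)‖ = 1 / 2 := by norm_num
      rw [norm_zero, h5]
      linarith
    refine (Comp.gate (ih (a - δ * 2 ^ e) hδ2) (ih (a - δ * 2 ^ e) hδ2) hg).congr ?_
    intro z _
    show (((δ : K) / 2 : K) : ℂ) + ((1 / 2 : K) : ℂ) * (((a - δ * 2 ^ e : ℤ) : ℂ) / 2 ^ e) +
      ((0 : K) : ℂ) * _ + ((0 : K) : ℂ) * _ = _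
    have h2 : (2 : ℂ) ^ e ≠ 0 := pow_ne_zero _ two_ne_zero
    rw [COMP_d, COMP_h, COMP_0]
    push_cast
    rw [pow_succ]
    field_simp
    ring

theorem Comp.dg4 (hI : I ∈ K) (hM : 1 ≤ M) {x : ℂ} (hx : DG x) (h1 : ‖x‖ ≤ 1) :
    Comp K M (fun _ => x / 4) := by
  obtain ⟨a, b, e, rfl⟩ := hx
  have hpos : (0 : ℝ) < 2 ^ e := by positivity
  have hre : (((a : ℂ) + (b : ℂ) * I) / 2 ^ e).re = (a : ℝ) / 2 ^ e := by
    have h : ((a : ℂ) + (b : ℂ) * I) / 2 ^ e = ((a / 2 ^ e : ℝ) : ℂ) + ((b / 2 ^ e : ℝ) : ℂ) * I := by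
      push_cast
      ring
    rw [h, Complex.add_re, Complex.ofReal_re, Complex.re_ofReal_mul, Complex.I_re, mul_zero, add_zero]
  have him : (((a : ℂ) + (b : ℂ) * I) / 2 ^ e).im = (b : ℝ) / 2 ^ e := by
    have h : ((a : ℂ) + (b : ℂ) * I) / 2 ^ e = ((a / 2 ^ e : ℝ) : ℂ) + ((b / 2 ^ e : ℝ) : ℂ) * I := by
      push_cast
      ring
    rw [h, Complex.add_im, Complex.ofReal_im, Complex.im_ofReal_mul, Complex.I_im, mul_one, zero_add]
  have hA : |a| ≤ 2 ^ e := by
    have h := (Complex.abs_re_le_norm (((a : ℂ) + (b : ℂ) * I) / 2 ^ e)).trans h1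
    rw [hre, abs_div, abs_of_pos hpos, div_le_one hpos] at h
    exact_mod_cast h
  have hB : |b| ≤ 2 ^ e := by
    have h := (Complex.abs_im_le_norm (((a : ℂ) + (b : ℂ) * I) / 2 ^ e)).trans h1
    rw [him, abs_div, abs_of_pos hpos, div_le_one hpos] at h
    exact_mod_cast h
  have hg : GCK (K := K) ![0, 1 / 4, ⟨I, hI⟩ / 4, 0] :=
    COMP_gck COMP_0 COMP_q (COMP_i hI) COMP_0 COMP_e0 COMP_eq COMP_ei COMP_e0 (by norm_num)
  refine (Comp.gate (Comp.real hM e a hA) (Comp.real hM e b hB) hg).congr ?_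
  intro z _
  show ((0 : K) : ℂ) + ((1 / 4 : K) : ℂ) * ((a : ℂ) / 2 ^ e) +
    ((⟨I, hI⟩ / 4 : K) : ℂ) * ((b : ℂ) / 2 ^ e) + ((0 : K) : ℂ) * _ = _
  rw [COMP_i, COMP_q, COMP_0]
  ring

theorem COMP_gk4 : GCK (K := K) ![0, 0, 0, 1 / 4] :=
  COMP_gck COMP_0 COMP_0 COMP_0 COMP_q COMP_e0 COMP_e0 COMP_e0 COMP_eq (by norm_num)

theorem COMP_mul4 {F G : Pt → ℂ} (hF : Comp K M F) (hG : Comp K M G) :
    Comp K M (fun z => F z * G z / 4) := by
  refine (Comp.gate hF hG COMP_gk4).congr ?_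
  intro z _
  show ((0 : K) : ℂ) + ((0 : K) : ℂ) * F z + ((0 : K) : ℂ) * G z +
    ((1 / 4 : K) : ℂ) * (F z * G z) = _
  rw [COMP_q, COMP_0]
  ring

theorem COMP_mon_aux (hM : 1 ≤ M) (α : ℕ → ℕ) (S : Finset ℕ) (hS : ∀ i ∈ S, i < M) :
    Comp K M (fun z => ∏ i ∈ S, (z i / 8) ^ (α i)) := by
  induction S using Finset.induction_on with
  | empty =>
    have hg : GCK (K := K) ![1, 0, 0, 0] :=
      COMP_gck COMP_1 COMP_0 COMP_0 COMP_0 ⟨4, 0, by norm_num⟩ COMP_e0 COMP_e0 COMP_e0 (by norm_num)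
    refine (Comp.const hM hg).congr ?_
    intro z _
    rw [Finset.prod_empty, COMP_1]
  | insert j S hj ih =>
    have h1 : Comp K M (fun z => ∏ i ∈ S, (z i / 8) ^ (α i)) :=
      ih (fun i hi => hS i (Finset.mem_insert_of_mem hi))
    have hjM : j < M := hS j (Finset.mem_insert_self _ _)
    have h2 : ∀ n : ℕ, Comp K M (fun z => (z j / 8) ^ n * ∏ i ∈ S, (z i / 8) ^ (α i)) := by
      intro n
      induction n with
      | zero =>
        refine h1.congr ?_
        intro z _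
        rw [pow_zero, one_mul]
      | succ n ihn =>
        refine (COMP_mul4 ihn (Comp.input hjM)).congr ?_
        intro z _
        show (z j / 8) ^ n * (∏ i ∈ S, (z i / 8) ^ (α i)) * (z j / 2) / 4 = _
        rw [pow_succ]
        ring
    refine (h2 (α j)).congr ?_
    intro z _
    rw [Finset.prod_insert hj]

theorem Comp.mon (hM : 1 ≤ M) (α : ℕ →₀ ℕ) (hα : ∀ i ∈ α.support, i < M) :
    Comp K M (fun z => (α.prod fun i n => z i ^ n) / 8 ^ (α.sum fun _ n => n)) := by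
  refine (COMP_mon_aux hM (fun i => α i) α.support hα).congr ?_
  intro z _
  show ∏ i ∈ α.support, (z i / 8) ^ (α i) =
    (∏ i ∈ α.support, z i ^ (α i)) / 8 ^ (∑ i ∈ α.support, α i)
  rw [← Finset.prod_pow_eq_pow_sum, ← Finset.prod_div_distrib]
  refine Finset.prod_congr rfl ?_
  intro i _
  rw [div_pow]

theorem Comp.term (hI : I ∈ K) (hM : 1 ≤ M) (α : ℕ →₀ ℕ) (hα : ∀ i ∈ α.support, i < M) {x : ℂ}
    (hx : DG x) (h1 : ‖x‖ * (16 * 8 ^ (α.sum fun _ n => n)) ≤ 1) :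
    Comp K M (fun z => x * (α.prod fun i n => z i ^ n)) := by
  have hx' : DG (x * (16 * 8 ^ (α.sum fun _ n => n))) := by
    obtain ⟨a, b, e, rfl⟩ := hx
    refine ⟨a * (16 * 8 ^ (α.sum fun _ n => n)), b * (16 * 8 ^ (α.sum fun _ n => n)), e, ?_⟩
    push_cast
    ring
  have hn : ‖x * (16 * 8 ^ (α.sum fun _ n => n))‖ ≤ 1 := by
    have h2 : ‖x * (16 * 8 ^ (α.sum fun _ n => n))‖ = ‖x‖ * (16 * 8 ^ (α.sum fun _ n => n)) := by
      rw [norm_mul, norm_mul, norm_pow]
      norm_num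
    rw [h2]
    exact h1
  refine (COMP_mul4 (Comp.dg4 hI hM hx' hn) (Comp.mon hM α hα)).congr ?_
  intro z _
  have h8 : (8 : ℂ) ^ (α.sum fun _ n => n) ≠ 0 := pow_ne_zero _ (by norm_num)
  field_simp
  ring

theorem comp_tiny (hI : I ∈ K) (hM : 1 ≤ M) (s : Finset (ℕ →₀ ℕ))
    (hs : ∀ α ∈ s, ∀ i ∈ α.support, i < M) :
    ∃ ε : ℝ, 0 < ε ∧ ∀ P : MvPolynomial ℕ K, P.support ⊆ s →
      (∀ α, DG ((coeff α P : K) : ℂ)) → (∀ α, ‖((coeff α P : K) : ℂ)‖ ≤ ε) → Comp K M (pev P) := by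
  induction s using Finset.induction_on with
  | empty =>
    refine ⟨1, one_pos, ?_⟩
    intro P hP _ _
    have hP0 : P = 0 := by
      have h : P.support = ∅ := Finset.subset_empty.1 hP
      exact MvPolynomial.support_eq_empty.1 h
    have hg : GCK (K := K) ![0, 0, 0, 0] :=
      COMP_gck COMP_0 COMP_0 COMP_0 COMP_0 COMP_e0 COMP_e0 COMP_e0 COMP_e0 (by norm_num)
    refine (Comp.const hM hg).congr ?_
    intro z _
    rw [hP0]
    show ((0 : K) : ℂ) = aeval z (0 : MvPolynomial ℕ K)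
    rw [map_zero]
    rfl
  | insert β s hβ ih =>
    obtain ⟨ε, hε, h⟩ := ih (fun α hα => hs α (Finset.mem_insert_of_mem hα))
    have h8 : (0 : ℝ) < 64 * 8 ^ (β.sum fun _ n => n) := by positivity
    refine ⟨min (1 / (64 * 8 ^ (β.sum fun _ n => n))) (ε / 4), lt_min (by positivity) (by positivity), ?_⟩
    intro P hP hD hN
    have hco : ∀ α, coeff α (C (4 : K) * (P - monomial β (coeff β P))) =
        if α = β then 0 else 4 * coeff α P := by
      intro α
      rw [coeff_C_mul, coeff_sub, coeff_monomial]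
      by_cases hab : α = β
      · rw [if_pos hab, hab, if_pos rfl, sub_self, mul_zero]
      · rw [if_neg hab, if_neg (fun h => hab h.symm), sub_zero]
    have hQ : Comp K M (pev (C (4 : K) * (P - monomial β (coeff β P)))) := by
      refine h _ ?_ ?_ ?_
      · intro α hα
        rw [mem_support_iff, hco] at hα
        by_cases hab : α = β
        · rw [if_pos hab] at hα
          exact absurd rfl hα
        · rw [if_neg hab] at hα
          have h1 : coeff α P ≠ 0 := fun h0 => hα (by rw [h0, mul_zero])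
          have h2 : α ∈ insert β s := hP (mem_support_iff.2 h1)
          exact Finset.mem_of_mem_insert_of_ne h2 hab
      · intro α
        rw [hco]
        by_cases hab : α = β
        · rw [if_pos hab]
          exact ⟨0, 0, 0, by push_cast; norm_num⟩
        · rw [if_neg hab]
          obtain ⟨a, b, e, hab2⟩ := hD α
          refine ⟨4 * a, 4 * b, e, ?_⟩
          rw [Subfield.coe_mul, COMP_4, hab2]
          push_cast
          ring
      · intro α
        rw [hco]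
        by_cases hab : α = β
        · rw [if_pos hab]
          push_cast
          rw [norm_zero]
          exact hε.le
        · rw [if_neg hab, Subfield.coe_mul, COMP_4, norm_mul]
          have h1 := (hN α).trans (min_le_right _ _)
          have h4 : ‖(4 : ℂ)‖ = 4 := by norm_num
          rw [h4]
          linarith
    have hT : Comp K M (fun z => (4 * ((coeff β P : K) : ℂ)) * (β.prod fun i n => z i ^ n)) := by
      refine Comp.term hI hM β (hs β (Finset.mem_insert_self _ _)) ?_ ?_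
      · obtain ⟨a, b, e, hab2⟩ := hD β
        refine ⟨4 * a, 4 * b, e, ?_⟩
        rw [hab2]
        push_cast
        ring
      · have h1 := (hN β).trans (min_le_left _ _)
        rw [norm_mul]
        have h4 : ‖(4 : ℂ)‖ = 4 := by norm_num
        rw [h4]
        rw [le_div_iff₀ h8] at h1
        calc 4 * ‖((coeff β P : K) : ℂ)‖ * (16 * 8 ^ (β.sum fun _ n => n)) =
            ‖((coeff β P : K) : ℂ)‖ * (64 * 8 ^ (β.sum fun _ n => n)) := by ring
          _ ≤ 1 := h1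
    have hg : GCK (K := K) ![0, 1 / 4, 1 / 4, 0] :=
      COMP_gck COMP_0 COMP_q COMP_q COMP_0 COMP_e0 COMP_eq COMP_eq COMP_e0 (by norm_num)
    refine (Comp.gate hT hQ hg).congr ?_
    intro z _
    have hm : pev (monomial β (coeff β P)) z =
        ((coeff β P : K) : ℂ) * (β.prod fun i n => z i ^ n) := by
      show aeval z (monomial β (coeff β P)) = _
      rw [aeval_monomial]
      rfl
    have hq : pev (C (4 : K) * (P - monomial β (coeff β P))) z =
        4 * (pev P z - pev (monomial β (coeff β P)) z) := by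
      show aeval z (C (4 : K) * (P - monomial β (coeff β P))) = _
      rw [map_mul, map_sub, aeval_C]
      show ((4 : K) : ℂ) * _ = _
      rw [COMP_4]
      rfl
    show ((0 : K) : ℂ) + ((1 / 4 : K) : ℂ) *
        ((4 * ((coeff β P : K) : ℂ)) * (β.prod fun i n => z i ^ n)) +
      ((1 / 4 : K) : ℂ) * pev (C (4 : K) * (P - monomial β (coeff β P))) z +
      ((0 : K) : ℂ) * _ = pev P z
    rw [hq, hm, COMP_q, COMP_0]
    ring

end MP1eadaeL
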