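import Mathlib
import Pool.Agent.Lib_MP_1eadae_ag.Defs
import Pool.Agent.Lib_MP_1eadae_ag.RatA
import Pool.Agent.Lib_MP_1eadae_ag.RatB
import Pool.Agent.Lib_MP_1eadae_ag.Ctr
import Pool.Agent.Lib_MP_1eadae_ag.Stk

/-!
# MP_1eadae_ag (circuit presentation): definitions

All circles are `|y| = 2`.  Coordinates in a finite set `A` run over the circle (nodes), all other
coordinates over the segment `[0,1]`.
-/

namespace MP1eadaeL

open Complex Function MvPolynomial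

/-- coordinates in `A` on the circle `|y| = 2`, the others in the segment -/
def XA (A : Finset ℕ) : ℕ → Set ℂ := fun i => if i ∈ A then circ 0 2 else seg

/-- coordinates in `A` in the disc `|y| ≤ 2`, the others in the segment -/
def XD (A : Finset ℕ) : ℕ → Set ℂ := fun i => if i ∈ A then disc 0 2 else seg

/-- the coordinates in `A` are moved to the circle, by the quarter `q i` -/
noncomputable def arcm (A : Finset ℕ) (q : ℕ → ℕ) (z : Pt) : Pt :=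
  fun i => if i ∈ A then 2 * uj (q i) (z i) else z i

/-- the iterated contour integrand over the coordinates in `A` -/
noncomputable def ctrs (A : Finset ℕ) (H : Pt → ℂ) : Pt → ℂ :=
  A.toList.foldr (fun p G => ctr p 0 2 G) H

/-- product of the integrands `8i/(1+z_d^2)`, `d ∈ D` (each of integral `2πi`) -/
noncomputable def tp (D : Finset ℕ) (z : Pt) : ℂ := ∏ d ∈ D, tpi d z

/-- substitution `X_k ↦ X_s X_k` -/
noncomputable def sub {K : Subfield ℂ} (k s : ℕ) (P : MvPolynomial ℕ K) : MvPolynomial ℕ K :=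
  bind₁ (fun i => if i = k then X s * X k else X i) P

/-- coefficients of a gate: `4 c_j ∈ ℤ[i]` and `|c_0| + 2|c_1| + 2|c_2| + 4|c_3| ≤ 3/2` -/
def GC (c : Fin 4 → ℂ) : Prop :=
  (∀ j, ∃ a b : ℤ, c j = ((a : ℂ) + (b : ℂ) * I) / 4) ∧
    ‖c 0‖ + 2 * ‖c 1‖ + 2 * ‖c 2‖ + 4 * ‖c 3‖ ≤ 3 / 2

/-- the polynomial `c_0 + c_1 u + c_2 v + c_3 u v` -/
noncomputable def gpl {K : Subfield ℂ} {σ : Type} (c : Fin 4 → K) (u v : MvPolynomial σ K) :
    MvPolynomial σ K := C (c 0) + C (c 1) * u + C (c 2) * v + C (c 3) * (u * v)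

/-- `GC` for coefficients in `K` -/
def GCK {K : Subfield ℂ} (c : Fin 4 → K) : Prop := GC (fun j => (c j : ℂ))

/-- `8 + e i (c + w u)` with `e = 1` or `e = -1` -/
noncomputable def fin8 {K : Subfield ℂ} {σ : Type} (hI : I ∈ K) (e : ℤ) (c w : ℕ)
    (u : MvPolynomial σ K) : MvPolynomial σ K :=
  C (8 : K) + C ((e : K) * ⟨I, hI⟩) * (C (c : K) + C (w : K) * u)

/-- The finite set of templates, polynomials in four variables. -/
def Tem (K : Subfield ℂ) (hI : I ∈ K) : Set (MvPolynomial (Fin 4) K) :=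
  {M | (∃ c : Fin 4 → K, GCK c ∧ (M = X 0 - gpl c (X 1) (X 2) ∨ M = X 0 - gpl c (X 3 * X 1) (X 2) ∨
      M = X 0 - gpl c (X 1) (X 3 * X 2) ∨ M = X 0 - gpl c (X 3 * X 1) (X 3 * X 2) ∨
      M = X 0 - X 3 * gpl c (X 1) (X 2))) ∨
    M = X 0 - C (1 / 4) * (X 1 * (1 + X 3)) ∨ M = C 4 - X 0 ∨ M = C 4 - X 3 * X 0 ∨
    (∃ (e : ℤ) (c w : ℕ), (e = 1 ∨ e = -1) ∧ c ≤ 8 ∧ w ≤ 8 ∧
      (M = fin8 hI e c w (X 0) ∨ M = fin8 hI e c w (X 3 * X 0) ∨
        M = fin8 hI e c 1 (X 0 * (1 + C (w : K) * X 3))))}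

/-- A system: a class `Cl` of functions on the cube, closed under the operations below, and a
predicate `Dn A L`: the polynomial `L` is an allowed denominator when the coordinates in `A` are on
the circle; `Ex L`: `L` is an allowed denominator in segment coordinates only. -/
structure Sys (K : Subfield ℂ) (hI : I ∈ K) (Cl : (Pt → ℂ) → Prop)
    (Dn : Finset ℕ → MvPolynomial ℕ K → Prop) (Ex : MvPolynomial ℕ K → Prop) : Prop where
  congr : ∀ F G, Cl F → (∀ z ∈ Dom X0, F z = G z) → Cl G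
  add : ∀ F G, Cl F → Cl G → Cl (fun z => F z + G z)
  mul : ∀ F G, Cl F → Cl G → Cl (fun z => F z * G z)
  const : ∀ a : ℂ, a ∈ K → Cl (fun _ => a)
  coord : ∀ i, Cl (fun z => z i)
  uinv : ∀ p, Cl (fun z => 1 / (1 - I * z p))
  ren : ∀ (σ : ℕ → ℕ) (F : Pt → ℂ), Injective σ → Cl F → Cl (fun z => F (fun i => z (σ i)))
  ne : ∀ A L, Dn A L → ∀ z ∈ Dom (XA A), pev L z ≠ 0
  inv : ∀ A L (q : ℕ → ℕ), Dn A L → Cl (fun z => 1 / pev L (arcm A q z))
  tem : ∀ A M (i : Fin 4 → ℕ), M ∈ Tem K hI →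
    (∀ u : Fin 4 → ℂ, (∀ j, u j ∈ XA A (i j)) → aeval u M ≠ 0) → Dn A (rename i M)
  exdn : ∀ A L, Ex L → (∀ v ∈ L.vars, v ∉ A) → Dn A L
  exne : ∀ L, Ex L → ∀ z ∈ Dom X0, pev L z ≠ 0

/-- quotients of polynomials by products of allowed denominators, on `Dom (XA A)` -/
def TM {K : Subfield ℂ} (Dn : Finset ℕ → MvPolynomial ℕ K → Prop) (A : Finset ℕ)
    (H : Pt → ℂ) : Prop :=
  ∃ (P : MvPolynomial ℕ K) (l : List (MvPolynomial ℕ K)), (∀ L ∈ l, Dn A L) ∧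
    ∀ z ∈ Dom (XA A), H z = pev P z / pev l.prod z

/-- allowed final denominators -/
def Fn {K : Subfield ℂ} (hI : I ∈ K) (Ex : MvPolynomial ℕ K → Prop) (A : Finset ℕ)
    (L : MvPolynomial ℕ K) : Prop :=
  (∃ v ∈ A, L = C 4 - X v ∨ ∃ (e : ℤ) (c : ℕ), (e = 1 ∨ e = -1) ∧ c < 8 ∧ L = fin8 hI e c 2 (X v)) ∨
  (∃ v ∉ A, ∃ (e : ℤ) (c : ℕ), (e = 1 ∨ e = -1) ∧ c < 8 ∧ L = fin8 hI e c 1 (X v)) ∨
  (Ex L ∧ ∀ v ∈ L.vars, v ∉ A)

/-- A network: nodes `A`, and for each node its gate `c_0 + c_1 x_a + c_2 x_b + c_3 x_a x_b`. -/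
structure Net (K : Subfield ℂ) where
  A : Finset ℕ
  c : ℕ → Fin 4 → K
  a : ℕ → ℕ
  b : ℕ → ℕ

/-- the gate polynomial of the node `k` -/
noncomputable def Net.gp {K : Subfield ℂ} (W : Net K) (k : ℕ) : MvPolynomial ℕ K :=
  gpl (W.c k) (X (W.a k)) (X (W.b k))

/-- well formed networks with nodes `≥ M`: the inputs of each node are earlier nodes or
coordinates `< M` -/
def Wf {K : Subfield ℂ} (M : ℕ) (W : Net K) : Prop :=
  ∀ k ∈ W.A, M ≤ k ∧ GCK (W.c k) ∧ W.a k < k ∧ W.b k < k ∧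
    (W.a k ∈ W.A ∨ W.a k < M) ∧ (W.b k ∈ W.A ∨ W.b k < M)

/-- exact values of the nodes -/
noncomputable def Net.th {K : Subfield ℂ} (W : Net K) (z : Pt) : ℕ → ℂ :=
  fun k => Nat.strongRecOn (motive := fun _ => ℂ) k fun k ih =>
    if k ∈ W.A then
      if h : W.a k < k ∧ W.b k < k then
        (W.c k 0 : ℂ) + W.c k 1 * ih (W.a k) h.1 + W.c k 2 * ih (W.b k) h.2
          + W.c k 3 * (ih (W.a k) h.1 * ih (W.b k) h.2)
      else 0
    else z k

/-- the value of a numerator `P / ∏ E` -/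
noncomputable def nm {K : Subfield ℂ} (P : MvPolynomial ℕ K) (E : List (MvPolynomial ℕ K))
    (z : Pt) : ℂ := pev P z / pev E.prod z

/-- the kernel of a network -/
noncomputable def Net.ker {K : Subfield ℂ} (W : Net K) (z : Pt) : ℂ :=
  ∏ k ∈ W.A, 1 / (z k - pev (W.gp k) z)

/-- the integrand (on the cube) of the network with numerator `P / ∏ E` -/
noncomputable def cls {K : Subfield ℂ} (W : Net K) (P : MvPolynomial ℕ K)
    (E : List (MvPolynomial ℕ K)) : Pt → ℂ := ctrs W.A (fun z => nm P E z * W.ker z)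

/-- the network `W` with numerator `P / ∏ E` computes the function `f` (of the coordinates `< M`) -/
structure Rpr {K : Subfield ℂ} (hI : I ∈ K) (Ex : MvPolynomial ℕ K → Prop) (M : ℕ) (W : Net K)
    (P : MvPolynomial ℕ K) (E : List (MvPolynomial ℕ K)) (f : Pt → ℂ) : Prop where
  hM : 1 ≤ M
  wf : Wf M W
  fn : ∀ L ∈ E, Fn hI Ex W.A L
  vP : ∀ v ∈ P.vars, v ∈ W.A ∨ v < M
  vE : ∀ L ∈ E, ∀ v ∈ L.vars, v ∈ W.A ∨ v < M
  eq : ∀ z ∈ Dom X0, f z = nm P E (W.th z)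

/-- clean gates: the coordinates outside `A` enter only through the gate `x_j / 2` -/
def CleanG {K : Subfield ℂ} (W : Net K) : Prop :=
  ∀ k ∈ W.A, (W.a k ∈ W.A ∧ W.b k ∈ W.A) ∨
    (W.b k = W.a k ∧ W.a k ∉ W.A ∧ (W.c k 0 : ℂ) = 0 ∧ (W.c k 1 : ℂ) = 1 / 2 ∧
      (W.c k 2 : ℂ) = 0 ∧ (W.c k 3 : ℂ) = 0) ∨
    ((W.c k 1 : ℂ) = 0 ∧ (W.c k 2 : ℂ) = 0 ∧ (W.c k 3 : ℂ) = 0)

/-- clean denominators: functions of one node -/
def CleanE {K : Subfield ℂ} (hI : I ∈ K) (W : Net K) (E : List (MvPolynomial ℕ K)) : Prop :=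
  ∀ L ∈ E, ∃ v ∈ W.A, L = C 4 - X v ∨
    ∃ (e : ℤ) (c : ℕ), (e = 1 ∨ e = -1) ∧ c < 8 ∧ L = fin8 hI e c 2 (X v)

/-- no extra denominators -/
def noEx (K : Subfield ℂ) : MvPolynomial ℕ K → Prop := fun _ => False

/-- `f` (a function of the coordinates `< M`) is computed by a clean network -/
def InR {K : Subfield ℂ} (hI : I ∈ K) (M : ℕ) (f : Pt → ℂ) : Prop :=
  ∃ (W : Net K) (P : MvPolynomial ℕ K) (E : List (MvPolynomial ℕ K)),
    Rpr hI (noEx K) M W P E f ∧ CleanG W ∧ CleanE hI W E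

/-- families of functions indexed by large finite sets of auxiliary coordinates `≥ M`, up to
Stokes elements -/
def Nul (Cl : (Pt → ℂ) → Prop) (M : ℕ) (T : Finset ℕ → Pt → ℂ) : Prop :=
  ∃ D0 : Finset ℕ, (∀ d ∈ D0, M ≤ d) ∧ ∀ D : Finset ℕ, D0 ⊆ D → (∀ d ∈ D, M ≤ d) →
    St Cl X0 Set.univ (T D)

/-- the family of a function with auxiliary coordinates `A` -/
noncomputable def EF (A : Finset ℕ) (F : Pt → ℂ) : Finset ℕ → Pt → ℂ :=
  fun D z => tp (D \ A) z * F z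

/-- the family `T` represents the class of `f` -/
def Cls {K : Subfield ℂ} (hI : I ∈ K) (Cl : (Pt → ℂ) → Prop) (Ex : MvPolynomial ℕ K → Prop) (M : ℕ)
    (f : Pt → ℂ) (T : Finset ℕ → Pt → ℂ) : Prop :=
  ∃ (W : Net K) (P : MvPolynomial ℕ K) (E : List (MvPolynomial ℕ K)),
    Rpr hI Ex M W P E f ∧ Nul Cl M (fun D z => T D z - EF W.A (cls W P E) D z)

/-- halving in the `i`-th coordinate -/
noncomputable def hv (i : ℕ) (f : Pt → ℂ) : Pt → ℂ :=
  fun z => 1 / 2 * f (update z i (z i / 2)) + 1 / 2 * f (update z i ((1 + z i) / 2))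

/-- halving in all coordinates `< M` -/
noncomputable def hvs : ℕ → (Pt → ℂ) → (Pt → ℂ)
  | 0, f => f
  | M + 1, f => hv M (hvs M f)

/-- `K` rounds of halving in all coordinates `< M` -/
noncomputable def hvN (M : ℕ) : ℕ → (Pt → ℂ) → (Pt → ℂ)
  | 0, f => f
  | k + 1, f => hvs M (hvN M k f)

end MP1eadaeL
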