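import Pool.Agent.Lib_MP_1eadae_ft.NetA

/-! # MP_1eadae_ag (FT), piece DERA: the vector field of a network (algebra) -/

namespace MP1eadaeL

open Complex Function MvPolynomial

variable {K : Subfield ℂ} {hI : I ∈ K} {M : ℕ} {W : Net K}

/-- the vector field `∑ w_v ∂_v` -/
noncomputable def dvf (W : Net K) (i : ℕ) (w : ℕ → MvPolynomial ℕ K) (P : MvPolynomial ℕ K) :
    MvPolynomial ℕ K := ∑ v ∈ insert i W.A, w v * pderiv v P

/-- `w` is the derivative of the exact values with respect to the coordinate `i` -/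
structure DW (M : ℕ) (W : Net K) (i : ℕ) (w : ℕ → MvPolynomial ℕ K) : Prop where
  wi : w i = 1
  ws : ∀ k ∉ W.A, k ≠ i → w k = 0
  wn : ∀ k ∈ W.A, w k = C (W.c k 1) * w (W.a k) + C (W.c k 2) * w (W.b k)
    + C (W.c k 3) * (w (W.a k) * X (W.b k) + X (W.a k) * w (W.b k))
  vw : ∀ k ∈ W.A, ∀ v ∈ (w k).vars, v < k ∧ (v ∈ W.A ∨ v < M)

/- Piece DERA (all theorems of this file).
`exists_dw`: define `w` by strong recursion on `k` (as for `Net.th`), the variables of `w k` are
`< k` by strong induction.
`dvf_node`: only `v = k`, `v = a k`, `v = b k` contribute; if `a k ∉ insert i A` then `w (a k) = 0`.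
`dvf_mul`, `dvf_prod`: `dvf` is a derivation.
`part_th`: strong induction, product rule (`Part.mul`, `Part.add`).
`part_pev_th`: chain rule, induction on `P` (`MvPolynomial.induction_on`). -/

private noncomputable def daW (W : Net K) (i : ℕ) : ℕ → MvPolynomial ℕ K :=
  fun k => Nat.strongRecOn (motive := fun _ => MvPolynomial ℕ K) k fun k ih =>
    if k ∈ W.A then
      if h : W.a k < k ∧ W.b k < k then
        C (W.c k 1) * ih (W.a k) h.1 + C (W.c k 2) * ih (W.b k) h.2
          + C (W.c k 3) * (ih (W.a k) h.1 * X (W.b k) + X (W.a k) * ih (W.b k) h.2)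
      else 0
    else if k = i then 1 else 0

private theorem daW_unfold (W : Net K) (i k : ℕ) :
    daW W i k = if k ∈ W.A then
      if W.a k < k ∧ W.b k < k then
        C (W.c k 1) * daW W i (W.a k) + C (W.c k 2) * daW W i (W.b k)
          + C (W.c k 3) * (daW W i (W.a k) * X (W.b k) + X (W.a k) * daW W i (W.b k))
      else 0
    else if k = i then 1 else 0 := by
  unfold daW
  rw [Nat.strongRecOn_eq]
  rfl

private theorem da_vars_C (r : K) : (C r : MvPolynomial ℕ K).vars = ∅ := vars_C

private theorem da_vars_X (i : ℕ) : (X i : MvPolynomial ℕ K).vars = {i} := vars_X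

private theorem da_vars_add {P Q : MvPolynomial ℕ K} {v : ℕ} (hv : v ∈ (P + Q).vars) :
    v ∈ P.vars ∨ v ∈ Q.vars := Finset.mem_union.1 (vars_add_subset _ _ hv)

private theorem da_vars_mul {P Q : MvPolynomial ℕ K} {v : ℕ} (hv : v ∈ (P * Q).vars) :
    v ∈ P.vars ∨ v ∈ Q.vars := Finset.mem_union.1 (vars_mul _ _ hv)

theorem exists_dw (hW : Wf M W) {i : ℕ} (hi : i ∉ W.A) : ∃ w, DW M W i w := by
  refine ⟨daW W i, ?_, ?_, ?_, ?_⟩
  · rw [daW_unfold, if_neg hi, if_pos rfl]
  · intro k hk hki
    rw [daW_unfold, if_neg hk, if_neg hki]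
  · intro k hk
    rw [daW_unfold, if_pos hk, if_pos ⟨(hW k hk).2.2.1, (hW k hk).2.2.2.1⟩]
  · intro k
    induction k using Nat.strong_induction_on with
    | _ k ih =>
      intro hk v hv
      obtain ⟨_, _, ha, hb, ha', hb'⟩ := hW k hk
      have key : ∀ j, j < k → v ∈ (daW W i j).vars → v < k ∧ (v ∈ W.A ∨ v < M) := by
        intro j hj hvj
        by_cases hjA : j ∈ W.A
        · obtain ⟨h1, h2⟩ := ih j hj hjA v hvj
          exact ⟨h1.trans hj, h2⟩
        · exfalso
          rw [daW_unfold, if_neg hjA] at hvj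
          by_cases hji : j = i
          · rw [if_pos hji] at hvj
            simp at hvj
          · rw [if_neg hji] at hvj
            simp at hvj
      have hA : v ∈ (X (W.a k) : MvPolynomial ℕ K).vars → v < k ∧ (v ∈ W.A ∨ v < M) := by
        intro h
        rw [da_vars_X] at h
        have : v = W.a k := by simpa using h
        rw [this]; exact ⟨ha, ha'⟩
      have hB : v ∈ (X (W.b k) : MvPolynomial ℕ K).vars → v < k ∧ (v ∈ W.A ∨ v < M) := by
        intro h
        rw [da_vars_X] at h
        have : v = W.b k := by simpa using h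
        rw [this]; exact ⟨hb, hb'⟩
      rw [daW_unfold, if_pos hk, if_pos ⟨ha, hb⟩] at hv
      rcases da_vars_add hv with hv | hv
      · rcases da_vars_add hv with hv | hv
        · rcases da_vars_mul hv with hv | hv
          · rw [da_vars_C] at hv; simp at hv
          · exact key _ ha hv
        · rcases da_vars_mul hv with hv | hv
          · rw [da_vars_C] at hv; simp at hv
          · exact key _ hb hv
      · rcases da_vars_mul hv with hv | hv
        · rw [da_vars_C] at hv; simp at hv
        · rcases da_vars_add hv with hv | hv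
          · rcases da_vars_mul hv with hv | hv
            · exact key _ ha hv
            · exact hB hv
          · rcases da_vars_mul hv with hv | hv
            · exact hA hv
            · exact key _ hb hv

theorem dvf_mul (i : ℕ) (w : ℕ → MvPolynomial ℕ K) (P Q : MvPolynomial ℕ K) :
    dvf W i w (P * Q) = dvf W i w P * Q + P * dvf W i w Q := by
  unfold dvf
  rw [Finset.sum_mul, Finset.mul_sum, ← Finset.sum_add_distrib]
  refine Finset.sum_congr rfl fun v _ => ?_
  rw [pderiv_mul]
  ring

private theorem dvf_add (i : ℕ) (w : ℕ → MvPolynomial ℕ K) (P Q : MvPolynomial ℕ K) :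
    dvf W i w (P + Q) = dvf W i w P + dvf W i w Q := by
  unfold dvf
  rw [← Finset.sum_add_distrib]
  refine Finset.sum_congr rfl fun v _ => ?_
  rw [map_add]
  ring

private theorem dvf_sub (i : ℕ) (w : ℕ → MvPolynomial ℕ K) (P Q : MvPolynomial ℕ K) :
    dvf W i w (P - Q) = dvf W i w P - dvf W i w Q := by
  unfold dvf
  rw [← Finset.sum_sub_distrib]
  refine Finset.sum_congr rfl fun v _ => ?_
  rw [map_sub]
  ring

private theorem dvf_C (i : ℕ) (w : ℕ → MvPolynomial ℕ K) (r : K) :
    dvf W i w (C r) = 0 := by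
  unfold dvf
  refine Finset.sum_eq_zero fun v _ => ?_
  rw [pderiv_C, mul_zero]

private theorem dvf_X {i : ℕ} {w : ℕ → MvPolynomial ℕ K} (hw : DW M W i w) (j : ℕ) :
    dvf W i w (X j) = w j := by
  unfold dvf
  by_cases hj : j ∈ insert i W.A
  · rw [Finset.sum_eq_single j]
    · rw [pderiv_X_self, mul_one]
    · intro v _ hvj
      rw [pderiv_X_of_ne (Ne.symm hvj), mul_zero]
    · intro h
      exact absurd hj h
  · have h0 : w j = 0 := by
      rw [Finset.mem_insert, not_or] at hj
      exact hw.ws j hj.2 hj.1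
    rw [h0]
    refine Finset.sum_eq_zero fun v hv => ?_
    have : j ≠ v := fun h => hj (h ▸ hv)
    rw [pderiv_X_of_ne this, mul_zero]

theorem dvf_node {i : ℕ} (hi : i ∉ W.A) {w : ℕ → MvPolynomial ℕ K} (hw : DW M W i w) {k : ℕ}
    (hk : k ∈ W.A) (hW : Wf M W) : dvf W i w (X k - W.gp k) = 0 := by
  rw [dvf_sub, dvf_X hw, hw.wn k hk]
  unfold Net.gp gpl
  simp only [dvf_add, dvf_mul, dvf_C, dvf_X hw]
  ring

theorem dvf_prod_node {i : ℕ} (hi : i ∉ W.A) {w : ℕ → MvPolynomial ℕ K} (hw : DW M W i w)
    (hW : Wf M W) (s : Finset ℕ) (hs : s ⊆ W.A) :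
    dvf W i w (∏ k ∈ s, (X k - W.gp k)) = 0 := by
  induction s using Finset.induction_on with
  | empty =>
    rw [Finset.prod_empty]
    exact dvf_C i w 1
  | insert k s hk ih =>
    rw [Finset.prod_insert hk, dvf_mul, dvf_node hi hw (hs (Finset.mem_insert_self _ _)) hW,
      ih (fun x hx => hs (Finset.mem_insert_of_mem hx)), zero_mul, mul_zero, add_zero]

private theorem da_part_const (i : ℕ) (c : ℂ) : Part X0 i (fun _ => c) (fun _ => 0) :=
  Part.of_indep (fun _ _ _ _ => rfl)

private theorem da_pev_C (r : K) (z : Pt) : pev (C r : MvPolynomial ℕ K) z = r := by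
  unfold pev
  rw [aeval_C]
  rfl

private theorem da_pev_X (j : ℕ) (z : Pt) : pev (X j : MvPolynomial ℕ K) z = z j := by
  unfold pev
  rw [aeval_X]

theorem part_th (hW : Wf M W) {i : ℕ} (hi : i ∉ W.A) {w : ℕ → MvPolynomial ℕ K}
    (hw : DW M W i w) (k : ℕ) :
    Part X0 i (fun z => W.th z k) (fun z => pev (w k) (W.th z)) := by
  induction k using Nat.strong_induction_on with
  | _ k ih =>
    by_cases hk : k ∈ W.A
    · obtain ⟨_, _, ha, hb, ha', hb'⟩ := hW k hk
      have h1 := ih _ ha
      have h2 := ih _ hb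
      have h3 := ((((da_part_const i (W.c k 0 : ℂ)).add
        ((da_part_const i (W.c k 1 : ℂ)).mul h1)).add
        ((da_part_const i (W.c k 2 : ℂ)).mul h2)).add
        ((da_part_const i (W.c k 3 : ℂ)).mul (h1.mul h2)))
      refine h3.congr (fun z _ => (th_node hW hk z).symm) (fun z _ => ?_)
      rw [hw.wn k hk]
      simp only [rb_pev_add, rb_pev_mul, da_pev_C, da_pev_X]
      ring
    · by_cases hki : k = i
      · subst hki
        refine (Part.coord (X := X0) k).congr (fun z _ => (th_seg hk z).symm) (fun z _ => ?_)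
        rw [hw.wi]
        exact (map_one _).symm
      · refine (Part.of_indep (X := X0) (i := i) (G := fun z => z k) ?_).congr
          (fun z _ => (th_seg hk z).symm) (fun z _ => ?_)
        · intro z _ v _
          exact update_of_ne hki _ _
        · rw [hw.ws k hk hki]
          exact (map_zero _).symm

theorem part_pev_th (hW : Wf M W) {i : ℕ} (hi : i ∉ W.A) {w : ℕ → MvPolynomial ℕ K}
    (hw : DW M W i w) (P : MvPolynomial ℕ K) :
    Part X0 i (fun z => pev P (W.th z)) (fun z => pev (dvf W i w P) (W.th z)) := by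
  induction P using MvPolynomial.induction_on with
  | C a =>
    refine (da_part_const i (a : ℂ)).congr (fun z _ => (da_pev_C a _).symm) (fun z _ => ?_)
    rw [dvf_C]
    exact (map_zero _).symm
  | add p q hp hq =>
    refine (hp.add hq).congr (fun z _ => (rb_pev_add _ _ _).symm) (fun z _ => ?_)
    rw [dvf_add, rb_pev_add]
  | mul_X p n hp =>
    refine (hp.mul (part_th hW hi hw n)).congr (fun z _ => ?_) (fun z _ => ?_)
    · rw [rb_pev_mul, da_pev_X]
    · rw [dvf_mul, dvf_X hw, rb_pev_add, rb_pev_mul, rb_pev_mul, da_pev_X]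

/-- numerator of the derivative -/
noncomputable def dnum (W : Net K) (i : ℕ) (w : ℕ → MvPolynomial ℕ K) (P : MvPolynomial ℕ K)
    (E : List (MvPolynomial ℕ K)) : MvPolynomial ℕ K :=
  dvf W i w P * E.prod - P * dvf W i w E.prod

private theorem da_vars_pderiv {P : MvPolynomial ℕ K} {i v : ℕ} (hv : v ∈ (pderiv i P).vars) :
    v ∈ P.vars := by
  rw [mem_vars_iff_mem_support] at hv ⊢
  obtain ⟨d, hd, hvd⟩ := hv
  rw [mem_support_iff, coeff_pderiv] at hd
  refine ⟨d + Finsupp.single i 1, ?_, ?_⟩
  · rw [mem_support_iff]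
    exact fun h => hd (by rw [h, zero_mul])
  · rw [Finsupp.mem_support_iff] at hvd ⊢
    rw [Finsupp.add_apply]
    omega

private theorem da_vars_dvf {i : ℕ} {w : ℕ → MvPolynomial ℕ K} (hw : DW M W i w)
    {P : MvPolynomial ℕ K} (hP : ∀ v ∈ P.vars, v ∈ W.A ∨ v < M) :
    ∀ v ∈ (dvf W i w P).vars, v ∈ W.A ∨ v < M := by
  intro v hv
  unfold dvf at hv
  obtain ⟨u, hu, hv⟩ := Finset.mem_biUnion.1 (vars_sum_subset _ _ hv)
  rcases da_vars_mul hv with hv | hv
  · by_cases huA : u ∈ W.A
    · exact (hw.vw u huA v hv).2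
    · have hui : u = i := (Finset.mem_insert.1 hu).resolve_right huA
      rw [hui, hw.wi] at hv
      simp at hv
  · exact hP v (da_vars_pderiv hv)

private theorem da_list_vars {l : List (MvPolynomial ℕ K)}
    (h : ∀ L ∈ l, ∀ v ∈ L.vars, v ∈ W.A ∨ v < M) : ∀ v ∈ l.prod.vars, v ∈ W.A ∨ v < M := by
  induction l with
  | nil =>
    intro v hv
    simp at hv
  | cons L l ih =>
    intro v hv
    rw [List.prod_cons] at hv
    rcases da_vars_mul hv with hv | hv
    · exact h L (by simp) v hv
    · exact ih (fun L' hL' => h L' (by simp [hL'])) v hv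

private theorem da_list_ne {l : List (MvPolynomial ℕ K)} {z : Pt}
    (h : ∀ L ∈ l, pev L z ≠ 0) : pev l.prod z ≠ 0 := by
  induction l with
  | nil => simp [pev]
  | cons L l ih =>
    rw [List.prod_cons, rb_pev_mul]
    exact mul_ne_zero (h L (by simp)) (ih (fun L' hL' => h L' (by simp [hL'])))

private theorem da_vars_sub {P Q : MvPolynomial ℕ K} {v : ℕ} (hv : v ∈ (P - Q).vars) :
    v ∈ P.vars ∨ v ∈ Q.vars := Finset.mem_union.1 (vars_sub_subset _ hv)

/-- the derivative of a function computed by a network is computed by the same network -/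
theorem Rpr.deriv {Ex : MvPolynomial ℕ K → Prop} {P : MvPolynomial ℕ K}
    {E : List (MvPolynomial ℕ K)} {f f' : Pt → ℂ} (h : Rpr hI Ex M W P E f)
    (hne : ∀ L ∈ E, ∀ z ∈ Dom (XD W.A), pev L z ≠ 0) {i : ℕ} (hi : i < M)
    {w : ℕ → MvPolynomial ℕ K} (hw : DW M W i w) (hf' : Part X0 i f f') :
    Rpr hI Ex M W (dnum W i w P E) (E ++ E) f' := by
  have hiA : i ∉ W.A := fun hiA => absurd (h.wf i hiA).1 (by omega)
  have hE : ∀ z ∈ Dom X0, pev E.prod (W.th z) ≠ 0 := fun z hz =>
    da_list_ne (fun L hL => hne L hL _ (th_mem h.wf hz))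
  refine ⟨h.hM, h.wf, ?_, ?_, ?_, ?_⟩
  · intro L hL
    rcases List.mem_append.1 hL with hL | hL <;> exact h.fn L hL
  · intro v hv
    have hEv := da_list_vars h.vE
    unfold dnum at hv
    rcases da_vars_sub hv with hv | hv
    · rcases da_vars_mul hv with hv | hv
      · exact da_vars_dvf hw h.vP v hv
      · exact hEv v hv
    · rcases da_vars_mul hv with hv | hv
      · exact h.vP v hv
      · exact da_vars_dvf hw hEv v hv
  · intro L hL
    rcases List.mem_append.1 hL with hL | hL <;> exact h.vE L hL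
  · have h1 := (part_pev_th h.wf hiA hw P).div (part_pev_th h.wf hiA hw E.prod) hE
    have h2 : Part X0 i f _ := h1.congr (fun z hz => (h.eq z hz).symm) (fun z hz => rfl)
    intro z hz
    have h3 := Part.unique (fun w hw => ud_seg w hw) hf' h2 z hz
    rw [h3]
    unfold nm dnum
    rw [List.prod_append, rb_pev_sub, rb_pev_mul, rb_pev_mul, rb_pev_mul, sq]

end MP1eadaeL
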