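import Pool.Agent.Lib_MP_1eadae_ft.Defs

/-! # MP_1eadae_ag (FT), piece TMB: the operator `ctrs` -/

namespace MP1eadaeL

open Complex Function MvPolynomial

variable {K : Subfield ℂ} {F G H : Pt → ℂ}

/- Piece TMB (all theorems of this file).  `ctrs A H` applies the operators `ctr p 0 2`, `p ∈ A`,
one after the other, in the order of `A.toList`.  By `ctr_comm` (Ctr.lean) the operators commute
(for `p = q` trivially), so `foldr` does not depend on the order: prove first that `foldr` is
invariant under permutations of the list (`List.Perm` induction), which gives `ctrs_insert`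
(`Finset.toList_insert`).  All other statements follow by `Finset.induction_on A` from the lemmas
on a single `ctr` in Ctr.lean: `ctr_congr`, `ctr_add`, `ctr_sub`, `ctr_sum`, `ctr_mul_left'`,
`Part.ctr`, `ctr_depOn`, using `XA_update`. -/

theorem XA_update {p : ℕ} {A : Finset ℕ} (hp : p ∉ A) :
    update (XA A) p (circ 0 2) = XA (insert p A) := by
  funext i
  unfold XA
  by_cases h : i = p
  · subst h
    rw [update_self, if_pos (Finset.mem_insert_self _ _)]
  · rw [update_of_ne h]
    simp [h]

theorem XA_empty : XA ∅ = X0 := by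
  funext i
  simp [XA, X0]

theorem XA_seg {p : ℕ} {A : Finset ℕ} (hp : p ∉ A) : XA A p = seg := by
  simp [XA, hp]

theorem XA_circ {p : ℕ} {A : Finset ℕ} (hp : p ∈ A) : XA A p = circ 0 2 := by
  simp [XA, hp]

theorem norm_XA {A : Finset ℕ} {i : ℕ} {w : ℂ} (hw : w ∈ XA A i) : ‖w‖ ≤ 2 := by
  by_cases h : i ∈ A
  · rw [XA_circ h] at hw
    unfold circ at hw
    rw [mem_sphere_zero_iff_norm] at hw
    rw [hw]
    norm_num
  · rw [XA_seg h] at hw
    obtain ⟨t, ht, rfl⟩ := hw
    change ‖(t : ℂ)‖ ≤ 2
    rw [Complex.norm_real, Real.norm_of_nonneg ht.1]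
    linarith [ht.2]

theorem arcm_mem {A : Finset ℕ} (q : ℕ → ℕ) {z : Pt} (hz : z ∈ Dom X0) :
    arcm A q z ∈ Dom (XA A) := by
  intro i
  unfold arcm
  by_cases h : i ∈ A
  · rw [if_pos h, XA_circ h]
    have h1 := mem_circ_uj 0 (r := 2) (by norm_num) (q i) (hz i)
    simpa using h1
  · rw [if_neg h, XA_seg h]
    exact hz i

theorem ctrs_empty : ctrs ∅ H = H := by
  simp [ctrs]

theorem ctr_left_comm (p q : ℕ) (H : Pt → ℂ) :
    ctr p 0 2 (ctr q 0 2 H) = ctr q 0 2 (ctr p 0 2 H) := by
  by_cases h : p = q
  · rw [h]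
  · funext z
    exact ctr_comm h _ _ _ _ H z

theorem ctrs_insert {p : ℕ} {A : Finset ℕ} (hp : p ∉ A) :
    ctrs (insert p A) H = ctr p 0 2 (ctrs A H) := by
  unfold ctrs
  have hc : LeftCommutative fun (p : ℕ) (G : Pt → ℂ) => ctr p 0 2 G := ⟨ctr_left_comm⟩
  rw [(Finset.toList_insert hp).foldr_eq H]
  rfl

theorem ctrs_ctr (p : ℕ) (A : Finset ℕ) : ctrs A (ctr p 0 2 H) = ctr p 0 2 (ctrs A H) := by
  induction A using Finset.induction_on with
  | empty => rw [ctrs_empty, ctrs_empty]
  | insert q A hq ih => rw [ctrs_insert hq, ctrs_insert hq, ih, ctr_left_comm]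

/-- for disjoint `A`, `B` -/
theorem ctrs_union {A B : Finset ℕ} (h : Disjoint A B) : ctrs (A ∪ B) H = ctrs A (ctrs B H) := by
  induction A using Finset.induction_on with
  | empty => rw [ctrs_empty, Finset.empty_union]
  | insert q A hq ih =>
    rw [Finset.disjoint_insert_left] at h
    rw [ctrs_insert hq, Finset.insert_union, ctrs_insert, ih h.2]
    rw [Finset.mem_union]
    rintro (h1 | h1)
    · exact hq h1
    · exact h.1 h1

/-- the general form, on the domain where the coordinates of `B` are still on the circle -/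
theorem ctrs_congr' {A B : Finset ℕ} (hAB : Disjoint A B)
    (h : ∀ z ∈ Dom (XA (A ∪ B)), F z = G z) : ∀ z ∈ Dom (XA B), ctrs A F z = ctrs A G z := by
  induction A using Finset.induction_on generalizing B with
  | empty => rwa [ctrs_empty, ctrs_empty, ← Finset.empty_union B]
  | insert q A hq ih =>
    rw [Finset.disjoint_insert_left] at hAB
    rw [ctrs_insert hq, ctrs_insert hq]
    apply ctr_congr (by norm_num) (XA_seg hAB.1)
    rw [XA_update hAB.1]
    apply ih
    · rw [Finset.disjoint_insert_right]
      exact ⟨hq, hAB.2⟩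
    · rwa [Finset.union_insert, ← Finset.insert_union]

theorem ctrs_congr {A : Finset ℕ} (h : ∀ z ∈ Dom (XA A), F z = G z) :
    ∀ z ∈ Dom X0, ctrs A F z = ctrs A G z := by
  rw [← XA_empty]
  apply ctrs_congr' (Finset.disjoint_empty_right A)
  rwa [Finset.union_empty]

theorem ctrs_add (A : Finset ℕ) (z : Pt) :
    ctrs A (fun z => F z + G z) z = ctrs A F z + ctrs A G z := by
  induction A using Finset.induction_on generalizing z with
  | empty => rw [ctrs_empty, ctrs_empty, ctrs_empty]
  | insert q A hq ih =>
    rw [ctrs_insert hq, ctrs_insert hq, ctrs_insert hq, ← ctr_add]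
    congr 1
    funext z
    exact ih z

theorem ctrs_sub (A : Finset ℕ) (z : Pt) :
    ctrs A (fun z => F z - G z) z = ctrs A F z - ctrs A G z := by
  induction A using Finset.induction_on generalizing z with
  | empty => rw [ctrs_empty, ctrs_empty, ctrs_empty]
  | insert q A hq ih =>
    rw [ctrs_insert hq, ctrs_insert hq, ctrs_insert hq, ← ctr_sub]
    congr 1
    funext z
    exact ih z

theorem ctrs_sum {ι : Type} (s : Finset ι) (f : ι → Pt → ℂ) (A : Finset ℕ) (z : Pt) :
    ctrs A (fun z => ∑ i ∈ s, f i z) z = ∑ i ∈ s, ctrs A (f i) z := by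
  induction A using Finset.induction_on generalizing z with
  | empty => simp only [ctrs_empty]
  | insert q A hq ih =>
    simp only [ctrs_insert hq]
    rw [← ctr_sum]
    congr 1
    funext z
    exact ih z

theorem ctrs_const_mul (a : ℂ) (A : Finset ℕ) (z : Pt) :
    ctrs A (fun z => a * F z) z = a * ctrs A F z := by
  induction A using Finset.induction_on generalizing z with
  | empty => rw [ctrs_empty, ctrs_empty]
  | insert q A hq ih =>
    rw [ctrs_insert hq, ctrs_insert hq]
    have h1 : ctrs A (fun z => a * F z) = fun z => a * ctrs A F z := by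
      funext z
      exact ih z
    rw [h1]
    exact ctr_mul_left (W := fun _ => a) z fun w => rfl

/-- a factor which does not depend on the coordinates in `A` -/
theorem ctrs_mul_left {W : Pt → ℂ} {A : Finset ℕ}
    (hW : ∀ z z' : Pt, (∀ i ∉ A, z i = z' i) → W z = W z') (z : Pt) :
    ctrs A (fun z => W z * F z) z = W z * ctrs A F z := by
  induction A using Finset.induction_on generalizing z with
  | empty => rw [ctrs_empty, ctrs_empty]
  | insert q A hq ih =>
    rw [ctrs_insert hq, ctrs_insert hq]
    have h1 : ctrs A (fun z => W z * F z) = fun z => W z * ctrs A F z := by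
      funext z
      apply ih
      intro z z' hz
      apply hW
      intro i hi
      apply hz
      intro h
      exact hi (Finset.mem_insert_of_mem h)
    rw [h1]
    apply ctr_mul_left
    intro w
    apply hW
    intro i hi
    rw [update_of_ne]
    rintro rfl
    exact hi (Finset.mem_insert_self _ _)

/-- a substitution which commutes with the updates in the coordinates of `A` -/
theorem ctrs_comp {A : Finset ℕ} (φ : Pt → Pt) (hφ : ∀ z : Pt, ∀ k ∈ A, φ z k = z k)
    (hφ' : ∀ z : Pt, ∀ k ∈ A, ∀ w : ℂ, φ (update z k w) = update (φ z) k w) (z : Pt) :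
    ctrs A H (φ z) = ctrs A (fun z => H (φ z)) z := by
  induction A using Finset.induction_on generalizing z with
  | empty => rw [ctrs_empty, ctrs_empty]
  | insert q A hq ih =>
    rw [ctrs_insert hq, ctrs_insert hq]
    have hqm := Finset.mem_insert_self q A
    have ih' := ih (fun z k hk => hφ z k (Finset.mem_insert_of_mem hk))
      (fun z k hk => hφ' z k (Finset.mem_insert_of_mem hk))
    unfold ctr
    refine Finset.sum_congr rfl fun j _ => ?_
    rw [hφ z q hqm, ← hφ' z q hqm, ih']

/-- substitution in a coordinate outside `A` -/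
theorem ctrs_update {A : Finset ℕ} {i : ℕ} (hi : i ∉ A) (w : ℂ) (z : Pt) :
    ctrs A H (update z i w) = ctrs A (fun z => H (update z i w)) z := by
  have h : ∀ k ∈ A, k ≠ i := by
    rintro k hk rfl
    exact hi hk
  apply ctrs_comp (fun z => update z i w)
  · intro z k hk
    exact update_of_ne (h k hk) _ _
  · intro z k hk w'
    exact update_comm (h k hk) _ _ _

theorem ctrs_part' {A B : Finset ℕ} (hAB : Disjoint A B) {i : ℕ} (hi : i ∉ A)
    (h : Part (XA (A ∪ B)) i G H) : Part (XA B) i (ctrs A G) (ctrs A H) := by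
  induction A using Finset.induction_on generalizing B with
  | empty => rwa [ctrs_empty, ctrs_empty, ← Finset.empty_union B]
  | insert q A hq ih =>
    rw [Finset.disjoint_insert_left] at hAB
    rw [Finset.mem_insert, not_or] at hi
    rw [ctrs_insert hq, ctrs_insert hq]
    apply Part.ctr hi.1 (by norm_num) (XA_seg hAB.1)
    rw [XA_update hAB.1]
    apply ih _ hi.2
    · rwa [Finset.union_insert, ← Finset.insert_union]
    · rw [Finset.disjoint_insert_right]
      exact ⟨hq, hAB.2⟩

theorem ctrs_part {A : Finset ℕ} {i : ℕ} (hi : i ∉ A) (h : Part (XA A) i G H) :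
    Part X0 i (ctrs A G) (ctrs A H) := by
  rw [← XA_empty]
  apply ctrs_part' (Finset.disjoint_empty_right A) hi
  rwa [Finset.union_empty]

theorem ctrs_depOn' {A B : Finset ℕ} (hAB : Disjoint A B) {T : Set ℕ} (hA : ∀ k ∈ A, k ∈ T)
    (h : DepOn (XA (A ∪ B)) T H) : DepOn (XA B) T (ctrs A H) := by
  induction A using Finset.induction_on generalizing B with
  | empty => rwa [ctrs_empty, ← Finset.empty_union B]
  | insert q A hq ih =>
    rw [Finset.disjoint_insert_left] at hAB
    rw [ctrs_insert hq]
    apply ctr_depOn (hA q (Finset.mem_insert_self _ _)) (by norm_num) (XA_seg hAB.1)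
    rw [XA_update hAB.1]
    apply ih _ fun k hk => hA k (Finset.mem_insert_of_mem hk)
    · rwa [Finset.union_insert, ← Finset.insert_union]
    · rw [Finset.disjoint_insert_right]
      exact ⟨hq, hAB.2⟩

theorem ctrs_depOn {A : Finset ℕ} {T : Set ℕ} (hA : ∀ k ∈ A, k ∈ T) (h : DepOn (XA A) T H) :
    DepOn X0 T (ctrs A H) := by
  rw [← XA_empty]
  apply ctrs_depOn' (Finset.disjoint_empty_right A) hA
  rwa [Finset.union_empty]

theorem ctrs_outside {A B : Finset ℕ} (hAB : Disjoint A B)
    (hG : ∀ z z' : Pt, (∀ i ∉ A, z i = z' i) → G z = G z') (z z' : Pt)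
    (hz : ∀ i ∉ A, z i = z' i) : ctrs B G z = ctrs B G z' := by
  induction B using Finset.induction_on generalizing z z' with
  | empty => rw [ctrs_empty]; exact hG z z' hz
  | insert q B hq ih =>
    rw [Finset.disjoint_insert_right] at hAB
    rw [ctrs_insert hq]
    unfold ctr
    refine Finset.sum_congr rfl fun j _ => ?_
    rw [hz q hAB.1]
    congr 1
    apply ih hAB.2
    intro i hi
    by_cases h : i = q
    · subst h
      rw [update_self, update_self]
    · rw [update_of_ne h, update_of_ne h]
      exact hz i hi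

/-- product of two integrands with disjoint sets of circle coordinates -/
theorem ctrs_mul_ctrs {A B : Finset ℕ} (hAB : Disjoint A B)
    (hF : ∀ z z' : Pt, (∀ i ∉ B, z i = z' i) → F z = F z')
    (hG : ∀ z z' : Pt, (∀ i ∉ A, z i = z' i) → G z = G z') (z : Pt) :
    ctrs (A ∪ B) (fun z => F z * G z) z = ctrs A F z * ctrs B G z := by
  rw [ctrs_union hAB]
  have h1 : ctrs B (fun z => F z * G z) = fun z => ctrs B G z * F z := by
    funext z
    rw [ctrs_mul_left hF, mul_comm]
  rw [h1, ctrs_mul_left, mul_comm]
  intro z z' hz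
  exact ctrs_outside hAB hG z z' hz

end MP1eadaeL
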