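import Pool.Agent.Lib_MP_1eadae_ft.TmA
import Pool.Agent.Lib_MP_1eadae_ft.TmB

/-! # MP_1eadae_ag (FT), piece TMC: from `TM` to Stokes elements on the cube -/

namespace MP1eadaeL

open Complex Function MvPolynomial

variable {K : Subfield ℂ} {hI : I ∈ K} {Cl : (Pt → ℂ) → Prop}
  {Dn : Finset ℕ → MvPolynomial ℕ K → Prop} {Ex : MvPolynomial ℕ K → Prop}

/- Piece TMC (all theorems of this file).
(1) If `TM Dn A H` then `Cl (fun z => H (arcm A q z))` for all `q`: the functions
`z ↦ arcm A q z i` are in `Cl` (`coord`, or `2 * I^j * (1 + I z) * (1/(1 - I z))`), hence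
`z ↦ pev P (arcm A q z)` (induction on `P`), and `1 / pev L (arcm A q z)` by `S.inv`; use
`arcm_mem` and `S.ne`.
(2) Let `CA A H : ∀ q, Cl (fun z => H (arcm A q z))`. If `CA (insert p A) H`, `p ∉ A`, then
`CA A (ctr p 0 2 H)`: `(ctr p 0 2 H)(arcm A q z) = ∑_j H (arcm (insert p A) (update q p j) z) *
(2 * duj j (z p))`. By induction `Cl (ctrs A H)`, and (stopping before the last coordinate)
`CA {k} (ctrs (A.erase k) H)` for `k ∈ A`.
(3) `st_seg`: apply `St.gen i` to `ctrs A G`, `ctrs A H` (`ctrs_part`, `ctrs_update`, `ctrs_sub`,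
`ctrs_add`).
(4) `st_circ`: `ctrs A H = ctr k 0 2 (ctrs (A.erase k) H)`, and for one coordinate copy the proof
of `St.ctr_deriv` in Ctr.lean (four arcs, boundary terms telescope), the needed class memberships
being those of (2) (`ctrs_part'` gives the derivative).
(5) `mul_fresh`: `St.mul_fresh` (Stk.lean).  `cl_tp`: `1/(8 + e 8 i z_d)` is in `Cl` for
`e = 1, -1` by `S.tem` (`A = ∅`, `M = fin8 hI e 0 8 (X 0)`, `i = fun _ => d`; real part `8`) and
`S.inv` (`arcm ∅ q z = z`), and `8 i/(1+z^2) = 512 i/((8+8iz)(8-8iz))`. -/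

theorem Sys.cl_uj (S : Sys K hI Cl Dn Ex) (j p : ℕ) : Cl (fun z => uj j (z p)) := by
  have h1 := S.mul _ _ (S.const (I ^ j) (K.pow_mem hI j))
    (S.mul _ _ (S.add _ _ (S.const 1 K.one_mem) (S.mul _ _ (S.const I hI) (S.coord p))) (S.uinv p))
  refine S.congr _ _ h1 fun z _ => ?_
  unfold uj
  rw [mul_one_div]

theorem Sys.cl_duj (S : Sys K hI Cl Dn Ex) (j p : ℕ) : Cl (fun z => duj j (z p)) := by
  have h2 : (2 : ℂ) ∈ K := by exact_mod_cast natCast_mem K 2
  have h1 := S.mul _ _ (S.const (I ^ j) (K.pow_mem hI j))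
    (S.mul _ _ (S.const (2 * I) (K.mul_mem h2 hI)) (S.mul _ _ (S.uinv p) (S.uinv p)))
  refine S.congr _ _ h1 fun z _ => ?_
  unfold duj
  rw [one_div_mul_one_div, ← sq, mul_one_div]

theorem Sys.cl_arcm_coord (S : Sys K hI Cl Dn Ex) (A : Finset ℕ) (q : ℕ → ℕ) (i : ℕ) :
    Cl (fun z => arcm A q z i) := by
  have h2 : (2 : ℂ) ∈ K := by exact_mod_cast natCast_mem K 2
  by_cases h : i ∈ A
  · refine S.congr _ _ (S.mul _ _ (S.const 2 h2) (S.cl_uj (q i) i)) fun z _ => ?_
    simp [arcm, h]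
  · refine S.congr _ _ (S.coord i) fun z _ => ?_
    simp [arcm, h]

theorem Sys.cl_pev_arcm (S : Sys K hI Cl Dn Ex) (A : Finset ℕ) (q : ℕ → ℕ)
    (P : MvPolynomial ℕ K) : Cl (fun z => pev P (arcm A q z)) := by
  induction P using MvPolynomial.induction_on with
  | C a =>
    refine S.congr _ _ (S.const (a : ℂ) a.2) fun z _ => ?_
    show (a : ℂ) = pev (C a) _
    unfold pev
    rw [aeval_C]
    rfl
  | add P Q hP hQ =>
    refine S.congr _ _ (S.add _ _ hP hQ) fun z _ => ?_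
    rw [rb_pev_add]
  | mul_X P i hP =>
    refine S.congr _ _ (S.mul _ _ hP (S.cl_arcm_coord A q i)) fun z _ => ?_
    rw [rb_pev_mul]
    congr 1
    unfold pev
    rw [aeval_X]

theorem Sys.cl_inv_arcm (S : Sys K hI Cl Dn Ex) {A : Finset ℕ} (q : ℕ → ℕ)
    {l : List (MvPolynomial ℕ K)} (hl : ∀ L ∈ l, Dn A L) :
    Cl (fun z => 1 / pev l.prod (arcm A q z)) := by
  induction l with
  | nil =>
    refine S.congr _ _ (S.const 1 K.one_mem) fun z _ => ?_
    simp [pev]
  | cons a t ih =>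
    have h1 := S.mul _ _ (S.inv A a q (hl a (by simp)))
      (ih fun L hL => hl L (List.mem_cons_of_mem _ hL))
    refine S.congr _ _ h1 fun z _ => ?_
    rw [List.prod_cons, rb_pev_mul, div_mul_div_comm, one_mul]

theorem Sys.cl_arcm (S : Sys K hI Cl Dn Ex) {A : Finset ℕ} {H : Pt → ℂ} (h : TM Dn A H)
    (q : ℕ → ℕ) : Cl (fun z => H (arcm A q z)) := by
  obtain ⟨P, l, hl, hP⟩ := h
  refine S.congr _ _ (S.mul _ _ (S.cl_pev_arcm A q P) (S.cl_inv_arcm q hl)) fun z hz => ?_
  rw [hP _ (arcm_mem q hz), mul_one_div]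

theorem arcm_empty (q : ℕ → ℕ) (z : Pt) : arcm ∅ q z = z := by
  funext i
  simp [arcm]

theorem arcm_insert {p : ℕ} {A : Finset ℕ} (hp : p ∉ A) (q : ℕ → ℕ) (j : ℕ) (z : Pt) :
    arcm (insert p A) (update q p j) z =
      update (arcm A q z) p (0 + ((2 : ℚ) : ℂ) * uj j (arcm A q z p)) := by
  funext i
  by_cases h : i = p
  · subst h
    simp [arcm, hp]
  · rw [update_of_ne h]
    simp [arcm, h]

/-- one contour -/
theorem Sys.ca_ctr (S : Sys K hI Cl Dn Ex) {p : ℕ} {A : Finset ℕ} {H : Pt → ℂ} (hp : p ∉ A)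
    (h : ∀ q, Cl (fun z => H (arcm (insert p A) q z))) (q : ℕ → ℕ) :
    Cl (fun z => ctr p 0 2 H (arcm A q z)) := by
  have h2 : (2 : ℂ) ∈ K := by exact_mod_cast natCast_mem K 2
  have h1 : ∀ j, Cl (fun z => H (arcm (insert p A) (update q p j) z) * (2 * duj j (z p))) :=
    fun j => S.mul _ _ (h _) (S.mul _ _ (S.const 2 h2) (S.cl_duj j p))
  have h3 := S.add _ _ (S.add _ _ (h1 0) (h1 1)) (S.add _ _ (h1 2) (h1 3))
  refine S.congr _ _ h3 fun z _ => ?_
  have h4 : arcm A q z p = z p := by simp [arcm, hp]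
  unfold ctr
  simp only [Finset.sum_range_succ, Finset.sum_range_zero, arcm_insert hp, h4]
  push_cast
  ring

theorem Sys.ca_ctrs (S : Sys K hI Cl Dn Ex) {A : Finset ℕ} {H : Pt → ℂ} :
    ∀ {B : Finset ℕ}, Disjoint A B → (∀ q, Cl (fun z => H (arcm (A ∪ B) q z))) →
      ∀ q, Cl (fun z => ctrs A H (arcm B q z)) := by
  induction A using Finset.induction_on with
  | empty =>
    intro B _ h q
    rw [ctrs_empty]
    rw [Finset.empty_union] at h
    exact h q
  | insert p A hp ih =>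
    intro B hAB h q
    rw [Finset.disjoint_insert_left] at hAB
    rw [ctrs_insert hp]
    refine S.ca_ctr hAB.1 (fun q => ih (B := insert p B) ?_ (fun q => ?_) q) q
    · rw [Finset.disjoint_insert_right]
      exact ⟨hp, hAB.2⟩
    · rw [Finset.union_insert, ← Finset.insert_union]
      exact h q

theorem Sys.cl_ctrs (S : Sys K hI Cl Dn Ex) {A : Finset ℕ} {H : Pt → ℂ} (h : TM Dn A H) :
    Cl (ctrs A H) := by
  have h1 := S.ca_ctrs (H := H) (Finset.disjoint_empty_right A)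
    (fun q => by rw [Finset.union_empty]; exact S.cl_arcm h q) (fun _ => 0)
  refine S.congr _ _ h1 fun z _ => ?_
  rw [arcm_empty]

theorem Sys.st_seg (S : Sys K hI Cl Dn Ex) {A : Finset ℕ} {G H : Pt → ℂ} {i : ℕ} (hi : i ∉ A)
    (hG : TM Dn A G) (hH : TM Dn A H) (hP : Part (XA A) i G H) :
    St Cl X0 Set.univ (ctrs A (fun z => H z - G (update z i 1) + G (update z i 0))) := by
  have h1 := St.gen (C := Cl) (X := X0) (I := Set.univ) i trivial _ _ (S.cl_ctrs hG)
    (S.cl_ctrs hH) (ctrs_part hi hP)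
  refine St.congr _ _ h1 fun z _ => ?_
  rw [ctrs_add (F := fun z => H z - G (update z i 1)), ctrs_sub, ctrs_update hi, ctrs_update hi]

/-- the class memberships for one remaining circle coordinate -/
theorem Sys.cl_ctrs_erase (S : Sys K hI Cl Dn Ex) {A : Finset ℕ} {H : Pt → ℂ} {k : ℕ}
    (hk : k ∈ A) (h : TM Dn A H) (j : ℕ) :
    Cl (fun z => ctrs (A.erase k) H (update z k (0 + ((2 : ℚ) : ℂ) * uj j (z k)))) := by
  have hA : A.erase k ∪ {k} = A := by
    ext i
    simp only [Finset.mem_union, Finset.mem_erase, Finset.mem_singleton]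
    constructor
    · rintro (h | h)
      · exact h.2
      · rwa [h]
    · intro h
      by_cases hi : i = k
      · exact Or.inr hi
      · exact Or.inl ⟨hi, h⟩
  have hd : Disjoint (A.erase k) {k} := by simp
  have h1 := S.ca_ctrs (H := H) hd (fun q => by rw [hA]; exact S.cl_arcm h q) (fun _ => j)
  refine S.congr _ _ h1 fun z _ => ?_
  congr 1
  funext i
  by_cases hi : i = k
  · subst hi
    simp [arcm]
  · rw [update_of_ne hi]
    simp [arcm, hi]

theorem Sys.st_circ (S : Sys K hI Cl Dn Ex) {A : Finset ℕ} {G H : Pt → ℂ} {k : ℕ} (hk : k ∈ A)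
    (hG : TM Dn A G) (hH : TM Dn A H) (hP : Part (XA A) k G H) :
    St Cl X0 Set.univ (ctrs A H) := by
  have hA : A.erase k ∪ {k} = A := by
    ext i
    simp only [Finset.mem_union, Finset.mem_erase, Finset.mem_singleton]
    constructor
    · rintro (h | h)
      · exact h.2
      · rwa [h]
    · intro h
      by_cases hi : i = k
      · exact Or.inr hi
      · exact Or.inl ⟨hi, h⟩
  have hd : Disjoint (A.erase k) {k} := by simp
  have hke : k ∉ A.erase k := Finset.notMem_erase k A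
  have hPk : Part (update X0 k (circ 0 2)) k (ctrs (A.erase k) G) (ctrs (A.erase k) H) := by
    have h1 := ctrs_part' hd hke (by rwa [hA])
    have h2 : XA {k} = update X0 k (circ 0 2) := by
      rw [← XA_empty, XA_update (Finset.notMem_empty k)]
      simp
    rwa [h2] at h1
  have h2 : (2 : ℂ) ∈ K := by exact_mod_cast natCast_mem K 2
  have h2' : ((2 : ℚ) : ℂ) ∈ K := by push_cast; exact h2
  have hgen : ∀ j : ℕ, St Cl X0 Set.univ (fun z =>
      ctrs (A.erase k) H (update z k (0 + ((2 : ℚ) : ℂ) * uj j (z k))) *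
          (((2 : ℚ) : ℂ) * duj j (z k)) -
        ctrs (A.erase k) G (update z k (0 + ((2 : ℚ) : ℂ) * uj j 1)) +
        ctrs (A.erase k) G (update z k (0 + ((2 : ℚ) : ℂ) * uj j 0))) := by
    intro j
    have h1 := St.gen (C := Cl) (X := X0) (I := Set.univ) k trivial
      (fun z => ctrs (A.erase k) G (update z k (0 + ((2 : ℚ) : ℂ) * uj j (z k))))
      (fun z => ctrs (A.erase k) H (update z k (0 + ((2 : ℚ) : ℂ) * uj j (z k))) *
        (((2 : ℚ) : ℂ) * duj j (z k)))
      (S.cl_ctrs_erase hk hG j)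
      (S.mul _ _ (S.cl_ctrs_erase hk hH j) (S.mul _ _ (S.const _ h2') (S.cl_duj j k)))
      (Part.comp_self hPk (fun z hz => mem_circ_uj 0 (by norm_num) j (hz k))
        (part_circle 0 2 rfl j))
    refine St.congr _ _ h1 fun z _ => ?_
    simp only [update_idem, update_self]
  refine St.congr _ _ (((hgen 0).add _ _ (hgen 1)).add _ _ (((hgen 2).add _ _ (hgen 3)))) fun z _ => ?_
  have e0 : uj 0 1 = uj 1 0 := uj_one 0
  have e1 : uj 1 1 = uj 2 0 := uj_one 1
  have e2 : uj 2 1 = uj 3 0 := uj_one 2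
  have e3 : uj 3 1 = uj 0 0 := (uj_one 3).trans uj_four
  have e4 : ctrs A H = ctr k 0 2 (ctrs (A.erase k) H) := by
    rw [← ctrs_insert hke, Finset.insert_erase hk]
  rw [e4]
  unfold MP1eadaeL.ctr
  simp only [Finset.sum_range_succ, Finset.sum_range_zero, e0, e1, e2, e3]
  ring

/-- multiplication of a Stokes element by a function of other coordinates -/
theorem Sys.mul_fresh (S : Sys K hI Cl Dn Ex) {F W : Pt → ℂ} {T T' : Set ℕ} {N : ℕ}
    (hT : ∀ i ∈ T, i < N) (hT' : ∀ i ∈ T', i < N) (hTT' : Disjoint T T')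
    (hF : DepOn X0 T F) (hW : DepOn X0 T' W) (hWC : Cl W) (h : St Cl X0 Set.univ F) :
    St Cl X0 Set.univ (fun z => F z * W z) := by
  exact St.mul_fresh (fun σ G hσ hG => S.ren σ G hσ hG) (fun G hG => S.mul G W hG hWC) N T T'
    hT hT' hTT' hF hW h

theorem Sys.cl_tpi (S : Sys K hI Cl Dn Ex) (d : ℕ) : Cl (tpi d) := by
  have key : ∀ e : ℤ, (e = 1 ∨ e = -1) → Cl (fun z => 1 / (8 + (e : ℂ) * I * (8 * z d))) := by
    intro e he
    have hv : ∀ u : Fin 4 → ℂ, aeval u (fin8 (σ := Fin 4) hI e 0 8 (X 0)) =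
        8 + (e : ℂ) * I * (8 * u 0) := by
      intro u
      unfold fin8
      simp only [map_add, map_mul, aeval_C, aeval_X]
      have a1 : (algebraMap K ℂ) (8 : K) = 8 := by
        rw [map_ofNat]
      have a2 : (algebraMap K ℂ) ((e : K) * ⟨I, hI⟩) = (e : ℂ) * I := by
        rw [map_mul, map_intCast]
        rfl
      rw [a1]
      have a3 : (algebraMap K ℂ) (e : K) = (e : ℂ) := map_intCast _ _
      have a4 : (algebraMap K ℂ) (⟨I, hI⟩ : K) = I := rfl
      simp only [a3, a4, Nat.cast_zero, map_zero, zero_add, map_natCast]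
      push_cast
      ring
    have hne : ∀ w ∈ seg, (8 : ℂ) + (e : ℂ) * I * (8 * w) ≠ 0 := by
      rintro w ⟨t, _, rfl⟩ h
      have h1 := congrArg Complex.re h
      simp at h1
    have hD : Dn ∅ (rename (fun _ => d) (fin8 (σ := Fin 4) hI e 0 8 (X 0))) := by
      refine S.tem ∅ _ _ ?_ ?_
      · refine Or.inr (Or.inr (Or.inr (Or.inr ⟨e, 0, 8, he, by norm_num, le_rfl, Or.inl rfl⟩)))
      · intro u hu
        rw [hv]
        refine hne _ ?_
        have := hu 0
        rwa [XA_empty] at this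
    refine S.congr _ _ (S.inv ∅ _ (fun _ => 0) hD) fun z _ => ?_
    rw [arcm_empty]
    unfold pev
    rw [aeval_rename, hv]
    rfl
  have h8 : (512 : ℂ) * I ∈ K := K.mul_mem (by exact_mod_cast natCast_mem K 512) hI
  have h1 := S.mul _ _ (S.const _ h8) (S.mul _ _ (key 1 (Or.inl rfl)) (key (-1) (Or.inr rfl)))
  refine S.congr _ _ h1 fun z hz => ?_
  obtain ⟨t, _, ht⟩ := hz d
  have n1 : (8 : ℂ) + ((1 : ℤ) : ℂ) * I * (8 * z d) ≠ 0 := by
    rw [← ht]
    intro h
    have h1 := congrArg Complex.re h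
    simp at h1
  have n2 : (8 : ℂ) + ((-1 : ℤ) : ℂ) * I * (8 * z d) ≠ 0 := by
    rw [← ht]
    intro h
    have h1 := congrArg Complex.re h
    simp at h1
  have n3 : (64 : ℂ) * (1 + z d ^ 2) =
      (8 + ((1 : ℤ) : ℂ) * I * (8 * z d)) * (8 + ((-1 : ℤ) : ℂ) * I * (8 * z d)) := by
    push_cast
    linear_combination (64 * z d ^ 2) * Complex.I_sq
  have n4 : (1 : ℂ) + z d ^ 2 ≠ 0 := by
    intro h
    rw [h, mul_zero] at n3
    exact mul_ne_zero n1 n2 n3.symm
  unfold tpi
  rw [one_div_mul_one_div, ← n3]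
  field_simp
  ring

theorem Sys.cl_tp (S : Sys K hI Cl Dn Ex) (D : Finset ℕ) : Cl (tp D) := by
  classical
  induction D using Finset.induction_on with
  | empty =>
    refine S.congr _ _ (S.const 1 K.one_mem) fun z _ => ?_
    simp [tp]
  | insert a t ha ih =>
    refine S.congr _ _ (S.mul _ _ (S.cl_tpi a) ih) fun z _ => ?_
    show tpi a z * tp t z = tp (insert a t) z
    unfold tp
    rw [Finset.prod_insert ha]

theorem tp_depOn (D : Finset ℕ) : DepOn X0 (↑D : Set ℕ) (tp D) := by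
  intro z _ w _ h
  unfold tp
  refine Finset.prod_congr rfl fun d hd => ?_
  unfold tpi
  rw [h d hd]

/-- multiplication by `tp D`, `D` not meeting the coordinates `T` of `F` -/
theorem Sys.mul_tp (S : Sys K hI Cl Dn Ex) {F : Pt → ℂ} {T : Set ℕ} {N : ℕ}
    (hT : ∀ i ∈ T, i < N) {D : Finset ℕ} (hD : ∀ d ∈ D, d ∉ T)
    (hF : DepOn X0 T F) (h : St Cl X0 Set.univ F) :
    St Cl X0 Set.univ (fun z => tp D z * F z) := by
  have h1 := S.mul_fresh (N := N + D.sup id + 1) (T := T) (T' := (↑D : Set ℕ)) (W := tp D)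
    (fun i hi => by have := hT i hi; omega)
    (fun i hi => by
      have := Finset.le_sup (f := id) hi
      simp only [id] at this
      omega)
    (by
      rw [Set.disjoint_left]
      intro i hi hi'
      exact hD i hi' hi)
    hF (tp_depOn D) (S.cl_tp D) h
  refine St.congr _ _ h1 fun z _ => ?_
  rw [mul_comm]

theorem Sys.st_smul (S : Sys K hI Cl Dn Ex) {F : Pt → ℂ} {a : ℂ} (ha : a ∈ K)
    (h : St Cl X0 Set.univ F) : St Cl X0 Set.univ (fun z => a * F z) := by
  have hseg : (0 : ℂ) ∈ seg ∧ (1 : ℂ) ∈ seg :=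
    ⟨⟨0, ⟨le_rfl, zero_le_one⟩, by simp⟩, ⟨1, ⟨zero_le_one, le_rfl⟩, by simp⟩⟩
  have h1 := St.mul_indep (W := fun _ => a) (fun G hG => S.mul G _ hG (S.const a ha))
    (fun i _ => hseg) (fun i _ z _ w _ => rfl) h
  refine St.congr _ _ h1 fun z _ => ?_
  rw [mul_comm]

end MP1eadaeL
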