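import Pool.Agent.Lib_MP_1eadae_ft.Circ
import Pool.Agent.Lib_MP_1eadae_ft.TmC
import Pool.Agent.Lib_MP_1eadae_ag.T1Equiv

/-! # MP_1eadae_ag (FT): common lemmas for the final statements -/

namespace MP1eadaeL

open Complex Function MP1eadae

theorem ft_pi_ne (x : ℝ) : (1 : ℂ) + (x : ℂ) ^ 2 ≠ 0 := by
  have h1 : ((1 + x ^ 2 : ℝ) : ℂ) ≠ 0 := by
    rw [Complex.ofReal_ne_zero]
    positivity
  intro h
  apply h1
  push_cast
  exact h

theorem ft_nash_iff {F : (ℕ → ℝ) → ℂ} :
    F ∈ StokesSpan (NashFn Qbar) ↔ St (AlgK Qi) X0 Set.univ (cx F) := by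
  constructor
  · intro h
    refine stokesSpan_cx (fun G hG => ?_) h
    obtain ⟨n, hn⟩ := hG.1
    exact ⟨n, algAt_of_nash hG hn⟩
  · intro h
    refine stokesSpan_of_St (C := NashFn Qbar) (fun G hG => AlgK.neg hG)
      (fun G hG => nash_of_algK hG) h (fun x _ => ?_)
    show F x = F (fun i => (((x i : ℝ) : ℂ)).re)
    simp only [Complex.ofReal_re]

theorem ft_span_mono {C C' : Set ((ℕ → ℝ) → ℂ)} (h : C ⊆ C') :
    StokesSpan C ⊆ StokesSpan C' := by
  rintro F ⟨m, i, G, H, h1, h2⟩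
  exact ⟨m, i, G, H, fun l => ⟨h (h1 l).1, h (h1 l).2.1, (h1 l).2.2⟩, h2⟩

theorem ft_dep_mono {F : (ℕ → ℝ) → ℂ} {a b : ℕ} (hab : a ≤ b) (h : DepLT a F) :
    DepLT b F := fun x hx y hy hxy => h x hx y hy fun i hi => hxy i (lt_of_lt_of_le hi hab)

theorem piProd_dep {F : (ℕ → ℝ) → ℂ} (k m : ℕ) (h : DepLT k F) :
    DepLT (k + m) (fun x => piProd k m x * F x) := by
  intro x hx y hy hxy
  have h1 := ft_dep_mono (Nat.le_add_right k m) h x hx y hy hxy
  show piProd k m x * F x = piProd k m y * F y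
  rw [h1]
  congr 1
  unfold piProd
  refine Finset.prod_congr rfl fun j hj => ?_
  rw [hxy (k + j) (Nat.add_lt_add_left (Finset.mem_range.1 hj) k)]

theorem piProd_succ (n m : ℕ) (x : ℕ → ℝ) :
    piProd n (m + 1) x = (4 : ℂ) / (1 + (x (n + m) : ℂ) ^ 2) * piProd n m x := by
  unfold piProd
  rw [Finset.prod_range_succ, mul_comm]

theorem piProd_add (n m m' : ℕ) (x : ℕ → ℝ) :
    piProd n (m + m') x = piProd (n + m) m' x * piProd n m x := by
  induction m' with
  | zero => simp [piProd]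
  | succ k ih =>
    rw [← add_assoc, piProd_succ, ih, piProd_succ, add_assoc n m k]
    ring

theorem ft_more {F : (ℕ → ℝ) → ℂ} {k : ℕ} (hd : DepLT k F)
    (h : F ∈ StokesSpan (NashFn Qbar)) (b : ℕ) :
    (fun x => piProd k b x * F x) ∈ StokesSpan (NashFn Qbar) := by
  induction b with
  | zero =>
    have : (fun x => piProd k 0 x * F x) = F := by
      funext x
      simp [piProd]
    rw [this]
    exact h
  | succ b ih =>
    have h1 := mul_pi_nash (k + b) (piProd_dep k b hd) ih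
    have h2 : (fun x : ℕ → ℝ => ((4 : ℂ) / (1 + (x (k + b) : ℂ) ^ 2)) * (piProd k b x * F x)) =
        (fun x => piProd k (b + 1) x * F x) := by
      funext x
      rw [piProd_succ]
      ring
    rw [h2] at h1
    exact h1

theorem ft_nash_add {F G : (ℕ → ℝ) → ℂ} (hF : F ∈ StokesSpan (NashFn Qbar))
    (hG : G ∈ StokesSpan (NashFn Qbar)) : (fun x => F x + G x) ∈ StokesSpan (NashFn Qbar) := by
  rw [ft_nash_iff] at hF hG ⊢
  exact St.add _ _ hF hG

theorem ft_nash_smul {a : ℂ} (ha : a ∈ Qi) {F : (ℕ → ℝ) → ℂ}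
    (hF : F ∈ StokesSpan (NashFn Qbar)) : (fun x => a * F x) ∈ StokesSpan (NashFn Qbar) := by
  have hgood := goodClass_algK Qi
  rw [ft_nash_iff] at hF ⊢
  have h1 := St.mul_indep (W := fun _ => a) (fun G hG => by
      have h2 := hgood.mulcomp G (fun _ => a) (fun z => z) hG
        (IsRat.const a ha) (fun i => IsRat.coord i) (fun z hz => hz)
      exact hgood.congr _ _ h2 fun z _ => mul_comm _ _)
    (fun i _ => by
      show (0 : ℂ) ∈ seg ∧ (1 : ℂ) ∈ seg
      exact ⟨⟨0, ⟨le_refl _, zero_le_one⟩, by simp⟩, ⟨1, ⟨zero_le_one, le_refl _⟩, by simp⟩⟩)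
    (fun i _ z _ w _ => rfl) hF
  exact St.congr _ _ h1 fun z _ => mul_comm _ _

theorem piProd_cont (n m : ℕ) : Continuous (piProd n m) := by
  unfold piProd
  refine continuous_finsetProd _ fun j _ => ?_
  refine Continuous.div continuous_const ?_ fun x => ft_pi_ne _
  exact continuous_const.add ((Complex.continuous_ofReal.comp (continuous_apply _)).pow 2)

/-- the integral of `piProd n m * f` -/
theorem cubeInt_piProd {n : ℕ} {f : (ℕ → ℝ) → ℂ} (hf : ContinuousOn f Cube) (hd : DepLT n f)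
    (m : ℕ) : cubeInt (n + m) (fun x => piProd n m x * f x) = (Real.pi : ℂ) ^ m * cubeInt n f := by
  induction m with
  | zero => simp [piProd]
  | succ m ih =>
    have h1 : (fun x : ℕ → ℝ => piProd n (m + 1) x * f x) =
        (fun x => (fun t : ℝ => (4 : ℂ) / (1 + (t : ℂ) ^ 2)) (x (n + m)) * (piProd n m x * f x)) := by
      funext x
      rw [piProd_succ]
      ring
    have hpc : ContinuousOn (fun t : ℝ => (4 : ℂ) / (1 + (t : ℂ) ^ 2)) (Set.Icc 0 1) := by
      refine ContinuousOn.div continuousOn_const ?_ fun t _ => ft_pi_ne t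
      exact (continuous_const.add (Complex.continuous_ofReal.pow 2)).continuousOn
    have hFc : ContinuousOn (fun x => piProd n m x * f x) Cube :=
      (piProd_cont n m).continuousOn.mul hf
    rw [h1, ← add_assoc, cubeInt_mul_last hFc
      (piProd_dep n m hd) (fun t : ℝ => (4 : ℂ) / (1 + (t : ℂ) ^ 2)) hpc, ih, integral_pi_fun]
    ring

/-- `tp` at real points -/
theorem tp_ofReal (N m : ℕ) (x : ℕ → ℝ) :
    tp (Finset.Ico N (N + m)) (fun i => ((x i : ℝ) : ℂ)) = (2 * I) ^ m * piProd N m x := by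
  induction m with
  | zero => simp [tp, piProd]
  | succ m ih =>
    have h1 : tp (Finset.Ico N (N + (m + 1))) (fun i => ((x i : ℝ) : ℂ)) =
        tp (Finset.Ico N (N + m)) (fun i => ((x i : ℝ) : ℂ)) *
          tpi (N + m) (fun i => ((x i : ℝ) : ℂ)) := by
      unfold tp
      rw [← add_assoc, Finset.prod_Ico_succ_top (Nat.le_add_right N m)]
    rw [h1, ih, piProd_succ, pow_succ]
    unfold tpi
    ring

theorem tp_cx {N m : ℕ} {z : Pt} (hz : z ∈ Dom X0) :
    tp (Finset.Ico N (N + m)) z = (2 * I) ^ m * piProd N m (fun i => (z i).re) := by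
  rw [← tp_ofReal]
  congr 1
  exact (ofReal_re hz).symm

theorem circuit_dep {n m : ℕ} {g : ℕ → Gate} (hg : ∀ k < m, (g k).Ok n k) (v w : ℕ) :
    DepLT (n + m) (circuit n m g v w) := by
  intro x _ y _ hxy
  have hy : ∀ q : Fin m → Fin 4,
      (fun k => if h : k < m then arc (q ⟨k, h⟩) (x (n + k)) else 0 : ℕ → ℂ) =
      (fun k => if h : k < m then arc (q ⟨k, h⟩) (y (n + k)) else 0) := by
    intro q
    funext k
    by_cases h : k < m
    · simp only [h, dif_pos]
      rw [hxy (n + k) (Nat.add_lt_add_left h n)]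
    · simp only [h, dif_neg, not_false_iff]
  have hval : ∀ (k : Fin m) (u : ℕ → ℂ), (g k).val (fun j => (x j : ℂ)) u =
      (g k).val (fun j => (y j : ℂ)) u := by
    intro k u
    have hk := hg k.1 k.2
    cases hgk : g k.1 with
    | const c => rfl
    | input j =>
      rw [hgk] at hk
      have hj : j < n := hk
      show ((x j : ℝ) : ℂ) / 2 = ((y j : ℝ) : ℂ) / 2
      rw [hxy j (lt_of_lt_of_le hj (Nat.le_add_right n m))]
    | node c a b => rfl
  have hx : ∀ k : Fin m, x (n + k) = y (n + k) := fun k =>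
    hxy (n + k.1) (Nat.add_lt_add_left k.2 n)
  unfold circuit
  refine Finset.sum_congr rfl fun q _ => ?_
  rw [hy q]
  simp only [hval, hx]

end MP1eadaeL
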