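import Pool.Agent.Lib_MP_1eadae_ft.Grd2
import Pool.Agent.Lib_MP_1eadae_ft.SysR
import Pool.Agent.Lib_MP_1eadae_ft.Pad

/-! # MP_1eadae_ag (FT), piece GEN: generation by circuits (complex coordinates) -/

namespace MP1eadaeL

open Complex Function MvPolynomial MP1eadae

/- Piece GEN.  `grid_comp` for `g` gives `k`, and for every `a : Fin n → Fin (2^k)` functions
`V`, `R` with `Comp`; `comp_pair` and `rpr_quot` give a clean network `W_a` (nodes `≥ n`) with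
`g (sc n (2^k) a z) = c_a (θ_v/(4 - θ_w))` and `realise` gives
`cls W_a (X v) [4 - X w] ≡ tp (A_a) (θ_v/(4-θ_w))`.  Choose `m` with all `A_a ⊆ Ico n (n+m)` and pad
(`Rpr.pad`) with `D = Ico n (n+m) \ A_a`: the padded network `W_a'` has nodes exactly
`Ico n (n + m)` and `cls W_a' = tp D cls W_a ≡ tp (Ico n (n+m)) (θ_v/(4-θ_w))` (`(sysR).mul_tp`).
Finally `g ≡ ∑_a (1/2^k)^n g (sc n (2^k) a z)` (`GoodClass.subdiv`, `goodClass_isRat`), multiply
by `tp (Ico n (n+m))`: `St` of the difference, using `(sysR).mul_tp` (all functions depend on the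
coordinates `< n`).  The index type is `Fin n → Fin (2^k)`, the coefficients `c_a (1/2^k)^n`. -/

theorem gen_rat {n : ℕ} (hn : 1 ≤ n) {g : Pt → ℂ} (hg : IsRat Qi X0 g)
    (hd : DepOn X0 (Set.Iio n) g) :
    ∃ (m : ℕ) (r : ℕ) (W : Fin r → Net Qi) (v w : Fin r → ℕ) (c : Fin r → Qi),
      (∀ j, Wf n (W j) ∧ CleanG (W j) ∧ (W j).A = Finset.Ico n (n + m) ∧ v j ∈ (W j).A ∧
        w j ∈ (W j).A) ∧
      St (IsRat Qi X0) X0 Set.univ (fun z => tp (Finset.Ico n (n + m)) z * g z -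
        ∑ j, (c j : ℂ) * cls (W j) (X (v j)) [C 4 - X (w j)] z) := by
  classical
  obtain ⟨k, hk⟩ := grid_comp hn hg hd
  have hk' := hk k le_rfl
  have h1 : ∀ a : Fin n → Fin (2 ^ k), ∃ (c : Qi) (W : Net Qi) (v w : ℕ),
      Wf n W ∧ CleanG W ∧ v ∈ W.A ∧ w ∈ W.A ∧
      ∀ z ∈ Dom X0, g (sc n (2 ^ k) a z) = (c : ℂ) * (W.th z v / (4 - W.th z w)) := by
    intro a
    obtain ⟨c, V, R, hV, hR, h⟩ := hk' a
    obtain ⟨W, v, w, hW, hcl, hv, hw, -, hth⟩ := comp_pair hV hR n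
    refine ⟨c, W, v, w, hW, hcl, hv, hw, fun z hz => ?_⟩
    rw [h z hz, (hth z hz).1, (hth z hz).2]
  choose c W v w hWf hCl hv hw hgW using h1
  set S : Finset ℕ := Finset.univ.biUnion (fun a => (W a).A) with hS
  set m : ℕ := S.sup id + 1 with hm
  have hsub : ∀ a, (W a).A ⊆ Finset.Ico n (n + m) := by
    intro a x hx
    have hxS : x ∈ S := Finset.mem_biUnion.2 ⟨a, Finset.mem_univ _, hx⟩
    have hle : x ≤ S.sup id := Finset.le_sup (f := id) hxS
    have hnx : n ≤ x := (hWf a x hx).1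
    rw [Finset.mem_Ico]
    exact ⟨hnx, by omega⟩
  have h2 : ∀ a : Fin n → Fin (2 ^ k), ∃ W' : Net Qi, Wf n W' ∧ CleanG W' ∧
      W'.A = Finset.Ico n (n + m) ∧ v a ∈ W'.A ∧ w a ∈ W'.A ∧
      St (IsRat Qi X0) X0 Set.univ (fun z => cls W' (X (v a)) [C 4 - X (w a)] z -
        tp (Finset.Ico n (n + m)) z * ((W a).th z (v a) / (4 - (W a).th z (w a)))) := by
    intro a
    obtain ⟨hr, he⟩ := rpr_quot (hI := I_mem_Qi) hn (hWf a) (hv a) (hw a) (noEx Qi)
    have hD : ∀ d ∈ Finset.Ico n (n + m) \ (W a).A, n ≤ d := fun d hd' =>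
      (Finset.mem_Ico.1 (Finset.mem_sdiff.1 hd').1).1
    obtain ⟨W', hA, hR', hC', -, -, -⟩ := hr.pad (hCl a) he hD Finset.disjoint_sdiff
    have hA' : W'.A = Finset.Ico n (n + m) := by
      rw [hA, Finset.union_sdiff_of_subset (hsub a)]
    refine ⟨W', hR'.wf, hC', hA', ?_, ?_, ?_⟩
    · rw [hA']; exact hsub a (hv a)
    · rw [hA']; exact hsub a (hw a)
    · have h3 := (realise hR').2
      rw [hA'] at h3
      exact h3
  choose W' hWf' hCl' hA' hv' hw' hSt using h2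
  -- the index type
  let e : (Fin n → Fin (2 ^ k)) ≃ Fin (Fintype.card (Fin n → Fin (2 ^ k))) := Fintype.equivFin _
  refine ⟨m, Fintype.card (Fin n → Fin (2 ^ k)), fun j => W' (e.symm j), fun j => v (e.symm j),
    fun j => w (e.symm j), fun j => (1 / (2 : Qi) ^ k) ^ n * c (e.symm j),
    fun j => ⟨hWf' _, hCl' _, hA' _, hv' _, hw' _⟩, ?_⟩
  have hpow : (1 : ℕ) ≤ 2 ^ k := Nat.one_le_two_pow
  have hindg : Indep X0 n g := hd.indep (by simp)
  have hsd := (goodClass_isRat Qi).subdiv hg n (s := n) le_rfl hindg (2 ^ k) hpow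
  have hsd' : St (IsRat Qi X0) X0 Set.univ (fun z => g z - ∑ a : Fin n → Fin (2 ^ k),
      (1 / ((2 ^ k : ℕ) : ℂ)) ^ n * g (sc n (2 ^ k) a z)) :=
    St.mono (fun _ h => h) (Set.subset_univ _) hsd
  have hdep : DepOn X0 (Set.Iio n) (fun z => g z - ∑ a : Fin n → Fin (2 ^ k),
      (1 / ((2 ^ k : ℕ) : ℂ)) ^ n * g (sc n (2 ^ k) a z)) := by
    intro z hz z' hz' hzz
    have e1 : g z = g z' := hd z hz z' hz' hzz
    have e2 : ∀ a : Fin n → Fin (2 ^ k), g (sc n (2 ^ k) a z) = g (sc n (2 ^ k) a z') := by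
      intro a
      refine hd _ (sc_mem_dom hpow a hz) _ (sc_mem_dom hpow a hz') ?_
      intro i hi
      have hi' : i < n := hi
      simp only [sc, hi', dif_pos, hzz i hi]
    simp only [e1, e2]
  have hmt := (sysR Qi I_mem_Qi).mul_tp (N := n) (D := Finset.Ico n (n + m))
    (T := Set.Iio n) (fun i hi => hi)
    (fun d hd' hd'' => absurd (Finset.mem_Ico.1 hd').1 (not_le.2 hd'')) hdep hsd'
  have hcoef : ∀ a, (((1 / (2 : Qi) ^ k) ^ n * c a : Qi) : ℂ) =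
      (1 / ((2 ^ k : ℕ) : ℂ)) ^ n * (c a : ℂ) := by
    intro a
    push_cast
    rfl
  have hsum := St.sum (Finset.univ : Finset (Fin n → Fin (2 ^ k)))
    (fun a z => (((1 / (2 : Qi) ^ k) ^ n * c a : Qi) : ℂ) *
      (cls (W' a) (X (v a)) [C 4 - X (w a)] z -
        tp (Finset.Ico n (n + m)) z * ((W a).th z (v a) / (4 - (W a).th z (w a)))))
    (fun a _ => (sysR Qi I_mem_Qi).st_smul (((1 / (2 : Qi) ^ k) ^ n * c a : Qi)).2 (hSt a))
  refine St.congr _ _ (St.sub hmt hsum) (fun z hz => ?_)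
  have hre : ∑ j, (((1 / (2 : Qi) ^ k) ^ n * c (e.symm j) : Qi) : ℂ) *
      cls (W' (e.symm j)) (X (v (e.symm j))) [C 4 - X (w (e.symm j))] z =
      ∑ a : Fin n → Fin (2 ^ k), (((1 / (2 : Qi) ^ k) ^ n * c a : Qi) : ℂ) *
        cls (W' a) (X (v a)) [C 4 - X (w a)] z :=
    e.symm.sum_comp (fun a => (((1 / (2 : Qi) ^ k) ^ n * c a : Qi) : ℂ) *
        cls (W' a) (X (v a)) [C 4 - X (w a)] z)
  rw [hre]
  have hgs : ∑ a : Fin n → Fin (2 ^ k), (1 / ((2 ^ k : ℕ) : ℂ)) ^ n * g (sc n (2 ^ k) a z) =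
      ∑ a : Fin n → Fin (2 ^ k), (((1 / (2 : Qi) ^ k) ^ n * c a : Qi) : ℂ) *
        ((W a).th z (v a) / (4 - (W a).th z (w a))) := by
    refine Finset.sum_congr rfl fun a _ => ?_
    rw [hgW a z hz, hcoef a]
    ring
  simp only [mul_sub, Finset.sum_sub_distrib, hgs]
  have hfac : ∑ a : Fin n → Fin (2 ^ k), (((1 / (2 : Qi) ^ k) ^ n * c a : Qi) : ℂ) *
      (tp (Finset.Ico n (n + m)) z * ((W a).th z (v a) / (4 - (W a).th z (w a)))) =
      tp (Finset.Ico n (n + m)) z * ∑ a : Fin n → Fin (2 ^ k),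
        (((1 / (2 : Qi) ^ k) ^ n * c a : Qi) : ℂ) *
        ((W a).th z (v a) / (4 - (W a).th z (w a))) := by
    rw [Finset.mul_sum]
    refine Finset.sum_congr rfl fun a _ => ?_
    ring
  rw [hfac]
  ring

end MP1eadaeL
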