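import Pool.Agent.Lib_MP_1eadae_ft.TmC

/-! # MP_1eadae_ag (FT), piece RENP: moving the auxiliary coordinates -/

namespace MP1eadaeL

open Complex Function MvPolynomial

variable {K : Subfield ℂ} {hI : I ∈ K} {Cl : (Pt → ℂ) → Prop}
  {Dn : Finset ℕ → MvPolynomial ℕ K → Prop} {Ex : MvPolynomial ℕ K → Prop}

/- Piece RENP.  Let `N ≤ N1`, `N ≤ N2`.  There is a permutation `σ` of `ℕ` with `σ i = i` for
`i < N` and `σ (N1 + t) = N2 + t` for `t < m` (a bijection between finite subsets of `ℕ` extends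
to a permutation: e.g. both are subsets of some `Iio B` with complements of the same cardinality).
Apply `St.rename` (Stk.lean) with `σ` (and `St.mono` for the index set); `F (fun i => z (σ i)) = F z`
on `Dom X0` since `F` depends only on the coordinates `< N`. -/

theorem Sys.move_tp (S : Sys K hI Cl Dn Ex) {F : Pt → ℂ} {N N1 N2 m : ℕ}
    (hF : DepOn X0 (Set.Iio N) F) (h1 : N ≤ N1) (h2 : N ≤ N2)
    (h : St Cl X0 Set.univ (fun z => tp (Finset.Ico N1 (N1 + m)) z * F z)) :
    St Cl X0 Set.univ (fun z => tp (Finset.Ico N2 (N2 + m)) z * F z) := by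
  obtain ⟨σ, hσ, hσ1, hσ2⟩ : ∃ σ : ℕ → ℕ, Injective σ ∧ (∀ i, i < N → σ i = i) ∧
      ∀ t, t < m → σ (N1 + t) = N2 + t := by
    refine ⟨fun i => if i < N then i else if N1 ≤ i ∧ i < N1 + m then i - N1 + N2
      else i + (N2 + m + N), ?_, ?_, ?_⟩
    · intro a b hab
      simp only at hab
      split_ifs at hab <;> omega
    · intro i hi
      exact if_pos hi
    · intro t ht
      simp only
      rw [if_neg (by omega), if_pos (by omega)]
      omega
  have h3 := St.rename (σ := σ) (fun G hG => S.ren σ G hσ hG) hσ h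
  refine St.congr _ _ (St.mono (fun G hG => hG) (Set.subset_univ _) h3) (fun z hz => ?_)
  have h4 : F (fun i => z (σ i)) = F z := by
    refine hF _ (fun i => hz (σ i)) z hz (fun i hi => ?_)
    show z (σ i) = z i
    rw [hσ1 i hi]
  have h5 : tp (Finset.Ico N1 (N1 + m)) (fun i => z (σ i)) = tp (Finset.Ico N2 (N2 + m)) z := by
    unfold tp
    rw [Finset.prod_Ico_eq_prod_range, Finset.prod_Ico_eq_prod_range, Nat.add_sub_cancel_left,
      Nat.add_sub_cancel_left]
    refine Finset.prod_congr rfl (fun t ht => ?_)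
    unfold tpi
    show 8 * I / (1 + z (σ (N1 + t)) ^ 2) = _
    rw [hσ2 t (Finset.mem_range.1 ht)]
  show tp (Finset.Ico N1 (N1 + m)) (fun i => z (σ i)) * F (fun i => z (σ i)) = _
  rw [h4, h5]

end MP1eadaeL
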