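import Pool.Agent.Lib_MP_1eadae_ft.TmB

/-! # MP_1eadae_ag (FT), piece SYST: the system with finitely many templates -/

namespace MP1eadaeL

open Complex Function MvPolynomial

variable {K : Subfield ℂ} {hI : I ∈ K}

/-- the class of the quotients `P / ∏ L_j(z_{j_0}, ..., z_{j_3})`, `L_j ∈ T` -/
def IsT (T : Set (MvPolynomial (Fin 4) K)) (F : Pt → ℂ) : Prop :=
  ∃ (P : MvPolynomial ℕ K) (l : List (MvPolynomial (Fin 4) K × (Fin 4 → ℕ))),
    (∀ p ∈ l, p.1 ∈ T) ∧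
    ∀ z ∈ Dom X0, F z = pev P z / (l.map (fun p => aeval (fun j => z (p.2 j)) p.1)).prod

/-- allowed denominators of the system: templates in the coordinates `i 0, ..., i 3` without zeros
(for independent variables in the corresponding domains) -/
def dnT (K : Subfield ℂ) (hI : I ∈ K) : Finset ℕ → MvPolynomial ℕ K → Prop :=
  fun A L => ∃ M ∈ Tem K hI, ∃ i : Fin 4 → ℕ, L = rename i M ∧
    ∀ u : Fin 4 → ℂ, (∀ j, u j ∈ XA A (i j)) → aeval u M ≠ 0

/- Piece SYST (all theorems of this file).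
`tem_finite`: the set of `c : Fin 4 → K` with `GCK c` is finite (`4 c_j = a + b i` with integers
`a, b`, `|a|, |b| ≤ 6` as `‖c_j‖ ≤ 3/2`), `e ∈ {1,-1}`, `c, w ≤ 8`.
`exists_num`: for `M` and `ξ : Fin 4 → Option (Fin 4)` there are a polynomial `L` and `d` with
`aeval u L = aeval (fun j => slot (ξ j) (u j)) M * ∏ j, (1 - I u_j)^d` for all `u ∈ seg^4`, where
`slot none x = x`, `slot (some q) x = 2 uj q x = 2 I^q (1 + I x)/(1 - I x)` (induction on `M`, or
clear denominators).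
`exists_T`: choose such an `L` for every `M ∈ Tem` and `ξ` (`Classical.choose`), and let `T` be the
finite set of those `L` which have no zero on `seg^4`, together with `1 - I X 0`.  For `dnT A L`,
`L = rename i M` and `q`: with `ξ j = some (q (i j) % 4)` if `i j ∈ A` and `none` otherwise,
`pev L (arcm A q z) = aeval (fun j => slot (ξ j) (z (i j))) M`, so
`1 / pev L (arcm A q z) = ∏ (1 - I z_{i j})^d / aeval (z ∘ i) (num M ξ)`, in `IsT T`
(`I^q` depends on `q % 4`). The other fields are elementary; `ex` is vacuous. -/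

theorem syst_abs_le {a b : ℤ} (h : ‖((a : ℂ) + (b : ℂ) * I) / 4‖ ≤ 3 / 2) :
    a ∈ Set.Icc (-6 : ℤ) 6 ∧ b ∈ Set.Icc (-6 : ℤ) 6 := by
  have h1 : ‖(a : ℂ) + (b : ℂ) * I‖ ≤ 6 := by
    rw [norm_div, Complex.norm_ofNat] at h
    linarith
  have h2 : |(a : ℝ)| ≤ 6 := by
    have := Complex.abs_re_le_norm ((a : ℂ) + (b : ℂ) * I)
    simp at this
    linarith
  have h3 : |(b : ℝ)| ≤ 6 := by
    have := Complex.abs_im_le_norm ((a : ℂ) + (b : ℂ) * I)
    simp at this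
    linarith
  rw [abs_le] at h2 h3
  refine ⟨⟨?_, ?_⟩, ⟨?_, ?_⟩⟩
  · exact_mod_cast h2.1
  · exact_mod_cast h2.2
  · exact_mod_cast h3.1
  · exact_mod_cast h3.2

theorem syst_gck_finite (K : Subfield ℂ) : {c : Fin 4 → K | GCK c}.Finite := by
  have hS : {x : K | ∃ a b : ℤ, a ∈ Set.Icc (-6 : ℤ) 6 ∧ b ∈ Set.Icc (-6 : ℤ) 6 ∧
      (x : ℂ) = ((a : ℂ) + (b : ℂ) * I) / 4}.Finite := by
    have h1 : ((fun p : ℤ × ℤ => ((p.1 : ℂ) + (p.2 : ℂ) * I) / 4) ''
        (Set.Icc (-6 : ℤ) 6 ×ˢ Set.Icc (-6 : ℤ) 6)).Finite :=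
      ((Set.finite_Icc _ _).prod (Set.finite_Icc _ _)).image _
    refine (h1.preimage (f := ((↑) : K → ℂ)) Subtype.val_injective.injOn).subset ?_
    rintro x ⟨a, b, ha, hb, hx⟩
    exact ⟨(a, b), ⟨ha, hb⟩, hx.symm⟩
  have h2 := Set.Finite.pi' (t := fun _ : Fin 4 => {x : K | ∃ a b : ℤ, a ∈ Set.Icc (-6 : ℤ) 6 ∧
      b ∈ Set.Icc (-6 : ℤ) 6 ∧ (x : ℂ) = ((a : ℂ) + (b : ℂ) * I) / 4}) (fun _ => hS)
  refine h2.subset ?_
  rintro c ⟨hc, hn⟩ j
  obtain ⟨a, b, hab⟩ := hc j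
  have h0 : ∀ k : Fin 4, 0 ≤ ‖(c k : ℂ)‖ := fun k => norm_nonneg _
  have hj : ‖(c j : ℂ)‖ ≤ 3 / 2 := by
    have a0 := h0 0
    have a1 := h0 1
    have a2 := h0 2
    have a3 := h0 3
    fin_cases j <;> simp <;> linarith
  have hab' : (c j : ℂ) = ((a : ℂ) + (b : ℂ) * I) / 4 := hab
  rw [hab'] at hj
  obtain ⟨ha, hb⟩ := syst_abs_le hj
  exact ⟨a, b, ha, hb, hab'⟩

theorem tem_finite (hI : I ∈ K) : (Tem K hI).Finite := by
  have hG := syst_gck_finite K
  have f : ∀ g : (Fin 4 → K) → MvPolynomial (Fin 4) K,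
      {M | ∃ c : Fin 4 → K, GCK c ∧ M = g c}.Finite := by
    intro g
    refine (hG.image g).subset ?_
    rintro M ⟨c, hc, rfl⟩
    exact ⟨c, hc, rfl⟩
  have f8 : ∀ g : ℤ → ℕ → ℕ → MvPolynomial (Fin 4) K,
      {M | ∃ (e : ℤ) (c w : ℕ), (e = 1 ∨ e = -1) ∧ c ≤ 8 ∧ w ≤ 8 ∧ M = g e c w}.Finite := by
    intro g
    have h1 : ((fun p : ℤ × ℕ × ℕ => g p.1 p.2.1 p.2.2) ''
        (Set.Icc (-1 : ℤ) 1 ×ˢ (Set.Iic 8 ×ˢ Set.Iic 8))).Finite :=
      ((Set.finite_Icc _ _).prod ((Set.finite_Iic _).prod (Set.finite_Iic _))).image _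
    refine h1.subset ?_
    rintro M ⟨e, c, w, he, hc, hw, rfl⟩
    refine ⟨(e, c, w), ⟨?_, hc, hw⟩, rfl⟩
    rcases he with rfl | rfl <;> simp
  refine ((((((f (fun c => X 0 - gpl c (X 1) (X 2))).union
    (f (fun c => X 0 - gpl c (X 3 * X 1) (X 2)))).union
    (f (fun c => X 0 - gpl c (X 1) (X 3 * X 2)))).union
    (f (fun c => X 0 - gpl c (X 3 * X 1) (X 3 * X 2)))).union
    (f (fun c => X 0 - X 3 * gpl c (X 1) (X 2)))).union
    (((Set.finite_singleton (X 0 - C (1 / 4) * (X 1 * (1 + X 3)) : MvPolynomial (Fin 4) K)).union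
    (Set.finite_singleton (C 4 - X 0 : MvPolynomial (Fin 4) K))).union
    ((Set.finite_singleton (C 4 - X 3 * X 0 : MvPolynomial (Fin 4) K)).union
    (((f8 (fun e c w => fin8 hI e c w (X 0))).union (f8 (fun e c w => fin8 hI e c w (X 3 * X 0)))).union
    (f8 (fun e c w => fin8 hI e c 1 (X 0 * (1 + C (w : K) * X 3)))))))).subset ?_
  rintro M (⟨c, hc, h | h | h | h | h⟩ | h | h | h | ⟨e, c, w, he, hc, hw, h | h | h⟩)
  · exact Or.inl (Or.inl (Or.inl (Or.inl (Or.inl ⟨c, hc, h⟩))))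
  · exact Or.inl (Or.inl (Or.inl (Or.inl (Or.inr ⟨c, hc, h⟩))))
  · exact Or.inl (Or.inl (Or.inl (Or.inr ⟨c, hc, h⟩)))
  · exact Or.inl (Or.inl (Or.inr ⟨c, hc, h⟩))
  · exact Or.inl (Or.inr ⟨c, hc, h⟩)
  · exact Or.inr (Or.inl (Or.inl h))
  · exact Or.inr (Or.inl (Or.inr h))
  · exact Or.inr (Or.inr (Or.inl h))
  · exact Or.inr (Or.inr (Or.inr (Or.inl (Or.inl ⟨e, c, w, he, hc, hw, h⟩))))
  · exact Or.inr (Or.inr (Or.inr (Or.inl (Or.inr ⟨e, c, w, he, hc, hw, h⟩))))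
  · exact Or.inr (Or.inr (Or.inr (Or.inr ⟨e, c, w, he, hc, hw, h⟩)))

/-- the substituted values -/
noncomputable def slot : Option (Fin 4) → ℂ → ℂ
  | none, x => x
  | some q, x => 2 * uj (q : ℕ) x

theorem syst_slot_num (hI : I ∈ K) (o : Option (Fin 4)) (n : Fin 4) :
    ∃ N : MvPolynomial (Fin 4) K, ∀ u : Fin 4 → ℂ, (∀ j, u j ∈ seg) →
      aeval u N = slot o (u n) * ∏ j, (1 - I * u j) := by
  have hCI : ∀ u : Fin 4 → ℂ, aeval u (C (⟨I, hI⟩ : K)) = I := by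
    intro u
    rw [aeval_C]
    rfl
  cases o with
  | none =>
    refine ⟨X n * ∏ j, (1 - C ⟨I, hI⟩ * X j), fun u _ => ?_⟩
    rw [map_mul, map_prod, aeval_X]
    congr 1
    refine Finset.prod_congr rfl fun j _ => ?_
    rw [map_sub, map_mul, map_one, aeval_X, hCI]
  | some q =>
    refine ⟨C (2 * ⟨I, hI⟩ ^ (q : ℕ)) * (1 + C ⟨I, hI⟩ * X n) *
      ∏ j ∈ Finset.univ.erase n, (1 - C ⟨I, hI⟩ * X j), fun u hu => ?_⟩
    have h1 := one_sub_I_mul_ne (hu n)
    rw [map_mul, map_mul, map_prod, ← Finset.mul_prod_erase Finset.univ _ (Finset.mem_univ n)]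
    have h2 : ∏ j ∈ Finset.univ.erase n, aeval u (1 - C (⟨I, hI⟩ : K) * X j) =
        ∏ j ∈ Finset.univ.erase n, (1 - I * u j) := by
      refine Finset.prod_congr rfl fun j _ => ?_
      rw [map_sub, map_mul, map_one, aeval_X, hCI]
    have h3 : aeval u (C (2 * (⟨I, hI⟩ : K) ^ (q : ℕ)) : MvPolynomial (Fin 4) K) =
        2 * I ^ (q : ℕ) := by
      rw [aeval_C]
      rfl
    rw [h2, h3, map_add, map_mul, map_one, aeval_X, hCI]
    unfold slot uj
    simp only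
    field_simp

theorem exists_num (hI : I ∈ K) (M : MvPolynomial (Fin 4) K) (ξ : Fin 4 → Option (Fin 4)) :
    ∃ (L : MvPolynomial (Fin 4) K) (d : ℕ), ∀ u : Fin 4 → ℂ, (∀ j, u j ∈ seg) →
      aeval u L = aeval (fun j => slot (ξ j) (u j)) M * (∏ j, (1 - I * u j)) ^ d := by
  have hD : ∀ (u : Fin 4 → ℂ) (e : ℕ), aeval u ((∏ j, (1 - C (⟨I, hI⟩ : K) * X j)) ^ e) =
      (∏ j, (1 - I * u j)) ^ e := by
    intro u e
    rw [map_pow, map_prod]
    congr 1
    refine Finset.prod_congr rfl fun j _ => ?_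
    rw [map_sub, map_mul, map_one, aeval_X, aeval_C]
    rfl
  induction M using MvPolynomial.induction_on with
  | C a =>
    refine ⟨C a, 0, fun u _ => ?_⟩
    rw [aeval_C, aeval_C, pow_zero, mul_one]
  | add p q hp hq =>
    obtain ⟨L1, d1, h1⟩ := hp
    obtain ⟨L2, d2, h2⟩ := hq
    refine ⟨L1 * (∏ j, (1 - C (⟨I, hI⟩ : K) * X j)) ^ d2 +
      L2 * (∏ j, (1 - C (⟨I, hI⟩ : K) * X j)) ^ d1, d1 + d2, fun u hu => ?_⟩
    rw [map_add, map_mul, map_mul, hD, hD, h1 u hu, h2 u hu, map_add, pow_add]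
    ring
  | mul_X p n hp =>
    obtain ⟨L1, d1, h1⟩ := hp
    obtain ⟨N, hN⟩ := syst_slot_num hI (ξ n) n
    refine ⟨L1 * N, d1 + 1, fun u hu => ?_⟩
    rw [map_mul, h1 u hu, hN u hu, map_mul, aeval_X, pow_succ]
    ring

theorem syst_den
    (l : List (MvPolynomial (Fin 4) K × (Fin 4 → ℕ))) (z : Pt) :
    pev (l.map (fun p => rename p.2 p.1)).prod z =
      (l.map (fun p => aeval (fun j => z (p.2 j)) p.1)).prod := by
  unfold pev
  rw [map_list_prod, List.map_map]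
  congr 2
  funext p
  simp only [comp_apply]
  rw [aeval_rename]
  rfl

theorem syst_den_ne {T : Set (MvPolynomial (Fin 4) K)}
    (hT : ∀ L ∈ T, ∀ u : Fin 4 → ℂ, (∀ j, u j ∈ seg) → aeval u L ≠ 0)
    {l : List (MvPolynomial (Fin 4) K × (Fin 4 → ℕ))} (hl : ∀ p ∈ l, p.1 ∈ T) {z : Pt}
    (hz : z ∈ Dom X0) : (l.map (fun p => aeval (fun j => z (p.2 j)) p.1)).prod ≠ 0 := by
  apply List.prod_ne_zero
  intro h
  obtain ⟨p, hp, hp0⟩ := List.mem_map.1 h
  exact hT _ (hl p hp) _ (fun j => hz (p.2 j)) hp0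

theorem exists_T (hI : I ∈ K) : ∃ T : Set (MvPolynomial (Fin 4) K), T.Finite ∧
    (∀ L ∈ T, ∀ u : Fin 4 → ℂ, (∀ j, u j ∈ seg) → aeval u L ≠ 0) ∧
    Sys K hI (IsT T) (dnT K hI) (noEx K) := by
  classical
  choose num dd hnum using fun (M : MvPolynomial (Fin 4) K) (ξ : Fin 4 → Option (Fin 4)) =>
    exists_num hI M ξ
  have hCI : ∀ z : Pt, pev (C (⟨I, hI⟩ : K)) z = I := by
    intro z
    unfold pev
    rw [aeval_C]
    rfl
  obtain ⟨T, hTdef⟩ : ∃ T : Set (MvPolynomial (Fin 4) K), T =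
      {L | (∃ M ∈ Tem K hI, ∃ ξ, L = num M ξ) ∧
        ∀ u : Fin 4 → ℂ, (∀ j, u j ∈ seg) → aeval u L ≠ 0} ∪ {1 - C ⟨I, hI⟩ * X 0} := ⟨_, rfl⟩
  have hfin : T.Finite := by
    rw [hTdef]
    refine Set.Finite.union ?_ (Set.finite_singleton _)
    have h1 : ((fun p : MvPolynomial (Fin 4) K × (Fin 4 → Option (Fin 4)) => num p.1 p.2) ''
        (Tem K hI ×ˢ Set.univ)).Finite := ((tem_finite hI).prod Set.finite_univ).image _
    refine h1.subset ?_
    rintro L ⟨⟨M, hM, ξ, rfl⟩, -⟩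
    exact ⟨(M, ξ), ⟨hM, Set.mem_univ _⟩, rfl⟩
  have hTne : ∀ L ∈ T, ∀ u : Fin 4 → ℂ, (∀ j, u j ∈ seg) → aeval u L ≠ 0 := by
    rw [hTdef]
    rintro L (⟨-, hL⟩ | hL) u hu
    · exact hL u hu
    · rw [Set.mem_singleton_iff] at hL
      rw [hL, map_sub, map_mul, map_one, aeval_X, aeval_C]
      exact one_sub_I_mul_ne (hu 0)
  refine ⟨T, hfin, hTne, ?_⟩
  constructor
  · rintro F G ⟨P, l, hl, hF⟩ h
    exact ⟨P, l, hl, fun z hz => by rw [← h z hz, hF z hz]⟩
  · rintro F G ⟨P, l, hl, hF⟩ ⟨P', l', hl', hG⟩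
    refine ⟨P * (l'.map (fun p => rename p.2 p.1)).prod + P' * (l.map (fun p => rename p.2 p.1)).prod,
      l ++ l', ?_, fun z hz => ?_⟩
    · intro p hp
      rcases List.mem_append.1 hp with h | h
      · exact hl p h
      · exact hl' p h
    · rw [rb_pev_add, rb_pev_mul, rb_pev_mul, syst_den, syst_den, List.map_append,
        List.prod_append]
      beta_reduce
      rw [hF z hz, hG z hz]
      have h1 := syst_den_ne hTne hl hz
      have h2 := syst_den_ne hTne hl' hz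
      field_simp
  · rintro F G ⟨P, l, hl, hF⟩ ⟨P', l', hl', hG⟩
    refine ⟨P * P', l ++ l', ?_, fun z hz => ?_⟩
    · intro p hp
      rcases List.mem_append.1 hp with h | h
      · exact hl p h
      · exact hl' p h
    · rw [rb_pev_mul, List.map_append, List.prod_append]
      beta_reduce
      rw [hF z hz, hG z hz, div_mul_div_comm]
  · intro a ha
    refine ⟨C ⟨a, ha⟩, [], fun p hp => absurd hp List.not_mem_nil, fun z _ => ?_⟩
    unfold pev
    rw [List.map_nil, List.prod_nil, div_one, aeval_C]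
    rfl
  · intro i
    refine ⟨X i, [], fun p hp => absurd hp List.not_mem_nil, fun z _ => ?_⟩
    unfold pev
    rw [List.map_nil, List.prod_nil, div_one, aeval_X]
  · intro p
    refine ⟨1, [(1 - C ⟨I, hI⟩ * X 0, fun _ => p)], ?_, fun z _ => ?_⟩
    · intro q hq
      rw [List.mem_singleton] at hq
      rw [hq, hTdef]
      exact Or.inr rfl
    · rw [List.map_singleton, List.prod_singleton]
      unfold pev
      rw [map_one, map_sub, map_mul, map_one, aeval_X, aeval_C]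
      rfl
  · rintro σ F hσ ⟨P, l, hl, hF⟩
    refine ⟨rename σ P, l.map (fun p => (p.1, σ ∘ p.2)), ?_, fun z hz => ?_⟩
    · intro p hp
      obtain ⟨q, hq, rfl⟩ := List.mem_map.1 hp
      exact hl q hq
    · beta_reduce
      rw [hF _ (fun i => hz (σ i)), List.map_map]
      unfold pev
      rw [aeval_rename]
      rfl
  · rintro A L ⟨M, hM, i, rfl, h⟩ z hz
    unfold pev
    rw [aeval_rename]
    exact h _ fun j => hz (i j)
  · rintro A L q ⟨M, hM, i, rfl, h⟩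
    obtain ⟨ξ, hξ⟩ : ∃ ξ : Fin 4 → Option (Fin 4), ξ = fun j =>
        if i j ∈ A then some ⟨q (i j) % 4, Nat.mod_lt _ (by norm_num)⟩ else none := ⟨_, rfl⟩
    have hslot : ∀ (j : Fin 4) (x : ℂ), slot (ξ j) x = if i j ∈ A then 2 * uj (q (i j)) x else x := by
      intro j x
      rw [hξ]
      simp only
      by_cases hj : i j ∈ A
      · rw [if_pos hj, if_pos hj]
        unfold slot uj
        simp only
        have h4 : I ^ (q (i j)) = I ^ (q (i j) % 4) := by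
          conv_lhs => rw [← Nat.div_add_mod (q (i j)) 4]
          rw [pow_add, pow_mul, Complex.I_pow_four, one_pow, one_mul]
        rw [h4]
      · rw [if_neg hj, if_neg hj]
        rfl
    have hmem : ∀ u : Fin 4 → ℂ, (∀ j, u j ∈ seg) → ∀ j, slot (ξ j) (u j) ∈ XA A (i j) := by
      intro u hu j
      rw [hslot]
      by_cases hj : i j ∈ A
      · rw [if_pos hj, XA_circ hj]
        have := mem_circ_uj 0 (r := 2) (by norm_num) (q (i j)) (hu j)
        rw [zero_add] at this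
        push_cast at this
        exact this
      · rw [if_neg hj, XA_seg hj]
        exact hu j
    have hne : ∀ u : Fin 4 → ℂ, (∀ j, u j ∈ seg) → aeval u (num M ξ) ≠ 0 := by
      intro u hu
      rw [hnum M ξ u hu]
      refine mul_ne_zero (h _ (hmem u hu)) (pow_ne_zero _ (Finset.prod_ne_zero_iff.2 ?_))
      intro j _
      exact one_sub_I_mul_ne (hu j)
    refine ⟨(∏ j, (1 - C ⟨I, hI⟩ * X (i j))) ^ dd M ξ, [(num M ξ, i)], ?_, fun z hz => ?_⟩
    · intro p hp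
      rw [List.mem_singleton] at hp
      rw [hp, hTdef]
      exact Or.inl ⟨⟨M, hM, ξ, rfl⟩, hne⟩
    · rw [List.map_singleton, List.prod_singleton]
      simp only
      have hu : ∀ j, (fun j => z (i j)) j ∈ seg := fun j => hz (i j)
      rw [hnum M ξ _ hu]
      have e1 : pev (rename i M) (arcm A q z) =
          aeval (fun j => slot (ξ j) (z (i j))) M := by
        unfold pev
        rw [aeval_rename]
        congr 2
        funext j
        rw [hslot]
        rfl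
      have e2 : pev ((∏ j, (1 - C (⟨I, hI⟩ : K) * X (i j))) ^ dd M ξ) z =
          (∏ j, (1 - I * z (i j))) ^ dd M ξ := by
        unfold pev
        rw [map_pow, map_prod]
        congr 1
        refine Finset.prod_congr rfl fun j _ => ?_
        rw [map_sub, map_mul, map_one, aeval_X, aeval_C]
        rfl
      rw [e1, e2]
      have h1 : aeval (fun j => slot (ξ j) (z (i j))) M ≠ 0 := h _ (hmem (fun j => z (i j)) hu)
      have h2 : (∏ j, (1 - I * z (i j))) ^ dd M ξ ≠ 0 :=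
        pow_ne_zero _ (Finset.prod_ne_zero_iff.2 fun j _ => one_sub_I_mul_ne (hu j))
      field_simp
  · intro A M i hM h
    exact ⟨M, hM, i, rfl, h⟩
  · intro A L h
    exact h.elim
  · intro L h
    exact h.elim

theorem IsT.isRat {T : Set (MvPolynomial (Fin 4) K)}
    (hT : ∀ L ∈ T, ∀ u : Fin 4 → ℂ, (∀ j, u j ∈ seg) → aeval u L ≠ 0) {F : Pt → ℂ}
    (h : IsT T F) : IsRat K X0 F := by
  obtain ⟨P, l, hl, hF⟩ := h
  refine ⟨P, (l.map (fun p => rename p.2 p.1)).prod, fun z hz => ?_⟩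
  rw [syst_den]
  exact ⟨syst_den_ne hT hl hz, hF z hz⟩

end MP1eadaeL
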