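import Pool.Agent.Lib_MP_1eadae_ft.Bri
import Pool.Agent.Lib_MP_1eadae_ft.Gen
import Pool.Agent.Lib_MP_1eadae_ft.SysT
import Pool.Agent.Lib_MP_1eadae_ft.RenP
import Pool.Agent.Lib_MP_1eadae_ft.FinA

/-! # MP_1eadae_ag (FT): the final statements on generation and relations -/

namespace MP1eadaeL

open Complex Function MvPolynomial MP1eadae

theorem two_I_mem : (2 * I : ℂ) ∈ Qi := Qi.mul_mem (by
  have := Qi.add_mem Qi.one_mem Qi.one_mem
  rwa [one_add_one_eq_two] at this) I_mem_Qi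

theorem circuit_generation (n : ℕ) (f : (ℕ → ℝ) → ℂ) (hf : f ∈ NashFn Qbar) (hd : DepLT n f) :
    ∃ (m : ℕ) (g : (ℕ → ℝ) → ℂ), g ∈ CircuitSpan ∧ DepLT (n + m) g ∧
      (fun x => (2 * I) ^ m * piProd n m x * f x - g x) ∈ StokesSpan (NashFn Qbar) := by
  obtain ⟨g0, hg0, hg0d, hR0⟩ := generation n f hf hd
  obtain ⟨m, r, W, v, w, c, hW, hst⟩ := gen_rat (n := n + 1) (Nat.le_add_left 1 n)
    (mem_ratFn_iff.1 hg0) (depLT_iff.1 hg0d)
  choose g hg hv hw hgz using fun j => net_circuit (n := n + 1) (m := m) (Nat.le_add_left 1 n)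
    (hW j).1 (hW j).2.1 (hW j).2.2.1 (hW j).2.2.2.1 (hW j).2.2.2.2
  have hcirc : ∀ j, DepLT (n + 1 + m) (circuit (n + 1) m (g j) (v j - (n + 1)) (w j - (n + 1))) :=
    fun j => circuit_dep (hg j) _ _
  refine ⟨m + 1, fun x => ∑ j, (c j : ℂ) *
    circuit (n + 1) m (g j) (v j - (n + 1)) (w j - (n + 1)) x, ?_, ?_, ?_⟩
  · exact ⟨r, c, _, fun j => ⟨n + 1, m, g j, v j - (n + 1), w j - (n + 1), Nat.le_add_left 1 n,
      hg j, hv j, hw j, rfl⟩, fun x _ => rfl⟩
  · intro x hx y hy hxy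
    refine Finset.sum_congr rfl fun j _ => ?_
    rw [hcirc j x hx y hy fun i hi => hxy i (by omega)]
  · have hd0 : DepLT (n + 1) (fun x => 2 * I * ((4 : ℂ) / (1 + (x n : ℂ) ^ 2)) * f x - g0 x) := by
      intro x hx y hy hxy
      show 2 * I * ((4 : ℂ) / (1 + (x n : ℂ) ^ 2)) * f x - g0 x =
        2 * I * ((4 : ℂ) / (1 + (y n : ℂ) ^ 2)) * f y - g0 y
      rw [hxy n (Nat.lt_succ_self n), hg0d x hx y hy hxy,
        hd x hx y hy fun i hi => hxy i (hi.trans (Nat.lt_succ_self n))]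
    have h1 := ft_nash_smul (Qi.pow_mem two_I_mem m) (ft_more hd0 hR0 m)
    have h2 : (fun x => (2 * I) ^ m * piProd (n + 1) m x * g0 x - ∑ j, (c j : ℂ) *
        circuit (n + 1) m (g j) (v j - (n + 1)) (w j - (n + 1)) x) ∈ StokesSpan (RatFn Qi) := by
      refine stokesSpan_of_St (C := RatFn Qi) (C' := IsRat Qi X0) (fun G hG => hG.neg)
        (fun G hG => rl_mem_ratFn hG) hst ?_
      intro x hx
      have hz := ofReal_mem_dom hx
      rw [tp_ofReal]
      have e1 : cx g0 (fun i => ((x i : ℝ) : ℂ)) = g0 x := by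
        show g0 (fun i => (((x i : ℝ) : ℂ)).re) = g0 x
        simp only [Complex.ofReal_re]
      rw [e1]
      congr 1
      refine Finset.sum_congr rfl fun j _ => ?_
      rw [← hgz j _ hz]
      show _ = (c j : ℂ) * circuit (n + 1) m (g j) (v j - (n + 1)) (w j - (n + 1))
        (fun i => (((x i : ℝ) : ℂ)).re)
      simp only [Complex.ofReal_re]
    have h3 := ft_nash_add h1 (ft_span_mono ratFn_subset_nash h2)
    have he : (fun x => (2 * I) ^ (m + 1) * piProd n (m + 1) x * f x - ∑ j, (c j : ℂ) *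
        circuit (n + 1) m (g j) (v j - (n + 1)) (w j - (n + 1)) x) =
        (fun x => (2 * I) ^ m * (piProd (n + 1) m x *
          (2 * I * ((4 : ℂ) / (1 + (x n : ℂ) ^ 2)) * f x - g0 x)) +
          ((2 * I) ^ m * piProd (n + 1) m x * g0 x - ∑ j, (c j : ℂ) *
            circuit (n + 1) m (g j) (v j - (n + 1)) (w j - (n + 1)) x)) := by
      funext x
      have e2 : piProd n (m + 1) x = piProd (n + 1) m x * ((4 : ℂ) / (1 + (x n : ℂ) ^ 2)) := by
        have := piProd_add n 1 m x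
        rw [add_comm 1 m] at this
        rw [this]
        congr 1
        unfold piProd
        simp
      rw [e2, pow_succ]
      ring
    rw [he]
    exact h3

theorem Sys.cl_sum {K : Subfield ℂ} {hI : I ∈ K} {Cl : (Pt → ℂ) → Prop}
    {Dn : Finset ℕ → MvPolynomial ℕ K → Prop} {Ex : MvPolynomial ℕ K → Prop}
    (S : Sys K hI Cl Dn Ex) {ι : Type} (s : Finset ι) (f : ι → Pt → ℂ) (h : ∀ j ∈ s, Cl (f j)) :
    Cl (fun z => ∑ j ∈ s, f j z) := by
  classical
  induction s using Finset.induction_on with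
  | empty => simpa using S.const 0 K.zero_mem
  | insert a s ha ih =>
    have h1 := S.add _ _ (h a (Finset.mem_insert_self a s))
      (ih fun j hj => h j (Finset.mem_insert_of_mem hj))
    simp only [Finset.sum_insert ha]
    exact h1

theorem isT_neg {T : Set (MvPolynomial (Fin 4) Qi)} {G : Pt → ℂ} (h : IsT T G) :
    IsT T (fun z => - G z) := by
  obtain ⟨P, l, hl, h⟩ := h
  refine ⟨-P, l, hl, fun z hz => ?_⟩
  have e : pev (-P) z = - pev P z := map_neg _ _
  show - G z = _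
  rw [h z hz, e, neg_div]

theorem circuit_relations : ∃ T : Set (MvPolynomial (Fin 4) Qi), T.Finite ∧
    (∀ L ∈ T, ∀ u : Fin 4 → ℝ, (∀ j, u j ∈ Set.Icc (0 : ℝ) 1) →
      aeval (fun j => ((u j : ℝ) : ℂ)) L ≠ 0) ∧
    CircuitSpan ⊆ TemplateFn T ∧ TemplateFn T ⊆ RatFn Qi ∧
    ∀ (N m : ℕ) (F : (ℕ → ℝ) → ℂ), F ∈ CircuitSpan → DepLT N F →
      (fun x => piProd N m x * F x) ∈ StokesSpan (NashFn Qbar) →
      ∃ m' : ℕ, (fun x => piProd N m' x * F x) ∈ StokesSpan (TemplateFn T) := by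
  obtain ⟨T, hfin, hne, S⟩ := exists_T (K := Qi) I_mem_Qi
  have SR := sysR Qi I_mem_Qi
  refine ⟨T, hfin, fun L hL u hu => hne L hL _ fun j => ⟨u j, hu j, rfl⟩, ?_, ?_, ?_⟩
  · intro F hF
    obtain ⟨r, c, G, hG, hFG⟩ := hF
    choose n mm g v w hn hg hv hw hGe using hG
    choose W f hWA hWc hWe hWr hWz using fun j => circuit_net (hn j) (hg j) (hv j) (hw j)
    have h1 : ∀ j, IsT T (cx (G j)) := fun j =>
      S.congr _ _ (S.cl_cls (hWr j).wf (hWr j).fn _) fun z hz => by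
        rw [← hWz j z hz, ← hGe j]
    have h2 : IsT T (fun z => ∑ j, (c j : ℂ) * cx (G j) z) :=
      S.cl_sum Finset.univ _ fun j _ => S.mul _ _ (S.const _ (c j).2) (h1 j)
    obtain ⟨P, l, hl, hP⟩ := h2
    refine ⟨P, l, hl, fun x hx => ?_⟩
    rw [hFG x hx]
    have h3 := hP _ (ofReal_mem_dom hx)
    refine Eq.trans ?_ h3
    refine Finset.sum_congr rfl fun j _ => ?_
    show _ = (c j : ℂ) * G j (fun i => (((x i : ℝ) : ℂ)).re)
    simp only [Complex.ofReal_re]
  · intro F hF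
    obtain ⟨P, l, hl, hF⟩ := hF
    refine mem_ratFn_iff.2 (IsT.isRat hne ⟨P, l, hl, fun z hz => ?_⟩)
    have h1 := hF _ (re_mem_cube hz)
    have h2 : ∀ i, (((z i).re : ℝ) : ℂ) = z i := fun i => congrFun (ofReal_re hz) i
    show F (fun i => (z i).re) = _
    rw [h1]
    unfold peval
    simp only [h2]
    rfl
  intro N m F hF hd hS
  have hFr : F ∈ RatFn Qi := circuit_ratFn hF
  obtain ⟨r, c, G, hG, hFG⟩ := hF
  choose n mm g v w hn hg hv hw hGe using hG
  -- (1)
  have hpr : (fun x => piProd N m x * F x) ∈ RatFn Qi := by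
    rw [mem_ratFn_iff] at hFr ⊢
    have h1 : IsRat Qi X0 (fun z => (((2 * I) ^ m : ℂ))⁻¹ * tp (Finset.Ico N (N + m)) z) :=
      (IsRat.const _ (Qi.inv_mem (Qi.pow_mem two_I_mem m))).mul (SR.cl_tp _)
    refine (h1.mul hFr).congr fun z hz => ?_
    have h2I : ((2 * I) ^ m : ℂ) ≠ 0 := pow_ne_zero _ (mul_ne_zero two_ne_zero Complex.I_ne_zero)
    show ((2 * I) ^ m)⁻¹ * tp (Finset.Ico N (N + m)) z * cx F z =
      piProd N m (fun i => (z i).re) * cx F z
    rw [tp_cx hz, inv_mul_cancel_left₀ h2I]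
  have hrel := relations (N + m) _ hpr (piProd_dep N m hd) hS
  have hSt0 : St (IsRat Qi X0) X0 Set.univ (fun z => tp (Finset.Ico N (N + (m + 2))) z * cx F z) := by
    have h1 := stokesSpan_cx (C := RatFn Qi) (C' := IsRat Qi X0)
      (fun G hG => mem_ratFn_iff.1 hG) hrel
    have h2 := SR.st_smul (Qi.pow_mem two_I_mem (m + 2)) h1
    refine St.congr _ _ h2 fun z hz => ?_
    rw [tp_cx hz]
    show (2 * I) ^ (m + 2) * ((4 : ℂ) / (1 + (((z (N + m)).re : ℝ) : ℂ) ^ 2) *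
      ((4 : ℂ) / (1 + (((z (N + m + 1)).re : ℝ) : ℂ) ^ 2)) *
      (piProd N m (fun i => (z i).re) * F (fun i => (z i).re))) = _
    have e1 : piProd N (m + 2) (fun i => (z i).re) =
        (4 : ℂ) / (1 + (((z (N + m + 1)).re : ℝ) : ℂ) ^ 2) *
        ((4 : ℂ) / (1 + (((z (N + m)).re : ℝ) : ℂ) ^ 2) * piProd N m (fun i => (z i).re)) := by
      rw [piProd_succ, piProd_succ]
      rfl
    rw [e1]
    show _ = (2 * I) ^ (m + 2) * _ * F (fun i => (z i).re)
    ring
  -- (2)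
  set N1 := N + Finset.univ.sup (fun j => n j + mm j) with hN1
  have hN1N : N ≤ N1 := Nat.le_add_right _ _
  have hNj : ∀ j, n j + mm j ≤ N1 := fun j =>
    (Finset.le_sup (f := fun j => n j + mm j) (Finset.mem_univ j)).trans (Nat.le_add_left _ _)
  have hSt1 := SR.move_tp (depLT_iff.1 hd) le_rfl hN1N hSt0
  -- (3)
  choose W f hWA hWc hWe hWr hWz using fun j => circuit_net (hn j) (hg j) (hv j) (hw j)
  set N2 := N1 + (m + 2) with hN2
  have hD : ∀ j, ∀ d ∈ Finset.Ico N1 N2, n j ≤ d := fun j d hd => by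
    have h1 := (Finset.mem_Ico.1 hd).1
    have h2 := hNj j
    omega
  have hdis : ∀ j, Disjoint (W j).A (Finset.Ico N1 N2) := by
    intro j
    rw [hWA j, Finset.disjoint_left]
    intro b hb hb'
    have h1 := (Finset.mem_Ico.1 hb).2
    have h2 := (Finset.mem_Ico.1 hb').1
    have h3 := hNj j
    omega
  choose W' hW'A hW'r hW'c hW'e _ hW'z using fun j =>
    (hWr j).pad (hWc j) (hWe j) (hD j) (hdis j)
  let R : Fin r → NI N2 := fun j =>
    { n := n j, W := W' j, P := X (n j + v j), E := [C 4 - X (n j + w j)], f := f j,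
      rp := hW'r j, cg := hW'c j, ce := hW'e j
      nN := by
        have := hNj j
        omega
      aN := by
        intro k hk
        rw [hW'A j, hWA j] at hk
        have h3 := hNj j
        rcases Finset.mem_union.1 hk with hk | hk
        · have := (Finset.mem_Ico.1 hk).2
          omega
        · exact (Finset.mem_Ico.1 hk).2 }
  have hsum : ∀ z ∈ Dom X0, tp (Finset.Ico N1 N2) z * cx F z =
      ∑ j, (c j : ℂ) * cls (R j).W (R j).P (R j).E z := by
    intro z hz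
    have h1 : cx F z = ∑ j, (c j : ℂ) * cx (G j) z := hFG _ (re_mem_cube hz)
    rw [h1, Finset.mul_sum]
    refine Finset.sum_congr rfl fun j _ => ?_
    show tp (Finset.Ico N1 N2) z * ((c j : ℂ) * cx (G j) z) =
      (c j : ℂ) * cls (W' j) (X (n j + v j)) [C 4 - X (n j + w j)] z
    rw [hW'z j z hz, ← hWz j z hz, ← hGe j]
    ring
  have hSt2 : St (IsRat Qi X0) X0 Set.univ (fun z => ∑ j, (c j : ℂ) *
      cls (R j).W (R j).P (R j).E z) := St.congr _ _ hSt1 hsum
  -- (4)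
  obtain ⟨m', hm'⟩ := relT S Finset.univ R c hSt2
  have hSt3 : St (IsT T) X0 Set.univ (fun z =>
      tp (Finset.Ico N1 (N1 + (m + 2 + m'))) z * cx F z) := by
    refine St.congr _ _ hm' fun z hz => ?_
    rw [← hsum z hz, ← mul_assoc]
    congr 1
    have e1 : Finset.Ico N1 (N1 + (m + 2 + m')) = Finset.Ico N2 (N2 + m') ∪ Finset.Ico N1 N2 := by
      rw [Finset.union_comm, hN2, Finset.Ico_union_Ico_eq_Ico (Nat.le_add_right _ _)
        (Nat.le_add_right _ _)]
      congr 1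
      omega
    rw [e1, tp_union]
    rw [Finset.disjoint_left]
    intro b hb hb'
    exact absurd (Finset.mem_Ico.1 hb).1 (not_le.2 (Finset.mem_Ico.1 hb').2)
  -- (5)
  have hSt4 := S.move_tp (depLT_iff.1 hd) hN1N le_rfl hSt3
  -- (6)
  refine ⟨m + 2 + m', ?_⟩
  have h2I : ((2 * I) ^ (m + 2 + m') : ℂ) ≠ 0 :=
    pow_ne_zero _ (mul_ne_zero two_ne_zero Complex.I_ne_zero)
  have hSt5 := S.st_smul (Qi.inv_mem (Qi.pow_mem two_I_mem (m + 2 + m'))) hSt4
  refine stokesSpan_of_St (C := TemplateFn T) (C' := IsT T) (fun G hG => isT_neg hG) ?_ hSt5 ?_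
  · intro G hG
    obtain ⟨P, l, hl, hG⟩ := hG
    refine ⟨P, l, hl, fun x hx => ?_⟩
    exact hG _ (ofReal_mem_dom hx)
  · intro x hx
    show piProd N (m + 2 + m') x * F x = ((2 * I) ^ (m + 2 + m'))⁻¹ *
      (tp (Finset.Ico N (N + (m + 2 + m'))) (fun i => ((x i : ℝ) : ℂ)) *
        F (fun i => (((x i : ℝ) : ℂ)).re))
    rw [tp_ofReal]
    simp only [Complex.ofReal_re]
    rw [mul_assoc, inv_mul_cancel_left₀ h2I]

end MP1eadaeL
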