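import Pool.Agent.Lib_MP_1eadae_ft.Fin1

/-! # MP_1eadae_ag (FT): the equivalence for circuit integrands -/

namespace MP1eadaeL

open Complex Function MP1eadae

theorem nash_conj_of_circuit {T : Set (MvPolynomial (Fin 4) Qi)} (hT : TemplateFn T ⊆ RatFn Qi)
    (hQ : ∀ (N : ℕ) (F : (ℕ → ℝ) → ℂ), F ∈ CircuitSpan → DepLT N F → cubeInt N F = 0 →
      ∃ m : ℕ, (fun x => piProd N m x * F x) ∈ StokesSpan (TemplateFn T)) :
    PeriodConj (NashFn Qbar) := by
  intro n f hf hd h0
  obtain ⟨m, g, hg, hgd, hR⟩ := circuit_generation n f hf hd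
  have hgc : ContinuousOn g Cube := nash_continuousOn (ratFn_subset_nash (circuit_ratFn hg))
  have hfc : ContinuousOn f Cube := nash_continuousOn hf
  have hRd : DepLT (n + m) (fun x => (2 * I) ^ m * piProd n m x * f x - g x) := by
    intro x hx y hy hxy
    show (2 * I) ^ m * piProd n m x * f x - g x = (2 * I) ^ m * piProd n m y * f y - g y
    have h1 : piProd n m x * f x = piProd n m y * f y := piProd_dep n m hd x hx y hy hxy
    rw [hgd x hx y hy hxy, mul_assoc, mul_assoc, h1]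
  have hI1 : cubeInt (n + m) (fun x => (2 * I) ^ m * piProd n m x * f x - g x) = 0 :=
    cubeInt_stokesSpan (fun G hG => nash_continuousOn hG) (fun G hG => hG.1) hR hRd
  have hI2 : cubeInt (n + m) (fun x => (2 * I) ^ m * piProd n m x * f x) = 0 := by
    have h1 : (fun x : ℕ → ℝ => (2 * I) ^ m * piProd n m x * f x) =
        (fun x => ((2 * I) ^ m) * (piProd n m x * f x)) := by
      funext x
      ring
    rw [h1, cubeInt_const_mul, cubeInt_piProd hfc hd, h0, mul_zero, mul_zero]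
  have hI3 : cubeInt (n + m) g = 0 := by
    have hFc : ContinuousOn (fun x : ℕ → ℝ => (2 * I) ^ m * piProd n m x * f x) Cube :=
      (continuousOn_const.mul (piProd_cont n m).continuousOn).mul hfc
    rw [cubeInt_sub hFc hgc, hI2, zero_sub, neg_eq_zero] at hI1
    exact hI1
  obtain ⟨m', hm'⟩ := hQ (n + m) g hg hgd hI3
  have hm2 := ft_span_mono (hT.trans ratFn_subset_nash) hm'
  have hRm := ft_more hRd hR m'
  have h2I : ((2 * I) ^ m : ℂ) ≠ 0 := pow_ne_zero _ (mul_ne_zero two_ne_zero Complex.I_ne_zero)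
  have hfm := ft_nash_smul (a := ((2 * I) ^ m)⁻¹)
    (Qi.inv_mem (Qi.pow_mem (Qi.mul_mem (by
      have := Qi.add_mem Qi.one_mem Qi.one_mem
      rwa [one_add_one_eq_two] at this) I_mem_Qi) m))
    (ft_nash_add hRm hm2)
  refine ⟨m + m', ?_⟩
  have he : (fun x : ℕ → ℝ => (∏ j ∈ Finset.range (m + m'), (4 : ℂ) / (1 + (x (n + j) : ℂ) ^ 2)) * f x)
      = (fun x => ((2 * I) ^ m)⁻¹ * (piProd (n + m) m' x *
        ((2 * I) ^ m * piProd n m x * f x - g x) + piProd (n + m) m' x * g x)) := by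
    funext x
    have h3 : (∏ j ∈ Finset.range (m + m'), (4 : ℂ) / (1 + (x (n + j) : ℂ) ^ 2))
        = piProd (n + m) m' x * piProd n m x := piProd_add n m m' x
    rw [h3]
    field_simp
    ring
  rw [he]
  exact hfm

theorem circuit_conj_of_nash {T : Set (MvPolynomial (Fin 4) Qi)}
    (hR : ∀ (N m : ℕ) (F : (ℕ → ℝ) → ℂ), F ∈ CircuitSpan → DepLT N F →
      (fun x => piProd N m x * F x) ∈ StokesSpan (NashFn Qbar) →
      ∃ m' : ℕ, (fun x => piProd N m' x * F x) ∈ StokesSpan (TemplateFn T))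
    (hP : PeriodConj (NashFn Qbar)) (N : ℕ) (F : (ℕ → ℝ) → ℂ) (hF : F ∈ CircuitSpan)
    (hd : DepLT N F) (h0 : cubeInt N F = 0) :
    ∃ m : ℕ, (fun x => piProd N m x * F x) ∈ StokesSpan (TemplateFn T) := by
  obtain ⟨m, hm⟩ := hP N F (ratFn_subset_nash (circuit_ratFn hF)) hd h0
  exact hR N m F hF hd hm

end MP1eadaeL
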