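import Pool.Agent.Lib_MP_1eadae_ft.Coe
import Pool.Agent.Lib_MP_1eadae_ag.SubB
import Pool.Agent.Lib_MP_1eadae_ag.TrN
import Pool.Agent.Lib_MP_1eadae_ag.ReIm

/-! # MP_1eadae_ag (FT), piece GRD: rational functions on small cubes -/

namespace MP1eadaeL

open Complex Function MvPolynomial MP1eadae

/-- truncation of a point -/
private noncomputable def grdT (M : ℕ) (z : Pt) : Pt := fun i => if i < M then z i else 0

private theorem grdT_mem {M : ℕ} {z : Pt} (hz : z ∈ Dom X0) : grdT M z ∈ Dom X0 := by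
  intro i
  show (if i < M then z i else 0) ∈ seg
  split_ifs
  · exact hz i
  · exact zero_mem_seg

private noncomputable def grdτ (M : ℕ) (P : MvPolynomial ℕ Qi) : MvPolynomial ℕ Qi :=
  bind₁ (fun i => if i < M then X i else 0) P

private theorem grdτ_pev (M : ℕ) (P : MvPolynomial ℕ Qi) (z : Pt) :
    pev (grdτ M P) z = pev P (grdT M z) := by
  unfold pev grdτ
  rw [aeval_bind₁]
  congr 1
  apply MvPolynomial.algHom_ext
  intro i
  simp only [aeval_X, grdT]
  split_ifs <;> simp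

private theorem grdτ_vars (M : ℕ) (P : MvPolynomial ℕ Qi) : ∀ v ∈ (grdτ M P).vars, v < M := by
  classical
  intro v hv
  have h := MvPolynomial.vars_bind₁ (fun i => if i < M then (X i : MvPolynomial ℕ Qi) else 0) P hv
  rw [Finset.mem_biUnion] at h
  obtain ⟨i, _, hi⟩ := h
  split_ifs at hi with h1
  · rw [vars_X, Finset.mem_singleton] at hi
    omega
  · simp at hi

private theorem grd_dep {P : MvPolynomial ℕ Qi} {M : ℕ} (hP : ∀ v ∈ P.vars, v < M) {z w : Pt}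
    (h : ∀ i < M, z i = w i) : pev P z = pev P w := by
  unfold pev
  apply MvPolynomial.eval₂Hom_congr' rfl _ rfl
  intro i hi _
  exact h i (hP i hi)

private theorem grd_DG_zero : DG (0 : ℂ) := by
  have := DG.int 0
  simpa using this

private theorem grd_DG_nat (n : ℕ) : DG (n : ℂ) := by
  have := DG.int (n : ℤ)
  simpa using this

private theorem grd_den (P : MvPolynomial ℕ Qi) : ∃ q : ℕ, 0 < q ∧
    ∀ α, DG ((coeff α (C ((q : ℕ) : Qi) * P) : Qi) : ℂ) := by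
  classical
  induction P using MvPolynomial.induction_on with
  | C a =>
    obtain ⟨x, y, hxy⟩ := (mem_Qi_iff (a : ℂ)).1 a.2
    refine ⟨x.den * y.den, Nat.mul_pos x.pos y.pos, fun α => ?_⟩
    rw [← C_mul, coeff_C]
    split_ifs
    · have : (((((x.den * y.den : ℕ) : Qi) * a : Qi)) : ℂ) =
          ((x.num * y.den : ℤ) : ℂ) + ((y.num * x.den : ℤ) : ℂ) * I := by
        push_cast
        rw [hxy]
        have hx : (x : ℂ) * (x.den : ℂ) = (x.num : ℂ) := by
          have := Rat.mul_den_eq_num x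
          exact_mod_cast congrArg (fun t : ℚ => (t : ℂ)) this
        have hy : (y : ℂ) * (y.den : ℂ) = (y.num : ℂ) := by
          have := Rat.mul_den_eq_num y
          exact_mod_cast congrArg (fun t : ℚ => (t : ℂ)) this
        rw [← hx, ← hy]
        ring
      rw [this]
      refine ⟨x.num * y.den, y.num * x.den, 0, ?_⟩
      simp
    · simpa using grd_DG_zero
  | add P Q hP hQ =>
    obtain ⟨p, hp, hP⟩ := hP
    obtain ⟨q, hq, hQ⟩ := hQ
    refine ⟨p * q, Nat.mul_pos hp hq, fun α => ?_⟩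
    have : C (((p * q : ℕ) : ℕ) : Qi) * (P + Q) =
        C ((q : ℕ) : Qi) * (C ((p : ℕ) : Qi) * P) + C ((p : ℕ) : Qi) * (C ((q : ℕ) : Qi) * Q) := by
      push_cast
      rw [C_mul]
      ring
    have e : ((coeff α (C ((q : ℕ) : Qi) * (C ((p : ℕ) : Qi) * P) +
        C ((p : ℕ) : Qi) * (C ((q : ℕ) : Qi) * Q)) : Qi) : ℂ) =
        (q : ℂ) * ((coeff α (C ((p : ℕ) : Qi) * P) : Qi) : ℂ) +
        (p : ℂ) * ((coeff α (C ((q : ℕ) : Qi) * Q) : Qi) : ℂ) := by
      rw [coeff_add, coeff_C_mul, coeff_C_mul (a := ((p : ℕ) : Qi)) (p := C ((q : ℕ) : Qi) * Q)]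
      rfl
    rw [this, e]
    exact DG.add (DG.mul (grd_DG_nat q) (hP α)) (DG.mul (grd_DG_nat p) (hQ α))
  | mul_X P j hP =>
    obtain ⟨p, hp, hP⟩ := hP
    refine ⟨p, hp, fun α => ?_⟩
    rw [← mul_assoc, coeff_mul_X']
    split_ifs
    · exact hP _
    · simpa using grd_DG_zero

theorem int_form {M : ℕ} {f : Pt → ℂ} (hf : IsRat Qi X0 f) (hd : DepOn X0 (Set.Iio M) f) :
    ∃ (q : ℕ) (P Q : MvPolynomial ℕ Qi), 0 < q ∧ (∀ v ∈ P.vars, v < M) ∧
      (∀ v ∈ Q.vars, v < M) ∧ (∀ α, DG ((coeff α P : Qi) : ℂ)) ∧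
      (∀ α, DG ((coeff α Q : Qi) : ℂ)) ∧
      ∀ z ∈ Dom X0, pev Q z ≠ 0 ∧ f z = 1 / (q : ℂ) * (pev P z / pev Q z) := by
  classical
  obtain ⟨P0, Q0, h0⟩ := hf
  obtain ⟨p, hp, hP⟩ := grd_den (grdτ M P0)
  obtain ⟨q, hq, hQ⟩ := grd_den (grdτ M Q0)
  have hpc : ((p : ℕ) : ℂ) ≠ 0 := by exact_mod_cast hp.ne'
  have hqc : ((q : ℕ) : ℂ) ≠ 0 := by exact_mod_cast hq.ne'
  have hvar : ∀ (n : ℕ) (R : MvPolynomial ℕ Qi), (∀ v ∈ R.vars, v < M) →
      ∀ v ∈ (C ((n : ℕ) : Qi) * R).vars, v < M := by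
    intro n R hR v hv
    have := MvPolynomial.vars_mul (C ((n : ℕ) : Qi)) R hv
    rw [Finset.mem_union, vars_C] at this
    rcases this with h | h
    · simp at h
    · exact hR v h
  refine ⟨p, C ((q : ℕ) : Qi) * (C ((p : ℕ) : Qi) * grdτ M P0), C ((q : ℕ) : Qi) * grdτ M Q0, hp,
    hvar _ _ (hvar _ _ (grdτ_vars M P0)), hvar _ _ (grdτ_vars M Q0), ?_, hQ, ?_⟩
  · intro α
    rw [coeff_C_mul]
    push_cast
    exact DG.mul (grd_DG_nat q) (hP α)
  · intro z hz
    have h1 := h0 (grdT M z) (grdT_mem hz)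
    have h2 : f z = f (grdT M z) := by
      apply hd z hz _ (grdT_mem hz)
      intro i hi
      have : i < M := hi
      simp [grdT, this]
    have e1 : pev (C ((q : ℕ) : Qi) * grdτ M Q0) z = (q : ℂ) * pev Q0 (grdT M z) := by
      rw [rb_pev_mul, grdτ_pev]
      congr 1
      simp [pev]
    have e2 : pev (C ((q : ℕ) : Qi) * (C ((p : ℕ) : Qi) * grdτ M P0)) z =
        (q : ℂ) * ((p : ℂ) * pev P0 (grdT M z)) := by
      rw [rb_pev_mul, rb_pev_mul, grdτ_pev]
      congr 1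
      · simp [pev]
      · congr 1
        simp [pev]
    refine ⟨?_, ?_⟩
    · rw [e1]
      exact mul_ne_zero hqc h1.1
    · rw [e1, e2, h2, h1.2]
      have := h1.1
      field_simp

theorem exists_lower {M : ℕ} {Q : MvPolynomial ℕ Qi} (hQ : ∀ v ∈ Q.vars, v < M)
    (h : ∀ z ∈ Dom X0, pev Q z ≠ 0) : ∃ μ : ℝ, 0 < μ ∧ ∀ z ∈ Dom X0, μ ≤ ‖pev Q z‖ := by
  have hseg : IsCompact seg := by
    unfold seg
    exact isCompact_Icc.image continuous_ofReal
  have hc : IsCompact (Dom X0) := by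
    have h1 : Dom X0 = Set.pi Set.univ (fun _ : ℕ => seg) := by
      ext z
      simp [Dom, X0]
    rw [h1]
    exact isCompact_univ_pi fun _ => hseg
  have hne : (Dom X0).Nonempty := ⟨fun _ => 0, fun _ => zero_mem_seg⟩
  have hcont : ContinuousOn (fun z : Pt => ‖pev Q z‖) (Dom X0) := by
    apply ContinuousOn.norm
    have hr : IsRat Qi X0 (pev Q) := ⟨Q, 1, fun z _ => ⟨by simp [pev], by simp [pev]⟩⟩
    exact hr.continuousOn
  obtain ⟨z0, hz0, hmin⟩ := hc.exists_isMinOn hne hcont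
  exact ⟨‖pev Q z0‖, norm_pos_iff.2 (h z0 hz0), fun z hz => hmin hz⟩

private theorem grd_DG_mem {x : ℂ} (h : DG x) : x ∈ Qi := by
  obtain ⟨a, b, e, h⟩ := h
  rw [mem_Qi_iff]
  refine ⟨(a : ℚ) / 2 ^ e, (b : ℚ) / 2 ^ e, ?_⟩
  rw [h]
  push_cast
  ring

private theorem grd_coeff_zero (P : MvPolynomial ℕ Qi) :
    ((coeff 0 P : Qi) : ℂ) = pev P (fun _ => 0) := by
  unfold pev
  induction P using MvPolynomial.induction_on with
  | C a =>
    rw [coeff_zero_C, aeval_C]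
    rfl
  | add P Q hP hQ =>
    rw [coeff_add, map_add, ← hP, ← hQ]
    push_cast
    rfl
  | mul_X P j hP =>
    rw [map_mul, aeval_X, mul_zero, coeff_mul_X']
    simp

theorem grid_comp {M : ℕ} (hM : 1 ≤ M) {f : Pt → ℂ} (hf : IsRat Qi X0 f)
    (hd : DepOn X0 (Set.Iio M) f) :
    ∃ k0 : ℕ, ∀ k ≥ k0, ∀ a : Fin M → Fin (2 ^ k), ∃ (c : Qi) (V R : Pt → ℂ),
      Comp Qi M V ∧ Comp Qi M R ∧
      ∀ z ∈ Dom X0, f (sc M (2 ^ k) a z) = (c : ℂ) * (V z / (4 - R z)) := by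
  classical
  obtain ⟨q, P, Q, hq, hPv, hQv, hPD, hQD, hfPQ⟩ := int_form hf hd
  obtain ⟨μ, hμ, hlow⟩ := exists_lower hQv (fun z hz => (hfPQ z hz).1)
  obtain ⟨s1, hs1, hs10, hs1s⟩ := rsc_support P hPv
  obtain ⟨s2, hs2, hs20, hs2s⟩ := rsc_support Q hQv
  have hs : ∀ α ∈ s1 ∪ s2, ∀ i ∈ α.support, i < M := by
    intro α hα
    rw [Finset.mem_union] at hα
    rcases hα with h | h
    · exact hs1 α h
    · exact hs2 α h
  obtain ⟨ε₀, hε₀, hcomp⟩ := comp_tiny I_mem_Qi hM (s1 ∪ s2) hs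
  obtain ⟨B1, hB1, hb1⟩ := rsc_bound P
  obtain ⟨B2, hB2, hb2⟩ := rsc_bound Q
  obtain ⟨l, hl⟩ : ∃ l : ℕ, B1 / ε₀ ≤ 2 ^ l := pow_unbounded_of_one_lt _ (by norm_num : (1 : ℝ) < 2) |>.imp
    fun l hl => hl.le
  obtain ⟨k0, hk0⟩ : ∃ l : ℕ, 4 * (1 / μ + 1) * B2 / ε₀ ≤ 2 ^ l :=
    pow_unbounded_of_one_lt _ (by norm_num : (1 : ℝ) < 2) |>.imp fun l hl => hl.le
  refine ⟨k0, fun k hk a => ?_⟩
  have h2k : (0 : ℝ) < 2 ^ k := by positivity
  -- the base point and the scale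
  set γ : ℕ → Qi := fun i => if h : i < M then (((a ⟨i, h⟩ : ℕ) : Qi)) / 2 ^ k else 0 with hγ
  set ε : Qi := 1 / 2 ^ k with hε
  have hγc : ∀ i, (γ i : ℂ) = if h : i < M then (((a ⟨i, h⟩ : ℕ) : ℂ)) / 2 ^ k else 0 := by
    intro i
    simp only [hγ]
    split_ifs
    · push_cast
      rfl
    · rfl
  have hεc : (ε : ℂ) = 1 / 2 ^ k := by
    rw [hε]
    push_cast
    rfl
  have hγseg : ∀ i, (γ i : ℂ) ∈ seg := by
    intro i
    rw [hγc]
    split_ifs with h
    · refine ⟨((a ⟨i, h⟩ : ℕ) : ℝ) / 2 ^ k, ⟨by positivity, ?_⟩, by push_cast; rfl⟩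
      rw [div_le_one h2k]
      have := (a ⟨i, h⟩).2.le
      exact_mod_cast this
    · exact zero_mem_seg
  have hγ1 : ∀ i, ‖(γ i : ℂ)‖ ≤ 1 := by
    intro i
    obtain ⟨t, ht, h⟩ := hγseg i
    rw [← h]
    simp only [Complex.norm_real, Real.norm_eq_abs]
    rw [abs_of_nonneg ht.1]
    exact ht.2
  have hεn : ‖(ε : ℂ)‖ = 1 / 2 ^ k := by
    rw [hεc]
    simp
  have hε1 : ‖(ε : ℂ)‖ ≤ 1 := by
    rw [hεn, div_le_one h2k]
    exact one_le_pow₀ (by norm_num)
  have hγD : ∀ i, DG (γ i : ℂ) := by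
    intro i
    rw [hγc]
    split_ifs with h
    · refine ⟨(a ⟨i, h⟩ : ℕ), 0, k, ?_⟩
      push_cast
      ring
    · exact grd_DG_zero
  have hεD : DG (ε : ℂ) := by
    rw [hεc]
    exact DG.pow2 k
  have hγdom : (fun i => (γ i : ℂ)) ∈ Dom X0 := hγseg
  have hQγ : ((coeff 0 (rsc γ ε Q) : Qi) : ℂ) = pev Q (fun i => (γ i : ℂ)) := by
    rw [grd_coeff_zero, pev_rsc]
    simp
  have hQγμ : μ ≤ ‖pev Q (fun i => (γ i : ℂ))‖ := hlow _ hγdom
  have hQγB : ‖pev Q (fun i => (γ i : ℂ))‖ ≤ B2 := by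
    rw [← hQγ]
    exact (hb2 γ ε hγ1 hε1 0).1
  set w : ℂ := pev Q (fun i => (γ i : ℂ)) with hw
  have hw0 : w ≠ 0 := by
    intro h
    rw [h, norm_zero] at hQγμ
    linarith
  set δ : ℝ := min (ε₀ / (4 * (B2 + 1))) (1 / (2 * (B2 + 1))) with hδ
  have hB21 : 0 < B2 + 1 := by linarith
  have hδ0 : 0 < δ := lt_min (by positivity) (by positivity)
  obtain ⟨D, hDG, hD⟩ := DG.dense (1 / w) hδ0
  have hδ1 : δ ≤ ε₀ / (4 * (B2 + 1)) := min_le_left _ _
  have hδ2 : δ ≤ 1 / (2 * (B2 + 1)) := min_le_right _ _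
  have hδ3 : δ ≤ 1 := by
    refine hδ2.trans ?_
    rw [div_le_one (by positivity)]
    linarith
  have hkey : ‖1 - D * w‖ ≤ B2 * δ := by
    have : 1 - D * w = w * (1 / w - D) := by
      field_simp
    rw [this, norm_mul]
    rw [norm_sub_rev] at hD
    exact mul_le_mul hQγB hD (norm_nonneg _) hB2
  have hD0 : D ≠ 0 := by
    intro h
    rw [h] at hkey
    simp only [zero_mul, sub_zero, norm_one] at hkey
    have : B2 * δ ≤ B2 * (1 / (2 * (B2 + 1))) := mul_le_mul_of_nonneg_left hδ2 hB2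
    have h2 : B2 * (1 / (2 * (B2 + 1))) < 1 := by
      rw [mul_one_div, div_lt_one (by positivity)]
      linarith
    linarith
  have hDn : ‖D‖ ≤ 1 / μ + 1 := by
    have h1 : ‖D‖ ≤ ‖1 / w‖ + ‖D - 1 / w‖ := by
      have := norm_add_le (1 / w) (D - 1 / w)
      simpa using this
    have h2 : ‖1 / w‖ ≤ 1 / μ := by
      rw [norm_div, norm_one]
      exact one_div_le_one_div_of_le hμ hQγμ
    linarith
  have hDQ : D ∈ Qi := grd_DG_mem hDG
  set D' : Qi := ⟨D, hDQ⟩ with hD'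
  have hD'c : (D' : ℂ) = D := rfl
  set R : MvPolynomial ℕ Qi := C 4 * (1 - C D' * rsc γ ε Q) with hR
  set V : MvPolynomial ℕ Qi := C (1 / 2 ^ l) * rsc γ ε P with hV
  have hRc : ∀ α, ((coeff α R : Qi) : ℂ) =
      4 * ((if α = 0 then 1 else 0) - D * ((coeff α (rsc γ ε Q) : Qi) : ℂ)) := by
    intro α
    rw [hR, coeff_C_mul, coeff_sub, coeff_C_mul, coeff_one]
    by_cases h : α = 0
    · subst h
      simp only [if_true]
      push_cast
      rw [hD'c]
      rfl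
    · rw [if_neg h, if_neg (fun h' => h h'.symm)]
      push_cast
      rw [hD'c]
      rfl
  have hVc : ∀ α, ((coeff α V : Qi) : ℂ) = 1 / 2 ^ l * ((coeff α (rsc γ ε P) : Qi) : ℂ) := by
    intro α
    rw [hV, coeff_C_mul]
    push_cast
    rfl
  refine ⟨4 * D' * 2 ^ l / (q : ℕ), pev V, pev R, ?_, ?_, ?_⟩
  · apply hcomp
    · intro α hα
      rw [mem_support_iff] at hα
      refine Finset.mem_union_left _ (hs1s γ ε ?_)
      rw [mem_support_iff]
      intro h
      apply hα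
      rw [hV, coeff_C_mul, h, mul_zero]
    · intro α
      rw [hVc]
      exact DG.mul (DG.pow2 l) (rsc_dg hPD hγD hεD α)
    · intro α
      rw [hVc, norm_mul]
      have h1 := (hb1 γ ε hγ1 hε1 α).1
      have h2 : ‖(1 : ℂ) / 2 ^ l‖ = 1 / 2 ^ l := by simp
      rw [h2]
      have h3 : (0 : ℝ) < 2 ^ l := by positivity
      rw [div_le_iff₀ hε₀] at hl
      calc 1 / 2 ^ l * ‖((coeff α (rsc γ ε P) : Qi) : ℂ)‖ ≤ 1 / 2 ^ l * (2 ^ l * ε₀) :=
            mul_le_mul_of_nonneg_left (h1.trans hl) (by positivity)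
        _ = ε₀ := by field_simp
  · apply hcomp
    · intro α hα
      rw [mem_support_iff] at hα
      by_cases h0 : α = 0
      · rw [h0]
        exact Finset.mem_union_left _ hs10
      refine Finset.mem_union_right _ (hs2s γ ε ?_)
      rw [mem_support_iff]
      intro h
      apply hα
      apply Subtype.ext
      rw [hRc, h, if_neg h0]
      simp
    · intro α
      rw [hRc]
      have h1 := rsc_dg hQD hγD hεD α
      have h2 : DG (if α = 0 then (1 : ℂ) else 0) := by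
        split_ifs
        · simpa using DG.int 1
        · exact grd_DG_zero
      have h3 : DG (4 : ℂ) := by simpa using DG.int 4
      rw [sub_eq_add_neg]
      exact DG.mul h3 (DG.add h2 (DG.neg (DG.mul hDG h1)))
    · intro α
      rw [hRc]
      by_cases h0 : α = 0
      · rw [h0, if_pos rfl, hQγ, norm_mul]
        have h4 : ‖(4 : ℂ)‖ = 4 := by simp
        rw [h4]
        have : B2 * δ ≤ B2 * (ε₀ / (4 * (B2 + 1))) := mul_le_mul_of_nonneg_left hδ1 hB2
        have h5 : B2 * (ε₀ / (4 * (B2 + 1))) ≤ ε₀ / 4 := by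
          rw [mul_div_assoc', div_le_div_iff₀ (by positivity) (by norm_num)]
          nlinarith
        linarith
      · rw [if_neg h0, zero_sub, mul_neg, norm_neg, norm_mul, norm_mul]
        have h4 : ‖(4 : ℂ)‖ = 4 := by simp
        rw [h4]
        have h1 := (hb2 γ ε hγ1 hε1 α).2 h0
        rw [hεn] at h1
        have h6 : (2 : ℝ) ^ k0 ≤ 2 ^ k := pow_le_pow_right₀ (by norm_num) hk
        have h7 := hk0.trans h6
        rw [div_le_iff₀ hε₀] at h7
        calc 4 * (‖D‖ * ‖((coeff α (rsc γ ε Q) : Qi) : ℂ)‖)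
            ≤ 4 * ((1 / μ + 1) * (B2 * (1 / 2 ^ k))) := by
              apply mul_le_mul_of_nonneg_left _ (by norm_num)
              exact mul_le_mul hDn h1 (norm_nonneg _) (by positivity)
          _ = (4 * (1 / μ + 1) * B2) / 2 ^ k := by ring
          _ ≤ ε₀ := by
              rw [div_le_iff₀ h2k]
              linarith
  · intro z hz
    have hN : 1 ≤ 2 ^ k := Nat.one_le_two_pow
    have hsc := hfPQ _ (sc_mem_dom hN a hz)
    have hsceq : ∀ i < M, sc M (2 ^ k) a z i = (γ i : ℂ) + (ε : ℂ) * z i := by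
      intro i hi
      rw [hγc, hεc, dif_pos hi]
      unfold sc
      rw [dif_pos hi]
      push_cast
      ring
    have eP : pev P (sc M (2 ^ k) a z) = 2 ^ l * pev V z := by
      rw [grd_dep hPv hsceq, ← pev_rsc, hV, rb_pev_mul]
      have : pev (C (1 / 2 ^ l : Qi)) z = 1 / 2 ^ l := by
        unfold pev
        rw [aeval_C]
        rfl
      rw [this]
      field_simp
    have eQ : 4 - pev R z = 4 * D * pev Q (sc M (2 ^ k) a z) := by
      rw [grd_dep hQv hsceq, ← pev_rsc, hR, rb_pev_mul, rb_pev_sub, rb_pev_mul]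
      have h1 : pev (C (4 : Qi)) z = 4 := by
        unfold pev
        rw [aeval_C]
        rfl
      have h2 : pev (C D') z = D := by
        unfold pev
        rw [aeval_C]
        rfl
      have h3 : pev (1 : MvPolynomial ℕ Qi) z = 1 := by
        simp [pev]
      rw [h1, h2, h3]
      ring
    rw [hsc.2, eP, eQ]
    have hne := hsc.1
    have hqc : ((q : ℕ) : ℂ) ≠ 0 := by exact_mod_cast hq.ne'
    have ec : (((4 * D' * 2 ^ l / (q : ℕ) : Qi)) : ℂ) = 4 * D * 2 ^ l / q := by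
      push_cast
      rfl
    rw [ec]
    field_simp

end MP1eadaeL
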