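import Pool.Agent.Lib_MP_1eadae_ft.Grd
import Pool.Agent.Lib_MP_1eadae_ft.InRb

/-! # MP_1eadae_ag (FT), piece GRD2: halved rational functions are computed by clean networks -/

namespace MP1eadaeL

open Complex Function MvPolynomial MP1eadae

/- Piece GRD2 (all theorems of this file).
`comp_pair`: two `Comp` functions as two nodes of one clean network: join of `W1` (nodes `≥ N`) and
`W2` (nodes larger than those of `W1`).
`inR_quot`: numerator `C c * X v`, denominators `[C 4 - X w]` (`|θ_w| ≤ 3/2`).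
`hvN_eq`: by induction: `hvs M f z = ∑_δ (1/2)^M f (z_i ↦ (δ_i + z_i)/2)` (over
`δ : Fin M → Fin 2`, induction on `M`), and `a = 2 a' + δ` is a bijection
`(Fin M → Fin (2^k)) × (Fin M → Fin 2) ≃ (Fin M → Fin (2^(k+1)))`.
`inR_hvN`: `grid_comp`, `hvN_eq`, `InR.sum`, `InR.smul`. -/

theorem comp_pair {K : Subfield ℂ} {M : ℕ} {F G : Pt → ℂ} (hF : Comp K M F) (hG : Comp K M G)
    (N : ℕ) : ∃ (W : Net K) (v w : ℕ), Wf M W ∧ CleanG W ∧ v ∈ W.A ∧ w ∈ W.A ∧
      (∀ k ∈ W.A, N ≤ k) ∧ ∀ z ∈ Dom X0, W.th z v = F z ∧ W.th z w = G z := by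
  obtain ⟨W1, v, h1, c1, hv, hN1, e1⟩ := hF N
  obtain ⟨W2, w, h2, c2, hw, hN2, e2⟩ := hG (max N (W1.A.sup id + 1))
  have hd : Disjoint W1.A W2.A := by
    rw [Finset.disjoint_left]
    intro k hk1 hk2
    have h3 := le_of_max_le_right (hN2 k hk2)
    have h4 : id k ≤ W1.A.sup id := Finset.le_sup (f := id) hk1
    simp only [id] at h4
    have h5 : W1.A.sup id + 1 ≤ k := h3
    have h6 : k ≤ W1.A.sup id := h4
    omega
  refine ⟨W1.join W2, v, w, h1.join h2, cleanG_join h1 h2 hd c1 c2,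
    Finset.mem_union_left _ hv, Finset.mem_union_right _ hw, ?_, ?_⟩
  · intro k hk
    rcases Finset.mem_union.1 hk with hk | hk
    · exact hN1 k hk
    · exact le_of_max_le_left (hN2 k hk)
  · intro z hz
    rw [join_th_left h1 h2 z (Or.inl hv), join_th_right h1 h2 hd z (Or.inl hw)]
    exact ⟨e1 z hz, e2 z hz⟩

/-- the representation by a circuit -/
theorem rpr_quot {K : Subfield ℂ} {hI : I ∈ K} {M : ℕ} (hM : 1 ≤ M) {W : Net K} (hW : Wf M W)
    {v w : ℕ} (hv : v ∈ W.A) (hw : w ∈ W.A) (Ex : MvPolynomial ℕ K → Prop) :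
    Rpr hI Ex M W (X v) [C 4 - X w] (fun z => W.th z v / (4 - W.th z w)) ∧
      CleanE hI W [C 4 - X w] := by
  have hvars : ∀ u ∈ (C 4 - X w : MvPolynomial ℕ K).vars, u = w := by
    intro u hu
    have h1 := vars_sub_subset (p := (C 4 : MvPolynomial ℕ K)) (q := X w) hu
    rw [vars_C, vars_X] at h1
    simpa using h1
  refine ⟨⟨hM, hW, ?_, ?_, ?_, ?_⟩, ?_⟩
  · intro L hL
    rw [List.mem_singleton] at hL
    exact Or.inl ⟨w, hw, Or.inl hL⟩
  · intro u hu
    rw [vars_X, Finset.mem_singleton] at hu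
    exact Or.inl (hu ▸ hv)
  · intro L hL u hu
    rw [List.mem_singleton] at hL
    subst hL
    exact Or.inl ((hvars u hu) ▸ hw)
  · intro z _
    simp only [nm, pev, List.prod_singleton, map_sub, aeval_X, aeval_C]
    have : (algebraMap K ℂ) (4 : K) = (4 : ℂ) := map_ofNat _ 4
    rw [this]
  · intro L hL
    rw [List.mem_singleton] at hL
    exact ⟨w, hw, Or.inl hL⟩

theorem inR_quot {K : Subfield ℂ} {hI : I ∈ K} {M : ℕ} (hM : 1 ≤ M) {F G : Pt → ℂ}
    (hF : Comp K M F) (hG : Comp K M G) {c : ℂ} (hc : c ∈ K) :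
    InR hI M (fun z => c * (F z / (4 - G z))) := by
  obtain ⟨W, v, w, hW, hc', hv, hw, -, he⟩ := comp_pair hF hG 0
  obtain ⟨h1, h2⟩ := rpr_quot (hI := hI) hM hW hv hw (noEx K)
  have h3 : InR hI M (fun z => W.th z v / (4 - W.th z w)) := ⟨W, _, _, h1, hc', h2⟩
  have h4 : InR hI M (fun z => F z / (4 - G z)) := by
    refine h3.congr ?_
    intro z hz
    show W.th z v / (4 - W.th z w) = F z / (4 - G z)
    rw [(he z hz).1, (he z hz).2]
  exact h4.smul hc

theorem hvN_eq (M k : ℕ) (f : Pt → ℂ) (z : Pt) :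
    hvN M k f z = ∑ a : Fin M → Fin (2 ^ k), (1 / (2 ^ k : ℂ)) ^ M * f (sc M (2 ^ k) a z) := by
  have hvs_eq : ∀ (n : ℕ) (g : Pt → ℂ) (z : Pt),
      hvs n g z = ∑ δ : Fin n → Fin 2, (1 / 2 : ℂ) ^ n * g (sc n 2 δ z) := by
    intro n
    induction n with
    | zero =>
      intro g z
      have h0 : ∀ δ : Fin 0 → Fin 2, sc 0 2 δ z = z := by
        intro δ
        funext i
        simp [sc]
      simp [hvs, h0]
    | succ n ih =>
      intro g z
      have key : ∀ (e : Fin 2) (δ : Fin n → Fin 2) (w : ℂ), w = (z n + ((e : ℕ) : ℂ)) / 2 →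
          sc n 2 δ (update z n w) = sc (n + 1) 2 (Fin.snoc (α := fun _ => Fin 2) δ e) z := by
        intro e δ w hw
        funext i
        simp only [sc]
        rcases lt_trichotomy i n with hi | hi | hi
        · have hi' : i < n + 1 := by omega
          rw [dif_pos hi, dif_pos hi', update_of_ne (by omega)]
          have : (Fin.snoc (α := fun _ => Fin 2) δ e) ⟨i, hi'⟩ = δ ⟨i, hi⟩ := by
            simp [Fin.snoc, hi]
          rw [this]
        · subst hi
          have hi' : i < i + 1 := by omega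
          rw [dif_neg (lt_irrefl _), dif_pos hi', update_self]
          have : (Fin.snoc (α := fun _ => Fin 2) δ e) ⟨i, hi'⟩ = e := by
            simp [Fin.snoc]
          rw [this, hw]
          norm_num
        · rw [dif_neg (by omega), dif_neg (by omega), update_of_ne (by omega)]
      have hsum : (∑ δ : Fin (n + 1) → Fin 2, (1 / 2 : ℂ) ^ (n + 1) * g (sc (n + 1) 2 δ z))
          = ∑ e : Fin 2, ∑ δ : Fin n → Fin 2,
            (1 / 2 : ℂ) ^ (n + 1) * g (sc (n + 1) 2 (Fin.snoc (α := fun _ => Fin 2) δ e) z) := by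
        rw [← (Fin.snocEquiv (fun _ : Fin (n + 1) => Fin 2)).sum_comp, Fintype.sum_prod_type]
        rfl
      rw [hsum]
      show hv n (hvs n g) z = _
      simp only [hv]
      rw [ih, ih, Fin.sum_univ_two, Finset.mul_sum, Finset.mul_sum]
      congr 1
      · refine Finset.sum_congr rfl fun δ _ => ?_
        rw [key 0 δ (z n / 2) (by simp)]
        ring
      · refine Finset.sum_congr rfl fun δ _ => ?_
        rw [key 1 δ ((1 + z n) / 2) (by simp [add_comm])]
        ring
  induction k generalizing z with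
  | zero =>
    have h0 : ∀ a : Fin M → Fin (2 ^ 0), sc M (2 ^ 0) a z = z := by
      intro a
      funext i
      simp only [sc]
      split_ifs with h
      · have h1 : ((a ⟨i, h⟩ : Fin (2 ^ 0)) : ℕ) = 0 := by
          have := (a ⟨i, h⟩).isLt
          simp only [pow_zero] at this
          omega
        rw [h1]
        simp
      · rfl
    have hc : Fintype.card (Fin M → Fin (2 ^ 0)) = 1 := by simp
    simp only [hvN, h0, Finset.sum_const, Finset.card_univ, hc]
    simp
  | succ k ih =>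
    have hE := (((Equiv.arrowProdEquivProdArrow (Fin M) (fun _ => Fin (2 ^ k))
      (fun _ => Fin 2)).symm).trans (Equiv.arrowCongr (Equiv.refl (Fin M))
        (finProdFinEquiv.trans (finCongr (pow_succ 2 k).symm)))).sum_comp
        (fun a : Fin M → Fin (2 ^ (k + 1)) =>
          (1 / (2 ^ (k + 1) : ℂ)) ^ M * f (sc M (2 ^ (k + 1)) a z))
    rw [← hE, Fintype.sum_prod_type_right]
    show hvs M (hvN M k f) z = _
    rw [hvs_eq]
    refine Finset.sum_congr rfl fun δ _ => ?_
    rw [ih, Finset.mul_sum]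
    refine Finset.sum_congr rfl fun a _ => ?_
    have h1 : sc M (2 ^ k) a (sc M 2 δ z) = sc M (2 ^ (k + 1))
        ((((Equiv.arrowProdEquivProdArrow (Fin M) (fun _ => Fin (2 ^ k))
      (fun _ => Fin 2)).symm).trans (Equiv.arrowCongr (Equiv.refl (Fin M))
        (finProdFinEquiv.trans (finCongr (pow_succ 2 k).symm)))) (a, δ)) z := by
      funext i
      simp only [sc]
      split_ifs with h
      · have h2 : ((((((Equiv.arrowProdEquivProdArrow (Fin M) (fun _ => Fin (2 ^ k))
      (fun _ => Fin 2)).symm).trans (Equiv.arrowCongr (Equiv.refl (Fin M))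
        (finProdFinEquiv.trans (finCongr (pow_succ 2 k).symm)))) (a, δ)) ⟨i, h⟩ :
          Fin (2 ^ (k + 1))) : ℕ) = (δ ⟨i, h⟩ : ℕ) + 2 * (a ⟨i, h⟩ : ℕ) := rfl
        rw [h2]
        push_cast
        rw [pow_succ]
        field_simp
        ring
      · rfl
    rw [h1, pow_succ (2 : ℂ) k]
    rw [← mul_assoc, ← mul_pow]
    congr 2
    field_simp

theorem inR_hvN {M : ℕ} (hM : 1 ≤ M) {f : Pt → ℂ} (hf : IsRat Qi X0 f)
    (hd : DepOn X0 (Set.Iio M) f) : ∃ k0 : ℕ, ∀ k ≥ k0, InR I_mem_Qi M (hvN M k f) := by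
  obtain ⟨k0, h0⟩ := grid_comp hM hf hd
  refine ⟨k0, fun k hk => ?_⟩
  choose c V R hV hR he using h0 k hk
  have h1 : InR I_mem_Qi M (fun z => ∑ a : Fin M → Fin (2 ^ k),
      (1 / (2 ^ k : ℂ)) ^ M * ((c a : ℂ) * (V a z / (4 - R a z)))) := by
    refine InR.sum hM Finset.univ _ fun a _ => ?_
    refine InR.smul (inR_quot hM (hV a) (hR a) (c a).2) ?_
    exact pow_mem (div_mem (one_mem _) (pow_mem (ofNat_mem _ 2) k)) M
  refine h1.congr ?_
  intro z hz
  show (∑ a : Fin M → Fin (2 ^ k),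
      (1 / (2 ^ k : ℂ)) ^ M * ((c a : ℂ) * (V a z / (4 - R a z)))) = hvN M k f z
  rw [hvN_eq]
  refine Finset.sum_congr rfl fun a _ => ?_
  rw [he a z hz]

end MP1eadaeL
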