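import Pool.Agent.Lib_MP_1eadae_ft.TmC
import Pool.Agent.Lib_MP_1eadae_ft.Cau

/-! # MP_1eadae_ag (FT), piece HOM: homotopies in a segment coordinate -/

namespace MP1eadaeL

open Complex Function MvPolynomial

variable {K : Subfield ℂ} {hI : I ∈ K} {Cl : (Pt → ℂ) → Prop}
  {Dn : Finset ℕ → MvPolynomial ℕ K → Prop} {Ex : MvPolynomial ℕ K → Prop}

/-- substitution of the polynomial `φ` for `X_i` -/
noncomputable def sbt (i : ℕ) (φ P : MvPolynomial ℕ K) : MvPolynomial ℕ K :=
  bind₁ (fun j => if j = i then φ else X j) P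

/- Piece HOM (all theorems of this file).
`homot`: put `R_φ = pev (sbt i φ P) / pev (l.map (sbt i φ)).prod`, in `TM Dn A`, and
`G = R_φ * φ_i`, `G' = R_φ * φ_s` with `φ_i = pev (pderiv i φ)`, `φ_s = pev (pderiv s φ)`.  Chain
rule for polynomials (`s ∉ P.vars`): `∂_s (sbt i φ P) = sbt i φ (∂_i P) * ∂_s φ` and
`∂_i (sbt i φ P) = sbt i φ (∂_i P) * ∂_i φ`, so `∂_s G = ∂_i G'` (`rb_pderiv_pderiv_comm` for the
mixed second derivatives of `φ`).  `st_seg` for `G` in the direction `s` and for `G'` in the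
direction `i`, subtract.
`rename1`: `φ = X s * X i`: `φ_i = z_s`, `φ_s = z_i`.
`halve`: `φ = C (1/2) * (X i * (1 + X s))`, then `rename1` for the function
`z ↦ R(update z i ((1+z_i)/2))` (numerator `sbt i (C (1/2) * (1 + X i)) P`, list
`l.map (sbt i (C (1/2) * (1 + X i)))`). -/

theorem pev_sbt (i : ℕ) (φ P : MvPolynomial ℕ K) (z : Pt) :
    pev (sbt i φ P) z = pev P (update z i (pev φ z)) := by
  unfold sbt pev
  rw [aeval_bind₁]
  congr 2
  funext j
  by_cases hj : j = i
  · subst hj
    rw [if_pos rfl, update_self]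
  · rw [if_neg hj, update_of_ne hj, aeval_X]

theorem hom_sbt_mul (i : ℕ) (φ P Q : MvPolynomial ℕ K) :
    sbt i φ (P * Q) = sbt i φ P * sbt i φ Q := map_mul _ _ _

theorem hom_sbt_add (i : ℕ) (φ P Q : MvPolynomial ℕ K) :
    sbt i φ (P + Q) = sbt i φ P + sbt i φ Q := map_add _ _ _

theorem hom_sbt_prod (i : ℕ) (φ : MvPolynomial ℕ K) (l : List (MvPolynomial ℕ K)) :
    sbt i φ l.prod = (l.map (sbt i φ)).prod :=
  map_list_prod (bind₁ (fun j => if j = i then φ else X j)) l

theorem hom_sbt_X (i j : ℕ) (φ : MvPolynomial ℕ K) :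
    sbt i φ (X j) = if j = i then φ else X j := bind₁_X_right _ _

theorem hom_sbt_C (i : ℕ) (φ : MvPolynomial ℕ K) (a : K) :
    sbt i φ (C a) = C a := bind₁_C_right _ _

theorem hom_sbt_zero (i : ℕ) (φ : MvPolynomial ℕ K) :
    sbt i φ 0 = 0 := map_zero (bind₁ (fun j => if j = i then φ else X j))

/-- chain rule, other variable -/
theorem hom_pd_s {i s : ℕ} (his : s ≠ i) (φ P : MvPolynomial ℕ K) :
    pderiv s (sbt i φ P) = sbt i φ (pderiv i P) * pderiv s φ + sbt i φ (pderiv s P) := by
  induction P using MvPolynomial.induction_on with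
  | C a => rw [hom_sbt_C, pderiv_C, pderiv_C, hom_sbt_zero]; ring
  | add p q hp hq =>
    rw [hom_sbt_add, map_add, hp, hq, map_add, map_add, hom_sbt_add, hom_sbt_add]
    ring
  | mul_X p n hp =>
    rw [hom_sbt_mul, pderiv_mul, hp, pderiv_mul, pderiv_mul, hom_sbt_add, hom_sbt_add,
      hom_sbt_mul, hom_sbt_mul, hom_sbt_mul, hom_sbt_mul, hom_sbt_X]
    by_cases hn : n = i
    · subst hn
      rw [if_pos rfl, pderiv_X_self, pderiv_X_of_ne his.symm, hom_sbt_zero,
        show (1 : MvPolynomial ℕ K) = C 1 from (map_one _).symm, hom_sbt_C, map_one]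
      ring
    · rw [if_neg hn, pderiv_X_of_ne hn, hom_sbt_zero]
      by_cases hs : n = s
      · subst hs
        rw [pderiv_X_self, show (1 : MvPolynomial ℕ K) = C 1 from (map_one _).symm, hom_sbt_C,
          map_one]
        ring
      · rw [pderiv_X_of_ne hs, hom_sbt_zero]
        ring

/-- chain rule, same variable -/
theorem hom_pd_i (i : ℕ) (φ P : MvPolynomial ℕ K) :
    pderiv i (sbt i φ P) = sbt i φ (pderiv i P) * pderiv i φ := by
  induction P using MvPolynomial.induction_on with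
  | C a => rw [hom_sbt_C, pderiv_C, hom_sbt_zero]; ring
  | add p q hp hq =>
    rw [hom_sbt_add, map_add, hp, hq, map_add, hom_sbt_add]
    ring
  | mul_X p n hp =>
    rw [hom_sbt_mul, pderiv_mul, hp, pderiv_mul, hom_sbt_add, hom_sbt_mul, hom_sbt_mul, hom_sbt_X]
    by_cases hn : n = i
    · subst hn
      rw [if_pos rfl, pderiv_X_self, show (1 : MvPolynomial ℕ K) = C 1 from (map_one _).symm,
        hom_sbt_C, map_one]
      ring
    · rw [if_neg hn, pderiv_X_of_ne hn, hom_sbt_zero]
      ring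

theorem hom_list_vars {s : ℕ} {l : List (MvPolynomial ℕ K)} (hl : ∀ L ∈ l, s ∉ L.vars) :
    pderiv s l.prod = 0 := by
  induction l with
  | nil => rw [List.prod_nil]; exact Derivation.map_one_eq_zero _
  | cons L l ih =>
    rw [List.prod_cons, pderiv_mul, ih fun M hM => hl M (List.mem_cons_of_mem _ hM),
      pderiv_eq_zero_of_notMem_vars (hl L List.mem_cons_self)]
    ring

/-- values do not depend on a variable with zero derivative; here: not occurring -/
theorem hom_list_upd {s : ℕ} {l : List (MvPolynomial ℕ K)} (hl : ∀ L ∈ l, s ∉ L.vars) {z w : Pt}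
    (h : ∀ j, j ≠ s → z j = w j) : pev l.prod z = pev l.prod w := by
  induction l with
  | nil =>
    unfold pev
    rw [List.prod_nil, map_one, map_one]
  | cons L l ih =>
    rw [List.prod_cons, rb_pev_mul, rb_pev_mul, ih fun M hM => hl M (List.mem_cons_of_mem _ hM),
      pev_congr_vars (P := L) (z := z) (w := w) fun v hv => h v fun e =>
        hl L List.mem_cons_self (e ▸ hv)]

theorem Sys.homot (S : Sys K hI Cl Dn Ex) {A : Finset ℕ} {i s : ℕ} (hi : i ∉ A) (hs : s ∉ A)
    (his : s ≠ i) {φ P : MvPolynomial ℕ K} {l : List (MvPolynomial ℕ K)}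
    (hφ : ∀ v ∈ φ.vars, v = i ∨ v = s) (hP : s ∉ P.vars)
    (hl : ∀ L ∈ l, s ∉ L.vars ∧ Dn A (sbt i φ L)) :
    St Cl X0 Set.univ (ctrs A (fun z =>
      pev (sbt i φ P) (update z s 1) / pev (sbt i φ l.prod) (update z s 1)
          * pev (pderiv i φ) (update z s 1)
        - pev (sbt i φ P) (update z s 0) / pev (sbt i φ l.prod) (update z s 0)
          * pev (pderiv i φ) (update z s 0)
        - pev (sbt i φ P) (update z i 1) / pev (sbt i φ l.prod) (update z i 1)
          * pev (pderiv s φ) (update z i 1)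
        + pev (sbt i φ P) (update z i 0) / pev (sbt i φ l.prod) (update z i 0)
          * pev (pderiv s φ) (update z i 0))) := by
  have hl' : ∀ L ∈ l.map (sbt i φ), Dn A L := by
    intro L hL
    obtain ⟨M, hM, rfl⟩ := List.mem_map.1 hL
    exact (hl M hM).2
  have hne : ∀ z ∈ Dom (XA A), pev (sbt i φ l.prod) z ≠ 0 := by
    intro z hz
    rw [hom_sbt_prod]
    exact pev_prod_ne S hl' hz
  have hR : TM Dn A (fun z => pev (sbt i φ P) z / pev (sbt i φ l.prod) z) := by
    rw [hom_sbt_prod]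
    exact TM.quot _ hl'
  have hG : TM Dn A (fun z => pev (sbt i φ P) z / pev (sbt i φ l.prod) z * pev (pderiv i φ) z) :=
    hR.mul (TM.poly _)
  have hG' : TM Dn A (fun z => pev (sbt i φ P) z / pev (sbt i φ l.prod) z * pev (pderiv s φ) z) :=
    hR.mul (TM.poly _)
  obtain ⟨H1, hH1, hP1⟩ := hG.part S s
  obtain ⟨H2, hH2, hP2⟩ := hG'.part S i
  have hUs : ∀ w ∈ XA A s, UniqueDiffWithinAt ℂ (XA A s) w := by
    rw [XA_seg hs]; exact ud_seg
  have hUi : ∀ w ∈ XA A i, UniqueDiffWithinAt ℂ (XA A i) w := by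
    rw [XA_seg hi]; exact ud_seg
  have e1 := Part.unique hUs hP1 (((rb_pev_part (X := XA A) (sbt i φ P) s).div
    (rb_pev_part (sbt i φ l.prod) s) hne).mul (rb_pev_part (pderiv i φ) s))
  have e2 := Part.unique hUi hP2 (((rb_pev_part (X := XA A) (sbt i φ P) i).div
    (rb_pev_part (sbt i φ l.prod) i) hne).mul (rb_pev_part (pderiv s φ) i))
  have e12 : ∀ z ∈ Dom (XA A), H1 z = H2 z := by
    intro z hz
    rw [e1 z hz, e2 z hz, hom_pd_s his, hom_pd_s his, hom_pd_i, hom_pd_i,
      pderiv_eq_zero_of_notMem_vars hP, hom_list_vars fun L hL => (hl L hL).1, hom_sbt_zero,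
      add_zero, add_zero, rb_pev_mul, rb_pev_mul, rb_pev_mul, rb_pev_mul,
      rb_pderiv_pderiv_comm i s φ]
    ring
  have g1 := S.st_seg hs hG hH1 hP1
  have g2 := S.st_seg hi hG' hH2 hP2
  refine St.congr _ _ (g2.sub g1) fun z hz => ?_
  rw [← ctrs_sub]
  refine ctrs_congr (fun w hw => ?_) z hz
  rw [e12 w hw]
  ring

/-- renaming a segment coordinate -/
theorem Sys.rename1 (S : Sys K hI Cl Dn Ex) {A : Finset ℕ} {i s : ℕ} (hi : i ∉ A) (hs : s ∉ A)
    (his : s ≠ i) {P : MvPolynomial ℕ K} {l : List (MvPolynomial ℕ K)} (hP : s ∉ P.vars)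
    (hl : ∀ L ∈ l, s ∉ L.vars ∧ Dn A (sub i s L)) :
    St Cl X0 Set.univ (ctrs A (fun z => pev P z / pev l.prod z
      - pev P (update z i (z s)) / pev l.prod (update z i (z s)))) := by
  have hv : ∀ v ∈ (X s * X i : MvPolynomial ℕ K).vars, v = i ∨ v = s := by
    intro v hv
    have h1 := vars_mul (X s : MvPolynomial ℕ K) (X i) hv
    rw [vars_X, vars_X] at h1
    simp only [Finset.mem_union, Finset.mem_singleton] at h1
    tauto
  have h1 := S.homot (φ := X s * X i) (l := l) hi hs his hv hP hl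
  refine St.congr _ _ h1 fun z hz => ?_
  refine ctrs_congr (fun w hw => ?_) z hz
  have hpi : pderiv i (X s * X i : MvPolynomial ℕ K) = X s := by
    rw [pderiv_mul, pderiv_X_of_ne his, pderiv_X_self]
    ring
  have hps : pderiv s (X s * X i : MvPolynomial ℕ K) = X i := by
    rw [pderiv_mul, pderiv_X_of_ne his.symm, pderiv_X_self]
    ring
  have hX : ∀ (j : ℕ) (y : Pt), pev (X j : MvPolynomial ℕ K) y = y j := fun j y => aeval_X _ _
  simp only [hpi, hps, pev_sbt, hX, rb_pev_mul, update_self, update_of_ne his,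
    update_of_ne his.symm, one_mul, mul_one, mul_zero, zero_mul, sub_zero, add_zero, update_idem]
  have a1 : pev P (update (update w s 1) i (w i)) = pev P w := by
    refine pev_congr_vars fun v hv => ?_
    have hvs : v ≠ s := fun e => hP (e ▸ hv)
    by_cases hvi : v = i
    · subst hvi
      rw [update_self]
    · rw [update_of_ne hvi, update_of_ne hvs]
  have a2 : pev l.prod (update (update w s 1) i (w i)) = pev l.prod w := by
    refine hom_list_upd (fun L hL => (hl L hL).1) fun v hvs => ?_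
    by_cases hvi : v = i
    · subst hvi
      rw [update_self]
    · rw [update_of_ne hvi, update_of_ne hvs]
  rw [a1, a2]

/-- halving a segment coordinate -/
theorem Sys.halve (S : Sys K hI Cl Dn Ex) {A : Finset ℕ} {i s : ℕ} (hi : i ∉ A) (hs : s ∉ A)
    (his : s ≠ i) {P : MvPolynomial ℕ K} {l : List (MvPolynomial ℕ K)} (hP : s ∉ P.vars)
    (hl : ∀ L ∈ l, s ∉ L.vars ∧ Dn A (sbt i (C (1 / 2) * (X i * (1 + X s))) L) ∧
      Dn A (sbt i (C (1 / 2) * (1 + X s * X i)) L)) :
    St Cl X0 Set.univ (ctrs A (fun z => pev P z / pev l.prod z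
      - 1 / 2 * (pev P (update z i (z i / 2)) / pev l.prod (update z i (z i / 2)))
      - 1 / 2 * (pev P (update z i ((1 + z i) / 2))
        / pev l.prod (update z i ((1 + z i) / 2))))) := by
  have hX : ∀ (j : ℕ) (y : Pt), pev (X j : MvPolynomial ℕ K) y = y j := fun j y => aeval_X _ _
  have hC2 : ∀ (y : Pt), pev (C (1 / 2) : MvPolynomial ℕ K) y = 1 / 2 := by
    intro y
    unfold pev
    rw [aeval_C, map_div₀, map_one, map_ofNat]
  have h1v : pev (1 : MvPolynomial ℕ K) = fun _ => 1 := by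
    funext y
    exact map_one _
  have hv : ∀ v ∈ (C (1 / 2) * (X i * (1 + X s)) : MvPolynomial ℕ K).vars, v = i ∨ v = s := by
    intro v hv
    have h1 := vars_mul _ _ hv
    rw [vars_C, Finset.empty_union] at h1
    have h2 := vars_mul _ _ h1
    rw [Finset.mem_union] at h2
    rcases h2 with h2 | h2
    · rw [vars_X, Finset.mem_singleton] at h2
      exact Or.inl h2
    · have h3 := vars_add_subset _ _ h2
      rw [vars_one, Finset.empty_union, vars_X, Finset.mem_singleton] at h3
      exact Or.inr h3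
  have h1 := S.homot (φ := C (1 / 2) * (X i * (1 + X s))) (l := l) hi hs his hv hP
    fun L hL => ⟨(hl L hL).1, (hl L hL).2.1⟩
  have hvv : ∀ {Q : MvPolynomial ℕ K}, s ∉ Q.vars → s ∉ (sbt i (C (1 / 2) * (1 + X i)) Q).vars := by
    intro Q hQ hsQ
    obtain ⟨j, hj, hj'⟩ := mem_vars_bind₁ _ _ hsQ
    by_cases hji : j = i
    · rw [if_pos hji] at hj'
      have h1 := vars_mul _ _ hj'
      rw [vars_C, Finset.empty_union] at h1
      have h3 := vars_add_subset _ _ h1
      rw [vars_one, Finset.empty_union, vars_X, Finset.mem_singleton] at h3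
      exact his h3
    · rw [if_neg hji, vars_X, Finset.mem_singleton] at hj'
      exact hQ (hj' ▸ hj)
  have h2 := S.rename1 (P := sbt i (C (1 / 2) * (1 + X i)) P)
    (l := l.map (sbt i (C (1 / 2) * (1 + X i)))) hi hs his (hvv hP) (by
      intro L hL
      obtain ⟨M, hM, rfl⟩ := List.mem_map.1 hL
      refine ⟨hvv (hl M hM).1, ?_⟩
      have h3 : sub i s (sbt i (C (1 / 2) * (1 + X i)) M) =
          sbt i (C (1 / 2) * (1 + X s * X i)) M := by
        unfold sub sbt
        rw [bind₁_bind₁]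
        congr 2
        funext j
        by_cases hj : j = i
        · rw [if_pos hj, if_pos hj, map_mul, map_add, map_one, bind₁_C_right, bind₁_X_right,
            if_pos rfl]
        · rw [if_neg hj, if_neg hj, bind₁_X_right, if_neg hj]
      rw [h3]
      exact (hl M hM).2.2)
  have hK : ((1 : ℂ) / 2) ∈ K := K.div_mem K.one_mem (ofNat_mem K 2)
  have h3 := S.st_smul hK h2
  refine St.congr _ _ (h1.sub h3) fun z hz => ?_
  rw [← ctrs_const_mul, ← ctrs_sub]
  refine ctrs_congr (fun w hw => ?_) z hz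
  have hpi : pderiv i (C (1 / 2) * (X i * (1 + X s)) : MvPolynomial ℕ K) =
      C (1 / 2) * (1 + X s) := by
    rw [pderiv_mul, pderiv_mul, pderiv_C, map_add, pderiv_X_of_ne his, pderiv_X_self,
      Derivation.map_one_eq_zero]
    ring
  have hps : pderiv s (C (1 / 2) * (X i * (1 + X s)) : MvPolynomial ℕ K) = C (1 / 2) * X i := by
    rw [pderiv_mul, pderiv_mul, pderiv_C, map_add, pderiv_X_of_ne his.symm, pderiv_X_self,
      Derivation.map_one_eq_zero]
    ring
  simp only [hpi, hps, ← hom_sbt_prod, pev_sbt, hX, hC2, h1v, rb_pev_mul, rb_pev_add, update_self,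
    update_of_ne his, update_of_ne his.symm, update_idem]
  have b1 : (1 : ℂ) / 2 * (w i * (1 + 1)) = w i := by ring
  have b2 : (1 : ℂ) / 2 * (w i * (1 + 0)) = w i / 2 := by ring
  have b3 : (1 : ℂ) / 2 * (1 * (1 + w s)) = 1 / 2 * (1 + w s) := by ring
  have b4 : (1 : ℂ) / 2 * (1 + w i) = (1 + w i) / 2 := by ring
  rw [b1, b2, b3, b4]
  have a1 : ∀ (t : ℂ) (y : ℂ), pev P (update (update w s t) i y) = pev P (update w i y) := by
    intro t y
    refine pev_congr_vars fun v hv => ?_
    have hvs : v ≠ s := fun e => hP (e ▸ hv)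
    by_cases hvi : v = i
    · subst hvi
      rw [update_self, update_self]
    · rw [update_of_ne hvi, update_of_ne hvi, update_of_ne hvs]
  have a2 : ∀ (t : ℂ) (y : ℂ),
      pev l.prod (update (update w s t) i y) = pev l.prod (update w i y) := by
    intro t y
    refine hom_list_upd (fun L hL => (hl L hL).1) fun v hvs => ?_
    by_cases hvi : v = i
    · subst hvi
      rw [update_self, update_self]
    · rw [update_of_ne hvi, update_of_ne hvi, update_of_ne hvs]
  rw [a1, a2, a1, a2, update_eq_self]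
  ring

end MP1eadaeL
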