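import Pool.Agent.Lib_MP_1eadae_ft.Zer
import Pool.Agent.Lib_MP_1eadae_ft.Hom

/-! # MP_1eadae_ag (FT), piece SUBAFF: affine substitution in an input of a clean network -/

namespace MP1eadaeL

open Complex Function MvPolynomial

variable {K : Subfield ℂ} {hI : I ∈ K} {Ex : MvPolynomial ℕ K → Prop} {M : ℕ} {W : Net K}

/- Piece SUBAFF.  `W'` has the same nodes and inputs; for a node `k` with `W.a k = i`, `i ∉ A`
(then by `CleanG` the gate is `x_i/2`, or a constant gate, or ...; treat: if `W.a k = i` and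
`W.c k 1 = 1/2` (second alternative)) the coefficients are replaced by `(α/2, β/2, 0, 0)`, all
other gates are unchanged.  `P' = sbt i (C α + C β * X i) P`, `E' = E` (the denominators are
functions of nodes only, `CleanE`).  Then for `k ∈ A`: `W'.th z k = W.th (update z i (α+β z_i)) k`
(strong induction), `pev P' (W'.th z) = pev P (W.th (update z i (α + β z_i)))`, and the kernel of
`W'` at `z` is the kernel of `W` at `update z i (α + β z_i)`, so `ctrs_comp` gives the last
statement. -/

/-- the nodes whose gate is `x_i / 2` -/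
private def sa_cond (W : Net K) (i k : ℕ) : Prop :=
  W.a k = i ∧ W.b k = i ∧ (W.c k 0 : ℂ) = 0 ∧ (W.c k 1 : ℂ) = 1 / 2 ∧ (W.c k 2 : ℂ) = 0 ∧
    (W.c k 3 : ℂ) = 0

open Classical in
private noncomputable def sa_net (W : Net K) (i : ℕ) (α β : K) : Net K where
  A := W.A
  c := fun k => if sa_cond W i k then ![α / 2, β / 2, 0, 0] else W.c k
  a := W.a
  b := W.b

private theorem sa_c_pos {W : Net K} {i k : ℕ} {α β : K} (h : sa_cond W i k) :
    (sa_net W i α β).c k = ![α / 2, β / 2, 0, 0] := by
  unfold sa_net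
  simp only [if_pos h]

private theorem sa_c_neg {W : Net K} {i k : ℕ} {α β : K} (h : ¬ sa_cond W i k) :
    (sa_net W i α β).c k = W.c k := by
  unfold sa_net
  simp only [if_neg h]

/-- the three possible forms of a gate which is not changed -/
private theorem sa_cases {W : Net K} (hc : CleanG W) {i k : ℕ} (hk : k ∈ W.A) (hiA : i ∉ W.A)
    (h : ¬ sa_cond W i k) : (W.a k ≠ i ∧ W.b k ≠ i) ∨
      ((W.c k 1 : ℂ) = 0 ∧ (W.c k 2 : ℂ) = 0 ∧ (W.c k 3 : ℂ) = 0) := by
  rcases hc k hk with h1 | h1 | h1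
  · left
    exact ⟨fun h2 => hiA (h2 ▸ h1.1), fun h2 => hiA (h2 ▸ h1.2)⟩
  · left
    have h2 : W.a k ≠ i := fun h2 => h ⟨h2, h1.1.trans h2, h1.2.2⟩
    exact ⟨h2, fun h3 => h2 (h1.1.symm.trans h3)⟩
  · right
    exact h1

private theorem sa_wf {W : Net K} {M i : ℕ} {α β : K} (hW : Wf M W)
    (hαβ : GCK ![α / 2, β / 2, 0, 0]) : Wf M (sa_net W i α β) := by
  intro k hk
  obtain ⟨h1, h2, h3⟩ := hW k hk
  refine ⟨h1, ?_, h3⟩
  by_cases h : sa_cond W i k
  · rw [sa_c_pos h]
    exact hαβ
  · rw [sa_c_neg h]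
    exact h2

private theorem sa_two : ((2 : K) : ℂ) = 2 := rfl

private theorem sa_lin (i : ℕ) (α β : K) (z : Pt) :
    pev (C α + C β * X i : MvPolynomial ℕ K) z = (α : ℂ) + (β : ℂ) * z i := by
  unfold pev
  rw [map_add, map_mul, aeval_C, aeval_C, aeval_X]
  rfl

private theorem sa_E {W : Net K} {E : List (MvPolynomial ℕ K)} (he : CleanE hI W E) {i : ℕ}
    (hiA : i ∉ W.A) (z : Pt) (w : ℂ) : pev E.prod (update z i w) = pev E.prod z := by
  induction E with
  | nil => simp [pev]
  | cons L E ih =>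
    have h1 : pev L (update z i w) = pev L z := by
      obtain ⟨v, hv, h2⟩ := he L (List.mem_cons_self)
      have hvi : v ≠ i := fun h => hiA (h ▸ hv)
      rcases h2 with h2 | ⟨e, c, _, _, h2⟩
      · rw [h2]
        unfold pev
        rw [map_sub, map_sub, aeval_X, aeval_X, update_of_ne hvi, aeval_C, aeval_C]
      · rw [h2]
        unfold pev fin8
        simp only [map_add, map_mul, aeval_X, aeval_C, update_of_ne hvi]
    have h3 : ∀ u : Pt, pev (L :: E).prod u = pev L u * pev E.prod u := by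
      intro u
      rw [List.prod_cons]
      exact map_mul _ _ _
    rw [h3, h3, h1, ih (fun L' hL' => he L' (List.mem_cons_of_mem _ hL'))]

private theorem sa_gp {W : Net K} (hc : CleanG W) {i k : ℕ} {α β : K} (hk : k ∈ W.A)
    (hiA : i ∉ W.A) (z : Pt) :
    pev (W.gp k) (update z i ((α : ℂ) + (β : ℂ) * z i)) = pev ((sa_net W i α β).gp k) z := by
  rw [pev_gp, pev_gp]
  have ha : (sa_net W i α β).a = W.a := rfl
  have hb : (sa_net W i α β).b = W.b := rfl
  rw [ha, hb]
  by_cases h : sa_cond W i k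
  · rw [sa_c_pos h]
    obtain ⟨h1, h2, h3, h4, h5, h6⟩ := h
    rw [h1, h2, h3, h4, h5, h6, update_self]
    simp [sa_two]
    ring
  · rw [sa_c_neg h]
    rcases sa_cases hc hk hiA h with ⟨h1, h2⟩ | ⟨h1, h2, h3⟩
    · rw [update_of_ne h1, update_of_ne h2]
    · rw [h1, h2, h3]
      ring

private theorem sa_th {W : Net K} {M : ℕ} (hW : Wf M W) (hc : CleanG W) {i : ℕ} {α β : K}
    (hiA : i ∉ W.A) (hαβ : GCK ![α / 2, β / 2, 0, 0]) (z : Pt) (k : ℕ) (hki : k ≠ i) :
    (sa_net W i α β).th z k = W.th (update z i ((α : ℂ) + (β : ℂ) * z i)) k := by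
  have hW' := sa_wf (i := i) hW hαβ
  induction k using Nat.strong_induction_on with
  | _ k ih =>
    by_cases hk : k ∈ W.A
    · obtain ⟨_, _, hak, hbk, _⟩ := hW k hk
      rw [th_node hW' (show k ∈ (sa_net W i α β).A from hk) z, th_node hW hk]
      have ha : (sa_net W i α β).a = W.a := rfl
      have hb : (sa_net W i α β).b = W.b := rfl
      rw [ha, hb]
      by_cases h : sa_cond W i k
      · rw [sa_c_pos h]
        obtain ⟨h1, h2, h3, h4, h5, h6⟩ := h
        rw [h1, h2, h3, h4, h5, h6, th_seg (W := sa_net W i α β) (show i ∉ (sa_net W i α β).A from hiA),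
          th_seg hiA, update_self]
        simp [sa_two]
        ring
      · rw [sa_c_neg h]
        rcases sa_cases hc hk hiA h with ⟨h1, h2⟩ | ⟨h1, h2, h3⟩
        · rw [ih _ hak h1, ih _ hbk h2]
        · rw [h1, h2, h3]
          ring
    · rw [th_seg (W := sa_net W i α β) (show k ∉ (sa_net W i α β).A from hk), th_seg hk,
        update_of_ne hki]

theorem Rpr.subst_aff {P : MvPolynomial ℕ K} {E : List (MvPolynomial ℕ K)} {f : Pt → ℂ}
    (h : Rpr hI Ex M W P E f) (hc : CleanG W) (he : CleanE hI W E) {i : ℕ} (hi : i < M)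
    {α β : K} (hαβ : GCK ![α / 2, β / 2, 0, 0])
    (hseg : ∀ w ∈ seg, (α : ℂ) + (β : ℂ) * w ∈ seg) :
    ∃ (W' : Net K) (P' : MvPolynomial ℕ K), W'.A = W.A ∧
      Rpr hI Ex M W' P' E (fun z => f (update z i ((α : ℂ) + (β : ℂ) * z i))) ∧
      (β = 0 → CleanG W') ∧ CleanE hI W' E ∧
      ∀ z ∈ Dom X0, cls W P E (update z i ((α : ℂ) + (β : ℂ) * z i)) = cls W' P' E z := by
  have hiA : i ∉ W.A := fun h1 => absurd (h.wf i h1).1 (not_le.2 hi)
  have hW' : Wf M (sa_net W i α β) := sa_wf h.wf hαβ
  refine ⟨sa_net W i α β, sbt i (C α + C β * X i) P, rfl, ?_, ?_, ?_, ?_⟩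
  · refine ⟨h.hM, hW', h.fn, ?_, h.vE, ?_⟩
    · intro v hv
      have h1 := vars_bind₁ _ _ hv
      rw [Finset.mem_biUnion] at h1
      obtain ⟨j, hj, h2⟩ := h1
      by_cases hji : j = i
      · rw [if_pos hji] at h2
        have h3 := vars_add_subset _ _ h2
        rw [vars_C, Finset.empty_union] at h3
        have h4 := vars_mul _ _ h3
        rw [vars_C, Finset.empty_union, vars_X, Finset.mem_singleton] at h4
        right
        rw [h4]
        exact hi
      · rw [if_neg hji, vars_X, Finset.mem_singleton] at h2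
        rw [h2]
        exact h.vP j hj
    · intro z hz
      have hz' : update z i ((α : ℂ) + (β : ℂ) * z i) ∈ Dom X0 :=
        rb_dom_mem_update hz (hseg _ (hz i))
      have h1 : W.th (update z i ((α : ℂ) + (β : ℂ) * z i))
          = update ((sa_net W i α β).th z) i ((α : ℂ) + (β : ℂ) * z i) := by
        funext k
        by_cases hki : k = i
        · subst hki
          rw [update_self, th_seg hiA, update_self]
        · rw [update_of_ne hki, sa_th h.wf hc hiA hαβ z k hki]
      show f (update z i ((α : ℂ) + (β : ℂ) * z i)) = _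
      rw [h.eq _ hz', h1]
      unfold nm
      rw [sa_E he hiA, pev_sbt, sa_lin,
        th_seg (W := sa_net W i α β) (show i ∉ (sa_net W i α β).A from hiA)]
  · intro hβ k hk
    by_cases hck : sa_cond W i k
    · right
      right
      rw [sa_c_pos hck, hβ]
      simp
    · rw [sa_c_neg hck]
      exact hc k hk
  · exact he
  · intro z _
    unfold cls
    rw [ctrs_comp (fun z => update z i ((α : ℂ) + (β : ℂ) * z i))
      (fun z k hk => update_of_ne (fun h1 : k = i => hiA (h1 ▸ hk)) _ _)
      (fun z k hk w => by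
        have hki : k ≠ i := fun h1 => hiA (h1 ▸ hk)
        show update (update z k w) i ((α : ℂ) + (β : ℂ) * (update z k w) i)
          = update (update z i ((α : ℂ) + (β : ℂ) * z i)) k w
        rw [update_of_ne (Ne.symm hki), update_comm hki])]
    have h2 : (fun z : Pt => nm P E (update z i ((α : ℂ) + (β : ℂ) * z i))
          * W.ker (update z i ((α : ℂ) + (β : ℂ) * z i)))
        = (fun z : Pt => nm (sbt i (C α + C β * X i) P) E z * (sa_net W i α β).ker z) := by
      funext z
      congr 1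
      · unfold nm
        rw [sa_E he hiA, pev_sbt, sa_lin]
      · unfold Net.ker
        refine Finset.prod_congr rfl fun k hk => ?_
        have hki : k ≠ i := fun h1 => hiA (h1 ▸ hk)
        rw [update_of_ne hki, sa_gp hc hk hiA]
    rw [h2]
    rfl

end MP1eadaeL
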