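import Pool.Agent.Lib_MP_1eadae_ft.Joi
import Pool.Agent.Lib_MP_1eadae_ft.Shi
import Pool.Agent.Lib_MP_1eadae_ft.DerA
import Pool.Agent.Lib_MP_1eadae_ft.SubAff

/-! # MP_1eadae_ag (FT), piece INRA: the functions computed by clean networks -/

namespace MP1eadaeL

open Complex Function MvPolynomial

variable {K : Subfield ℂ} {hI : I ∈ K} {M : ℕ}

/- Piece INRA (all theorems of this file).  `InR.add`: shift the second network beyond the first
(`Rpr.shift`), `Rpr.left`, `Rpr.right`, `Rpr.add_same`, `cleanG_join`, `cleanE_join`.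
`cleanE_ne`: `CleanE` denominators do not vanish on `Dom (XD A)`: `|4 - v| ≥ 2`, and
`8 + e i (c + 2 v)` has real part `≥ 4`.
`InR.deriv`: `exists_dw` (`i < M` is not a node) and `Rpr.deriv`; `CleanE` for `E ++ E`.
`InR.face`: `Rpr.subst_aff` with `β = 0`, `α = 0` or `1`. -/

private theorem ia_list_ne {l : List (MvPolynomial ℕ K)} {z : Pt}
    (h : ∀ L ∈ l, pev L z ≠ 0) : pev l.prod z ≠ 0 := by
  induction l with
  | nil => simp [pev]
  | cons L l ih =>
    rw [List.prod_cons, rb_pev_mul]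
    exact mul_ne_zero (h L (by simp)) (ih (fun L' hL' => h L' (by simp [hL'])))

theorem cleanE_ne {W : Net K} {E : List (MvPolynomial ℕ K)} (he : CleanE hI W E) :
    ∀ L ∈ E, ∀ z ∈ Dom (XD W.A), pev L z ≠ 0 := by
  intro L hL z hz
  obtain ⟨v, hv, h⟩ := he L hL
  have hd : ‖z v‖ ≤ 2 := by
    have h1 := hz v
    unfold XD at h1
    rw [if_pos hv] at h1
    have h2 : dist (z v) 0 ≤ ((2 : ℚ) : ℝ) := h1
    rw [dist_zero_right] at h2
    have h3 : ((2 : ℚ) : ℝ) = 2 := by norm_num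
    rw [h3] at h2
    exact h2
  rcases h with rfl | ⟨e, c, he', hc, rfl⟩
  · intro h0
    unfold pev at h0
    rw [map_sub, aeval_X, aeval_C] at h0
    have h2 : (algebraMap K ℂ) (4 : K) = 4 := map_ofNat _ _
    rw [h2, sub_eq_zero] at h0
    rw [← h0] at hd
    norm_num at hd
  · unfold pev
    rw [TEMG_aeval_fin8, aeval_X]
    refine TEMG_fin8_ne he' ?_
    have h2 := Complex.abs_im_le_norm (z v)
    push_cast
    linarith

theorem cleanE_fn {Ex : MvPolynomial ℕ K → Prop} {W : Net K} {E : List (MvPolynomial ℕ K)}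
    (he : CleanE hI W E) : ∀ L ∈ E, Fn hI Ex W.A L := by
  intro L hL
  obtain ⟨v, hv, h⟩ := he L hL
  exact Or.inl ⟨v, hv, h⟩

theorem InR.congr {f g : Pt → ℂ} (h : InR hI M f) (hfg : ∀ z ∈ Dom X0, f z = g z) :
    InR hI M g := by
  obtain ⟨W, P, E, h1, h2, h3⟩ := h
  exact ⟨W, P, E, h1.congr hfg, h2, h3⟩

theorem InR.zero (hM : 1 ≤ M) : InR hI M (fun _ => 0) := by
  refine ⟨⟨∅, fun _ _ => 0, fun k => k, fun k => k⟩, 0, [], ⟨hM, ?_, ?_, ?_, ?_, ?_⟩, ?_, ?_⟩
  · intro k hk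
    exact absurd hk (Finset.notMem_empty k)
  · intro L hL
    exact absurd hL List.not_mem_nil
  · intro v hv
    rw [vars_0] at hv
    exact absurd hv (Finset.notMem_empty v)
  · intro L hL
    exact absurd hL List.not_mem_nil
  · intro z _
    have h0 : ∀ w : Pt, pev (0 : MvPolynomial ℕ K) w = 0 := fun w => map_zero _
    unfold nm
    rw [h0, zero_div]
  · intro k hk
    exact absurd hk (Finset.notMem_empty k)
  · intro L hL
    exact absurd hL List.not_mem_nil

theorem InR.add {f g : Pt → ℂ} (h : InR hI M f) (h' : InR hI M g) :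
    InR hI M (fun z => f z + g z) := by
  obtain ⟨W1, P1, E1, h1, c1, e1⟩ := h
  obtain ⟨W2, P2, E2, h2, c2, e2⟩ := h'
  obtain ⟨W, P, E, h3, hN, hcl, hel⟩ := h2.shift (W1.A.sup id + 1)
  have c3 := hcl c2
  have e3 := hel e2
  have hd : Disjoint W1.A W.A := by
    rw [Finset.disjoint_left]
    intro k hk hk'
    have h4 := hN k hk'
    have h5 : k ≤ W1.A.sup id := Finset.le_sup (f := id) hk
    omega
  have hE := cleanE_ne (cleanE_join e1 e3)
  exact ⟨W1.join W, _, E1 ++ E, (h1.left h3.wf hd).add_same (Rpr.right h1.wf h3 hd)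
    (fun L hL => hE L (List.mem_append.2 (Or.inl hL)))
    (fun L hL => hE L (List.mem_append.2 (Or.inr hL))),
    cleanG_join h1.wf h3.wf hd c1 c3, cleanE_join e1 e3⟩

theorem InR.smul {f : Pt → ℂ} (h : InR hI M f) {a : ℂ} (ha : a ∈ K) :
    InR hI M (fun z => a * f z) := by
  obtain ⟨W, P, E, h1, h2, h3⟩ := h
  exact ⟨W, _, E, h1.smul ⟨a, ha⟩, h2, h3⟩

theorem InR.sum (hM : 1 ≤ M) {ι : Type} (s : Finset ι) (f : ι → Pt → ℂ)
    (h : ∀ j ∈ s, InR hI M (f j)) : InR hI M (fun z => ∑ j ∈ s, f j z) := by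
  classical
  induction s using Finset.induction_on with
  | empty =>
    refine (InR.zero hM).congr fun z _ => ?_
    rw [Finset.sum_empty]
  | insert a s ha ih =>
    refine ((h a (Finset.mem_insert_self a s)).add
      (ih fun j hj => h j (Finset.mem_insert_of_mem hj))).congr fun z _ => ?_
    rw [Finset.sum_insert ha]

theorem InR.dep {f : Pt → ℂ} (h : InR hI M f) : DepOn X0 (Set.Iio M) f := by
  obtain ⟨W, P, E, h1, h2, h3⟩ := h
  exact h1.dep_f

theorem InR.deriv {f f' : Pt → ℂ} (h : InR hI M f) {i : ℕ} (hi : i < M)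
    (hf' : Part X0 i f f') : InR hI M f' := by
  obtain ⟨W, P, E, h1, h2, h3⟩ := h
  have hiA : i ∉ W.A := fun hiA => absurd (h1.wf i hiA).1 (by omega)
  obtain ⟨w, hw⟩ := exists_dw h1.wf hiA
  refine ⟨W, _, E ++ E, h1.deriv (cleanE_ne h3) hi hw hf', h2, fun L hL => ?_⟩
  rcases List.mem_append.1 hL with hL | hL <;> exact h3 L hL

theorem InR.exists_part {f : Pt → ℂ} (h : InR hI M f) {i : ℕ} (hi : i < M) :
    ∃ f', Part X0 i f f' := by
  obtain ⟨W, P, E, h1, h2, h3⟩ := h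
  have hiA : i ∉ W.A := fun hiA => absurd (h1.wf i hiA).1 (by omega)
  obtain ⟨w, hw⟩ := exists_dw h1.wf hiA
  have hE : ∀ z ∈ Dom X0, pev E.prod (W.th z) ≠ 0 := fun z hz =>
    ia_list_ne (fun L hL => cleanE_ne h3 L hL _ (th_mem h1.wf hz))
  exact ⟨_, ((part_pev_th h1.wf hiA hw P).div (part_pev_th h1.wf hiA hw E.prod) hE).congr
    (fun z hz => (h1.eq z hz).symm) (fun z _ => rfl)⟩

theorem InR.face {f : Pt → ℂ} (h : InR hI M f) {i : ℕ} (hi : i < M) {b : ℂ}
    (hb : b = 0 ∨ b = 1) : InR hI M (fun z => f (update z i b)) := by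
  obtain ⟨W, P, E, h1, h2, h3⟩ := h
  rcases hb with rfl | rfl
  · obtain ⟨W', P', -, h4, h5, h6, -⟩ := h1.subst_aff h2 h3 hi (α := 0) (β := 0)
      ⟨fun j => ⟨0, 0, by fin_cases j <;> simp⟩, by simp; norm_num⟩
      (fun w _ => by
        have : ((0 : K) : ℂ) + ((0 : K) : ℂ) * w = 0 := by simp
        rw [this]
        exact zero_mem_seg)
    refine ⟨W', P', E, h4.congr fun z _ => ?_, h5 rfl, h6⟩
    have : ((0 : K) : ℂ) + ((0 : K) : ℂ) * z i = 0 := by simp
    rw [this]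
  · obtain ⟨W', P', -, h4, h5, h6, -⟩ := h1.subst_aff h2 h3 hi (α := 1) (β := 0)
      ⟨fun j => by
        fin_cases j
        · exact ⟨2, 0, by
            simp
            rw [show ((2 : K) : ℂ) = 2 from rfl]
            norm_num⟩
        · exact ⟨0, 0, by simp⟩
        · exact ⟨0, 0, by simp⟩
        · exact ⟨0, 0, by simp⟩, by
        simp
        rw [show ((2 : K) : ℂ) = 2 from rfl]
        norm_num⟩
      (fun w _ => by
        have : ((1 : K) : ℂ) + ((0 : K) : ℂ) * w = 1 := by simp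
        rw [this]
        exact one_mem_seg)
    refine ⟨W', P', E, h4.congr fun z _ => ?_, h5 rfl, h6⟩
    have : ((1 : K) : ℂ) + ((0 : K) : ℂ) * z i = 1 := by simp
    rw [this]

end MP1eadaeL
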