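import Pool.Agent.Lib_MP_1eadae_ft.NetA

/-! # MP_1eadae_ag (FT), piece JOI: union of two networks -/

namespace MP1eadaeL

open Complex Function MvPolynomial

variable {K : Subfield ℂ} {hI : I ∈ K} {Ex : MvPolynomial ℕ K → Prop} {M : ℕ}

/-- the union of two networks -/
def Net.join (W1 W2 : Net K) : Net K :=
  ⟨W1.A ∪ W2.A, fun k => if k ∈ W1.A then W1.c k else W2.c k,
    fun k => if k ∈ W1.A then W1.a k else W2.a k, fun k => if k ∈ W1.A then W1.b k else W2.b k⟩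

/- Piece JOI (all theorems of this file).  Strong induction on `k` for the exact values
(`th_node`, `th_seg`): the inputs of a node of `W1` are nodes of `W1` or coordinates `< M`, and
coordinates `< M` are not nodes of `W1`, `W2` (their nodes are `≥ M`).
`rep_add`: values at `θ(z)`: `nm (P1 E2 + P2 E1) (E1 ++ E2) = nm P1 E1 + nm P2 E2` (the
denominators are nonzero by `hne`), the `Fn` conditions by `Fn.mono`. -/

private theorem joi_ite_pos {W1 W2 : Net K} {k : ℕ} (hk : k ∈ W1.A) :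
    (W1.join W2).c k = W1.c k ∧ (W1.join W2).a k = W1.a k ∧ (W1.join W2).b k = W1.b k :=
  ⟨if_pos hk, if_pos hk, if_pos hk⟩

private theorem joi_ite_neg {W1 W2 : Net K} {k : ℕ} (hk : k ∉ W1.A) :
    (W1.join W2).c k = W2.c k ∧ (W1.join W2).a k = W2.a k ∧ (W1.join W2).b k = W2.b k :=
  ⟨if_neg hk, if_neg hk, if_neg hk⟩

private theorem joi_mem {W1 W2 : Net K} {k : ℕ} : k ∈ (W1.join W2).A ↔ k ∈ W1.A ∨ k ∈ W2.A :=
  Finset.mem_union

theorem Wf.join {W1 W2 : Net K} (h1 : Wf M W1) (h2 : Wf M W2) : Wf M (W1.join W2) := by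
  intro k hk
  by_cases hk1 : k ∈ W1.A
  · obtain ⟨e1, e2, e3⟩ := joi_ite_pos (W2 := W2) hk1
    obtain ⟨a1, a2, a3, a4, a5, a6⟩ := h1 k hk1
    rw [e1, e2, e3]
    exact ⟨a1, a2, a3, a4, a5.imp (fun h => joi_mem.2 (Or.inl h)) id,
      a6.imp (fun h => joi_mem.2 (Or.inl h)) id⟩
  · obtain ⟨e1, e2, e3⟩ := joi_ite_neg (W2 := W2) hk1
    obtain ⟨a1, a2, a3, a4, a5, a6⟩ := h2 k ((joi_mem.1 hk).resolve_left hk1)
    rw [e1, e2, e3]
    exact ⟨a1, a2, a3, a4, a5.imp (fun h => joi_mem.2 (Or.inr h)) id,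
      a6.imp (fun h => joi_mem.2 (Or.inr h)) id⟩

theorem join_th_left {W1 W2 : Net K} (h1 : Wf M W1) (h2 : Wf M W2) (z : Pt) {k : ℕ}
    (hk : k ∈ W1.A ∨ k < M) : (W1.join W2).th z k = W1.th z k := by
  induction k using Nat.strong_induction_on with
  | _ k ih =>
    by_cases hk1 : k ∈ W1.A
    · obtain ⟨e1, e2, e3⟩ := joi_ite_pos (W2 := W2) hk1
      obtain ⟨a1, a2, a3, a4, a5, a6⟩ := h1 k hk1
      rw [th_node (h1.join h2) (joi_mem.2 (Or.inl hk1)), th_node h1 hk1, e1, e2, e3,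
        ih _ a3 a5, ih _ a4 a6]
    · have hkM : k < M := hk.resolve_left hk1
      have hk2 : k ∉ W2.A := fun h => absurd (h2 k h).1 (not_le.2 hkM)
      rw [th_seg hk1, th_seg]
      exact fun h => (joi_mem.1 h).elim hk1 hk2

theorem join_th_right {W1 W2 : Net K} (h1 : Wf M W1) (h2 : Wf M W2) (hd : Disjoint W1.A W2.A)
    (z : Pt) {k : ℕ} (hk : k ∈ W2.A ∨ k < M) : (W1.join W2).th z k = W2.th z k := by
  induction k using Nat.strong_induction_on with
  | _ k ih =>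
    by_cases hk2 : k ∈ W2.A
    · have hk1 : k ∉ W1.A := fun h => Finset.disjoint_left.1 hd h hk2
      obtain ⟨e1, e2, e3⟩ := joi_ite_neg (W2 := W2) hk1
      obtain ⟨a1, a2, a3, a4, a5, a6⟩ := h2 k hk2
      rw [th_node (h1.join h2) (joi_mem.2 (Or.inr hk2)), th_node h2 hk2, e1, e2, e3,
        ih _ a3 a5, ih _ a4 a6]
    · have hkM : k < M := hk.resolve_left hk2
      have hk1 : k ∉ W1.A := fun h => absurd (h1 k h).1 (not_le.2 hkM)
      rw [th_seg hk2, th_seg]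
      exact fun h => (joi_mem.1 h).elim hk1 hk2

theorem cleanG_join {W1 W2 : Net K} (h1 : Wf M W1) (h2 : Wf M W2) (hd : Disjoint W1.A W2.A)
    (hc1 : CleanG W1) (hc2 : CleanG W2) : CleanG (W1.join W2) := by
  have _ := hd
  intro k hk
  by_cases hk1 : k ∈ W1.A
  · obtain ⟨e1, e2, e3⟩ := joi_ite_pos (W2 := W2) hk1
    obtain ⟨a1, a2, a3, a4, a5, a6⟩ := h1 k hk1
    rw [e1, e2, e3]
    rcases hc1 k hk1 with ⟨b1, b2⟩ | ⟨b1, b2, b3⟩ | b
    · exact Or.inl ⟨joi_mem.2 (Or.inl b1), joi_mem.2 (Or.inl b2)⟩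
    · have hM : W1.a k < M := a5.resolve_left b2
      have h3 : W1.a k ∉ W2.A := fun h => absurd (h2 _ h).1 (not_le.2 hM)
      exact Or.inr (Or.inl ⟨b1, fun h => (joi_mem.1 h).elim b2 h3, b3⟩)
    · exact Or.inr (Or.inr b)
  · obtain ⟨e1, e2, e3⟩ := joi_ite_neg (W2 := W2) hk1
    have hk2 := (joi_mem.1 hk).resolve_left hk1
    obtain ⟨a1, a2, a3, a4, a5, a6⟩ := h2 k hk2
    rw [e1, e2, e3]
    rcases hc2 k hk2 with ⟨b1, b2⟩ | ⟨b1, b2, b3⟩ | b
    · exact Or.inl ⟨joi_mem.2 (Or.inr b1), joi_mem.2 (Or.inr b2)⟩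
    · have hM : W2.a k < M := a5.resolve_left b2
      have h3 : W2.a k ∉ W1.A := fun h => absurd (h1 _ h).1 (not_le.2 hM)
      exact Or.inr (Or.inl ⟨b1, fun h => (joi_mem.1 h).elim h3 b2, b3⟩)
    · exact Or.inr (Or.inr b)

theorem cleanE_join {W1 W2 : Net K} {E1 E2 : List (MvPolynomial ℕ K)}
    (hc1 : CleanE hI W1 E1) (hc2 : CleanE hI W2 E2) : CleanE hI (W1.join W2) (E1 ++ E2) := by
  intro L hL
  rcases List.mem_append.1 hL with hL | hL
  · obtain ⟨v, hv, h⟩ := hc1 L hL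
    exact ⟨v, joi_mem.2 (Or.inl hv), h⟩
  · obtain ⟨v, hv, h⟩ := hc2 L hL
    exact ⟨v, joi_mem.2 (Or.inr hv), h⟩

private theorem joi_list_vars {S : Set ℕ} {l : List (MvPolynomial ℕ K)}
    (h : ∀ L ∈ l, ∀ v ∈ L.vars, v ∈ S) : ∀ v ∈ l.prod.vars, v ∈ S := by
  induction l with
  | nil =>
    intro v hv
    simp at hv
  | cons L l ih =>
    intro v hv
    rw [List.prod_cons] at hv
    rcases Finset.mem_union.1 (vars_mul _ _ hv) with hv | hv
    · exact h L (by simp) v hv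
    · exact ih (fun L' hL' => h L' (by simp [hL'])) v hv

private theorem joi_list_ne {l : List (MvPolynomial ℕ K)} {z : Pt}
    (h : ∀ L ∈ l, pev L z ≠ 0) : pev l.prod z ≠ 0 := by
  induction l with
  | nil => simp [pev]
  | cons L l ih =>
    rw [List.prod_cons, rb_pev_mul]
    exact mul_ne_zero (h L (by simp)) (ih (fun L' hL' => h L' (by simp [hL'])))

private theorem joi_nm_congr {A : Finset ℕ} {P : MvPolynomial ℕ K}
    {E : List (MvPolynomial ℕ K)} (vP : ∀ v ∈ P.vars, v ∈ A ∨ v < M)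
    (vE : ∀ L ∈ E, ∀ v ∈ L.vars, v ∈ A ∨ v < M) {z w : Pt}
    (h : ∀ v, v ∈ A ∨ v < M → z v = w v) : nm P E z = nm P E w := by
  unfold nm
  rw [pev_congr_vars (fun v hv => h v (vP v hv)),
    pev_congr_vars (fun v hv => h v (joi_list_vars (S := {v | v ∈ A ∨ v < M}) vE v hv))]

/-- the left part of a numerator in the union -/
theorem Rpr.left {W1 W2 : Net K} {P1 : MvPolynomial ℕ K} {E1 : List (MvPolynomial ℕ K)}
    {f : Pt → ℂ} (h1 : Rpr hI Ex M W1 P1 E1 f) (h2 : Wf M W2) (hd : Disjoint W1.A W2.A) :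
    Rpr hI Ex M (W1.join W2) P1 E1 f := by
  have _ := hd
  refine ⟨h1.hM, h1.wf.join h2, fun L hL => ?_, fun v hv => ?_, fun L hL v hv => ?_,
    fun z hz => ?_⟩
  · refine (h1.fn L hL).mono (fun v hv => joi_mem.2 (Or.inl hv)) fun v hv hvA => ?_
    rcases h1.vE L hL v hv with h | h
    · exact h
    · exact (joi_mem.1 hvA).elim id fun h3 => absurd (h2 v h3).1 (not_le.2 h)
  · exact (h1.vP v hv).imp (fun h => joi_mem.2 (Or.inl h)) id
  · exact (h1.vE L hL v hv).imp (fun h => joi_mem.2 (Or.inl h)) id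
  · rw [h1.eq z hz]
    exact joi_nm_congr h1.vP h1.vE fun v hv => (join_th_left h1.wf h2 z hv).symm

theorem Rpr.right {W1 W2 : Net K} {P2 : MvPolynomial ℕ K} {E2 : List (MvPolynomial ℕ K)}
    {f : Pt → ℂ} (h1 : Wf M W1) (h2 : Rpr hI Ex M W2 P2 E2 f) (hd : Disjoint W1.A W2.A) :
    Rpr hI Ex M (W1.join W2) P2 E2 f := by
  refine ⟨h2.hM, h1.join h2.wf, fun L hL => ?_, fun v hv => ?_, fun L hL v hv => ?_,
    fun z hz => ?_⟩
  · refine (h2.fn L hL).mono (fun v hv => joi_mem.2 (Or.inr hv)) fun v hv hvA => ?_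
    rcases h2.vE L hL v hv with h | h
    · exact h
    · exact (joi_mem.1 hvA).elim (fun h3 => absurd (h1 v h3).1 (not_le.2 h)) id
  · exact (h2.vP v hv).imp (fun h => joi_mem.2 (Or.inr h)) id
  · exact (h2.vE L hL v hv).imp (fun h => joi_mem.2 (Or.inr h)) id
  · rw [h2.eq z hz]
    exact joi_nm_congr h2.vP h2.vE fun v hv => (join_th_right h1 h2.wf hd z hv).symm

/-- two numerators on the same network -/
theorem Rpr.add_same {W : Net K} {P1 P2 : MvPolynomial ℕ K} {E1 E2 : List (MvPolynomial ℕ K)}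
    {f1 f2 : Pt → ℂ} (h1 : Rpr hI Ex M W P1 E1 f1) (h2 : Rpr hI Ex M W P2 E2 f2)
    (hne1 : ∀ L ∈ E1, ∀ z ∈ Dom (XD W.A), pev L z ≠ 0)
    (hne2 : ∀ L ∈ E2, ∀ z ∈ Dom (XD W.A), pev L z ≠ 0) :
    Rpr hI Ex M W (P1 * E2.prod + P2 * E1.prod) (E1 ++ E2) (fun z => f1 z + f2 z) := by
  have v1 : ∀ v ∈ E1.prod.vars, v ∈ W.A ∨ v < M :=
    joi_list_vars (S := {v | v ∈ W.A ∨ v < M}) h1.vE
  have v2 : ∀ v ∈ E2.prod.vars, v ∈ W.A ∨ v < M :=
    joi_list_vars (S := {v | v ∈ W.A ∨ v < M}) h2.vE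
  refine ⟨h1.hM, h1.wf, fun L hL => ?_, fun v hv => ?_, fun L hL v hv => ?_, fun z hz => ?_⟩
  · rcases List.mem_append.1 hL with hL | hL
    · exact h1.fn L hL
    · exact h2.fn L hL
  · rcases Finset.mem_union.1 (vars_add_subset _ _ hv) with hv | hv
    · rcases Finset.mem_union.1 (vars_mul _ _ hv) with hv | hv
      · exact h1.vP v hv
      · exact v2 v hv
    · rcases Finset.mem_union.1 (vars_mul _ _ hv) with hv | hv
      · exact h2.vP v hv
      · exact v1 v hv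
  · rcases List.mem_append.1 hL with hL | hL
    · exact h1.vE L hL v hv
    · exact h2.vE L hL v hv
  · have hm := th_mem h1.wf hz
    have n1 : pev E1.prod (W.th z) ≠ 0 := joi_list_ne fun L hL => hne1 L hL _ hm
    have n2 : pev E2.prod (W.th z) ≠ 0 := joi_list_ne fun L hL => hne2 L hL _ hm
    rw [h1.eq z hz, h2.eq z hz]
    unfold nm
    rw [List.prod_append, rb_pev_add, rb_pev_mul, rb_pev_mul, rb_pev_mul, div_add_div _ _ n1 n2]
    congr 1
    ring

theorem Rpr.smul {W : Net K} {P : MvPolynomial ℕ K} {E : List (MvPolynomial ℕ K)}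
    {f : Pt → ℂ} (h : Rpr hI Ex M W P E f) (a : K) :
    Rpr hI Ex M W (C a * P) E (fun z => (a : ℂ) * f z) := by
  have hC : (C a : MvPolynomial ℕ K).vars = ∅ := vars_C
  refine ⟨h.hM, h.wf, h.fn, fun v hv => ?_, h.vE, fun z hz => ?_⟩
  · rcases Finset.mem_union.1 (vars_mul _ _ hv) with hv | hv
    · rw [hC] at hv
      simp at hv
    · exact h.vP v hv
  · have hp : pev (C a : MvPolynomial ℕ K) (W.th z) = (a : ℂ) := by
      unfold pev
      rw [aeval_C]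
      rfl
    rw [h.eq z hz]
    unfold nm
    rw [rb_pev_mul, hp, mul_div_assoc]

theorem Rpr.congr {W : Net K} {P : MvPolynomial ℕ K} {E : List (MvPolynomial ℕ K)}
    {f g : Pt → ℂ} (h : Rpr hI Ex M W P E f) (hfg : ∀ z ∈ Dom X0, f z = g z) :
    Rpr hI Ex M W P E g :=
  ⟨h.hM, h.wf, h.fn, h.vP, h.vE, fun z hz => by rw [← hfg z hz, h.eq z hz]⟩

theorem Rpr.mono_ex {W : Net K} {P : MvPolynomial ℕ K} {E : List (MvPolynomial ℕ K)}
    {f : Pt → ℂ} (h : Rpr hI (noEx K) M W P E f) : Rpr hI Ex M W P E f :=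
  ⟨h.hM, h.wf, fun L hL => (h.fn L hL).mono_ex, h.vP, h.vE, h.eq⟩

end MP1eadaeL
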