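import Pool.Agent.Lib_MP_1eadae_ft.TemG

/-! # MP_1eadae_ag (FT), piece NETA: the exact values of the nodes of a network -/

namespace MP1eadaeL

open Complex Function MvPolynomial

variable {K : Subfield ℂ} {hI : I ∈ K} {M : ℕ} {W : Net K}

/- Piece NETA (all theorems of this file).  `W.th z k` is defined by strong recursion on `k`;
unfold it once (`Nat.strongRecOn` equation, e.g. `Nat.strongRecOn_eq` / `Nat.strong_rec..` or prove
the unfolding lemma by `unfold Net.th; rw [Nat.strongRecOn]`-like tricks; it may help to prove first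
`W.th z k = if k ∈ W.A then (if h : ... then ... else 0) else z k`), all others by strong
induction on `k` (`Nat.strong_induction_on`); the norm bound uses `norm_gate` (TemG.lean). -/

private theorem na_unfold (W : Net K) (z : Pt) (k : ℕ) :
    W.th z k = if k ∈ W.A then
      if W.a k < k ∧ W.b k < k then
        (W.c k 0 : ℂ) + W.c k 1 * W.th z (W.a k) + W.c k 2 * W.th z (W.b k)
          + W.c k 3 * (W.th z (W.a k) * W.th z (W.b k))
      else 0
    else z k := by
  unfold Net.th
  rw [Nat.strongRecOn_eq]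
  rfl

theorem th_seg {k : ℕ} (hk : k ∉ W.A) (z : Pt) : W.th z k = z k := by
  rw [na_unfold, if_neg hk]

theorem th_node (hW : Wf M W) {k : ℕ} (hk : k ∈ W.A) (z : Pt) :
    W.th z k = (W.c k 0 : ℂ) + W.c k 1 * W.th z (W.a k) + W.c k 2 * W.th z (W.b k)
      + W.c k 3 * (W.th z (W.a k) * W.th z (W.b k)) := by
  rw [na_unfold, if_pos hk, if_pos ⟨(hW k hk).2.2.1, (hW k hk).2.2.2.1⟩]

theorem pev_gpl (c : Fin 4 → K) (u v : MvPolynomial ℕ K) (z : Pt) :
    pev (gpl c u v) z = (c 0 : ℂ) + c 1 * pev u z + c 2 * pev v z + c 3 * (pev u z * pev v z) := by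
  simp only [pev, gpl, map_add, map_mul, aeval_C]
  rfl

theorem pev_gp (k : ℕ) (z : Pt) :
    pev (W.gp k) z = (W.c k 0 : ℂ) + W.c k 1 * z (W.a k) + W.c k 2 * z (W.b k)
      + W.c k 3 * (z (W.a k) * z (W.b k)) := by
  unfold Net.gp
  rw [pev_gpl]
  simp only [pev, aeval_X]

theorem th_gp (hW : Wf M W) {k : ℕ} (hk : k ∈ W.A) (z : Pt) :
    W.th z k = pev (W.gp k) (W.th z) := by
  rw [pev_gp, th_node hW hk]

private theorem na_seg_norm {w : ℂ} (hw : w ∈ seg) : ‖w‖ ≤ 1 := by
  obtain ⟨t, ht, rfl⟩ := hw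
  simp only [Complex.norm_real, Real.norm_eq_abs]
  rw [abs_of_nonneg ht.1]
  exact ht.2

theorem th_norm (hW : Wf M W) {z : Pt} (hz : z ∈ Dom X0) (k : ℕ) : ‖W.th z k‖ ≤ 3 / 2 := by
  induction k using Nat.strong_induction_on with
  | _ k ih =>
    by_cases hk : k ∈ W.A
    · rw [th_node hW hk]
      obtain ⟨_, hc, ha, hb, _⟩ := hW k hk
      exact norm_gate hc ((ih _ ha).trans (by norm_num)) ((ih _ hb).trans (by norm_num))
    · rw [th_seg hk]
      exact (na_seg_norm (hz k)).trans (by norm_num)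

theorem th_mem (hW : Wf M W) {z : Pt} (hz : z ∈ Dom X0) : W.th z ∈ Dom (XD W.A) := by
  intro k
  by_cases hk : k ∈ W.A
  · simp only [XD, if_pos hk, disc, Metric.mem_closedBall, dist_zero_right]
    refine (th_norm hW hz k).trans ?_
    norm_num
  · simp only [XD, if_neg hk]
    rw [th_seg hk]
    exact hz k

/-- the values depend only on the coordinates `< M` -/
theorem th_congr (hW : Wf M W) {z w : Pt} (h : ∀ i < M, z i = w i) {k : ℕ}
    (hk : k ∈ W.A ∨ k < M) : W.th z k = W.th w k := by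
  induction k using Nat.strong_induction_on with
  | _ k ih =>
    by_cases hkA : k ∈ W.A
    · obtain ⟨_, _, ha, hb, ha', hb'⟩ := hW k hkA
      rw [th_node hW hkA, th_node hW hkA, ih _ ha ha', ih _ hb hb']
    · rw [th_seg hkA, th_seg hkA]
      exact h k (hk.resolve_left hkA)

private theorem na_gpl_vars (c : Fin 4 → K) (a b : ℕ) :
    ∀ v ∈ (gpl c (X a) (X b) : MvPolynomial ℕ K).vars, v = a ∨ v = b := by
  intro v hv
  have hX : ∀ i : ℕ, (X i : MvPolynomial ℕ K).vars = {i} := fun i => vars_X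
  have hC : ∀ r : K, (C r : MvPolynomial ℕ K).vars = ∅ := fun r => vars_C
  unfold gpl at hv
  rcases Finset.mem_union.1 (vars_add_subset _ _ hv) with hv | hv
  · rcases Finset.mem_union.1 (vars_add_subset _ _ hv) with hv | hv
    · rcases Finset.mem_union.1 (vars_add_subset _ _ hv) with hv | hv
      · rw [hC] at hv; simp at hv
      · rcases Finset.mem_union.1 (vars_mul _ _ hv) with hv | hv
        · rw [hC] at hv; simp at hv
        · rw [hX] at hv; left; simpa using hv
    · rcases Finset.mem_union.1 (vars_mul _ _ hv) with hv | hv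
      · rw [hC] at hv; simp at hv
      · rw [hX] at hv; right; simpa using hv
  · rcases Finset.mem_union.1 (vars_mul _ _ hv) with hv | hv
    · rw [hC] at hv; simp at hv
    · rcases Finset.mem_union.1 (vars_mul _ _ hv) with hv | hv
      · rw [hX] at hv; left; simpa using hv
      · rw [hX] at hv; right; simpa using hv

theorem gp_vars (k : ℕ) : ∀ v ∈ (W.gp k).vars, v = W.a k ∨ v = W.b k :=
  na_gpl_vars (W.c k) (W.a k) (W.b k)

private noncomputable def naT (W : Net K) : ℕ → MvPolynomial ℕ K :=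
  fun k => Nat.strongRecOn (motive := fun _ => MvPolynomial ℕ K) k fun k ih =>
    if k ∈ W.A then
      if h : W.a k < k ∧ W.b k < k then
        gpl (W.c k) (ih (W.a k) h.1) (ih (W.b k) h.2)
      else 0
    else X k

private theorem naT_unfold (W : Net K) (k : ℕ) :
    naT W k = if k ∈ W.A then
      if W.a k < k ∧ W.b k < k then gpl (W.c k) (naT W (W.a k)) (naT W (W.b k))
      else 0
    else X k := by
  unfold naT
  rw [Nat.strongRecOn_eq]
  rfl

private theorem naT_node (hW : Wf M W) {k : ℕ} (hk : k ∈ W.A) :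
    naT W k = gpl (W.c k) (naT W (W.a k)) (naT W (W.b k)) := by
  rw [naT_unfold, if_pos hk, if_pos ⟨(hW k hk).2.2.1, (hW k hk).2.2.2.1⟩]

private theorem naT_seg {k : ℕ} (hk : k ∉ W.A) : naT W k = X k := by
  rw [naT_unfold, if_neg hk]

private theorem na_gpl_vars' (c : Fin 4 → K) (u w : MvPolynomial ℕ K) :
    ∀ v ∈ (gpl c u w).vars, v ∈ u.vars ∨ v ∈ w.vars := by
  intro v hv
  have hC : ∀ r : K, (C r : MvPolynomial ℕ K).vars = ∅ := fun r => vars_C
  unfold gpl at hv
  rcases Finset.mem_union.1 (vars_add_subset _ _ hv) with hv | hv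
  · rcases Finset.mem_union.1 (vars_add_subset _ _ hv) with hv | hv
    · rcases Finset.mem_union.1 (vars_add_subset _ _ hv) with hv | hv
      · rw [hC] at hv; simp at hv
      · rcases Finset.mem_union.1 (vars_mul _ _ hv) with hv | hv
        · rw [hC] at hv; simp at hv
        · left; exact hv
    · rcases Finset.mem_union.1 (vars_mul _ _ hv) with hv | hv
      · rw [hC] at hv; simp at hv
      · right; exact hv
  · rcases Finset.mem_union.1 (vars_mul _ _ hv) with hv | hv
    · rw [hC] at hv; simp at hv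
    · rcases Finset.mem_union.1 (vars_mul _ _ hv) with hv | hv
      · left; exact hv
      · right; exact hv

private theorem naT_vars (hW : Wf M W) (k : ℕ) (hk : k ∈ W.A ∨ k < M) :
    ∀ v ∈ (naT W k).vars, v < M := by
  induction k using Nat.strong_induction_on with
  | _ k ih =>
    by_cases hkA : k ∈ W.A
    · obtain ⟨_, _, ha, hb, ha', hb'⟩ := hW k hkA
      intro v hv
      rw [naT_node hW hkA] at hv
      rcases na_gpl_vars' _ _ _ v hv with hv | hv
      · exact ih _ ha ha' v hv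
      · exact ih _ hb hb' v hv
    · intro v hv
      have hX : (X k : MvPolynomial ℕ K).vars = {k} := vars_X
      rw [naT_seg hkA, hX] at hv
      have : v = k := by simpa using hv
      rw [this]
      exact hk.resolve_left hkA

private theorem naT_bind (hW : Wf M W) {k : ℕ} (hk : k ∈ W.A) :
    naT W k = bind₁ (naT W) (W.gp k) := by
  rw [naT_node hW hk]
  unfold Net.gp gpl
  simp only [map_add, map_mul, bind₁_C_right, bind₁_X_right]

private theorem naT_pev (hW : Wf M W) (k : ℕ) (z : Pt) : pev (naT W k) z = W.th z k := by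
  induction k using Nat.strong_induction_on with
  | _ k ih =>
    by_cases hkA : k ∈ W.A
    · obtain ⟨_, _, ha, hb, ha', hb'⟩ := hW k hkA
      rw [naT_node hW hkA, pev_gpl, th_node hW hkA, ih _ ha, ih _ hb]
    · rw [naT_seg hkA, th_seg hkA]
      simp only [pev, aeval_X]

/-- the exact values as polynomials in the other coordinates -/
theorem exists_thPoly (hW : Wf M W) : ∃ T : ℕ → MvPolynomial ℕ K,
    (∀ k ∉ W.A, T k = X k) ∧ (∀ k ∈ W.A, ∀ v ∈ (T k).vars, v < M) ∧
    (∀ k ∈ W.A, T k = bind₁ T (W.gp k)) ∧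
    ∀ (k : ℕ) (z : Pt), pev (T k) z = W.th z k :=
  ⟨naT W, fun _ hk => naT_seg hk, fun k hk => naT_vars hW k (Or.inl hk),
    fun _ hk => naT_bind hW hk, fun k z => naT_pev hW k z⟩

private theorem na_pev_bind (T : ℕ → MvPolynomial ℕ K) (P : MvPolynomial ℕ K) (z : Pt) :
    pev (bind₁ T P) z = pev P (fun k => pev (T k) z) := by
  unfold pev
  rw [aeval_bind₁]

private theorem na_vars_bind (hW : Wf M W) {P : MvPolynomial ℕ K}
    (hP : ∀ v ∈ P.vars, v ∈ W.A ∨ v < M) : ∀ v ∈ (bind₁ (naT W) P).vars, v < M := by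
  intro v hv
  obtain ⟨i, hi, hv⟩ := mem_vars_bind₁ _ _ hv
  exact naT_vars hW i (hP i hi) v hv

private theorem na_list_vars {S : Set ℕ} {l : List (MvPolynomial ℕ K)}
    (h : ∀ L ∈ l, ∀ v ∈ L.vars, v ∈ S) : ∀ v ∈ l.prod.vars, v ∈ S := by
  induction l with
  | nil =>
    intro v hv
    simp at hv
  | cons L l ih =>
    intro v hv
    rw [List.prod_cons] at hv
    rcases Finset.mem_union.1 (vars_mul _ _ hv) with hv | hv
    · exact h L (by simp) v hv
    · exact ih (fun L' hL' => h L' (by simp [hL'])) v hv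

private theorem na_list_ne {l : List (MvPolynomial ℕ K)} {z : Pt}
    (h : ∀ L ∈ l, pev L z ≠ 0) : pev l.prod z ≠ 0 := by
  induction l with
  | nil => simp [pev]
  | cons L l ih =>
    rw [List.prod_cons, rb_pev_mul]
    exact mul_ne_zero (h L (by simp)) (ih (fun L' hL' => h L' (by simp [hL'])))

/-- a function computed by a network is rational -/
theorem Rpr.ratf {Ex : MvPolynomial ℕ K → Prop} {P : MvPolynomial ℕ K}
    {E : List (MvPolynomial ℕ K)} {f : Pt → ℂ} (h : Rpr hI Ex M W P E f)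
    (hne : ∀ L ∈ E, ∀ z ∈ Dom (XD W.A), pev L z ≠ 0) :
    ∃ P' Q' : MvPolynomial ℕ K, (∀ v ∈ P'.vars, v < M) ∧ (∀ v ∈ Q'.vars, v < M) ∧
      ∀ z ∈ Dom X0, pev Q' z ≠ 0 ∧ f z = pev P' z / pev Q' z := by
  have hth : ∀ z : Pt, (fun k => pev (naT W k) z) = W.th z := fun z => by
    funext k; exact naT_pev h.wf k z
  refine ⟨bind₁ (naT W) P, bind₁ (naT W) E.prod, na_vars_bind h.wf h.vP,
    na_vars_bind h.wf (na_list_vars (S := {v | v ∈ W.A ∨ v < M}) h.vE), fun z hz => ?_⟩
  rw [na_pev_bind, na_pev_bind, hth]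
  refine ⟨na_list_ne (fun L hL => hne L hL _ (th_mem h.wf hz)), ?_⟩
  rw [h.eq z hz]
  rfl

private theorem na_pev_congr {P : MvPolynomial ℕ K} {z w : Pt} (h : ∀ v ∈ P.vars, z v = w v) :
    pev P z = pev P w := by
  unfold pev
  rw [aeval_def, aeval_def]
  exact eval₂Hom_congr' rfl (fun i hi _ => h i hi) rfl

theorem Rpr.dep_f {Ex : MvPolynomial ℕ K → Prop} {P : MvPolynomial ℕ K}
    {E : List (MvPolynomial ℕ K)} {f : Pt → ℂ} (h : Rpr hI Ex M W P E f) :
    DepOn X0 (Set.Iio M) f := by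
  intro z hz w hw hzw
  rw [h.eq z hz, h.eq w hw]
  unfold nm
  have hth : ∀ v, v ∈ W.A ∨ v < M → W.th z v = W.th w v := fun v hv =>
    th_congr h.wf (fun i hi => hzw i hi) hv
  rw [na_pev_congr (fun v hv => hth v (h.vP v hv)),
    na_pev_congr (fun v hv => hth v (na_list_vars (S := {v | v ∈ W.A ∨ v < M}) h.vE v hv))]

private theorem na_ctr_dep {S : Set ℕ} {p : ℕ} (hp : p ∈ S) {F : Pt → ℂ}
    (hF : ∀ z w : Pt, (∀ i ∈ S, z i = w i) → F z = F w) :
    ∀ z w : Pt, (∀ i ∈ S, z i = w i) → ctr p 0 2 F z = ctr p 0 2 F w := by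
  intro z w hzw
  unfold ctr
  refine Finset.sum_congr rfl fun j _ => ?_
  rw [hzw p hp]
  congr 1
  refine hF _ _ fun i hi => ?_
  by_cases hip : i = p
  · subst hip
    rw [update_self, update_self]
  · rw [update_of_ne hip, update_of_ne hip]
    exact hzw i hi

private theorem na_fold_dep {S : Set ℕ} (l : List ℕ) (hl : ∀ p ∈ l, p ∈ S) {F : Pt → ℂ}
    (hF : ∀ z w : Pt, (∀ i ∈ S, z i = w i) → F z = F w) :
    ∀ z w : Pt, (∀ i ∈ S, z i = w i) →
      l.foldr (fun p G => ctr p 0 2 G) F z = l.foldr (fun p G => ctr p 0 2 G) F w := by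
  induction l with
  | nil => simpa using hF
  | cons p l ih =>
    simp only [List.foldr_cons]
    exact na_ctr_dep (hl p (by simp)) (ih (fun q hq => hl q (by simp [hq])))

theorem Rpr.depOn {Ex : MvPolynomial ℕ K → Prop} {P : MvPolynomial ℕ K}
    {E : List (MvPolynomial ℕ K)} {f : Pt → ℂ} (h : Rpr hI Ex M W P E f) :
    DepOn X0 ((↑W.A : Set ℕ) ∪ Set.Iio M) (cls W P E) := by
  have hkey : ∀ z w : Pt, (∀ i ∈ ((↑W.A : Set ℕ) ∪ Set.Iio M), z i = w i) →
      nm P E z * W.ker z = nm P E w * W.ker w := by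
    intro z w hzw
    have hS : ∀ v, v ∈ W.A ∨ v < M → z v = w v := fun v hv => hzw v hv
    congr 1
    · unfold nm
      rw [na_pev_congr (fun v hv => hS v (h.vP v hv)),
        na_pev_congr (fun v hv => hS v (na_list_vars (S := {v | v ∈ W.A ∨ v < M}) h.vE v hv))]
    · unfold Net.ker
      refine Finset.prod_congr rfl fun k hk => ?_
      obtain ⟨_, _, _, _, ha, hb⟩ := h.wf k hk
      rw [hS k (Or.inl hk), pev_gp, pev_gp, hS _ ha, hS _ hb]
  intro z _ w _ hzw
  unfold cls ctrs
  exact na_fold_dep _ (fun p hp => Or.inl (by simpa using hp)) hkey z w hzw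

end MP1eadaeL
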