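import Pool.Agent.Lib_MP_1eadae_ft.Defs

/-! # MP_1eadae_ag (FT), piece TMA: the algebra of the class `TM` -/

namespace MP1eadaeL

open Complex Function MvPolynomial

variable {K : Subfield ℂ} {hI : I ∈ K} {Cl : (Pt → ℂ) → Prop}
  {Dn : Finset ℕ → MvPolynomial ℕ K → Prop} {Ex : MvPolynomial ℕ K → Prop}

/- Piece TMA (all theorems of this file).  `TM Dn A H` says `H = P / (L_1 ... L_m)` on
`Dom (XA A)` with allowed denominators `Dn A L_j`.  Everything is elementary: `pev` is
multiplicative and additive (`rb_pev_add`, `rb_pev_mul`, ... in RatB.lean), `pev l.prod` is nonzero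
on `Dom (XA A)` by `S.ne` (induction on the list; first lemma), and for the derivative use
`rb_pev_part`, `Part.div` (RatB.lean):
`∂(P/L) = (P' L - P L') / L^2` with `L = l.prod`, so the new list is `l ++ l`. -/

theorem pev_prod_ne (S : Sys K hI Cl Dn Ex) {A : Finset ℕ} {l : List (MvPolynomial ℕ K)}
    (hl : ∀ L ∈ l, Dn A L) {z : Pt} (hz : z ∈ Dom (XA A)) : pev l.prod z ≠ 0 := by
  induction l with
  | nil => simp [pev]
  | cons a t ih =>
    rw [List.prod_cons, rb_pev_mul]
    exact mul_ne_zero (S.ne A a (hl a (by simp)) z hz)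
      (ih fun L hL => hl L (List.mem_cons_of_mem _ hL))

theorem TM.congr {A : Finset ℕ} {H G : Pt → ℂ} (h : TM Dn A H)
    (he : ∀ z ∈ Dom (XA A), H z = G z) : TM Dn A G := by
  obtain ⟨P, l, hl, hP⟩ := h
  exact ⟨P, l, hl, fun z hz => by rw [← he z hz]; exact hP z hz⟩

theorem TM.poly {A : Finset ℕ} (P : MvPolynomial ℕ K) : TM Dn A (pev P) := by
  exact ⟨P, [], by simp, fun z _ => by simp [pev]⟩

theorem TM.quot {A : Finset ℕ} (P : MvPolynomial ℕ K) {l : List (MvPolynomial ℕ K)}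
    (hl : ∀ L ∈ l, Dn A L) : TM Dn A (fun z => pev P z / pev l.prod z) := by
  exact ⟨P, l, hl, fun z _ => rfl⟩

theorem TM.inv {A : Finset ℕ} {L : MvPolynomial ℕ K} (hL : Dn A L) :
    TM Dn A (fun z => 1 / pev L z) := by
  exact ⟨1, [L], by simpa using hL, fun z _ => by simp [pev]⟩

theorem TM.add (S : Sys K hI Cl Dn Ex) {A : Finset ℕ} {H G : Pt → ℂ} (h : TM Dn A H)
    (h' : TM Dn A G) : TM Dn A (fun z => H z + G z) := by
  obtain ⟨P, l, hl, hP⟩ := h
  obtain ⟨P', l', hl', hP'⟩ := h'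
  refine ⟨P * l'.prod + l.prod * P', l ++ l', ?_, fun z hz => ?_⟩
  · intro L hL
    rcases List.mem_append.1 hL with h | h
    · exact hl L h
    · exact hl' L h
  · show H z + G z = _
    rw [hP z hz, hP' z hz, List.prod_append, rb_pev_add, rb_pev_mul, rb_pev_mul, rb_pev_mul,
      div_add_div _ _ (pev_prod_ne S hl hz) (pev_prod_ne S hl' hz)]

theorem TM.mul {A : Finset ℕ} {H G : Pt → ℂ} (h : TM Dn A H)
    (h' : TM Dn A G) : TM Dn A (fun z => H z * G z) := by
  obtain ⟨P, l, hl, hP⟩ := h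
  obtain ⟨P', l', hl', hP'⟩ := h'
  refine ⟨P * P', l ++ l', ?_, fun z hz => ?_⟩
  · intro L hL
    rcases List.mem_append.1 hL with h | h
    · exact hl L h
    · exact hl' L h
  · show H z * G z = _
    rw [hP z hz, hP' z hz, List.prod_append, rb_pev_mul, rb_pev_mul, div_mul_div_comm]

theorem TM.neg {A : Finset ℕ} {H : Pt → ℂ} (h : TM Dn A H) : TM Dn A (fun z => - H z) := by
  obtain ⟨P, l, hl, hP⟩ := h
  refine ⟨-P, l, hl, fun z hz => ?_⟩
  have h1 : pev (-P) z = -pev P z := map_neg _ _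
  show -H z = _
  rw [hP z hz, h1, neg_div]

theorem TM.prod {A : Finset ℕ} {ι : Type} (s : Finset ι) (f : ι → Pt → ℂ)
    (h : ∀ j ∈ s, TM Dn A (f j)) : TM Dn A (fun z => ∏ j ∈ s, f j z) := by
  classical
  induction s using Finset.induction_on with
  | empty =>
    refine (TM.poly (Dn := Dn) (A := A) (1 : MvPolynomial ℕ K)).congr fun z _ => ?_
    simp [pev]
  | insert a t ha ih =>
    have h1 := (h a (Finset.mem_insert_self a t)).mul
      (ih fun j hj => h j (Finset.mem_insert_of_mem hj))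
    refine h1.congr fun z _ => ?_
    rw [Finset.prod_insert ha]

theorem TM.part (S : Sys K hI Cl Dn Ex) {A : Finset ℕ} {H : Pt → ℂ} (h : TM Dn A H) (i : ℕ) :
    ∃ H', TM Dn A H' ∧ Part (XA A) i H H' := by
  obtain ⟨P, l, hl, hP⟩ := h
  refine ⟨fun z => (pev (pderiv i P) z * pev l.prod z - pev P z * pev (pderiv i l.prod) z) /
    pev l.prod z ^ 2, ⟨pderiv i P * l.prod - P * pderiv i l.prod, l ++ l, ?_, fun z hz => ?_⟩, ?_⟩
  · intro L hL
    rcases List.mem_append.1 hL with h | h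
    · exact hl L h
    · exact hl L h
  · rw [List.prod_append, rb_pev_sub, rb_pev_mul, rb_pev_mul, rb_pev_mul]
    show _ / pev l.prod z ^ 2 = _
    rw [sq]
  · exact ((rb_pev_part (X := XA A) P i).div (rb_pev_part l.prod i)
      (fun z hz => pev_prod_ne S hl hz)).congr (fun z hz => (hP z hz).symm) (fun z hz => rfl)

end MP1eadaeL
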